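import Mathlib

set_option autoImplicit false

namespace Pool.Agent.Helper131.Slab

open MeasureTheory Set intervalIntegral Filter Topology

/-! Averaging operators and the positivity principle for sums of independent uniform variables. -/





/-- Average of `f` over the interval of radius `|a|` around `r`. -/
noncomputable def Aop (a : ℝ) (f : ℝ → ℝ) (r : ℝ) : ℝ := (1 / 2) * ∫ u in (-1 : ℝ)..1, f (r + a * u)

lemma Aop_continuous (a : ℝ) {f : ℝ → ℝ} (hf : Continuous f) : Continuous (Aop a f) := by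
  unfold Aop
  have h : Continuous fun r : ℝ => ∫ u in (-1 : ℝ)..1, f (r + a * u) := by
    apply intervalIntegral.continuous_parametric_intervalIntegral_of_continuous'
    fun_prop
  exact continuous_const.mul h

lemma Aop_neg (a : ℝ) (f : ℝ → ℝ) (r : ℝ) : Aop (-a) f r = Aop a f r := by
  unfold Aop
  congr 1
  have := intervalIntegral.integral_comp_neg (a := (-1 : ℝ)) (b := 1) (fun u => f (r + a * u))
  simp only [neg_neg] at this
  rw [← this]
  congr 1
  ext u
  ring_nf

lemma Aop_odd (a : ℝ) {f : ℝ → ℝ} (hodd : ∀ x, f (-x) = -f x) (r : ℝ) :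
    Aop a f (-r) = -Aop a f r := by
  unfold Aop
  have := intervalIntegral.integral_comp_neg (a := (-1 : ℝ)) (b := 1) (fun u => f (-r + a * u))
  simp only [neg_neg] at this
  rw [← this, ← mul_neg, ← intervalIntegral.integral_neg]
  congr 2
  ext u
  rw [← hodd]
  ring_nf

/-- the average through the primitive variable -/
lemma Aop_eq_of_ne (a : ℝ) (ha : a ≠ 0) (f : ℝ → ℝ) (r : ℝ) :
    Aop a f r = (1 / (2 * a)) * ∫ z in (r - a)..(r + a), f z := by
  unfold Aop
  have h := intervalIntegral.integral_comp_add_mul (a := (-1 : ℝ)) (b := 1) f ha r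
  rw [h]
  simp only [smul_eq_mul, mul_neg, mul_one]
  rw [← mul_assoc, ← sub_eq_add_neg]
  congr 1
  field_simp

lemma integral_odd_symm {f : ℝ → ℝ} (hodd : ∀ x, f (-x) = -f x) (c : ℝ) :
    ∫ z in (-c)..c, f z = 0 := by
  have h := intervalIntegral.integral_comp_neg (a := -c) (b := c) f
  simp only [neg_neg] at h
  have h2 : ∫ x in (-c)..c, f (-x) = -∫ x in (-c)..c, f x := by
    rw [← intervalIntegral.integral_neg]
    congr 1
    ext x
    exact hodd x
  rw [h2] at h
  linarith

/-- Positivity principle: averaging preserves odd functions that are nonnegative on `[0, ∞)`. -/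
lemma Aop_nonneg (a : ℝ) {f : ℝ → ℝ} (hf : Continuous f) (hodd : ∀ x, f (-x) = -f x)
    (hpos : ∀ x, 0 ≤ x → 0 ≤ f x) (r : ℝ) (hr : 0 ≤ r) : 0 ≤ Aop a f r := by
  wlog ha : 0 < a generalizing a
  · rcases eq_or_lt_of_le (not_lt.mp ha) with h0 | h0
    · subst h0
      simp [Aop]
      have := hpos r hr
      linarith
    · rw [← Aop_neg]
      exact this (-a) (by linarith)
  rw [Aop_eq_of_ne a ha.ne']
  apply mul_nonneg (by positivity)
  rcases le_or_gt a r with har | har
  · apply intervalIntegral.integral_nonneg (by linarith)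
    intro u hu
    exact hpos u (by linarith [hu.1])
  · have hi : ∀ x y : ℝ, IntervalIntegrable f volume x y := fun x y => hf.intervalIntegrable x y
    rw [← intervalIntegral.integral_add_adjacent_intervals (hi (r - a) (a - r)) (hi (a - r) (r + a))]
    have h0 : ∫ z in (r - a)..(a - r), f z = 0 := by
      have := integral_odd_symm hodd (a - r)
      rwa [neg_sub] at this
    rw [h0, zero_add]
    apply intervalIntegral.integral_nonneg (by linarith)
    intro u hu
    exact hpos u (by linarith [hu.1])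

lemma Aop_mono (a : ℝ) {f g : ℝ → ℝ} (hf : Continuous f) (hg : Continuous g)
    (h : ∀ x, f x ≤ g x) (r : ℝ) : Aop a f r ≤ Aop a g r := by
  unfold Aop
  apply mul_le_mul_of_nonneg_left _ (by norm_num)
  apply intervalIntegral.integral_mono_on (by norm_num)
  · exact (by fun_prop : Continuous fun u => f (r + a * u)).intervalIntegrable _ _
  · exact (by fun_prop : Continuous fun u => g (r + a * u)).intervalIntegrable _ _
  · intro x _
    exact h _

lemma Aop_add (a : ℝ) {f g : ℝ → ℝ} (hf : Continuous f) (hg : Continuous g) (r : ℝ) :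
    Aop a (fun x => f x + g x) r = Aop a f r + Aop a g r := by
  unfold Aop
  rw [intervalIntegral.integral_add, mul_add]
  · exact (by fun_prop : Continuous fun u => f (r + a * u)).intervalIntegrable _ _
  · exact (by fun_prop : Continuous fun u => g (r + a * u)).intervalIntegrable _ _

lemma Aop_const_mul (a c : ℝ) (f : ℝ → ℝ) (r : ℝ) :
    Aop a (fun x => c * f x) r = c * Aop a f r := by
  unfold Aop
  rw [intervalIntegral.integral_const_mul]
  ring

lemma Aop_id (a r : ℝ) : Aop a (fun x => x) r = r := by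
  unfold Aop
  rw [intervalIntegral.integral_add (by simp) (by
    apply Continuous.intervalIntegrable; fun_prop), intervalIntegral.integral_const_mul, integral_id]
  simp
  ring

lemma Aop_cube (a r : ℝ) : Aop a (fun x => x ^ 3) r = r ^ 3 + a ^ 2 * r := by
  unfold Aop
  have : ∀ u : ℝ, (r + a * u) ^ 3 = r ^ 3 + 3 * r ^ 2 * a * u + 3 * r * a ^ 2 * u ^ 2 + a ^ 3 * u ^ 3 := by
    intro u; ring
  simp_rw [this]
  rw [intervalIntegral.integral_add, intervalIntegral.integral_add, intervalIntegral.integral_add,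
    intervalIntegral.integral_const_mul, intervalIntegral.integral_const_mul,
    intervalIntegral.integral_const_mul, integral_pow, integral_pow]
  · simp
    ring
  all_goals (apply Continuous.intervalIntegrable; fun_prop)

lemma Aop_sin (a l r : ℝ) :
    Aop a (fun x => Real.sin (l * x)) r = Real.sinc (l * a) * Real.sin (l * r) := by
  unfold Aop
  rcases eq_or_ne (l * a) 0 with h | h
  · rw [h, Real.sinc_zero, one_mul]
    have : ∀ u : ℝ, l * (r + a * u) = l * r := by
      intro u
      have : l * (r + a * u) = l * r + (l * a) * u := by ring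
      rw [this, h]; ring
    simp_rw [this]
    simp
    ring
  · rw [Real.sinc_of_ne_zero h]
    have h1 : ∀ u : ℝ, Real.sin (l * (r + a * u)) = Real.sin (l * r + (l * a) * u) := by
      intro u; congr 1; ring
    simp_rw [h1]
    rw [intervalIntegral.integral_comp_add_mul (fun x => Real.sin x) h (l * r)]
    rw [integral_sin]
    simp only [smul_eq_mul, mul_neg, mul_one]
    have e1 : Real.cos (l * r + -(l * a)) - Real.cos (l * r + l * a)
        = 2 * Real.sin (l * r) * Real.sin (l * a) := by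
      rw [Real.cos_add, Real.cos_add, Real.cos_neg, Real.sin_neg]
      ring
    rw [e1]
    field_simp

/-- the cube `[-1,1]^n` -/
abbrev cube (n : ℕ) : Set (Fin n → ℝ) := Icc (fun _ => -1) (fun _ => 1)

/-- average of `f (r + <a,x>)` over the cube -/
noncomputable def cubeAvg {n : ℕ} (a : Fin n → ℝ) (f : ℝ → ℝ) (r : ℝ) : ℝ :=
  (1 / 2 ^ n) * ∫ x in cube n, f (r + ∑ i, a i * x i)

lemma cubeAvg_zero (a : Fin 0 → ℝ) (f : ℝ → ℝ) (r : ℝ) : cubeAvg a f r = f r := by
  unfold cubeAvg
  have h : cube 0 = univ := by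
    ext x
    simp [cube]
  rw [h]
  have hv : (volume : Measure (Fin 0 → ℝ)).real univ = 1 := by
    rw [Measure.real, volume_pi, Measure.pi_of_empty]
    simp
  simp [hv]

lemma cubeAvg_succ {n : ℕ} (p : Fin (n + 1)) (a : Fin (n + 1) → ℝ) {f : ℝ → ℝ}
    (hf : Continuous f) (r : ℝ) :
    cubeAvg a f r = cubeAvg (fun j => a (p.succAbove j)) (Aop (a p) f) r := by
  unfold cubeAvg
  have hmp := volume_preserving_piFinSuccAbove (fun _ : Fin (n + 1) => ℝ) p
  set e := MeasurableEquiv.piFinSuccAbove (fun _ : Fin (n + 1) => ℝ) p with he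
  have hpre : cube (n + 1) = e ⁻¹' (Icc (-1 : ℝ) 1 ×ˢ cube n) := by
    ext x
    simp only [cube, mem_Icc, Pi.le_def, mem_preimage, mem_prod]
    rw [Fin.forall_iff_succAbove p (P := fun i => -1 ≤ x i),
      Fin.forall_iff_succAbove p (P := fun i => x i ≤ 1)]
    have e1 : (e x).1 = x p := rfl
    have e2 : ∀ j, (e x).2 j = x (p.succAbove j) := fun j => rfl
    simp only [e1, e2]
    tauto
  have hfun : ∀ x : Fin (n + 1) → ℝ, f (r + ∑ i, a i * x i)
      = (fun y : ℝ × (Fin n → ℝ) => f (r + (a p * y.1 + ∑ j, a (p.succAbove j) * y.2 j))) (e x) := by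
    intro x
    have e1 : (e x).1 = x p := rfl
    have e2 : ∀ j, (e x).2 j = x (p.succAbove j) := fun j => rfl
    simp only [e1, e2]
    rw [Fin.sum_univ_succAbove _ p]
  have hcont : Continuous (fun y : ℝ × (Fin n → ℝ) =>
      f (r + (a p * y.1 + ∑ j, a (p.succAbove j) * y.2 j))) := by fun_prop
  have hint : IntegrableOn (fun y : ℝ × (Fin n → ℝ) =>
      f (r + (a p * y.1 + ∑ j, a (p.succAbove j) * y.2 j))) (Icc (-1 : ℝ) 1 ×ˢ cube n)
      (volume.prod volume) := by
    apply ContinuousOn.integrableOn_compact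
    · exact isCompact_Icc.prod isCompact_Icc
    · exact hcont.continuousOn
  have h1 : ∫ x in cube (n + 1), f (r + ∑ i, a i * x i)
      = ∫ y in (Icc (-1 : ℝ) 1 ×ˢ cube n), f (r + (a p * y.1 + ∑ j, a (p.succAbove j) * y.2 j)) := by
    rw [hpre]
    simp_rw [hfun]
    exact MeasurePreserving.setIntegral_preimage_emb hmp e.measurableEmbedding
      (fun y : ℝ × (Fin n → ℝ) => f (r + (a p * y.1 + ∑ j, a (p.succAbove j) * y.2 j))) _
  rw [IntegrableOn, ← Measure.prod_restrict] at hint
  have h3 := integral_prod_symm (fun y : ℝ × (Fin n → ℝ) =>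
      f (r + (a p * y.1 + ∑ j, a (p.succAbove j) * y.2 j))) hint
  rw [h1, Measure.volume_eq_prod, ← Measure.prod_restrict, h3]
  have h2 : ∀ y : Fin n → ℝ, ∫ x in Icc (-1 : ℝ) 1, f (r + (a p * x + ∑ j, a (p.succAbove j) * y j))
      = 2 * Aop (a p) f (r + ∑ j, a (p.succAbove j) * y j) := by
    intro y
    unfold Aop
    rw [intervalIntegral.integral_of_le (by norm_num : (-1 : ℝ) ≤ 1), integral_Icc_eq_integral_Ioc,
      ← mul_assoc]
    norm_num
    congr 1
    ext x
    ring_nf
  simp only [h2]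
  rw [MeasureTheory.integral_const_mul, ← mul_assoc]
  congr 1
  rw [pow_succ]
  field_simp

lemma cubeAvg_nonneg {n : ℕ} (a : Fin n → ℝ) {f : ℝ → ℝ} (hf : Continuous f)
    (hodd : ∀ x, f (-x) = -f x) (hpos : ∀ x, 0 ≤ x → 0 ≤ f x) (r : ℝ) (hr : 0 ≤ r) :
    0 ≤ cubeAvg a f r := by
  induction n generalizing f with
  | zero => rw [cubeAvg_zero]; exact hpos r hr
  | succ n ih =>
    rw [cubeAvg_succ 0 a hf]
    exact ih _ (Aop_continuous _ hf) (Aop_odd _ hodd) (fun x hx => Aop_nonneg _ hf hodd hpos x hx)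

lemma integrableOn_cube {n : ℕ} {g : (Fin n → ℝ) → ℝ} (hg : Continuous g) :
    IntegrableOn g (cube n) volume :=
  hg.continuousOn.integrableOn_compact isCompact_Icc

lemma cubeAvg_add {n : ℕ} (a : Fin n → ℝ) {f g : ℝ → ℝ} (hf : Continuous f) (hg : Continuous g)
    (r : ℝ) : cubeAvg a (fun x => f x + g x) r = cubeAvg a f r + cubeAvg a g r := by
  unfold cubeAvg
  rw [MeasureTheory.integral_add, mul_add]
  · exact integrableOn_cube (by fun_prop)
  · exact integrableOn_cube (by fun_prop)

lemma cubeAvg_sub {n : ℕ} (a : Fin n → ℝ) {f g : ℝ → ℝ} (hf : Continuous f) (hg : Continuous g)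
    (r : ℝ) : cubeAvg a (fun x => f x - g x) r = cubeAvg a f r - cubeAvg a g r := by
  unfold cubeAvg
  rw [MeasureTheory.integral_sub, mul_sub]
  · exact integrableOn_cube (by fun_prop)
  · exact integrableOn_cube (by fun_prop)

lemma cubeAvg_const_mul {n : ℕ} (a : Fin n → ℝ) (c : ℝ) (f : ℝ → ℝ)
    (r : ℝ) : cubeAvg a (fun x => c * f x) r = c * cubeAvg a f r := by
  unfold cubeAvg
  rw [MeasureTheory.integral_const_mul]
  ring

/-- comparison of odd functions on the positive half line is preserved -/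
lemma cubeAvg_le {n : ℕ} (a : Fin n → ℝ) {f g : ℝ → ℝ} (hf : Continuous f) (hg : Continuous g)
    (hfo : ∀ x, f (-x) = -f x) (hgo : ∀ x, g (-x) = -g x)
    (h : ∀ x, 0 ≤ x → f x ≤ g x) (r : ℝ) (hr : 0 ≤ r) :
    cubeAvg a f r ≤ cubeAvg a g r := by
  have := cubeAvg_nonneg a (f := fun x => g x - f x) (hg.sub hf)
    (by intro x; rw [hfo, hgo]; ring) (by intro x hx; linarith [h x hx]) r hr
  rw [cubeAvg_sub a hg hf] at this
  linarith

lemma cubeAvg_id {n : ℕ} (a : Fin n → ℝ) (r : ℝ) : cubeAvg a (fun x => x) r = r := by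
  induction n with
  | zero => rw [cubeAvg_zero]
  | succ n ih =>
    rw [cubeAvg_succ 0 a continuous_id']
    have : Aop (a 0) (fun x => x) = fun x => x := by
      ext x; exact Aop_id _ _
    rw [this]
    exact ih _

lemma cubeAvg_cube {n : ℕ} (a : Fin n → ℝ) (r : ℝ) :
    cubeAvg a (fun x => x ^ 3) r = r ^ 3 + (∑ i, a i ^ 2) * r := by
  induction n with
  | zero => rw [cubeAvg_zero]; simp
  | succ n ih =>
    rw [cubeAvg_succ 0 a (by fun_prop)]
    have : Aop (a 0) (fun x => x ^ 3) = fun x => x ^ 3 + (a 0) ^ 2 * x := by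
      ext x; exact Aop_cube _ _
    rw [this, cubeAvg_add _ (by fun_prop) (by fun_prop), ih, cubeAvg_const_mul, cubeAvg_id,
      Fin.sum_univ_succ]
    simp only [Fin.succAbove_zero]
    ring

lemma cubeAvg_sin {n : ℕ} (a : Fin n → ℝ) (l r : ℝ) :
    cubeAvg a (fun x => Real.sin (l * x)) r = (∏ i, Real.sinc (l * a i)) * Real.sin (l * r) := by
  induction n with
  | zero => rw [cubeAvg_zero]; simp
  | succ n ih =>
    rw [cubeAvg_succ 0 a (by fun_prop)]
    have : Aop (a 0) (fun x => Real.sin (l * x)) = fun x => Real.sinc (l * a 0) * Real.sin (l * x) := by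
      ext x; exact Aop_sin _ _ _
    rw [this, cubeAvg_const_mul, ih, Fin.prod_univ_succ]
    simp only [Fin.succAbove_zero]
    ring

/-- the slab of the cube -/
def slab {n : ℕ} (a : Fin n → ℝ) (t : ℝ) : Set (Fin n → ℝ) :=
  {x | (∀ i, |x i| ≤ 1) ∧ |∑ i, a i * x i| ≤ t}

/-- clamping to `[-s, s]` -/
noncomputable def clamp (s r : ℝ) : ℝ := max (-s) (min r s)

lemma clamp_continuous (s : ℝ) : Continuous (clamp s) := by
  unfold clamp; fun_prop

lemma clamp_odd (s : ℝ) (hs : 0 ≤ s) (r : ℝ) : clamp s (-r) = -clamp s r := by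
  unfold clamp
  simp only [max_def, min_def]
  split_ifs <;> linarith

lemma clamp_diff_le (s d x : ℝ) (hs : 0 ≤ s) (hd : 0 ≤ d) :
    clamp s (d + x) - clamp s (-d + x) ≤ if |x| ≤ s + d then 2 * d else 0 := by
  unfold clamp
  split_ifs with h
  · simp only [max_def, min_def]
    split_ifs <;> linarith
  · rw [not_le, lt_abs] at h
    rcases h with h | h
    · simp only [max_def, min_def]
      split_ifs <;> linarith
    · simp only [max_def, min_def]
      split_ifs <;> linarith

lemma cubeAvg_odd {n : ℕ} (a : Fin n → ℝ) {f : ℝ → ℝ} (hf : Continuous f)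
    (hodd : ∀ x, f (-x) = -f x) (r : ℝ) : cubeAvg a f (-r) = -cubeAvg a f r := by
  induction n generalizing f with
  | zero => rw [cubeAvg_zero, cubeAvg_zero]; exact hodd r
  | succ n ih =>
    rw [cubeAvg_succ 0 a hf, cubeAvg_succ 0 a hf]
    exact ih _ (Aop_continuous _ hf) (Aop_odd _ hodd)

lemma mem_cube_iff {n : ℕ} (x : Fin n → ℝ) : x ∈ cube n ↔ ∀ i, |x i| ≤ 1 := by
  simp only [cube, mem_Icc, Pi.le_def, abs_le]
  exact ⟨fun h i => ⟨h.1 i, h.2 i⟩, fun h => ⟨fun i => (h i).1, fun i => (h i).2⟩⟩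

lemma slab_eq {n : ℕ} (a : Fin n → ℝ) (t : ℝ) :
    slab a t = {x | |∑ i, a i * x i| ≤ t} ∩ cube n := by
  ext x
  simp only [slab, Set.mem_ofPred_eq, mem_inter_iff, mem_cube_iff]
  tauto

lemma slab_volume_ne_top {n : ℕ} (a : Fin n → ℝ) (t : ℝ) : volume (slab a t) ≠ ⊤ := by
  rw [slab_eq]
  exact ((measure_mono inter_subset_right).trans_lt (isCompact_Icc.measure_lt_top)).ne

/-- lower bound for the volume of a slab through the clamped average -/
lemma slab_lower {n : ℕ} (a : Fin n → ℝ) (s d : ℝ) (hs : 0 ≤ s) (hd : 0 ≤ d) :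
    2 ^ n * cubeAvg a (clamp s) d ≤ d * (volume (slab a (s + d))).toReal := by
  have hc := clamp_continuous s
  have h1 : 2 ^ n * cubeAvg a (clamp s) d
      = (1 / 2) * ∫ x in cube n, (clamp s (d + ∑ i, a i * x i) - clamp s (-d + ∑ i, a i * x i)) := by
    have h2 : cubeAvg a (clamp s) d = (1 / 2) * (cubeAvg a (clamp s) d - cubeAvg a (clamp s) (-d)) := by
      rw [cubeAvg_odd a hc (clamp_odd s hs)]; ring
    rw [h2, integral_sub (integrableOn_cube (by fun_prop)) (integrableOn_cube (by fun_prop))]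
    unfold cubeAvg
    field_simp
  rw [h1]
  have hmeas : MeasurableSet {x : Fin n → ℝ | |∑ i, a i * x i| ≤ s + d} := by
    apply IsClosed.measurableSet
    exact isClosed_le (by fun_prop) continuous_const
  have h3 : ∫ x in cube n, (clamp s (d + ∑ i, a i * x i) - clamp s (-d + ∑ i, a i * x i))
      ≤ ∫ x in cube n, ({x : Fin n → ℝ | |∑ i, a i * x i| ≤ s + d}.indicator (fun _ => 2 * d)) x := by
    apply MeasureTheory.integral_mono
    · exact integrableOn_cube (by fun_prop)
    · apply Integrable.indicator _ hmeas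
      exact integrableOn_cube continuous_const
    · intro x
      have := clamp_diff_le s d (∑ i, a i * x i) hs hd
      simpa [Set.indicator_apply] using this
  rw [MeasureTheory.integral_indicator hmeas, Measure.restrict_restrict hmeas, ← slab_eq] at h3
  simp only [MeasureTheory.integral_const, smul_eq_mul, Measure.real, Measure.restrict_apply_univ] at h3
  nlinarith [h3]

lemma clamp_nonneg (t r : ℝ) (ht : 0 ≤ t) (hr : 0 ≤ r) : 0 ≤ clamp t r := by
  unfold clamp
  exact le_max_of_le_right (le_min hr ht)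

lemma le_clamp (t z : ℝ) (h : z ≤ t) : z ≤ clamp t z := by
  unfold clamp
  rw [min_eq_left h]
  exact le_max_right _ _

lemma clamp_of_ge (t z : ℝ) (ht : 0 ≤ t) (h : t ≤ z) : clamp t z = t := by
  unfold clamp
  rw [min_eq_right h, max_eq_right (by linarith)]

lemma int_clamp_ge_id (t x y : ℝ) (hxy : x ≤ y) (hy : y ≤ t) :
    (y ^ 2 - x ^ 2) / 2 ≤ ∫ z in x..y, clamp t z := by
  rw [← integral_id]
  apply intervalIntegral.integral_mono_on hxy
  · exact continuous_id.intervalIntegrable _ _
  · exact (clamp_continuous t).intervalIntegrable _ _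
  · intro z hz
    exact le_clamp t z (hz.2.trans hy)

lemma int_clamp_const (t x y : ℝ) (ht : 0 ≤ t) (hx : t ≤ x) (hxy : x ≤ y) :
    ∫ z in x..y, clamp t z = t * (y - x) := by
  have : ∫ z in x..y, clamp t z = ∫ z in x..y, t := by
    apply intervalIntegral.integral_congr
    intro z hz
    rw [uIcc_of_le hxy] at hz
    exact clamp_of_ge t z ht (hx.trans hz.1)
  rw [this, intervalIntegral.integral_const, smul_eq_mul, mul_comm]

lemma kappa_ge_quad (a t r : ℝ) (ha : 0 < a) (ht : 0 ≤ t) :
    r - (a + r - t) ^ 2 / (4 * a) ≤ Aop a (clamp t) r := by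
  rw [Aop_eq_of_ne a ha.ne']
  have hi : ∀ x y : ℝ, IntervalIntegrable (clamp t) volume x y :=
    fun x y => (clamp_continuous t).intervalIntegrable x y
  have key : t * (a + r) - t ^ 2 / 2 - (r - a) ^ 2 / 2 ≤ ∫ z in (r - a)..(r + a), clamp t z := by
    rcases le_total t (r - a) with h1 | h1
    · rw [int_clamp_const t _ _ ht h1 (by linarith)]
      nlinarith [sq_nonneg (r - a - t)]
    · rcases le_total t (r + a) with h2 | h2
      · rw [← intervalIntegral.integral_add_adjacent_intervals (hi (r - a) t) (hi t (r + a)),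
          int_clamp_const t _ _ ht le_rfl h2]
        have := int_clamp_ge_id t (r - a) t h1 le_rfl
        nlinarith
      · have := int_clamp_ge_id t (r - a) (r + a) (by linarith) h2
        nlinarith [sq_nonneg (r + a - t)]
  have e : r - (a + r - t) ^ 2 / (4 * a)
      = 1 / (2 * a) * (t * (a + r) - t ^ 2 / 2 - (r - a) ^ 2 / 2) := by
    field_simp
    ring
  rw [e]
  exact mul_le_mul_of_nonneg_left key (by positivity)

lemma kappa_ge_id (a t r : ℝ) (ha : 0 < a) (hr : r ≤ t - a) :
    r ≤ Aop a (clamp t) r := by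
  rw [Aop_eq_of_ne a ha.ne']
  have := int_clamp_ge_id t (r - a) (r + a) (by linarith) (by linarith)
  have e : r = 1 / (2 * a) * (((r + a) ^ 2 - (r - a) ^ 2) / 2) := by
    field_simp
    ring
  calc r = 1 / (2 * a) * (((r + a) ^ 2 - (r - a) ^ 2) / 2) := e
    _ ≤ _ := mul_le_mul_of_nonneg_left this (by positivity)

lemma kappa_ge_lin (a t r : ℝ) (ha : 0 < a) (ht : 0 ≤ t) (hr0 : 0 ≤ r) (hr : r ≤ a - t) :
    t / a * r ≤ Aop a (clamp t) r := by
  rw [Aop_eq_of_ne a ha.ne']
  have hi : ∀ x y : ℝ, IntervalIntegrable (clamp t) volume x y :=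
    fun x y => (clamp_continuous t).intervalIntegrable x y
  rw [← intervalIntegral.integral_add_adjacent_intervals (hi (r - a) (a - r)) (hi (a - r) (r + a))]
  have h0 : ∫ z in (r - a)..(a - r), clamp t z = 0 := by
    have := integral_odd_symm (clamp_odd t ht) (a - r)
    rwa [neg_sub] at this
  rw [h0, zero_add, int_clamp_const t _ _ ht (by linarith) (by linarith)]
  apply le_of_eq
  field_simp
  ring

lemma kappa_ge_const (a t r : ℝ) (ha : 0 < a) (ht : 0 ≤ t) (hr : a + t ≤ r) :
    t ≤ Aop a (clamp t) r := by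
  rw [Aop_eq_of_ne a ha.ne', int_clamp_const t _ _ ht (by linarith) (by linarith)]
  apply le_of_eq
  field_simp
  ring

/-- `kappa` for smaller `a` dominates the quadratic piece for larger `A`. -/
lemma kappa_ge_quad_mono (a A t r : ℝ) (ha : 0 < a) (hA : a ≤ A) (ht : 0 ≤ t) (hr : t - A ≤ r)
    (_hr2 : r ≤ t + A) :
    r - (A + r - t) ^ 2 / (4 * A) ≤ Aop a (clamp t) r := by
  have hA0 : 0 < A := ha.trans_le hA
  rcases le_total r (t - a) with h1 | h1
  · refine le_trans ?_ (kappa_ge_id a t r ha h1)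
    have : 0 ≤ (A + r - t) ^ 2 / (4 * A) := by positivity
    linarith
  · rcases le_total r (t + a) with h2 | h2
    · refine le_trans ?_ (kappa_ge_quad a t r ha ht)
      have : (a + r - t) ^ 2 / (4 * a) ≤ (A + r - t) ^ 2 / (4 * A) := by
        rw [div_le_div_iff₀ (by positivity) (by positivity)]
        have h3 : 0 ≤ (A - a) * (a * A - (r - t) ^ 2) := by
          apply mul_nonneg (by linarith)
          nlinarith
        nlinarith
      linarith
    · refine le_trans ?_ (kappa_ge_const a t r ha ht (by linarith))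
      have : 0 ≤ (r - t - A) ^ 2 / (4 * A) := by positivity
      have e : t - (r - (A + r - t) ^ 2 / (4 * A)) = (r - t - A) ^ 2 / (4 * A) := by
        field_simp
        ring
      linarith

/-- combined lower bound used in the trigonometric regime -/
lemma kappa_pieces (a A t r : ℝ) (ha : 0 < a) (hA : a ≤ A) (ht : 0 ≤ t) (q : ℝ)
    (h1 : r ≤ t - A → q ≤ r)
    (h2 : t - A ≤ r → r ≤ t + A → q ≤ r - (A + r - t) ^ 2 / (4 * A))
    (h3 : t + A ≤ r → q ≤ t) : q ≤ Aop a (clamp t) r := by
  rcases le_total r (t - A) with h | h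
  · exact (h1 h).trans (kappa_ge_id a t r ha (by linarith))
  · rcases le_total r (t + A) with h' | h'
    · exact (h2 h h').trans (kappa_ge_quad_mono a A t r ha hA ht h h')
    · exact (h3 h').trans (kappa_ge_const a t r ha ht (by linarith))

/-- comparison with a cubic -/
lemma cubic_bound {n : ℕ} (a : Fin n → ℝ) {k : ℝ → ℝ} (hk : Continuous k)
    (hodd : ∀ x, k (-x) = -k x) (c0 c2 : ℝ) (h : ∀ r, 0 ≤ r → c0 * r - c2 * r ^ 3 ≤ k r)
    (δ : ℝ) (hδ : 0 ≤ δ) :
    (c0 - c2 * ∑ i, a i ^ 2) * δ - c2 * δ ^ 3 ≤ cubeAvg a k δ := by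
  have h1 := cubeAvg_le a (f := fun r => c0 * r - c2 * r ^ 3) (g := k) (by fun_prop) hk
    (by intro x; ring) hodd h δ hδ
  have h2 : cubeAvg a (fun r => c0 * r - c2 * r ^ 3) δ
      = (c0 - c2 * ∑ i, a i ^ 2) * δ - c2 * δ ^ 3 := by
    rw [cubeAvg_sub a (by fun_prop) (by fun_prop), cubeAvg_const_mul, cubeAvg_const_mul,
      cubeAvg_id, cubeAvg_cube]
    ring
  linarith

lemma clamp_mono_s (s t r : ℝ) (hst : s ≤ t) (hs : 0 ≤ s) (hr : 0 ≤ r) :
    clamp s r ≤ clamp t r := by
  unfold clamp
  rw [max_eq_right (by have := le_min hr hs; linarith),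
    max_eq_right (by have := le_min hr (hs.trans hst); linarith)]
  exact min_le_min le_rfl hst

lemma Aop_sub (a : ℝ) {f g : ℝ → ℝ} (hf : Continuous f) (hg : Continuous g) (r : ℝ) :
    Aop a (fun x => f x - g x) r = Aop a f r - Aop a g r := by
  unfold Aop
  rw [intervalIntegral.integral_sub, mul_sub]
  · exact (by fun_prop : Continuous fun u => f (r + a * u)).intervalIntegrable _ _
  · exact (by fun_prop : Continuous fun u => g (r + a * u)).intervalIntegrable _ _

lemma Aop_le (a : ℝ) {f g : ℝ → ℝ} (hf : Continuous f) (hg : Continuous g)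
    (hfo : ∀ x, f (-x) = -f x) (hgo : ∀ x, g (-x) = -g x)
    (h : ∀ x, 0 ≤ x → f x ≤ g x) (r : ℝ) (hr : 0 ≤ r) : Aop a f r ≤ Aop a g r := by
  have := Aop_nonneg a (f := fun x => g x - f x) (hg.sub hf)
    (by intro x; rw [hfo, hgo]; ring) (by intro x hx; linarith [h x hx]) r hr
  rw [Aop_sub a hg hf] at this
  linarith

lemma Aop_abs (a : ℝ) (f : ℝ → ℝ) : Aop |a| f = Aop a f := by
  ext r
  rcases abs_cases a with h | h <;> rw [h.1]
  rw [Aop_neg]

lemma exp_neg_nat_le (k : ℕ) (x : ℝ) (hx : (k : ℝ) ≤ x) : Real.exp (-x) ≤ 0.36788 ^ k := by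
  calc Real.exp (-x) ≤ Real.exp (-(k : ℝ)) := Real.exp_le_exp.2 (by linarith)
    _ = Real.exp (-1) ^ k := by rw [← Real.exp_nat_mul]; ring_nf
    _ ≤ 0.36788 ^ k := by
      apply pow_le_pow_left₀ (Real.exp_pos _).le
      have := Real.exp_neg_one_lt_d9
      linarith

end Pool.Agent.Helper131.Slab
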