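import Pool.Agent.Helper131.Slab.Base
import Pool.Agent.Helper131.Slab.Trig

set_option autoImplicit false

namespace Pool.Agent.Helper131.Slab

open MeasureTheory Set intervalIntegral Filter Topology

/-- frequencies -/
noncomputable def lam (k : ℕ) : ℝ := (2 * (k : ℝ) + 1) * Real.pi / 3

/-- the product of the sinc values -/
noncomputable def PP {n : ℕ} (a : Fin n → ℝ) (k : ℕ) : ℝ := ∏ i, Real.sinc (lam k * a i)

/-- the weights -/
noncomputable def ww (t : ℝ) (k : ℕ) : ℝ :=
  4 / ((2 * (k : ℝ) + 1) * Real.pi) * Real.sin (lam k * t)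

/-- the normalised slab volume of the direction `(1,1,0,...,0)/√2` -/
noncomputable def gg (t : ℝ) : ℝ := Real.sqrt 2 * t - t ^ 2 / 2

/-- distance to the multiples of 6 -/
noncomputable def tri (x : ℝ) : ℝ := ‖((x : ℝ) : AddCircle (6 : ℝ))‖

/-- odd periodic trapezoidal wave -/
noncomputable def trap (t r : ℝ) : ℝ := (tri (r + t) - tri (r - t)) / 2

/-- lower bound to first order at zero of the clamped average -/
def Low {n : ℕ} (a : Fin n → ℝ) (f : ℝ → ℝ) (V : ℝ) : Prop :=
  ∃ C : ℝ, 0 ≤ C ∧ ∀ δ, 0 ≤ δ → V * δ - C * δ ^ 3 ≤ cubeAvg a f δ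

end Pool.Agent.Helper131.Slab
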