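import Pool.Agent.Helper131.Slab.Defs

set_option autoImplicit false

namespace Pool.Agent.Helper131.Slab

/-- the normalised slab volume of the direction `(1,1,1,0,...,0)/√3` (for `1 ≤ t ≤ √3`) -/
noncomputable def gg3 (t : ℝ) : ℝ := 1 - Real.sqrt 3 / 8 * (Real.sqrt 3 - t) ^ 3

end Pool.Agent.Helper131.Slab
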