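import Pool.Agent.Helper131.Slab.Main

set_option autoImplicit false

namespace Pool.Agent.Helper131.Slab

open MeasureTheory Set intervalIntegral Filter Topology

theorem slab_eq' {n : ℕ} (a : Fin n → ℝ) (t : ℝ) :
    slab a t = {x : Fin n → ℝ | (∀ i, |x i| ≤ 1) ∧ |∑ i, x i * a i| ≤ t} := by
  unfold slab
  simp_rw [mul_comm]

theorem gg_T : gg (2 * Real.sqrt 2 - 2) = 2 * Real.sqrt 2 - 2 := by
  unfold gg
  have h : Real.sqrt 2 ^ 2 = 2 := Real.sq_sqrt (by norm_num)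
  nlinarith [h]

theorem sqrt2_bounds : (1.4142 : ℝ) < Real.sqrt 2 ∧ Real.sqrt 2 < 1.4143 := by
  constructor
  · apply Real.lt_sqrt_of_sq_lt; norm_num
  · rw [Real.sqrt_lt' (by norm_num)]; norm_num

/-- lower bound for large `t` -/
theorem vol_ge_large {n : ℕ} (hn : 1 ≤ n) (a : Fin n → ℝ) (ha : ∑ i, a i ^ 2 = 1) (t : ℝ)
    (ht0 : 2 * Real.sqrt 2 - 2 ≤ t) (ht1 : t ≤ 1) :
    ENNReal.ofReal (2 ^ n * gg t)
      ≤ volume {x : Fin n → ℝ | (∀ i, |x i| ≤ 1) ∧ |∑ i, x i * a i| ≤ t} := by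
  obtain ⟨m, rfl⟩ : ∃ m, n = m + 1 := ⟨n - 1, by omega⟩
  have hs := sqrt2_bounds
  have ht : 0 < t := by linarith [hs.1]
  have h := vol_lower a t (gg t) ht (main_low a ha t ht0 ht1) t ht le_rfl
  rw [div_self ht.ne', one_mul] at h
  rw [← slab_eq']
  exact (ENNReal.ofReal_le_iff_le_toReal (slab_volume_ne_top a t)).2 h

/-- lower bound for small `t` -/
theorem vol_ge_small {n : ℕ} (hn : 1 ≤ n) (a : Fin n → ℝ) (ha : ∑ i, a i ^ 2 = 1) (t : ℝ)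
    (ht0 : 0 < t) (ht1 : t ≤ 2 * Real.sqrt 2 - 2) :
    ENNReal.ofReal (2 ^ n * t)
      ≤ volume {x : Fin n → ℝ | (∀ i, |x i| ≤ 1) ∧ |∑ i, x i * a i| ≤ t} := by
  obtain ⟨m, rfl⟩ : ∃ m, n = m + 1 := ⟨n - 1, by omega⟩
  have hs := sqrt2_bounds
  have hT : 0 < 2 * Real.sqrt 2 - 2 := by linarith [hs.1]
  have h := vol_lower a _ _ hT (main_low a ha _ le_rfl (by linarith [hs.2])) t ht0 ht1
  rw [gg_T, div_mul_cancel₀ _ hT.ne'] at h
  rw [← slab_eq']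
  exact (ENNReal.ofReal_le_iff_le_toReal (slab_volume_ne_top a t)).2 h

end Pool.Agent.Helper131.Slab
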