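import Pool.Agent.Helper131.Slab.Defs2

set_option maxRecDepth 100000

namespace Pool.Agent.Helper131.Slab

open MeasureTheory Set intervalIntegral Filter Topology

theorem V_f3_split_V_f3 (n : ℕ) (P : ℝ → (Fin n → ℝ) → Prop)
    (hP : MeasurableSet {p : ℝ × (Fin n → ℝ) | P p.1 p.2}) :
    volume {x : Fin (n + 1) → ℝ | P (x 0) (fun i => x i.succ)} = ∫⁻ a, volume {y | P a y} := by
  have h := volume_preserving_piFinSuccAbove (fun _ : Fin (n + 1) => ℝ) 0
  have h2 := h.measure_preimage_equiv {p : ℝ × (Fin n → ℝ) | P p.1 p.2}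
  have h3 : (MeasurableEquiv.piFinSuccAbove (fun _ : Fin (n + 1) => ℝ) 0) ⁻¹'
      {p : ℝ × (Fin n → ℝ) | P p.1 p.2} =
      {x : Fin (n + 1) → ℝ | P (x 0) (fun i => x i.succ)} := by
    ext x
    simp only [mem_preimage, mem_setOf_eq]
    exact Iff.rfl
  rw [← h3, h2, Measure.volume_eq_prod, Measure.prod_apply hP]
  rfl

theorem V_f3_cube_V_f3 (m : ℕ) : volume {z : Fin m → ℝ | ∀ i, |z i| ≤ 1} = 2 ^ m := by
  have h : {z : Fin m → ℝ | ∀ i, |z i| ≤ 1} = Icc (fun _ => -1) (fun _ => 1) := by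
    ext z
    simp only [mem_setOf_eq, mem_Icc, Pi.le_def, abs_le]
    exact forall_and
  rw [h, Real.volume_Icc_pi]
  simp only [Finset.prod_const, Finset.card_univ, Fintype.card_fin]
  norm_num

theorem V_f3_one_V_f3 (m : ℕ) (e s : ℝ) :
    volume {z : Fin (m + 1) → ℝ | (∀ i, |z i| ≤ 1) ∧ |e + z 0| ≤ s} =
      2 ^ m * ENNReal.ofReal (min 1 (s - e) - max (-1) (-s - e)) := by
  have hset2 : {y : Fin (m + 1) → ℝ | (∀ i, |y i| ≤ 1) ∧ |e + y 0| ≤ s} =
      {y : Fin (m + 1) → ℝ | (fun (b : ℝ) (z : Fin m → ℝ) =>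
        (|b| ≤ 1 ∧ |e + b| ≤ s) ∧ ∀ i, |z i| ≤ 1) (y 0) (fun i => y i.succ)} := by
    ext y
    simp only [mem_setOf_eq]
    rw [Fin.forall_fin_succ]
    tauto
  have hm2 : MeasurableSet {p : ℝ × (Fin m → ℝ) | (fun (b : ℝ) (z : Fin m → ℝ) =>
        (|b| ≤ 1 ∧ |e + b| ≤ s) ∧ ∀ i, |z i| ≤ 1) p.1 p.2} := by
    have c1 : IsClosed {p : ℝ × (Fin m → ℝ) | |p.1| ≤ 1} :=
      isClosed_le (by fun_prop) continuous_const
    have c2 : IsClosed {p : ℝ × (Fin m → ℝ) | ∀ i, |p.2 i| ≤ 1} := by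
      rw [setOf_forall]
      exact isClosed_iInter fun i => isClosed_le (by fun_prop) continuous_const
    have c3 : IsClosed {p : ℝ × (Fin m → ℝ) | |e + p.1| ≤ s} :=
      isClosed_le (by fun_prop) continuous_const
    exact ((c1.inter c3).inter c2).measurableSet
  rw [hset2]
  refine (V_f3_split_V_f3 m (fun (b : ℝ) (z : Fin m → ℝ) =>
        (|b| ≤ 1 ∧ |e + b| ≤ s) ∧ ∀ i, |z i| ≤ 1) hm2).trans ?_
  have hin2 : ∀ b : ℝ, volume {z : Fin m → ℝ | (|b| ≤ 1 ∧ |e + b| ≤ s) ∧ ∀ i, |z i| ≤ 1} =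
      (Icc (max (-1) (-s - e)) (min 1 (s - e))).indicator (fun _ => (2 : ENNReal) ^ m) b := by
    intro b
    by_cases hb : |b| ≤ 1 ∧ |e + b| ≤ s
    · have hb1 := abs_le.1 hb.1
      have hb2 := abs_le.1 hb.2
      rw [indicator_of_mem]
      · have : {z : Fin m → ℝ | (|b| ≤ 1 ∧ |e + b| ≤ s) ∧ ∀ i, |z i| ≤ 1} =
            {z : Fin m → ℝ | ∀ i, |z i| ≤ 1} := by
          ext z
          simp only [mem_setOf_eq]
          exact and_iff_right hb
        rw [this, V_f3_cube_V_f3]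
      · exact ⟨max_le (by linarith) (by linarith), le_min (by linarith) (by linarith)⟩
    · rw [indicator_of_notMem]
      · have : {z : Fin m → ℝ | (|b| ≤ 1 ∧ |e + b| ≤ s) ∧ ∀ i, |z i| ≤ 1} = ∅ := by
          ext z
          simp only [mem_setOf_eq, mem_empty_iff_false, iff_false]
          exact fun h => hb h.1
        rw [this, measure_empty]
      · intro hmem
        apply hb
        have k1 := max_le_iff.1 hmem.1
        have k2 := le_min_iff.1 hmem.2
        exact ⟨abs_le.2 ⟨by linarith, by linarith⟩, abs_le.2 ⟨by linarith, by linarith⟩⟩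
  simp only [hin2]
  rw [lintegral_indicator_const measurableSet_Icc, Real.volume_Icc]

theorem V_f3_i1_V_f3 (c : ℝ) (hc : c ≤ 1) : ∫ b in (-1 : ℝ)..1, max 0 (c + b) =
    (max 0 (c + 1)) ^ 2 / 2 := by
  have hcont : Continuous fun b : ℝ => max 0 (c + b) := by fun_prop
  rcases le_total (c + 1) 0 with h | h
  · have e1 : ∫ b in (-1 : ℝ)..1, max 0 (c + b) = ∫ b in (-1 : ℝ)..1, (0 : ℝ) := by
      refine intervalIntegral.integral_congr fun b hb => ?_
      rw [uIcc_of_le (by norm_num)] at hb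
      exact max_eq_left (by linarith [hb.2])
    rw [e1, max_eq_left h]
    simp
  · rw [← intervalIntegral.integral_add_adjacent_intervals (b := -c)
      (hcont.intervalIntegrable _ _) (hcont.intervalIntegrable _ _)]
    have e1 : ∫ b in (-1 : ℝ)..(-c), max 0 (c + b) = ∫ b in (-1 : ℝ)..(-c), (0 : ℝ) := by
      refine intervalIntegral.integral_congr fun b hb => ?_
      rw [uIcc_of_le (by linarith)] at hb
      exact max_eq_left (by linarith [hb.2])
    have e2 : ∫ b in (-c)..(1 : ℝ), max 0 (c + b) = ∫ b in (-c)..(1 : ℝ), (c + b) := by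
      refine intervalIntegral.integral_congr fun b hb => ?_
      rw [uIcc_of_le (by linarith)] at hb
      exact max_eq_right (by linarith [hb.1])
    rw [e1, e2, intervalIntegral.integral_add (by simp) (by simp),
      intervalIntegral.integral_const, intervalIntegral.integral_const, integral_id,
      max_eq_right h]
    simp only [smul_eq_mul]
    ring

theorem V_f3_i2_V_f3 (c : ℝ) (hc : c ≤ 1) : ∫ b in (-1 : ℝ)..1, max 0 (c - b) =
    (max 0 (c + 1)) ^ 2 / 2 := by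
  rw [← V_f3_i1_V_f3 c hc]
  have := intervalIntegral.integral_comp_neg (a := -1) (b := 1) (fun b : ℝ => max 0 (c + b))
  rw [neg_neg] at this
  rw [← this]
  refine intervalIntegral.integral_congr fun a _ => ?_
  simp only [sub_eq_add_neg]

theorem V_f3_i3_V_f3 (c : ℝ) (hc : c ≤ 1) (hc' : -1 ≤ c) :
    ∫ b in (-1 : ℝ)..1, (max 0 (c + b)) ^ 2 / 2 = (c + 1) ^ 3 / 6 := by
  have hcont : Continuous fun b : ℝ => (max 0 (c + b)) ^ 2 / 2 := by fun_prop
  rw [← intervalIntegral.integral_add_adjacent_intervals (b := -c)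
    (hcont.intervalIntegrable _ _) (hcont.intervalIntegrable _ _)]
  have e1 : ∫ b in (-1 : ℝ)..(-c), (max 0 (c + b)) ^ 2 / 2 =
      ∫ b in (-1 : ℝ)..(-c), (0 : ℝ) := by
    refine intervalIntegral.integral_congr fun b hb => ?_
    rw [uIcc_of_le (by linarith)] at hb
    have : max 0 (c + b) = 0 := max_eq_left (by linarith [hb.2])
    simp only [this]
    norm_num
  have e2 : ∫ b in (-c)..(1 : ℝ), (max 0 (c + b)) ^ 2 / 2 = (c + 1) ^ 3 / 6 := by
    have e3 : ∫ b in (-c)..(1 : ℝ), (max 0 (c + b)) ^ 2 / 2 =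
        ∫ b in (-c)..(1 : ℝ), (c + b) ^ 2 / 2 := by
      refine intervalIntegral.integral_congr fun b hb => ?_
      rw [uIcc_of_le (by linarith)] at hb
      have : max 0 (c + b) = c + b := max_eq_right (by linarith [hb.1])
      simp only [this]
    rw [e3]
    have hd : ∀ b ∈ uIcc (-c) (1 : ℝ), HasDerivAt (fun b : ℝ => (c + b) ^ 3 / 6)
        ((c + b) ^ 2 / 2) b := by
      intro b _
      have h1 : HasDerivAt (fun b : ℝ => c + b) 1 b := by
        simpa using (hasDerivAt_id b).const_add c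
      have h2 := (h1.pow 3).div_const 6
      refine h2.congr_deriv ?_
      norm_num
      ring
    rw [intervalIntegral.integral_eq_sub_of_hasDerivAt hd
      ((by fun_prop : Continuous fun b : ℝ => (c + b) ^ 2 / 2).intervalIntegrable _ _)]
    ring
  rw [e1, e2]
  simp

theorem V_f3_i4_V_f3 (c : ℝ) (hc : c ≤ 1) (hc' : -1 ≤ c) :
    ∫ b in (-1 : ℝ)..1, (max 0 (c - b)) ^ 2 / 2 = (c + 1) ^ 3 / 6 := by
  rw [← V_f3_i3_V_f3 c hc hc']
  have := intervalIntegral.integral_comp_neg (a := -1) (b := 1)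
    (fun b : ℝ => (max 0 (c + b)) ^ 2 / 2)
  rw [neg_neg] at this
  rw [← this]
  refine intervalIntegral.integral_congr fun a _ => ?_
  simp only [sub_eq_add_neg]

theorem V_f3_len_V_f3 (s u : ℝ) : min 1 (s - u) - max (-1) (-s - u) =
    2 - max 0 (1 - s + u) - max 0 (1 - s - u) := by
  have h1 : min 1 (s - u) = 1 - max 0 (1 - s + u) := by
    rcases le_total 1 (s - u) with h | h
    · rw [min_eq_left h, max_eq_left (by linarith)]; ring
    · rw [min_eq_right h, max_eq_right (by linarith)]; ring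
  have h2 : max (-1) (-s - u) = -1 + max 0 (1 - s - u) := by
    rcases le_total (-1) (-s - u) with h | h
    · rw [max_eq_right h, max_eq_right (by linarith)]; ring
    · rw [max_eq_left h, max_eq_left (by linarith)]; ring
  rw [h1, h2]
  ring

theorem V_f3_int_V_f3 (g : ℝ → ℝ) (hg : Continuous g) (m : ℕ) (hpos : ∀ a, |a| ≤ 1 → 0 ≤ g a) :
    ∫⁻ a in Icc (-1 : ℝ) 1, 2 ^ m * ENNReal.ofReal (g a) =
      2 ^ m * ENNReal.ofReal (∫ a in (-1 : ℝ)..1, g a) := by
  rw [lintegral_const_mul _ (by fun_prop), ← ofReal_integral_eq_lintegral_ofReal]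
  · rw [integral_Icc_eq_integral_Ioc, ← intervalIntegral.integral_of_le (by norm_num)]
  · exact hg.continuousOn.integrableOn_Icc
  · exact (ae_restrict_iff' measurableSet_Icc).2
      (Eventually.of_forall fun a ha => hpos a (abs_le.2 ha))

theorem V_f3_two_V_f3 (m : ℕ) (e s : ℝ) (he : |e| ≤ 1) (hs : 1 ≤ s) :
    volume {y : Fin (m + 2) → ℝ | (∀ i, |y i| ≤ 1) ∧ |e + y 0 + y 1| ≤ s} =
      2 ^ m * ENNReal.ofReal (4 - (max 0 (2 - s + e)) ^ 2 / 2 - (max 0 (2 - s - e)) ^ 2 / 2) := by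
  have he' := abs_le.1 he
  have hset : {y : Fin (m + 2) → ℝ | (∀ i, |y i| ≤ 1) ∧ |e + y 0 + y 1| ≤ s} =
      {y : Fin (m + 1 + 1) → ℝ | (fun (b : ℝ) (z : Fin (m + 1) → ℝ) =>
        |b| ≤ 1 ∧ (∀ i, |z i| ≤ 1) ∧ |e + b + z 0| ≤ s) (y 0) (fun i => y i.succ)} := by
    ext y
    simp only [mem_setOf_eq]
    rw [Fin.forall_fin_succ]
    have h1 : (Fin.succ 0 : Fin (m + 2)) = 1 := rfl
    rw [h1]
    tauto
  have hm1 : MeasurableSet {p : ℝ × (Fin (m + 1) → ℝ) | (fun (b : ℝ) (z : Fin (m + 1) → ℝ) =>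
        |b| ≤ 1 ∧ (∀ i, |z i| ≤ 1) ∧ |e + b + z 0| ≤ s) p.1 p.2} := by
    have c1 : IsClosed {p : ℝ × (Fin (m + 1) → ℝ) | |p.1| ≤ 1} :=
      isClosed_le (by fun_prop) continuous_const
    have c2 : IsClosed {p : ℝ × (Fin (m + 1) → ℝ) | ∀ i, |p.2 i| ≤ 1} := by
      rw [setOf_forall]
      exact isClosed_iInter fun i => isClosed_le (by fun_prop) continuous_const
    have c3 : IsClosed {p : ℝ × (Fin (m + 1) → ℝ) | |e + p.1 + p.2 0| ≤ s} :=
      isClosed_le (by fun_prop) continuous_const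
    exact (c1.inter (c2.inter c3)).measurableSet
  rw [hset]
  refine (V_f3_split_V_f3 (m + 1) (fun (b : ℝ) (z : Fin (m + 1) → ℝ) =>
        |b| ≤ 1 ∧ (∀ i, |z i| ≤ 1) ∧ |e + b + z 0| ≤ s) hm1).trans ?_
  have hinner : ∀ b : ℝ, volume {z : Fin (m + 1) → ℝ | |b| ≤ 1 ∧ (∀ i, |z i| ≤ 1) ∧
      |e + b + z 0| ≤ s} = (Icc (-1 : ℝ) 1).indicator (fun b => 2 ^ m *
        ENNReal.ofReal (2 - max 0 (1 - s + e + b) - max 0 (1 - s - e - b))) b := by
    intro b
    by_cases hb : |b| ≤ 1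
    · rw [indicator_of_mem (show b ∈ Icc (-1 : ℝ) 1 from abs_le.1 hb)]
      have : {z : Fin (m + 1) → ℝ | |b| ≤ 1 ∧ (∀ i, |z i| ≤ 1) ∧ |e + b + z 0| ≤ s} =
          {z : Fin (m + 1) → ℝ | (∀ i, |z i| ≤ 1) ∧ |e + b + z 0| ≤ s} := by
        ext z
        simp only [mem_setOf_eq]
        exact and_iff_right hb
      rw [this, V_f3_one_V_f3, V_f3_len_V_f3]
      congr 4
      · congr 1; ring
      · ring
    · rw [indicator_of_notMem (show b ∉ Icc (-1 : ℝ) 1 from fun h => hb (abs_le.2 h))]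
      have : {z : Fin (m + 1) → ℝ | |b| ≤ 1 ∧ (∀ i, |z i| ≤ 1) ∧ |e + b + z 0| ≤ s} = ∅ := by
        ext z
        simp only [mem_setOf_eq, mem_empty_iff_false, iff_false]
        exact fun h => hb h.1
      rw [this, measure_empty]
  simp only [hinner]
  rw [lintegral_indicator measurableSet_Icc, V_f3_int_V_f3 _ (by fun_prop) m]
  · congr 2
    have c1 : Continuous fun b : ℝ => max 0 (1 - s + e + b) := by fun_prop
    have c2 : Continuous fun b : ℝ => max 0 (1 - s - e - b) := by fun_prop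
    have c0 : Continuous fun _ : ℝ => (2 : ℝ) := continuous_const
    have c01 : Continuous fun b : ℝ => (2 : ℝ) - max 0 (1 - s + e + b) := by fun_prop
    rw [intervalIntegral.integral_sub (c01.intervalIntegrable _ _)
      (c2.intervalIntegrable _ _), intervalIntegral.integral_sub (c0.intervalIntegrable _ _)
      (c1.intervalIntegrable _ _), V_f3_i1_V_f3 _ (by linarith), V_f3_i2_V_f3 _ (by linarith),
      intervalIntegral.integral_const]
    have d1 : 1 - s + e + 1 = 2 - s + e := by ring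
    have d2 : 1 - s - e + 1 = 2 - s - e := by ring
    rw [d1, d2]
    norm_num
  · intro b hb
    have hb' := abs_le.1 hb
    rcases le_total 0 (1 - s + e + b) with h1 | h1
    · rw [max_eq_right h1, max_eq_left (show 1 - s - e - b ≤ 0 by linarith)]
      linarith
    · rw [max_eq_left h1]
      rcases le_total 0 (1 - s - e - b) with h2 | h2
      · rw [max_eq_right h2]; linarith
      · rw [max_eq_left h2]; linarith

theorem V_f3_sum_V_f3 (m : ℕ) (x : Fin (m + 3) → ℝ) :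
    ∑ i, x i * (if (i : ℕ) < 3 then 1 / Real.sqrt 3 else 0) =
      (x 0 + x 1 + x 2) / Real.sqrt 3 := by
  rw [Fin.sum_univ_succ, Fin.sum_univ_succ, Fin.sum_univ_succ]
  have h : ∀ i : Fin m, ¬((i.succ.succ.succ : Fin (m + 3)) : ℕ) < 3 := by
    intro i
    simp only [Fin.val_succ]
    omega
  simp only [h, if_false, mul_zero, Finset.sum_const_zero, add_zero]
  have v0 : ((0 : Fin (m + 3)) : ℕ) < 3 := by simp
  have v1 : ((Fin.succ 0 : Fin (m + 3)) : ℕ) < 3 := by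
    rw [Fin.val_succ]; simp
  have v2 : ((Fin.succ (Fin.succ 0) : Fin (m + 3)) : ℕ) < 3 := by
    rw [Fin.val_succ, Fin.val_succ]; simp
  rw [if_pos v0, if_pos v1, if_pos v2]
  have h1 : (Fin.succ 0 : Fin (m + 3)) = 1 := rfl
  have h2 : (Fin.succ (Fin.succ 0) : Fin (m + 3)) = 2 := rfl
  rw [h2, h1]
  ring

theorem V_f3 (m : ℕ) (t : ℝ) (h0 : 1 ≤ t) (h1 : t ≤ Real.sqrt 3) :
    volume {x : Fin (m + 3) → ℝ | (∀ i, |x i| ≤ 1) ∧
      |∑ i, x i * (if (i : ℕ) < 3 then 1 / Real.sqrt 3 else 0)| ≤ t}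
      = ENNReal.ofReal (2 ^ (m + 3) * gg3 t) := by
  have hs3 : 0 < Real.sqrt 3 := Real.sqrt_pos.2 (by norm_num)
  have hsq : Real.sqrt 3 * Real.sqrt 3 = 3 := Real.mul_self_sqrt (by norm_num)
  have hs31 : 1 ≤ Real.sqrt 3 := by
    rw [Real.one_le_sqrt]; norm_num
  obtain ⟨s, hs⟩ : ∃ s : ℝ, s = Real.sqrt 3 * t := ⟨_, rfl⟩
  have hs1 : 1 ≤ s := by rw [hs]; nlinarith
  have hs3' : s ≤ 3 := by
    have := mul_le_mul_of_nonneg_left h1 hs3.le
    rw [hsq] at this
    rw [hs]; exact this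
  have hset : {x : Fin (m + 3) → ℝ | (∀ i, |x i| ≤ 1) ∧
      |∑ i, x i * (if (i : ℕ) < 3 then 1 / Real.sqrt 3 else 0)| ≤ t} =
      {x : Fin (m + 2 + 1) → ℝ | (fun (a : ℝ) (y : Fin (m + 2) → ℝ) =>
        |a| ≤ 1 ∧ (∀ i, |y i| ≤ 1) ∧ |a + y 0 + y 1| ≤ s) (x 0) (fun i => x i.succ)} := by
    ext x
    simp only [mem_setOf_eq]
    rw [V_f3_sum_V_f3, abs_div, abs_of_pos hs3, div_le_iff₀ hs3, Fin.forall_fin_succ]
    have h1 : (Fin.succ 0 : Fin (m + 3)) = 1 := rfl
    have h2 : (Fin.succ 1 : Fin (m + 3)) = 2 := rfl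
    rw [h1, h2, hs, mul_comm t]
    tauto
  have hm1 : MeasurableSet {p : ℝ × (Fin (m + 2) → ℝ) | (fun (a : ℝ) (y : Fin (m + 2) → ℝ) =>
        |a| ≤ 1 ∧ (∀ i, |y i| ≤ 1) ∧ |a + y 0 + y 1| ≤ s) p.1 p.2} := by
    have c1 : IsClosed {p : ℝ × (Fin (m + 2) → ℝ) | |p.1| ≤ 1} :=
      isClosed_le (by fun_prop) continuous_const
    have c2 : IsClosed {p : ℝ × (Fin (m + 2) → ℝ) | ∀ i, |p.2 i| ≤ 1} := by
      rw [setOf_forall]
      exact isClosed_iInter fun i => isClosed_le (by fun_prop) continuous_const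
    have c3 : IsClosed {p : ℝ × (Fin (m + 2) → ℝ) | |p.1 + p.2 0 + p.2 1| ≤ s} :=
      isClosed_le (by fun_prop) continuous_const
    exact (c1.inter (c2.inter c3)).measurableSet
  rw [hset]
  refine (V_f3_split_V_f3 (m + 2) (fun (a : ℝ) (y : Fin (m + 2) → ℝ) =>
        |a| ≤ 1 ∧ (∀ i, |y i| ≤ 1) ∧ |a + y 0 + y 1| ≤ s) hm1).trans ?_
  have hinner : ∀ a : ℝ, volume {y : Fin (m + 2) → ℝ | |a| ≤ 1 ∧ (∀ i, |y i| ≤ 1) ∧
      |a + y 0 + y 1| ≤ s} = (Icc (-1 : ℝ) 1).indicator (fun a => 2 ^ m *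
        ENNReal.ofReal (4 - (max 0 (2 - s + a)) ^ 2 / 2 - (max 0 (2 - s - a)) ^ 2 / 2)) a := by
    intro a
    by_cases ha : |a| ≤ 1
    · rw [indicator_of_mem (show a ∈ Icc (-1 : ℝ) 1 from abs_le.1 ha)]
      have : {y : Fin (m + 2) → ℝ | |a| ≤ 1 ∧ (∀ i, |y i| ≤ 1) ∧ |a + y 0 + y 1| ≤ s} =
          {y : Fin (m + 2) → ℝ | (∀ i, |y i| ≤ 1) ∧ |a + y 0 + y 1| ≤ s} := by
        ext z
        simp only [mem_setOf_eq]
        exact and_iff_right ha
      rw [this, V_f3_two_V_f3 m a s ha hs1]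
    · rw [indicator_of_notMem (show a ∉ Icc (-1 : ℝ) 1 from fun h => ha (abs_le.2 h))]
      have : {y : Fin (m + 2) → ℝ | |a| ≤ 1 ∧ (∀ i, |y i| ≤ 1) ∧ |a + y 0 + y 1| ≤ s} = ∅ := by
        ext z
        simp only [mem_setOf_eq, mem_empty_iff_false, iff_false]
        exact fun h => ha h.1
      rw [this, measure_empty]
  simp only [hinner]
  rw [lintegral_indicator measurableSet_Icc, V_f3_int_V_f3 _ (by fun_prop) m]
  · have c1 : Continuous fun b : ℝ => (max 0 (2 - s + b)) ^ 2 / 2 := by fun_prop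
    have c2 : Continuous fun b : ℝ => (max 0 (2 - s - b)) ^ 2 / 2 := by fun_prop
    have c0 : Continuous fun _ : ℝ => (4 : ℝ) := continuous_const
    have c01 : Continuous fun b : ℝ => (4 : ℝ) - (max 0 (2 - s + b)) ^ 2 / 2 := by fun_prop
    rw [intervalIntegral.integral_sub (c01.intervalIntegrable _ _)
      (c2.intervalIntegrable _ _), intervalIntegral.integral_sub (c0.intervalIntegrable _ _)
      (c1.intervalIntegrable _ _), V_f3_i3_V_f3 _ (by linarith) (by linarith),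
      V_f3_i4_V_f3 _ (by linarith) (by linarith), intervalIntegral.integral_const]
    have e2 : (2 : ENNReal) ^ m = ENNReal.ofReal (2 ^ m) := by
      rw [ENNReal.ofReal_pow (by norm_num)]
      norm_num
    rw [e2, ← ENNReal.ofReal_mul (by positivity)]
    congr 1
    unfold gg3
    have hcube : (2 - s + 1) ^ 3 = 3 * Real.sqrt 3 * (Real.sqrt 3 - t) ^ 3 := by
      have e3 : 2 - s + 1 = Real.sqrt 3 * (Real.sqrt 3 - t) := by
        rw [hs, mul_sub, hsq]; ring
      rw [e3, mul_pow]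
      have e4 : Real.sqrt 3 ^ 3 = 3 * Real.sqrt 3 := by
        rw [pow_succ, Real.sq_sqrt (by norm_num)]
      rw [e4]
    rw [hcube, pow_add, smul_eq_mul]
    ring
  · intro a ha
    have ha' := abs_le.1 ha
    have h1 : 0 ≤ max 0 (2 - s + a) := le_max_left _ _
    have h2 : max 0 (2 - s + a) ≤ 2 := max_le (by norm_num) (by linarith)
    have h3 : 0 ≤ max 0 (2 - s - a) := le_max_left _ _
    have h4 : max 0 (2 - s - a) ≤ 2 := max_le (by norm_num) (by linarith)
    nlinarith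

end Pool.Agent.Helper131.Slab
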