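import Pool.Agent.Helper131.Slab.Defs2

set_option maxRecDepth 100000

namespace Pool.Agent.Helper131.Slab

open MeasureTheory Set intervalIntegral Filter Topology

theorem DD406_eq_t1_exists (t : ℝ) : gg3 t - gg t = -1/8 - 5/8 * t ^ 2 + Real.sqrt 3 / 8 * (9 * t + t ^ 3)
    - Real.sqrt 2 * t := by
  have h3 : Real.sqrt 3 ^ 2 = 3 := Real.sq_sqrt (by norm_num)
  unfold gg3 gg
  linear_combination (-(1/8) * (Real.sqrt 3 ^ 2 + 3 - 3 * Real.sqrt 3 * t + 3 * t ^ 2)) * h3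

theorem DD406_anti_t1_exists (s t : ℝ) (ht : 1 ≤ t) (hts : t ≤ s) (hs : s ≤ 1.015) :
    gg3 s - gg s ≤ gg3 t - gg t := by
  have h3 : Real.sqrt 3 < 1.7320508076 := by
    rw [Real.sqrt_lt' (by norm_num)]; norm_num
  have h3' : (1.7320508075 : ℝ) < Real.sqrt 3 := by
    rw [Real.lt_sqrt (by norm_num)]; norm_num
  have h2' : (1.4142135623 : ℝ) < Real.sqrt 2 := by
    rw [Real.lt_sqrt (by norm_num)]; norm_num
  rw [DD406_eq_t1_exists, DD406_eq_t1_exists]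
  have key : -1/8 - 5/8 * t ^ 2 + Real.sqrt 3 / 8 * (9 * t + t ^ 3) - Real.sqrt 2 * t -
      (-1/8 - 5/8 * s ^ 2 + Real.sqrt 3 / 8 * (9 * s + s ^ 3) - Real.sqrt 2 * s) =
      (s - t) * (5/8 * (s + t) - Real.sqrt 3 / 8 * (9 + (s ^ 2 + s * t + t ^ 2)) + Real.sqrt 2) := by
    ring
  have hb : 0 ≤ 5/8 * (s + t) - Real.sqrt 3 / 8 * (9 + (s ^ 2 + s * t + t ^ 2)) + Real.sqrt 2 := by
    have hq : s ^ 2 + s * t + t ^ 2 ≤ 3 * (s + t) / 2 * 1.015 := by nlinarith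
    have hq0 : 0 ≤ 9 + (s ^ 2 + s * t + t ^ 2) := by nlinarith
    have h4 : Real.sqrt 3 / 8 * (9 + (s ^ 2 + s * t + t ^ 2)) ≤
        0.21650635095 * (9 + 3 * (s + t) / 2 * 1.015) := by
      apply mul_le_mul (by linarith) (by linarith) hq0 (by norm_num)
    nlinarith
  have := mul_nonneg (sub_nonneg.2 hts) hb
  linarith

theorem t1_exists : ∃ t1 : ℝ, 1.0129 < t1 ∧ t1 < 1.0130 ∧ gg t1 = gg3 t1 ∧
    (∀ t, 1 ≤ t → t ≤ t1 → gg t ≤ gg3 t) ∧ (∀ t, t1 ≤ t → t ≤ 1.015 → gg3 t ≤ gg t) := by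
  have h3 : Real.sqrt 3 < 1.7320508076 := by
    rw [Real.sqrt_lt' (by norm_num)]; norm_num
  have h3' : (1.7320508075 : ℝ) < Real.sqrt 3 := by
    rw [Real.lt_sqrt (by norm_num)]; norm_num
  have h2 : Real.sqrt 2 < 1.4142135624 := by
    rw [Real.sqrt_lt' (by norm_num)]; norm_num
  have h2' : (1.4142135623 : ℝ) < Real.sqrt 2 := by
    rw [Real.lt_sqrt (by norm_num)]; norm_num
  have hcont : ContinuousOn (fun t : ℝ => gg3 t - gg t) (Icc 1.0129 1.0130) := by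
    apply Continuous.continuousOn
    unfold gg3 gg
    fun_prop
  have ha : 0 < gg3 1.0129 - gg 1.0129 := by
    rw [DD406_eq_t1_exists]
    norm_num
    nlinarith
  have hb : gg3 1.0130 - gg 1.0130 < 0 := by
    rw [DD406_eq_t1_exists]
    norm_num
    nlinarith
  obtain ⟨t1, ht1, h0⟩ := intermediate_value_Icc' (by norm_num : (1.0129 : ℝ) ≤ 1.0130) hcont
    ⟨hb.le, ha.le⟩
  have h0' : gg3 t1 - gg t1 = 0 := h0
  refine ⟨t1, ?_, ?_, by linarith, ?_, ?_⟩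
  · rcases lt_or_eq_of_le ht1.1 with h | h
    · exact h
    · rw [← h] at h0'; linarith
  · rcases lt_or_eq_of_le ht1.2 with h | h
    · exact h
    · rw [h] at h0'; linarith
  · intro t h1 h2
    have := DD406_anti_t1_exists t1 t h1 h2 (by linarith [ht1.2])
    linarith
  · intro t h1 h2
    have := DD406_anti_t1_exists t t1 (by linarith [ht1.1]) h1 h2
    linarith

end Pool.Agent.Helper131.Slab
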