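import Pool.Agent.Helper131.Slab.Defs2

set_option maxRecDepth 100000

namespace Pool.Agent.Helper131.Slab

open MeasureTheory Set intervalIntegral Filter Topology

theorem F3b (α β γ t : ℝ) (h1 : 0.5075 ≤ α) (h2 : α ≤ 0.775) (h3 : 0.28 ≤ β) (h4 : β ≤ α)
    (h5 : 1.015 ≤ α + β) (h6 : 0 ≤ γ) (h7 : α ^ 2 + β ^ 2 + γ ^ 2 = 1) (h8 : 1 ≤ t) (h9 : t ≤ 1.015)
    (h10 : γ ≤ α + β - t) :
    (α + β - t) ^ 2 / (4 * α * β) + γ ^ 2 / (12 * α * β) ≤ (Real.sqrt 2 - t) ^ 2 / 2 := by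
  obtain ⟨r, hr⟩ : ∃ r, r = Real.sqrt 2 := ⟨_, rfl⟩
  rw [← hr]
  have hr0 : 0 ≤ r := by rw [hr]; exact Real.sqrt_nonneg 2
  have hr2 : r ^ 2 = 2 := by rw [hr]; exact Real.sq_sqrt (by norm_num)
  have hr1 : 1.4142 ≤ r := by nlinarith
  have hr3 : r ≤ 1.41422 := by nlinarith
  obtain ⟨s, hs⟩ : ∃ s, s = α + β := ⟨_, rfl⟩
  obtain ⟨P, hP⟩ : ∃ P, P = α * β := ⟨_, rfl⟩
  have hα : 0 < α := by linarith
  have hβ : 0 < β := by linarith
  have hP0 : 0 < P := by rw [hP]; positivity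
  have hP1 : P ≤ s ^ 2 / 4 := by rw [hP, hs]; nlinarith [sq_nonneg (α - β)]
  have hg : γ ^ 2 = 1 - s ^ 2 + 2 * P := by rw [hP, hs]; linarith [h7]
  have hP2 : 0.775 * s - 0.600625 ≤ P := by
    rw [hP, hs]
    nlinarith [mul_nonneg (show (0:ℝ) ≤ 0.775 - α by linarith) (show (0:ℝ) ≤ 0.775 - β by linarith)]
  have hst : t ≤ s := by rw [hs]; linarith
  have hg2 : γ ^ 2 ≤ (s - t) ^ 2 := by
    have : γ ≤ s - t := by rw [hs]; exact h10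
    nlinarith
  have hs1 : 1.31 ≤ s := by
    by_contra hcon
    push Not at hcon
    nlinarith [mul_nonneg (show (0:ℝ) ≤ s - t by linarith) (show (0:ℝ) ≤ 1.31 - s by linarith)]
  have hs2 : s ≤ r := by
    have : s ^ 2 ≤ r ^ 2 := by nlinarith [sq_nonneg γ]
    nlinarith
  have hrt0 : 0 ≤ r - t := by linarith
  have hrt : (r - t) ^ 2 ≤ 0.1716 := by
    have h0 : (r - t) ^ 2 ≤ 0.41422 ^ 2 := pow_le_pow_left₀ hrt0 (by linarith) 2
    norm_num at h0 ⊢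
    linarith
  have key1 : 3 * (s - t) ^ 2 + γ ^ 2 ≤ 6 * P * (r - t) ^ 2 := by
    have e1 : P * (2 - 6 * (r - t) ^ 2) ≤ s ^ 2 / 4 * (2 - 6 * (r - t) ^ 2) :=
      mul_le_mul_of_nonneg_right hP1 (by linarith)
    have e2 : 0 ≤ (s + r) * (2.5 - 1.5 * (r - t) ^ 2) - 6 * t := by
      have : 2.7242 * 2.2426 ≤ (s + r) * (2.5 - 1.5 * (r - t) ^ 2) :=
        mul_le_mul (by linarith) (by linarith) (by norm_num) (by linarith)
      norm_num at this ⊢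
      linarith
    have e3 : (s - r) * ((s + r) * (2.5 - 1.5 * (r - t) ^ 2) - 6 * t) ≤ 0 :=
      mul_nonpos_of_nonpos_of_nonneg (by linarith) e2
    have e4 : 3 * (s - t) ^ 2 + 1 - s ^ 2 / 2 - 1.5 * s ^ 2 * (r - t) ^ 2 =
        (s - r) * ((s + r) * (2.5 - 1.5 * (r - t) ^ 2) - 6 * t) +
        (3 * (r - t) ^ 2 + 1 - r ^ 2 / 2 - 1.5 * r ^ 2 * (r - t) ^ 2) := by ring
    rw [hr2] at e4
    rw [hg]
    linarith
  have key2 : (α + β - t) ^ 2 / (4 * α * β) + γ ^ 2 / (12 * α * β) =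
      (3 * (s - t) ^ 2 + γ ^ 2) / (12 * P) := by
    rw [hP, hs]
    field_simp
    ring
  rw [key2, div_le_iff₀ (by positivity)]
  linarith

end Pool.Agent.Helper131.Slab
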