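import Pool.Agent.Helper131.Slab.Defs2

set_option maxRecDepth 100000

namespace Pool.Agent.Helper131.Slab

open MeasureTheory Set intervalIntegral Filter Topology

theorem G3one_sigma_G3one (α β γ : ℝ) (h1 : 0.5075 ≤ α) (h2 : α ≤ 0.775) (h3 : 0.28 ≤ β) (h4 : β ≤ α)
    (h5 : 1.015 ≤ α + β) (h6 : 0 ≤ γ) (h7 : α ^ 2 + β ^ 2 + γ ^ 2 = 1)
    (h10 : α + β - 1.015 ≤ γ) : 1.62 ≤ α + β + γ := by
  by_contra hc
  push Not at hc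
  have hg : γ < 1.62 - α - β := by linarith
  have hab : α + β < 1.3175 := by linarith
  have hq : γ ^ 2 < (1.62 - α - β) ^ 2 := by nlinarith
  have hQ : 0 < α ^ 2 + β ^ 2 + (1.62 - α - β) ^ 2 - 1 := by linarith
  nlinarith [mul_nonneg (sub_nonneg.2 h2) (sub_nonneg.2 h3),
    mul_nonneg (sub_nonneg.2 h2) (sub_nonneg.2 h5),
    mul_nonneg (sub_nonneg.2 h3) (sub_nonneg.2 h4), mul_nonneg (sub_nonneg.2 h5) (sub_nonneg.2 h4),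
    mul_nonneg (sub_nonneg.2 h3) (sub_nonneg.2 hab.le),
    mul_nonneg (sub_nonneg.2 h5) (sub_nonneg.2 hab.le),
    mul_nonneg (sub_nonneg.2 h2) (sub_nonneg.2 hab.le),
    mul_nonneg (sub_nonneg.2 h4) (sub_nonneg.2 hab.le),
    mul_nonneg (sub_nonneg.2 h3) (sub_nonneg.2 h5), mul_nonneg (sub_nonneg.2 h2) (sub_nonneg.2 h4)]

theorem G3one_a1_G3one (s y : ℝ) (hs1 : s < 1.73206) (hy0 : 0.251 ≤ y) :
    0 ≤ (1161 - 660 * s) * y ^ 2 + (1110 - 636 * s) * y - 3 := by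
  have ha : 0 ≤ (1161 - 660 * s) - 17.8 := by linarith
  have hb : 0 ≤ (1110 - 636 * s) - 8.4 := by linarith
  have hyy : 0 ≤ y - 0.251 := by linarith
  have hy : 0 ≤ y := by linarith
  have t1 := mul_nonneg ha (sq_nonneg y)
  have t2 := mul_nonneg hb hy
  have t3 := mul_nonneg hyy hyy
  nlinarith

theorem G3one_a2_G3one (s y : ℝ) (hs1 : s < 1.73206) (hy0 : 0.251 ≤ y) (hy1 : y ≤ 0.58) :
    0 ≤ 7 + (25 - 15 * s) * y + (22 - 15 * s) * y ^ 2 := by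
  have ha : 0 ≤ (25 - 15 * s) + 1 := by linarith
  have hb : 0 ≤ (22 - 15 * s) + 4 := by linarith
  have hy : 0 ≤ y := by linarith
  have t1 := mul_nonneg ha hy
  have t2 := mul_nonneg hb (sq_nonneg y)
  have t3 : y ^ 2 ≤ 1 := by nlinarith
  linarith

theorem G3one_a3_G3one (s x y : ℝ) (hs2 : s ^ 2 = 3) (hxy : 2 * x ^ 2 + y ^ 2 = 1) :
    (7 + (25 - 15 * s) * y + (22 - 15 * s) * y ^ 2) ^ 2 - (2 * (5 - y) * x) ^ 2
        = (y - s / 3) ^ 2 * ((1161 - 660 * s) * y ^ 2 + (1110 - 636 * s) * y - 3) := by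
  have hx2 : x ^ 2 = (1 - y ^ 2) / 2 := by linarith
  have e3 : (2 * (5 - y) * x) ^ 2 = 4 * (5 - y) ^ 2 * x ^ 2 := by ring
  rw [e3, hx2]
  have hs3 : s ^ 3 = 3 * s := by rw [pow_succ, hs2]
  ring_nf
  rw [hs3, hs2]
  ring

theorem G3one_a4_G3one (σ : ℝ) (h : 1.62 ≤ σ) : 6 - 2 * σ ^ 2 ≤ (σ - 0.753) ^ 2 := by nlinarith

theorem G3one_a5_G3one (a b c : ℝ) (h : a ^ 2 + b ^ 2 + c ^ 2 = 1) :
    (a + b + c) ^ 2 - 2 * (a + b + c) * a + 3 * a ^ 2 - 2 ≤ 0 := by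
  have e : (a + b + c) ^ 2 - 2 * (a + b + c) * a + 3 * a ^ 2 - 2
      = -(b - c) ^ 2 + 2 * (a ^ 2 + b ^ 2 + c ^ 2 - 1) := by ring
  rw [e, h]
  have := sq_nonneg (b - c)
  linarith

theorem G3one_a6_G3one (a b c : ℝ) (h : a ^ 2 + b ^ 2 + c ^ 2 = 1) : (a + b + c) ^ 2 ≤ 3 := by
  have e : 3 - (a + b + c) ^ 2 = (a - b) ^ 2 + (b - c) ^ 2 + (a - c) ^ 2
      - 3 * (a ^ 2 + b ^ 2 + c ^ 2 - 1) := by ring
  have h1 := sq_nonneg (a - b)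
  have h2 := sq_nonneg (b - c)
  have h3 := sq_nonneg (a - c)
  rw [h] at e
  linarith

theorem G3one_a7_G3one (σ : ℝ) (h : σ ^ 2 ≤ 3) : σ ≤ 1.74 := by nlinarith

theorem G3one_a8_G3one (x y : ℝ) (hxy : 2 * x ^ 2 + y ^ 2 = 1) :
    (2 * x + y - 1) ^ 3 = (1 - y) * (2 * (5 - y) * x - (1 - y) * (7 + 5 * y)) := by
  linear_combination (4 * x + 6 * (y - 1)) * hxy

theorem G3one_a9_G3one (s x y : ℝ) (hs2 : s ^ 2 = 3) (hs1 : s < 1.73206) (hy0 : 0.251 ≤ y)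
    (hy1 : y ≤ 0.58) (hx0 : 0 ≤ x) (hxy : 2 * x ^ 2 + y ^ 2 = 1) :
    (2 * x + y - 1) ^ 3 ≤ (54 - 30 * s) * (y * (1 - y ^ 2) / 2) := by
  have hW : (2 * (5 - y) * x) ^ 2 ≤ (7 + (25 - 15 * s) * y + (22 - 15 * s) * y ^ 2) ^ 2 := by
    have h1 := G3one_a3_G3one s x y hs2 hxy
    have h2 := mul_nonneg (sq_nonneg (y - s / 3)) (G3one_a1_G3one s y hs1 hy0)
    rw [← h1] at h2
    exact sub_nonneg.mp h2
  have hWpos := G3one_a2_G3one s y hs1 hy0 hy1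
  have hW2 : 2 * (5 - y) * x ≤ 7 + (25 - 15 * s) * y + (22 - 15 * s) * y ^ 2 :=
    abs_le_of_sq_le_sq' hW hWpos |>.2
  rw [G3one_a8_G3one x y hxy]
  have h3 := mul_le_mul_of_nonneg_left hW2 (show 0 ≤ 1 - y by linarith)
  have e5 : (1 - y) * (7 + (25 - 15 * s) * y + (22 - 15 * s) * y ^ 2)
      - (1 - y) * ((1 - y) * (7 + 5 * y)) = (54 - 30 * s) * (y * (1 - y ^ 2) / 2) := by ring
  rw [← e5, mul_sub]
  linarith

theorem G3one_b1_G3one (α β γ σ y : ℝ) (hσ : σ = α + β + γ) (h7 : α ^ 2 + β ^ 2 + γ ^ 2 = 1)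
    (hα : y ≤ α) (hβ : y ≤ β) (hγ : y ≤ γ) (hy : σ ^ 2 - 2 * σ * y + 3 * y ^ 2 - 2 = 0) :
    y * (1 - y ^ 2) / 2 ≤ α * β * γ := by
  have h := mul_nonneg (mul_nonneg (sub_nonneg.2 hα) (sub_nonneg.2 hβ)) (sub_nonneg.2 hγ)
  have e1 : α * β * γ - y * (1 - y ^ 2) / 2 - (α - y) * (β - y) * (γ - y)
      = y / 2 * (σ ^ 2 - 2 * σ * y + 3 * y ^ 2 - 2)
        - y / 2 * (α ^ 2 + β ^ 2 + γ ^ 2 - 1) := by
    rw [hσ]; ring
  rw [hy, h7] at e1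
  linarith

theorem G3one (α β γ : ℝ) (h1 : 0.5075 ≤ α) (h2 : α ≤ 0.775) (h3 : 0.28 ≤ β) (h4 : β ≤ α)
    (h5 : 1.015 ≤ α + β) (h6 : 0 ≤ γ) (h7 : α ^ 2 + β ^ 2 + γ ^ 2 = 1)
    (h10 : α + β - 1.015 ≤ γ) :
    (α + β + γ - 1) ^ 3 ≤ 3 * Real.sqrt 3 * (α * β * γ) * (Real.sqrt 3 - 1) ^ 3 := by
  have hσ := G3one_sigma_G3one α β γ h1 h2 h3 h4 h5 h6 h7 h10
  obtain ⟨s, hs⟩ : ∃ s, s = Real.sqrt 3 := ⟨_, rfl⟩
  rw [← hs]
  have hs2 : s ^ 2 = 3 := by rw [hs]; exact Real.sq_sqrt (by norm_num)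
  have hs1 : s < 1.73206 := by rw [hs, Real.sqrt_lt' (by norm_num)]; norm_num
  have hK : 3 * s * (s - 1) ^ 3 = 54 - 30 * s := by
    linear_combination (3 * s ^ 2 - 9 * s + 18) * hs2
  obtain ⟨σ, hσd⟩ : ∃ σ, σ = α + β + γ := ⟨_, rfl⟩
  have hσ3 : σ ^ 2 ≤ 3 := by rw [hσd]; exact G3one_a6_G3one α β γ h7
  have hcα : σ ^ 2 - 2 * σ * α + 3 * α ^ 2 - 2 ≤ 0 := by rw [hσd]; exact G3one_a5_G3one α β γ h7
  have hcβ : σ ^ 2 - 2 * σ * β + 3 * β ^ 2 - 2 ≤ 0 := by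
    have h := G3one_a5_G3one β α γ (by linarith)
    rw [hσd]
    rw [show α + β + γ = β + α + γ by ring]
    exact h
  have hcγ : σ ^ 2 - 2 * σ * γ + 3 * γ ^ 2 - 2 ≤ 0 := by
    have h := G3one_a5_G3one γ α β (by linarith)
    rw [hσd]
    rw [show α + β + γ = γ + α + β by ring]
    exact h
  rw [← hσd] at hσ ⊢
  have hσ4 := G3one_a7_G3one σ hσ3
  obtain ⟨r, hr⟩ : ∃ r, r = Real.sqrt (6 - 2 * σ ^ 2) := ⟨_, rfl⟩
  have hr2 : r ^ 2 = 6 - 2 * σ ^ 2 := by rw [hr]; exact Real.sq_sqrt (by linarith)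
  have hr0 : 0 ≤ r := by rw [hr]; exact Real.sqrt_nonneg _
  have hrle : r ≤ σ - 0.753 := by
    rw [hr, Real.sqrt_le_iff]
    exact ⟨by linarith, G3one_a4_G3one σ hσ⟩
  have hcoord : ∀ c : ℝ, σ ^ 2 - 2 * σ * c + 3 * c ^ 2 - 2 ≤ 0 → σ - r ≤ 3 * c := by
    intro c hc
    have h := Real.abs_le_sqrt (x := σ - 3 * c) (y := 6 - 2 * σ ^ 2) (by
      have e : 6 - 2 * σ ^ 2 - (σ - 3 * c) ^ 2 = -3 * (σ ^ 2 - 2 * σ * c + 3 * c ^ 2 - 2) := by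
        ring
      linarith)
    rw [← hr] at h
    have := le_abs_self (σ - 3 * c)
    linarith
  have hyα := hcoord α hcα
  have hyβ := hcoord β hcβ
  have hyγ := hcoord γ hcγ
  have hprod := G3one_b1_G3one α β γ σ ((σ - r) / 3) hσd h7 (by linarith) (by linarith) (by linarith)
    (by linear_combination (1 / 3) * hr2)
  have hfin := G3one_a9_G3one s ((2 * σ + r) / 6) ((σ - r) / 3) hs2 hs1 (by linarith) (by linarith)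
    (by linarith) (by linear_combination (1 / 6) * hr2)
  have e6 : 2 * ((2 * σ + r) / 6) + (σ - r) / 3 - 1 = σ - 1 := by ring
  rw [e6] at hfin
  have hKpos : 0 ≤ 54 - 30 * s := by linarith
  calc (σ - 1) ^ 3 ≤ (54 - 30 * s) * ((σ - r) / 3 * (1 - ((σ - r) / 3) ^ 2) / 2) := hfin
    _ ≤ (54 - 30 * s) * (α * β * γ) := mul_le_mul_of_nonneg_left hprod hKpos
    _ = 3 * s * (α * β * γ) * (s - 1) ^ 3 := by rw [← hK]; ring

end Pool.Agent.Helper131.Slab
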