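import Pool.Agent.Helper131.Slab.Defs2
import Pool.Agent.Helper131.Slab.L_G3one

set_option maxRecDepth 100000

namespace Pool.Agent.Helper131.Slab

open MeasureTheory Set intervalIntegral Filter Topology

theorem G3b (α β γ t : ℝ) (h1 : 0.5075 ≤ α) (h2 : α ≤ 0.775) (h3 : 0.28 ≤ β) (h4 : β ≤ α)
    (h5 : 1.015 ≤ α + β) (h6 : 0 ≤ γ) (h7 : α ^ 2 + β ^ 2 + γ ^ 2 = 1) (h8 : 1 ≤ t) (h9 : t ≤ 1.015)
    (h10 : α + β - t ≤ γ) :
    (α + β + γ - t) ^ 3 ≤ 3 * Real.sqrt 3 * (α * β * γ) * (Real.sqrt 3 - t) ^ 3 := by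
  have h3one := G3one α β γ h1 h2 h3 h4 h5 h6 h7 (by linarith)
  have hs2 : Real.sqrt 3 ^ 2 = 3 := Real.sq_sqrt (by norm_num)
  have hs0 : 0 ≤ Real.sqrt 3 := Real.sqrt_nonneg 3
  have hs17 : 1.7 < Real.sqrt 3 := by
    rw [Real.lt_sqrt (by norm_num)]; norm_num
  have hsig : α + β + γ ≤ Real.sqrt 3 := by
    apply Real.le_sqrt_of_sq_le
    nlinarith [sq_nonneg (α - β), sq_nonneg (β - γ), sq_nonneg (α - γ)]
  have hkey : (α + β + γ - t) * (Real.sqrt 3 - 1) ≤ (α + β + γ - 1) * (Real.sqrt 3 - t) := by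
    nlinarith [mul_nonneg (sub_nonneg.2 h8) (sub_nonneg.2 hsig)]
  have hl : 0 ≤ (α + β + γ - t) * (Real.sqrt 3 - 1) := by
    apply mul_nonneg <;> linarith
  have hcube := pow_le_pow_left₀ hl hkey 3
  have hc : (0:ℝ) < (Real.sqrt 3 - 1) ^ 3 := by
    apply pow_pos; linarith
  have ht3 : (0:ℝ) ≤ (Real.sqrt 3 - t) ^ 3 := by
    apply pow_nonneg; linarith
  have h2' := mul_le_mul_of_nonneg_right h3one ht3
  rw [mul_pow, mul_pow] at hcube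
  have : (α + β + γ - t) ^ 3 * (Real.sqrt 3 - 1) ^ 3 ≤
      (3 * Real.sqrt 3 * (α * β * γ) * (Real.sqrt 3 - t) ^ 3) * (Real.sqrt 3 - 1) ^ 3 := by
    calc _ ≤ (α + β + γ - 1) ^ 3 * (Real.sqrt 3 - t) ^ 3 := hcube
      _ ≤ _ := h2'
      _ = _ := by ring
  exact le_of_mul_le_mul_right this hc

end Pool.Agent.Helper131.Slab
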