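import Pool.Agent.Helper131.Slab.Defs

set_option maxRecDepth 100000

namespace Pool.Agent.Helper131.Slab

open MeasureTheory Set intervalIntegral Filter Topology

theorem sinc_low1 (x : ℝ) (hx : |x| ≤ 0.84) : Real.exp (-(x ^ 2 / 6 + x ^ 4 / 170)) ≤ Real.sinc x := by
  have key : ∀ y : ℝ, 0 < y → y ≤ 0.84 →
      Real.exp (-(y ^ 2 / 6 + y ^ 4 / 170)) ≤ Real.sin y / y := by
    intro y hy0 hy
    have h1 := sin_ge_P7 y hy0.le
    have hu : 0 ≤ y ^ 2 / 6 + y ^ 4 / 170 := by positivity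
    have h2 := exp_neg_le4 _ hu
    have h3 : 1 - y ^ 2 / 6 + y ^ 4 / 120 - y ^ 6 / 5040 ≤ Real.sin y / y := by
      rw [le_div_iff₀ hy0]
      refine le_trans (le_of_eq ?_) h1
      ring
    refine h2.trans (le_trans ?_ h3)
    obtain ⟨s, hs⟩ : ∃ s, s = y ^ 2 := ⟨_, rfl⟩
    have hs0 : 0 ≤ s := by rw [hs]; positivity
    have hs1 : s ≤ 0.7056 := by rw [hs]; nlinarith
    have e4 : y ^ 4 = s ^ 2 := by rw [hs]; ring
    have e6 : y ^ 6 = s ^ 3 := by rw [hs]; ring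
    rw [e4, e6, ← hs]
    have A : 0 ≤ (1 / 3060 - 157 / 385560 * s : ℝ) := by linarith
    have hs2 : s ^ 2 ≤ 1 := by nlinarith
    have hs3 : s ^ 3 ≤ 1 := by nlinarith [mul_nonneg hs0 hs0, pow_nonneg hs0 3]
    have hs4 : s ^ 4 ≤ 1 := by nlinarith [mul_nonneg hs0 hs0, pow_nonneg hs0 3, pow_nonneg hs0 4]
    have B : 0 ≤ (7247 / 224726400 - 31 / 18727200 * s - 73 / 353736000 * s ^ 2 -
        1 / 176868000 * s ^ 3 - 1 / 20045040000 * s ^ 4 : ℝ) := by linarith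
    have C := mul_nonneg (pow_nonneg hs0 2) (add_nonneg A (mul_nonneg (pow_nonneg hs0 2) B))
    refine le_of_sub_nonneg (le_trans C (le_of_eq ?_))
    ring
  rcases eq_or_ne x 0 with h0 | h0
  · rw [h0]; simp
  · rw [Real.sinc_of_ne_zero h0]
    rcases lt_or_gt_of_ne h0 with h | h
    · have := key (-x) (by linarith) (by rw [abs_of_neg h] at hx; exact hx)
      rw [Real.sin_neg, neg_div_neg_eq] at this
      have e : (-x) ^ 2 / 6 + (-x) ^ 4 / 170 = x ^ 2 / 6 + x ^ 4 / 170 := by ring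
      rwa [e] at this
    · exact key x h (by rw [abs_of_pos h] at hx; exact hx)

end Pool.Agent.Helper131.Slab
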