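import Pool.Agent.Helper131.Slab.Defs2
import Pool.Agent.Helper131.Slab.L_sinc_low1

set_option maxRecDepth 100000

namespace Pool.Agent.Helper131.Slab

open MeasureTheory Set intervalIntegral Filter Topology

theorem J0 {n : ℕ} (a : Fin n → ℝ) (hs : ∑ i, a i ^ 2 = 1) (hr : ∀ i, |a i| ≤ 0.775) :
    Real.exp (-(lam 0 ^ 2 / 6 + lam 0 ^ 4 / 170 * ∑ i, a i ^ 4)) ≤ PP a 0 := by
  have hl0 : lam 0 = Real.pi / 3 := by simp [lam]
  have hpi := Real.pi_lt_d2
  have hpi0 := Real.pi_pos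
  have hx : ∀ i, |lam 0 * a i| ≤ 0.84 := by
    intro i
    rw [abs_mul, hl0, abs_of_pos (by positivity)]
    have h1 := hr i
    have h2 := abs_nonneg (a i)
    calc Real.pi / 3 * |a i| ≤ (3.15 / 3) * 0.775 := by
          apply mul_le_mul _ h1 h2 (by norm_num)
          linarith
      _ ≤ 0.84 := by norm_num
  have h1 : ∏ i, Real.exp (-((lam 0 * a i) ^ 2 / 6 + (lam 0 * a i) ^ 4 / 170)) ≤ PP a 0 := by
    unfold PP
    apply Finset.prod_le_prod
    · intro i _
      exact (Real.exp_pos _).le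
    · intro i _
      exact sinc_low1 _ (hx i)
  refine le_trans (le_of_eq ?_) h1
  rw [← Real.exp_sum]
  congr 1
  rw [Finset.sum_neg_distrib, Finset.sum_add_distrib]
  have e1 : ∑ i, (lam 0 * a i) ^ 2 / 6 = lam 0 ^ 2 / 6 * ∑ i, a i ^ 2 := by
    rw [Finset.mul_sum]
    refine Finset.sum_congr rfl fun i _ => by ring
  have e2 : ∑ i, (lam 0 * a i) ^ 4 / 170 = lam 0 ^ 4 / 170 * ∑ i, a i ^ 4 := by
    rw [Finset.mul_sum]
    refine Finset.sum_congr rfl fun i _ => by ring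
  rw [e1, e2, hs]
  ring

end Pool.Agent.Helper131.Slab
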