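import Pool.Agent.Helper131.Slab.Defs

set_option maxRecDepth 100000

namespace Pool.Agent.Helper131.Slab

open MeasureTheory Set intervalIntegral Filter Topology

theorem su4_cos_sinc_up4 (x : ℝ) (hx : 0 ≤ x) :
    Real.cos x ≤ 1 - x ^ 2 / 2 + x ^ 4 / 24 - x ^ 6 / 720 + x ^ 8 / 40320 := by
  have h := nonneg_of_deriv (f := fun x => 1 - x ^ 2 / 2 + x ^ 4 / 24 - x ^ 6 / 720 + x ^ 8 / 40320 - Real.cos x)
    (f' := fun x => -x + x ^ 3 / 6 - x ^ 5 / 120 + x ^ 7 / 5040 + Real.sin x)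
    (fun y => by
      have h1 := (((((hasDerivAt_const y (1 : ℝ)).sub ((hasDerivAt_pow 2 y).div_const 2)).add
        ((hasDerivAt_pow 4 y).div_const 24)).sub ((hasDerivAt_pow 6 y).div_const 720)).add
        ((hasDerivAt_pow 8 y).div_const 40320)).sub (Real.hasDerivAt_cos y)
      convert! h1 using 1
      push_cast
      ring)
    (by simp) (fun y hy => by have := sin_ge_P7 y hy; linarith) x hx

  linarith

theorem su4_sin_sinc_up4 (x : ℝ) (hx : 0 ≤ x) :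
    Real.sin x ≤ x - x ^ 3 / 6 + x ^ 5 / 120 - x ^ 7 / 5040 + x ^ 9 / 362880 := by
  have h := nonneg_of_deriv (f := fun x => x - x ^ 3 / 6 + x ^ 5 / 120 - x ^ 7 / 5040 + x ^ 9 / 362880 - Real.sin x)
    (f' := fun x => 1 - x ^ 2 / 2 + x ^ 4 / 24 - x ^ 6 / 720 + x ^ 8 / 40320 - Real.cos x)
    (fun y => by
      have h1 := (((((hasDerivAt_id y).sub ((hasDerivAt_pow 3 y).div_const 6)).add
        ((hasDerivAt_pow 5 y).div_const 120)).sub ((hasDerivAt_pow 7 y).div_const 5040)).add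
        ((hasDerivAt_pow 9 y).div_const 362880)).sub (Real.hasDerivAt_sin y)
      convert! h1 using 1
      push_cast
      ring)
    (by simp) (fun y hy => by have := su4_cos_sinc_up4 y hy; linarith) x hx

  linarith

theorem su4_poly_sinc_up4 (s : ℝ) (h0 : 0 ≤ s) (h1 : s ≤ 6.87) :
    1 - s / 6 + s ^ 2 / 120 - s ^ 3 / 5040 + s ^ 4 / 362880 ≤
      1 - (s / 6 + s ^ 2 / 180) + (s / 6 + s ^ 2 / 180) ^ 2 / 2 - (s / 6 + s ^ 2 / 180) ^ 3 / 6 +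
        (s / 6 + s ^ 2 / 180) ^ 4 / 24 - (s / 6 + s ^ 2 / 180) ^ 5 / 120 := by
  have key : (1 - (s / 6 + s ^ 2 / 180) + (s / 6 + s ^ 2 / 180) ^ 2 / 2 - (s / 6 + s ^ 2 / 180) ^ 3 / 6 +
        (s / 6 + s ^ 2 / 180) ^ 4 / 24 - (s / 6 + s ^ 2 / 180) ^ 5 / 120) -
      (1 - s / 6 + s ^ 2 / 120 - s ^ 3 / 5040 + s ^ 4 / 362880) =
      s ^ 3 * ((1 / 2835 - 11 / 340200 * s) + s ^ 2 * (1 / 1555200 + 1 / 139968000 * s - 1 / 139968000 * s ^ 2 -
        1 / 2799360000 * s ^ 3 - 1 / 151165440000 * s ^ 4 - 1 / 22674816000000 * s ^ 5)) := by ring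
  have h2 : s ^ 2 ≤ 6.87 ^ 2 := pow_le_pow_left₀ h0 h1 2
  have h3 : s ^ 3 ≤ 6.87 ^ 3 := pow_le_pow_left₀ h0 h1 3
  have h4 : s ^ 4 ≤ 6.87 ^ 4 := pow_le_pow_left₀ h0 h1 4
  have h5 : s ^ 5 ≤ 6.87 ^ 5 := pow_le_pow_left₀ h0 h1 5
  norm_num at h2 h3 h4 h5
  have e1 : 0 ≤ 1 / 1555200 + 1 / 139968000 * s - 1 / 139968000 * s ^ 2 -
        1 / 2799360000 * s ^ 3 - 1 / 151165440000 * s ^ 4 - 1 / 22674816000000 * s ^ 5 := by
    linarith
  have e2 : 0 ≤ 1 / 2835 - 11 / 340200 * s := by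
    norm_num at h1
    linarith
  have e3 : 0 ≤ s ^ 3 * ((1 / 2835 - 11 / 340200 * s) + s ^ 2 * (1 / 1555200 + 1 / 139968000 * s - 1 / 139968000 * s ^ 2 -
        1 / 2799360000 * s ^ 3 - 1 / 151165440000 * s ^ 4 - 1 / 22674816000000 * s ^ 5)) :=
    mul_nonneg (pow_nonneg h0 3) (add_nonneg e2 (mul_nonneg (sq_nonneg s) e1))
  linarith



theorem sinc_up4 (x : ℝ) (hx : |x| ≤ 2.62) : Real.sinc x ≤ Real.exp (-(x ^ 2 / 6 + x ^ 4 / 180)) := by
  have key : ∀ y : ℝ, 0 < y → y ≤ 2.62 → Real.sinc y ≤ Real.exp (-(y ^ 2 / 6 + y ^ 4 / 180)) := by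
    intro y hy0 hy
    have hs : (0 : ℝ) ≤ y ^ 2 := sq_nonneg y
    have hs1 : y ^ 2 ≤ 6.87 := by
      have := pow_le_pow_left₀ hy0.le hy 2
      norm_num at this ⊢
      linarith
    have h1 := su4_poly_sinc_up4 (y ^ 2) hs hs1
    have hu : 0 ≤ y ^ 2 / 6 + (y ^ 2) ^ 2 / 180 := by positivity
    have h2 := exp_neg_ge5 _ hu
    have h3 := su4_sin_sinc_up4 y hy0.le
    rw [Real.sinc_of_ne_zero hy0.ne', div_le_iff₀ hy0]
    have h4 : y ^ 4 = (y ^ 2) ^ 2 := by ring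
    rw [h4]
    have h5 := mul_le_mul_of_nonneg_right (h1.trans h2) hy0.le
    refine h3.trans (le_trans (le_of_eq ?_) h5)
    ring
  rcases lt_trichotomy x 0 with h | h | h
  · have h1 := key (-x) (by linarith) (by rwa [abs_of_neg h] at hx)
    rw [Real.sinc_neg] at h1
    have h2 : (-x) ^ 2 = x ^ 2 := by ring
    have h3 : (-x) ^ 4 = x ^ 4 := by ring
    rwa [h2, h3] at h1
  · subst h
    simp
  · exact key x h (by rwa [abs_of_pos h] at hx)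

end Pool.Agent.Helper131.Slab
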