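import Pool.Agent.Helper131.Slab.Defs2
import Pool.Agent.Helper131.Slab.L_sinc_up4

set_option maxRecDepth 100000

namespace Pool.Agent.Helper131.Slab

open MeasureTheory Set intervalIntegral Filter Topology

theorem J1 {n : ℕ} (a : Fin n → ℝ) (hs : ∑ i, a i ^ 2 = 1) (hr : ∀ i, |a i| ≤ 0.775) :
    PP a 1 ≤ Real.exp (-(Real.pi ^ 2 / 6 + Real.pi ^ 4 / 180 * ∑ i, a i ^ 4)) := by
  have hlam : lam 1 = Real.pi := by
    unfold lam
    push_cast
    ring
  have hpi := Real.pi_lt_d2
  have hpi0 := Real.pi_pos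
  have hb : ∀ i, |Real.pi * a i| ≤ Real.pi * 0.775 := by
    intro i
    rw [abs_mul, abs_of_pos hpi0]
    exact mul_le_mul_of_nonneg_left (hr i) hpi0.le
  unfold PP
  rw [hlam]
  calc ∏ i, Real.sinc (Real.pi * a i)
      ≤ ∏ i, Real.exp (-((Real.pi * a i) ^ 2 / 6 + (Real.pi * a i) ^ 4 / 180)) := by
        apply Finset.prod_le_prod
        · intro i _
          apply sinc_nonneg_of_abs_le_pi
          have := hb i
          nlinarith
        · intro i _
          apply sinc_up4
          have := hb i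
          nlinarith
    _ = Real.exp (∑ i, (-((Real.pi * a i) ^ 2 / 6 + (Real.pi * a i) ^ 4 / 180))) := by
        rw [Real.exp_sum]
    _ = Real.exp (-(Real.pi ^ 2 / 6 + Real.pi ^ 4 / 180 * ∑ i, a i ^ 4)) := by
        congr 1
        rw [Finset.sum_neg_distrib, Finset.sum_add_distrib]
        congr 1
        have h1 : ∑ i, (Real.pi * a i) ^ 2 / 6 = Real.pi ^ 2 / 6 * ∑ i, a i ^ 2 := by
          rw [Finset.mul_sum]
          apply Finset.sum_congr rfl
          intro i _
          ring
        have h2 : ∑ i, (Real.pi * a i) ^ 4 / 180 = Real.pi ^ 4 / 180 * ∑ i, a i ^ 4 := by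
          rw [Finset.mul_sum]
          apply Finset.sum_congr rfl
          intro i _
          ring
        rw [h1, h2, hs, mul_one]

end Pool.Agent.Helper131.Slab
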