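import Pool.Agent.Helper131.Slab.Defs2

set_option maxRecDepth 100000

namespace Pool.Agent.Helper131.Slab

open MeasureTheory Set intervalIntegral Filter Topology

theorem su6_bern_sinc_up6 : bernoulli 6 = 1 / 42 := by
  rw [bernoulli_eq_bernoulli'_of_ne_one (by decide)]
  have h5 : bernoulli' 5 = 0 := bernoulli'_eq_zero_of_odd (by decide) (by norm_num)
  have c1 : Nat.choose 6 2 = 15 := by decide
  have c2 : Nat.choose 6 3 = 20 := by decide
  have c3 : Nat.choose 6 4 = 15 := by decide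
  have c4 : Nat.choose 6 5 = 6 := by decide
  rw [bernoulli'_def]
  norm_num [Finset.sum_range_succ, c1, c2, c3, c4, h5]

theorem su6_zeta_sinc_up6 : HasSum (fun n : ℕ => (1 : ℝ) / (n : ℝ) ^ 6) (Real.pi ^ 6 / 945) := by
  convert! hasSum_zeta_nat three_ne_zero using 1
  simp only [Nat.reduceAdd, Nat.reduceMul, Nat.add_one_sub_one]
  rw [su6_bern_sinc_up6]
  simp [Nat.factorial]; ring

theorem su6_log_sinc_up6 (u : ℝ) (h0 : 0 ≤ u) (h1 : u < 1) : 1 - u ≤ Real.exp (-(u + u ^ 2 / 2 + u ^ 3 / 3)) := by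
  have hpos : 0 < 1 - u := by linarith
  have hs := Real.hasSum_pow_div_log_of_abs_lt_one (x := u) (by rw [abs_of_nonneg h0]; exact h1)
  have h3 : ∑ i ∈ Finset.range 3, u ^ (i + 1) / ((i : ℝ) + 1) ≤ -Real.log (1 - u) :=
    sum_le_hasSum _ (fun i _ => by positivity) hs
  have h4 : ∑ i ∈ Finset.range 3, u ^ (i + 1) / ((i : ℝ) + 1) = u + u ^ 2 / 2 + u ^ 3 / 3 := by
    norm_num [Finset.sum_range_succ]
  rw [h4] at h3
  rw [← Real.exp_log hpos]
  apply Real.exp_le_exp.mpr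
  linarith

theorem su6_shift_sinc_up6 {f : ℕ → ℝ} {s : ℝ} (h : HasSum f s) (h0 : f 0 = 0) :
    Tendsto (fun n : ℕ => ∑ j ∈ Finset.range n, f (j + 1)) atTop (𝓝 s) := by
  have h1 := (h.tendsto_sum_nat).comp (tendsto_add_atTop_nat 1)
  refine h1.congr (fun n => ?_)
  simp only [Function.comp]
  rw [Finset.sum_range_succ', h0, add_zero]

theorem su6_main_sinc_up6 (t : ℝ) (h0 : 0 < t) (h1 : t < 1) :
    Real.sin (Real.pi * t) ≤ Real.pi * t * Real.exp (-((Real.pi * t) ^ 2 / 6 + (Real.pi * t) ^ 4 / 180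
      + (Real.pi * t) ^ 6 / 2835)) := by
  have hsin := Real.tendsto_euler_sin_prod t
  have z2 := su6_shift_sinc_up6 hasSum_zeta_two (by simp)
  have z4 := su6_shift_sinc_up6 hasSum_zeta_four (by simp)
  have z6 := su6_shift_sinc_up6 su6_zeta_sinc_up6 (by simp)
  have hlim : Tendsto (fun n : ℕ => Real.pi * t * Real.exp (-(t ^ 2 * (∑ j ∈ Finset.range n, (1 : ℝ) / ((j + 1 : ℕ) : ℝ) ^ 2)
      + t ^ 4 / 2 * (∑ j ∈ Finset.range n, (1 : ℝ) / ((j + 1 : ℕ) : ℝ) ^ 4)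
      + t ^ 6 / 3 * (∑ j ∈ Finset.range n, (1 : ℝ) / ((j + 1 : ℕ) : ℝ) ^ 6)))) atTop
      (𝓝 (Real.pi * t * Real.exp (-(t ^ 2 * (Real.pi ^ 2 / 6) + t ^ 4 / 2 * (Real.pi ^ 4 / 90)
        + t ^ 6 / 3 * (Real.pi ^ 6 / 945))))) := by
    refine Tendsto.const_mul _ ?_
    refine (Real.continuous_exp.tendsto _).comp ?_
    exact (((z2.const_mul _).add (z4.const_mul _)).add (z6.const_mul _)).neg
  have heq : -((Real.pi * t) ^ 2 / 6 + (Real.pi * t) ^ 4 / 180 + (Real.pi * t) ^ 6 / 2835) =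
      -(t ^ 2 * (Real.pi ^ 2 / 6) + t ^ 4 / 2 * (Real.pi ^ 4 / 90) + t ^ 6 / 3 * (Real.pi ^ 6 / 945)) := by
    ring
  rw [heq]
  refine le_of_tendsto_of_tendsto' hsin hlim (fun n => ?_)
  refine mul_le_mul_of_nonneg_left ?_ (by positivity)
  have hprod : ∏ j ∈ Finset.range n, ((1 : ℝ) - t ^ 2 / ((j : ℝ) + 1) ^ 2) ≤
      ∏ j ∈ Finset.range n, Real.exp (-(t ^ 2 / ((j : ℝ) + 1) ^ 2 + (t ^ 2 / ((j : ℝ) + 1) ^ 2) ^ 2 / 2 +
        (t ^ 2 / ((j : ℝ) + 1) ^ 2) ^ 3 / 3)) := by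
    have hu : ∀ j : ℕ, t ^ 2 / ((j : ℝ) + 1) ^ 2 < 1 := by
      intro j
      rw [div_lt_one (by positivity)]
      have : t ^ 2 < 1 := by nlinarith
      have hj : (1 : ℝ) ≤ ((j : ℝ) + 1) ^ 2 := by nlinarith [Nat.cast_nonneg (α := ℝ) j]
      linarith
    refine Finset.prod_le_prod (fun j _ => by linarith [hu j]) (fun j _ => ?_)
    exact su6_log_sinc_up6 _ (by positivity) (hu j)
  refine hprod.trans (le_of_eq ?_)
  rw [← Real.exp_sum]
  congr 1
  rw [Finset.sum_neg_distrib, Finset.sum_add_distrib, Finset.sum_add_distrib, Finset.mul_sum, Finset.mul_sum,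
    Finset.mul_sum]
  congr 1
  congr 1
  · congr 1
    · refine Finset.sum_congr rfl (fun j _ => ?_)
      push_cast
      ring
    · refine Finset.sum_congr rfl (fun j _ => ?_)
      push_cast
      field_simp
  · refine Finset.sum_congr rfl (fun j _ => ?_)
    push_cast
    field_simp

theorem sinc_up6 (x : ℝ) (hx : |x| ≤ Real.pi) :
    Real.sinc x ≤ Real.exp (-(x ^ 2 / 6 + x ^ 4 / 180 + x ^ 6 / 2835)) := by
  have key : ∀ y : ℝ, 0 < y → y < Real.pi → 
      Real.sinc y ≤ Real.exp (-(y ^ 2 / 6 + y ^ 4 / 180 + y ^ 6 / 2835)) := by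
    intro y hy0 hy1
    have hpi := Real.pi_pos
    have h := su6_main_sinc_up6 (y / Real.pi) (by positivity) (by rw [div_lt_one hpi]; exact hy1)
    have he : Real.pi * (y / Real.pi) = y := by field_simp
    rw [he] at h
    rw [Real.sinc_of_ne_zero hy0.ne', div_le_iff₀ hy0, mul_comm]
    exact h
  rcases eq_or_ne x 0 with rfl | hx0
  · simp
  rcases lt_or_eq_of_le hx with hlt | heq
  · rcases lt_or_gt_of_ne hx0 with hneg | hpos
    · have h := key (-x) (by linarith) (by rw [abs_of_neg hneg] at hlt; exact hlt)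
      rw [Real.sinc_neg] at h
      have e : -((-x) ^ 2 / 6 + (-x) ^ 4 / 180 + (-x) ^ 6 / 2835) = -(x ^ 2 / 6 + x ^ 4 / 180 + x ^ 6 / 2835) := by
        ring
      rwa [e] at h
    · exact key x hpos (by rw [abs_of_pos hpos] at hlt; exact hlt)
  · have : Real.sinc x = 0 := by
      rw [Real.sinc_of_ne_zero hx0]
      have : Real.sin x = 0 := by
        rcases abs_eq_abs.mp (heq.trans (abs_of_pos Real.pi_pos).symm) with h | h <;> simp [h]
      rw [this, zero_div]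
    rw [this]
    exact (Real.exp_pos _).le

end Pool.Agent.Helper131.Slab
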