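import Pool.Agent.Helper131.Slab.Defs2
import Pool.Agent.Helper131.Slab.L_sinc_up6

set_option maxRecDepth 100000

namespace Pool.Agent.Helper131.Slab

open MeasureTheory Set intervalIntegral Filter Topology

theorem J2_lam_J2 : lam 2 = 5 * Real.pi / 3 := by
  unfold lam
  norm_num

theorem J2_sinc_nonpos_J2 (x : ℝ) (h1 : Real.pi < |x|) (h2 : |x| ≤ 2 * Real.pi) : Real.sinc x ≤ 0 := by
  have hpi := Real.pi_pos
  have e : Real.sinc x = Real.sinc |x| := by
    rcases abs_choice x with h | h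
    · rw [h]
    · rw [h, Real.sinc_neg]
  rw [e, Real.sinc_of_ne_zero (by linarith)]
  have hs : Real.sin |x| ≤ 0 := by
    have := Real.sin_nonpos_of_nonpos_of_neg_pi_le (x := |x| - 2 * Real.pi) (by linarith) (by linarith)
    rwa [Real.sin_sub_two_pi] at this
  exact div_nonpos_of_nonpos_of_nonneg hs (abs_nonneg x)

theorem J2 {n : ℕ} (a : Fin (n + 1) → ℝ) (p : Fin (n + 1)) (hs : ∑ i, a i ^ 2 = 1)
    (h2 : |a p| ≤ 0.775) (hr : ∀ j, |a (p.succAbove j)| ≤ 0.51) :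
    PP a 2 ≤ Real.exp (-(lam 2 ^ 2 / 6 + lam 2 ^ 4 / 180 * (∑ i, a i ^ 4)
      + lam 2 ^ 6 / 2835 * (∑ i, a i ^ 4) ^ 2)) := by
  have hpi := Real.pi_pos
  have hl := J2_lam_J2
  have hlpos : 0 < lam 2 := by rw [hl]; positivity
  have hj : ∀ j, |lam 2 * a (p.succAbove j)| ≤ Real.pi := by
    intro j
    rw [abs_mul, abs_of_pos hlpos]
    calc lam 2 * |a (p.succAbove j)| ≤ lam 2 * 0.51 :=
          mul_le_mul_of_nonneg_left (hr j) hlpos.le
      _ ≤ Real.pi := by rw [hl]; nlinarith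
  by_cases hp : |lam 2 * a p| ≤ Real.pi
  · have hall : ∀ i, |lam 2 * a i| ≤ Real.pi := by
      intro i
      rcases Fin.eq_self_or_eq_succAbove p i with h | ⟨j, h⟩
      · rw [h]; exact hp
      · rw [h]; exact hj j
    have h1 : PP a 2 ≤ ∏ i, Real.exp (-((lam 2 * a i) ^ 2 / 6 + (lam 2 * a i) ^ 4 / 180
        + (lam 2 * a i) ^ 6 / 2835)) := by
      unfold PP
      exact Finset.prod_le_prod (fun i _ => sinc_nonneg_of_abs_le_pi _ (hall i))
        (fun i _ => sinc_up6 _ (hall i))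
    rw [← Real.exp_sum] at h1
    refine h1.trans (Real.exp_le_exp.mpr ?_)
    have hCS : (∑ i, a i ^ 4) ^ 2 ≤ ∑ i, a i ^ 6 := by
      have := Finset.sum_mul_sq_le_sq_mul_sq Finset.univ a (fun i => a i ^ 3)
      rw [hs, one_mul] at this
      have e1 : ∑ i, a i * a i ^ 3 = ∑ i, a i ^ 4 := Finset.sum_congr rfl fun i _ => by ring
      have e2 : ∑ i, (a i ^ 3) ^ 2 = ∑ i, a i ^ 6 := Finset.sum_congr rfl fun i _ => by ring
      rw [e1, e2] at this
      exact this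
    have e3 : ∑ i, -((lam 2 * a i) ^ 2 / 6 + (lam 2 * a i) ^ 4 / 180 + (lam 2 * a i) ^ 6 / 2835)
        = -(lam 2 ^ 2 / 6 * (∑ i, a i ^ 2) + lam 2 ^ 4 / 180 * (∑ i, a i ^ 4)
          + lam 2 ^ 6 / 2835 * (∑ i, a i ^ 6)) := by
      rw [Finset.mul_sum, Finset.mul_sum, Finset.mul_sum, ← Finset.sum_add_distrib,
        ← Finset.sum_add_distrib, ← Finset.sum_neg_distrib]
      exact Finset.sum_congr rfl fun i _ => by ring
    rw [e3, hs, mul_one, neg_le_neg_iff]
    have h6 : 0 ≤ lam 2 ^ 6 / 2835 := by positivity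
    have := mul_le_mul_of_nonneg_left hCS h6
    linarith
  · push Not at hp
    have hp2 : |lam 2 * a p| ≤ 2 * Real.pi := by
      rw [abs_mul, abs_of_pos hlpos]
      calc lam 2 * |a p| ≤ lam 2 * 0.775 := mul_le_mul_of_nonneg_left h2 hlpos.le
        _ ≤ 2 * Real.pi := by rw [hl]; nlinarith
    have h0 := J2_sinc_nonpos_J2 _ hp hp2
    have hprod : 0 ≤ ∏ j, Real.sinc (lam 2 * a (p.succAbove j)) :=
      Finset.prod_nonneg fun j _ => sinc_nonneg_of_abs_le_pi _ (hj j)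
    have h1 : PP a 2 ≤ 0 := by
      unfold PP
      rw [Fin.prod_univ_succAbove _ p]
      exact mul_nonpos_of_nonpos_of_nonneg h0 hprod
    exact h1.trans (Real.exp_pos _).le

end Pool.Agent.Helper131.Slab
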