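import Pool.Agent.Helper131.Slab.Defs2

set_option maxRecDepth 100000

namespace Pool.Agent.Helper131.Slab

open MeasureTheory Set intervalIntegral Filter Topology

theorem J2neg {n : ℕ} (a : Fin (n + 1) → ℝ) (p : Fin (n + 1))
    (h1 : 0.6 ≤ |a p|) (h2 : |a p| ≤ 0.775) (hr : ∀ j, |a (p.succAbove j)| ≤ 0.51) :
    PP a 2 ≤ 0 := by
  have hsabs : ∀ x : ℝ, Real.sinc x = Real.sinc |x| := by
    intro x
    rcases abs_choice x with h | h
    · rw [h]
    · rw [h, Real.sinc_neg]
  have hπ := Real.pi_pos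
  have hl : lam 2 = 5 * Real.pi / 3 := by unfold lam; norm_num
  have hlpos : 0 < lam 2 := by rw [hl]; positivity
  unfold PP
  rw [Fin.prod_univ_succAbove _ p]
  apply mul_nonpos_of_nonpos_of_nonneg
  · rw [hsabs, abs_mul, abs_of_pos hlpos]
    have hx1 : Real.pi ≤ lam 2 * |a p| := by rw [hl]; nlinarith
    have hx2 : lam 2 * |a p| ≤ 2 * Real.pi := by rw [hl]; nlinarith
    have hx0 : lam 2 * |a p| ≠ 0 := by
      have : 0 < lam 2 * |a p| := lt_of_lt_of_le hπ hx1
      exact this.ne'
    rw [Real.sinc_of_ne_zero hx0]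
    apply div_nonpos_of_nonpos_of_nonneg _ (by linarith)
    have h3 : Real.sin (lam 2 * |a p|) = - Real.sin (lam 2 * |a p| - Real.pi) := by
      rw [Real.sin_sub_pi]; ring
    rw [h3]
    have := Real.sin_nonneg_of_nonneg_of_le_pi (x := lam 2 * |a p| - Real.pi) (by linarith) (by linarith)
    linarith
  · apply Finset.prod_nonneg
    intro j _
    rw [hsabs, abs_mul, abs_of_pos hlpos]
    have hj := hr j
    have hj0 := abs_nonneg (a (p.succAbove j))
    by_cases h0 : lam 2 * |a (p.succAbove j)| = 0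
    · rw [h0, Real.sinc_zero]; norm_num
    · rw [Real.sinc_of_ne_zero h0]
      apply div_nonneg _ (by positivity)
      apply Real.sin_nonneg_of_nonneg_of_le_pi (by positivity)
      rw [hl]; nlinarith

end Pool.Agent.Helper131.Slab
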