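import Pool.Agent.Helper131.Slab.Defs2

set_option maxRecDepth 100000

namespace Pool.Agent.Helper131.Slab

open MeasureTheory Set intervalIntegral Filter Topology

theorem abs_sinc_6 (x : ℝ) (hx : |x| ≤ 3.56) : |Real.sinc x| ≤ Real.exp (-(1 / 6 * x ^ 2)) := by
  by_cases hpi : |x| ≤ Real.pi
  · rw [abs_of_nonneg (sinc_nonneg_of_abs_le_pi x hpi)]
    have h1 := sinc_le_exp x hpi
    have h2 : -(1 / 6 * x ^ 2) = -(x ^ 2 / 6) := by ring
    rw [h2]
    exact h1
  · push Not at hpi
    have hpi3 := Real.pi_gt_d4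
    have hpi4 := Real.pi_lt_d4
    have hx0 : x ≠ 0 := by
      intro h0
      rw [h0, abs_zero] at hpi
      linarith
    rw [Real.sinc_of_ne_zero hx0, abs_div]
    obtain ⟨y, hy⟩ : ∃ y, y = |x| := ⟨_, rfl⟩
    have hs : |Real.sin x| = |Real.sin y| := by
      rw [hy]
      rcases abs_choice x with h | h
      · rw [h]
      · rw [h, Real.sin_neg, abs_neg]
    have hx2 : x ^ 2 = y ^ 2 := by rw [hy, sq_abs]
    rw [hs, hx2, ← hy]
    rw [← hy] at hx hpi
    have h1 : |Real.sin y| ≤ y - Real.pi := by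
      have h2 : Real.sin y = -Real.sin (y - Real.pi) := by rw [Real.sin_sub_pi]; ring
      rw [h2, abs_neg]
      have h3 : 0 ≤ Real.sin (y - Real.pi) :=
        Real.sin_nonneg_of_nonneg_of_le_pi (by linarith) (by linarith)
      rw [abs_of_nonneg h3]
      exact Real.sin_le (by linarith)
    have hy0 : 0 < y := by linarith
    have h4 : |Real.sin y| / y ≤ 0.1176 := by
      rw [div_le_iff₀ hy0]
      have : y - Real.pi ≤ 0.1176 * y := by
        nlinarith
      linarith
    refine h4.trans ?_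
    have h5 : Real.exp (-(2.1123 : ℝ)) ≤ Real.exp (-(1 / 6 * y ^ 2)) := by
      apply Real.exp_le_exp.mpr
      nlinarith
    refine le_trans ?_ h5
    have h6 : Real.exp (-(2.1123 : ℝ)) = Real.exp (-1) * Real.exp (-1) * Real.exp (-0.1123) := by
      rw [← Real.exp_add, ← Real.exp_add]
      congr 1
      norm_num
    rw [h6]
    have h7 := Real.exp_neg_one_gt_d9
    have h8 : (1 : ℝ) - 0.1123 ≤ Real.exp (-0.1123) := by
      have := Real.add_one_le_exp (-0.1123 : ℝ)
      linarith
    have h9 : (0.1353 : ℝ) ≤ Real.exp (-1) * Real.exp (-1) := by nlinarith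
    nlinarith [mul_le_mul h9 h8 (by norm_num) (by positivity)]

end Pool.Agent.Helper131.Slab
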