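import Pool.Agent.Helper131.Slab.Defs2
import Pool.Agent.Helper131.Slab.L_abs_sinc_6

set_option maxRecDepth 100000

namespace Pool.Agent.Helper131.Slab

open MeasureTheory Set intervalIntegral Filter Topology

theorem as137_exp_abs_sinc_137 (y : ℝ) (hy0 : 0 ≤ y) (hy : y ≤ 3.7229) :
    (0.1495 : ℝ) ≤ Real.exp (-(0.137 * y ^ 2)) := by
  have h1 : 0.137 * y ^ 2 ≤ 4 * 0.47475 := by nlinarith
  have h2 : Real.exp (-(4 * 0.47475 : ℝ)) ≤ Real.exp (-(0.137 * y ^ 2)) := by
    apply Real.exp_le_exp.2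
    linarith
  refine le_trans ?_ h2
  have h3 := exp_neg_ge5 0.47475 (by norm_num)
  have h4 : (0.622 : ℝ) ≤ Real.exp (-0.47475) := by
    refine le_trans ?_ h3
    norm_num
  have h5 : Real.exp (-(4 * 0.47475 : ℝ)) = Real.exp (-0.47475) ^ 4 := by
    rw [← Real.exp_nat_mul]
    congr 1
    norm_num
  rw [h5]
  calc (0.1495 : ℝ) ≤ 0.622 ^ 4 := by norm_num
    _ ≤ _ := pow_le_pow_left₀ (by norm_num) h4 4

theorem as137_pos_abs_sinc_137 (y : ℝ) (hy1 : 3.56 < y) (hy : y ≤ 3.7229) :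
    |Real.sinc y| ≤ Real.exp (-(0.137 * y ^ 2)) := by
  have hy0 : 0 < y := by linarith
  refine le_trans ?_ (as137_exp_abs_sinc_137 y hy0.le hy)
  rw [Real.sinc_of_ne_zero hy0.ne', abs_div, abs_of_pos hy0, div_le_iff₀ hy0]
  have hpi1 := Real.pi_gt_d4
  have hpi2 := Real.pi_lt_d4
  have hs : |Real.sin y| = Real.sin (y - Real.pi) := by
    have h1 : Real.sin y = -Real.sin (y - Real.pi) := by
      rw [Real.sin_sub_pi]
      ring
    have h2 : 0 ≤ Real.sin (y - Real.pi) :=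
      Real.sin_nonneg_of_nonneg_of_le_pi (by linarith) (by linarith)
    rw [h1, abs_neg, abs_of_nonneg h2]
  rw [hs]
  rcases le_or_gt y 3.69 with h | h
  · have h1 : Real.sin (y - Real.pi) ≤ Real.sin 0.5485 :=
      Real.sin_le_sin_of_le_of_le_pi_div_two (by linarith) (by linarith) (by linarith)
    have h2 := sin_le_P5 0.5485 (by norm_num)
    have h3 : Real.sin (0.5485 : ℝ) ≤ 0.5215 := by
      refine h2.trans ?_
      norm_num
    nlinarith
  · have h1 : Real.sin (y - Real.pi) ≤ Real.sin 0.5814 :=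
      Real.sin_le_sin_of_le_of_le_pi_div_two (by linarith) (by linarith) (by linarith)
    have h2 := sin_le_P5 0.5814 (by norm_num)
    have h3 : Real.sin (0.5814 : ℝ) ≤ 0.5493 := by
      refine h2.trans ?_
      norm_num
    nlinarith



theorem abs_sinc_137 (x : ℝ) (hx : |x| ≤ 3.7229) : |Real.sinc x| ≤ Real.exp (-(0.137 * x ^ 2)) := by
  rcases le_or_gt |x| 3.56 with h | h
  · refine (abs_sinc_6 x h).trans ?_
    apply Real.exp_le_exp.2
    nlinarith [sq_nonneg x]
  · have h1 := as137_pos_abs_sinc_137 |x| h hx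
    rw [sq_abs] at h1
    rcases abs_cases x with ⟨h3, _⟩ | ⟨h3, _⟩
    · rwa [h3] at h1
    · rwa [h3, Real.sinc_neg] at h1

end Pool.Agent.Helper131.Slab
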