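import Pool.Agent.Helper131.Slab.Defs

set_option maxRecDepth 100000

namespace Pool.Agent.Helper131.Slab

open MeasureTheory Set intervalIntegral Filter Topology

theorem log_div_sq_aux_abs_sinc_log (y X : ℝ) (hy : Real.pi ≤ y) (hX : y ≤ X) :
    Real.log X / X ^ 2 * y ^ 2 ≤ Real.log y := by
  have hpi : 3 < Real.pi := Real.pi_gt_three
  have hy0 : 0 < y := by linarith
  have hX0 : 0 < X := by linarith
  have h1 : (1 : ℝ) ≤ Real.log y := by
    rw [Real.le_log_iff_exp_le hy0]
    have := Real.exp_one_lt_d9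
    linarith
  have h2 : Real.log ((X / y) ^ 2) ≤ (X / y) ^ 2 - 1 := Real.log_le_sub_one_of_pos (by positivity)
  rw [Real.log_pow, Real.log_div hX0.ne' hy0.ne'] at h2
  push_cast at h2
  have h3 : (Real.log X - Real.log y) * (2 * y ^ 2) ≤ X ^ 2 - y ^ 2 := by
    have h4 : ((X / y) ^ 2 - 1) * y ^ 2 = X ^ 2 - y ^ 2 := by field_simp
    nlinarith [mul_le_mul_of_nonneg_right h2 (sq_nonneg y)]
  have h5 : 0 ≤ X ^ 2 - y ^ 2 := by nlinarith
  have h6 : Real.log X * y ^ 2 ≤ Real.log y * X ^ 2 := by nlinarith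
  have h7 : Real.log X / X ^ 2 * y ^ 2 = Real.log X * y ^ 2 / X ^ 2 := by ring
  rw [h7, div_le_iff₀ (by positivity)]
  exact h6

theorem abs_sinc_log (X x : ℝ) (hX : Real.pi ≤ X) (hx : |x| ≤ X) :
    |Real.sinc x| ≤ Real.exp (-(Real.log X / X ^ 2 * x ^ 2)) := by
  have hpi : 3 < Real.pi := Real.pi_gt_three
  rcases le_total |x| Real.pi with h | h
  · have h1 := sinc_nonneg_of_abs_le_pi x h
    rw [abs_of_nonneg h1]
    refine (sinc_le_exp x h).trans ?_
    rw [Real.exp_le_exp]
    have h2 := log_div_sq_aux_abs_sinc_log Real.pi X le_rfl hX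
    have h3 : Real.log Real.pi ≤ 1.4 := by
      have : Real.log Real.pi ≤ Real.log (2 ^ 2) :=
        Real.log_le_log Real.pi_pos (by norm_num; exact Real.pi_le_four)
      rw [Real.log_pow] at this
      have h4 := Real.log_two_lt_d9
      push_cast at this
      linarith
    have h5 : Real.log X / X ^ 2 ≤ 1 / 6 := by
      have h9 : (9 : ℝ) ≤ Real.pi ^ 2 := by nlinarith
      have : Real.log X / X ^ 2 * Real.pi ^ 2 ≤ 1 / 6 * Real.pi ^ 2 := by linarith
      exact le_of_mul_le_mul_right this (by positivity)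
    nlinarith [mul_le_mul_of_nonneg_right h5 (sq_nonneg x)]
  · have hx0 : 0 < |x| := by linarith
    have hxne : x ≠ 0 := abs_pos.mp hx0
    rw [Real.sinc_of_ne_zero hxne, abs_div]
    have h1 : |Real.sin x| / |x| ≤ 1 / |x| :=
      div_le_div_of_nonneg_right (Real.abs_sin_le_one x) hx0.le
    refine h1.trans ?_
    have h2 := log_div_sq_aux_abs_sinc_log |x| X h hx
    rw [sq_abs] at h2
    have h3 : 1 / |x| = Real.exp (-(Real.log |x|)) := by
      rw [Real.exp_neg, Real.exp_log hx0, one_div]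
    rw [h3, Real.exp_le_exp]
    linarith

end Pool.Agent.Helper131.Slab
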