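import Pool.Agent.Helper131.Slab.Defs

set_option maxRecDepth 100000

namespace Pool.Agent.Helper131.Slab

open MeasureTheory Set intervalIntegral Filter Topology

theorem prod_abs_le {m : ℕ} (a : Fin m → ℝ) (b l X ρ : ℝ) (hl : 0 ≤ l) (hX : l * b ≤ X)
    (ha : ∀ i, |a i| ≤ b) (hs : ∀ x, |x| ≤ X → |Real.sinc x| ≤ Real.exp (-(ρ * x ^ 2))) :
    |∏ i, Real.sinc (l * a i)| ≤ Real.exp (-(ρ * l ^ 2 * ∑ i, a i ^ 2)) := by
  have h1 : -(ρ * l ^ 2 * ∑ i, a i ^ 2) = ∑ i, -(ρ * (l * a i) ^ 2) := by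
    rw [Finset.mul_sum, ← Finset.sum_neg_distrib]
    refine Finset.sum_congr rfl fun i _ => ?_
    ring
  rw [h1, Real.exp_sum, Finset.abs_prod]
  refine Finset.prod_le_prod (fun i _ => abs_nonneg _) fun i _ => hs _ ?_
  rw [abs_mul, abs_of_nonneg hl]
  exact (mul_le_mul_of_nonneg_left (ha i) hl).trans hX

end Pool.Agent.Helper131.Slab
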