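import Pool.Agent.Helper131.Slab.Defs2
import Pool.Agent.Helper131.Slab.L_abs_sinc_log
import Pool.Agent.Helper131.Slab.L_prod_abs_le

set_option maxRecDepth 100000

namespace Pool.Agent.Helper131.Slab

open MeasureTheory Set intervalIntegral Filter Topology

theorem all_bounds {n : ℕ} (a : Fin n → ℝ) (hs : ∑ i, a i ^ 2 = 1) (b : ℝ) (hb : 0 < b)
    (hr : ∀ i, |a i| ≤ b) :
    (∀ (k : ℕ) (ρ : ℝ), 0 ≤ ρ → (∀ x, |x| ≤ lam k * b → |Real.sinc x| ≤ Real.exp (-(ρ * x ^ 2))) →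
      |PP a k| ≤ Real.exp (-(ρ * lam k ^ 2))) ∧
    (∀ k : ℕ, Real.pi ≤ lam k * b →
      |PP a k| ≤ Real.exp (-(1 / b ^ 2 * Real.log (lam k * b)))) ∧
    (Real.pi ≤ lam 5 * b → 3 * b ^ 2 ≤ 1 → ∀ k : ℕ, 5 ≤ k →
      |PP a k| ≤ Real.exp (-(1 / b ^ 2 * Real.log (lam 5 * b))) * (11 / (2 * (k : ℝ) + 1)) ^ 3) := by
  have hpi := Real.pi_pos
  have hlam : ∀ k : ℕ, 0 < lam k := by
    intro k
    unfold lam
    positivity
  have h1 : ∀ (k : ℕ) (ρ : ℝ), 0 ≤ ρ →
      (∀ x, |x| ≤ lam k * b → |Real.sinc x| ≤ Real.exp (-(ρ * x ^ 2))) →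
      |PP a k| ≤ Real.exp (-(ρ * lam k ^ 2)) := by
    intro k ρ _ h
    have := prod_abs_le a b (lam k) (lam k * b) ρ (hlam k).le le_rfl hr h
    rw [hs, mul_one] at this
    exact this
  have h2 : ∀ k : ℕ, Real.pi ≤ lam k * b →
      |PP a k| ≤ Real.exp (-(1 / b ^ 2 * Real.log (lam k * b))) := by
    intro k hk
    have hX : 1 ≤ lam k * b := le_trans (by linarith [Real.pi_gt_three]) hk
    have h3 := h1 k (Real.log (lam k * b) / (lam k * b) ^ 2)
      (div_nonneg (Real.log_nonneg hX) (sq_nonneg _))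
      (fun x hx => abs_sinc_log (lam k * b) x hk hx)
    have e : Real.log (lam k * b) / (lam k * b) ^ 2 * lam k ^ 2 =
        1 / b ^ 2 * Real.log (lam k * b) := by
      have := (hlam k).ne'
      field_simp
    rwa [e] at h3
  refine ⟨h1, h2, ?_⟩
  intro h5 h3b k hk
  have hk' : (5:ℝ) ≤ k := by exact_mod_cast hk
  set q : ℝ := (2 * (k:ℝ) + 1) / 11 with hq
  have hq1 : 1 ≤ q := by
    rw [hq, le_div_iff₀ (by norm_num)]
    linarith
  have hq0 : 0 < q := by linarith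
  have elam : lam k * b = (lam 5 * b) * q := by
    unfold lam
    rw [hq]
    push_cast
    ring
  have hX5 : 1 ≤ lam 5 * b := le_trans (by linarith [Real.pi_gt_three]) h5
  have hX5' : 0 < lam 5 * b := by linarith
  have hkb : Real.pi ≤ lam k * b := by
    rw [elam]
    nlinarith
  have h4 := h2 k hkb
  have hlog : Real.log (lam k * b) = Real.log (lam 5 * b) + Real.log q := by
    rw [elam, Real.log_mul hX5'.ne' hq0.ne']
  have hlq : 0 ≤ Real.log q := Real.log_nonneg hq1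
  have hb2 : (3:ℝ) ≤ 1 / b ^ 2 := by
    rw [le_div_iff₀ (by positivity)]
    exact h3b
  refine h4.trans ?_
  rw [hlog, mul_add, neg_add, Real.exp_add]
  refine mul_le_mul_of_nonneg_left ?_ (Real.exp_pos _).le
  have e3 : (11 / (2 * (k : ℝ) + 1)) ^ 3 = Real.exp (-(3 * Real.log q)) := by
    have e4 : Real.exp (3 * Real.log q) = q ^ 3 := by
      have : (3:ℝ) * Real.log q = ((3:ℕ):ℝ) * Real.log q := by norm_num
      rw [this, Real.exp_nat_mul, Real.exp_log hq0]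
    rw [Real.exp_neg, e4, hq, ← inv_pow, inv_div]
  rw [e3]
  refine Real.exp_le_exp.mpr ?_
  have := mul_le_mul_of_nonneg_right hb2 hlq
  linarith

end Pool.Agent.Helper131.Slab
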