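import Pool.Agent.Helper131.Slab.Defs

set_option maxRecDepth 100000

namespace Pool.Agent.Helper131.Slab

open MeasureTheory Set intervalIntegral Filter Topology

theorem clamp_eq_min_conc (s r : ℝ) (hs : 0 ≤ s) (hr : 0 ≤ r) : clamp s r = min r s := by
  unfold clamp
  rw [max_eq_right]
  exact le_min (by linarith) (by linarith)

theorem conc {n : ℕ} (a : Fin n → ℝ) (t1 t2 t V1 V2 : ℝ) (h0 : 0 ≤ t1) (h12 : t1 < t2) (h1 : t1 ≤ t)
    (h2 : t ≤ t2) (H1 : Low a (clamp t1) V1) (H2 : Low a (clamp t2) V2) :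
    Low a (clamp t) (((t2 - t) * V1 + (t - t1) * V2) / (t2 - t1)) := by
  obtain ⟨C1, hC1, g1⟩ := H1
  obtain ⟨C2, hC2, g2⟩ := H2
  have hd : 0 < t2 - t1 := by linarith
  set α : ℝ := (t2 - t) / (t2 - t1) with hα
  set β : ℝ := (t - t1) / (t2 - t1) with hβ
  have hα0 : 0 ≤ α := div_nonneg (by linarith) hd.le
  have hβ0 : 0 ≤ β := div_nonneg (by linarith) hd.le
  have hab : α + β = 1 := by
    rw [hα, hβ, ← add_div]
    rw [div_eq_one_iff_eq hd.ne']
    ring
  have hcomb : α * t1 + β * t2 = t := by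
    rw [hα, hβ]
    field_simp
    ring
  have hV : ((t2 - t) * V1 + (t - t1) * V2) / (t2 - t1) = α * V1 + β * V2 := by
    rw [hα, hβ]
    ring
  rw [hV]
  refine ⟨α * C1 + β * C2, by positivity, fun δ hδ => ?_⟩
  have k1 := mul_le_mul_of_nonneg_left (g1 δ hδ) hα0
  have k2 := mul_le_mul_of_nonneg_left (g2 δ hδ) hβ0
  have c1 : Continuous (fun x => α * clamp t1 x) := continuous_const.mul (clamp_continuous t1)
  have c2 : Continuous (fun x => β * clamp t2 x) := continuous_const.mul (clamp_continuous t2)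
  have e1 : cubeAvg a (fun x => α * clamp t1 x + β * clamp t2 x) δ =
      α * cubeAvg a (clamp t1) δ + β * cubeAvg a (clamp t2) δ := by
    rw [cubeAvg_add a c1 c2, cubeAvg_const_mul, cubeAvg_const_mul]
  have e2 : cubeAvg a (fun x => α * clamp t1 x + β * clamp t2 x) δ ≤ cubeAvg a (clamp t) δ := by
    have c3 : Continuous (fun x => α * clamp t1 x + β * clamp t2 x) := c1.add c2
    apply cubeAvg_le a c3 (clamp_continuous t)
    · intro x
      rw [clamp_odd t1 h0, clamp_odd t2 (by linarith)]
      ring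
    · intro x
      exact clamp_odd t (by linarith) x
    · intro x hx
      rw [clamp_eq_min_conc t1 x h0 hx, clamp_eq_min_conc t2 x (by linarith) hx,
        clamp_eq_min_conc t x (by linarith) hx]
      apply le_min
      · calc α * min x t1 + β * min x t2 ≤ α * x + β * x :=
              add_le_add (mul_le_mul_of_nonneg_left (min_le_left _ _) hα0)
                (mul_le_mul_of_nonneg_left (min_le_left _ _) hβ0)
          _ = x := by rw [← add_mul, hab, one_mul]
      · calc α * min x t1 + β * min x t2 ≤ α * t1 + β * t2 :=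
              add_le_add (mul_le_mul_of_nonneg_left (min_le_right _ _) hα0)
                (mul_le_mul_of_nonneg_left (min_le_right _ _) hβ0)
          _ = t := hcomb
    · exact hδ
  calc (α * V1 + β * V2) * δ - (α * C1 + β * C2) * δ ^ 3
      = α * (V1 * δ - C1 * δ ^ 3) + β * (V2 * δ - C2 * δ ^ 3) := by ring
    _ ≤ α * cubeAvg a (clamp t1) δ + β * cubeAvg a (clamp t2) δ := add_le_add k1 k2
    _ = cubeAvg a (fun x => α * clamp t1 x + β * clamp t2 x) δ := e1.symm
    _ ≤ cubeAvg a (clamp t) δ := e2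

end Pool.Agent.Helper131.Slab
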