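import Pool.Agent.Helper131.Slab.Defs2
import Pool.Agent.Helper131.Slab.L_conc

set_option maxRecDepth 100000

namespace Pool.Agent.Helper131.Slab

open MeasureTheory Set intervalIntegral Filter Topology

theorem conc_gg3_mono_conc_gg3 {n : ℕ} (a : Fin n → ℝ) (f : ℝ → ℝ) (V V' : ℝ) (h : V' ≤ V)
    (H : Low a f V) : Low a f V' := by
  obtain ⟨C, hC, H⟩ := H
  refine ⟨C, hC, fun δ hδ => ?_⟩
  have h1 := H δ hδ
  have h2 : V' * δ ≤ V * δ := mul_le_mul_of_nonneg_right h hδ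
  linarith

theorem conc_gg3 {n : ℕ} (a : Fin n → ℝ) (t : ℝ) (h1 : 1 ≤ t) (h2 : t ≤ 1.015)
    (H1 : Low a (clamp 1.0) (gg3 1.0 + 0.00003))
    (H2 : Low a (clamp 1.015) (gg3 1.015 + 0.00003)) :
    Low a (clamp t) (gg3 t) := by
  have hc := conc a 1.0 1.015 t _ _ (by norm_num) (by norm_num) (by norm_num; linarith) h2 H1 H2
  refine conc_gg3_mono_conc_gg3 a _ _ _ ?_ hc
  rw [le_div_iff₀ (by norm_num)]
  have hr0 : 0 ≤ Real.sqrt 3 := Real.sqrt_nonneg _
  have hr1 : Real.sqrt 3 ≤ 17321 / 10000 := by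
    rw [Real.sqrt_le_left (by norm_num)]
    norm_num
  have hr2 : 17 / 10 ≤ Real.sqrt 3 := by
    apply Real.le_sqrt_of_sq_le
    norm_num
  have e1 : (1.0 : ℝ) = 1 := by norm_num
  have e2 : (1.015 : ℝ) = 203 / 200 := by norm_num
  have e3 : (0.00003 : ℝ) = 3 / 100000 := by norm_num
  have h2' : t ≤ 203 / 200 := by rw [← e2]; exact h2
  clear h2 H1 H2 hc
  rw [e1, e2, e3]
  unfold gg3
  set r := Real.sqrt 3 with hr
  have key : (203 / 200 - t) * ((1 - r / 8 * (r - 1) ^ 3) + 3 / 100000) +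
      (t - 1) * ((1 - r / 8 * (r - 203 / 200) ^ 3) + 3 / 100000) -
      (1 - r / 8 * (r - t) ^ 3) * (203 / 200 - 1) =
      3 / 200 * (3 / 100000) - r / 8 * (3 / 200) * ((t - 1) * (203 / 200 - t) * (3 * r - t - 403 / 200)) := by
    ring
  have h3 : (t - 1) * (203 / 200 - t) ≤ 9 / 160000 := by nlinarith [sq_nonneg (t - 403 / 400)]
  have h4 : 0 ≤ (t - 1) * (203 / 200 - t) := mul_nonneg (by linarith) (by linarith)
  have h5 : 3 * r - t - 403 / 200 ≤ 21813 / 10000 := by linarith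
  have h6 : 0 ≤ 3 * r - t - 403 / 200 := by linarith
  have h7 : (t - 1) * (203 / 200 - t) * (3 * r - t - 403 / 200) ≤ 9 / 160000 * (21813 / 10000) :=
    mul_le_mul h3 h5 h6 (by norm_num)
  have h8 : 0 ≤ (t - 1) * (203 / 200 - t) * (3 * r - t - 403 / 200) := mul_nonneg h4 h6
  have h9 : r * ((t - 1) * (203 / 200 - t) * (3 * r - t - 403 / 200)) ≤
      17321 / 10000 * (9 / 160000 * (21813 / 10000)) :=
    mul_le_mul hr1 h7 h8 (by norm_num)
  have h10 : 0 ≤ 3 / 200 * (3 / 100000) - r / 8 * (3 / 200) *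
      ((t - 1) * (203 / 200 - t) * (3 * r - t - 403 / 200)) := by
    have : r / 8 * (3 / 200) * ((t - 1) * (203 / 200 - t) * (3 * r - t - 403 / 200)) =
      3 / 1600 * (r * ((t - 1) * (203 / 200 - t) * (3 * r - t - 403 / 200))) := by ring
    rw [this]
    norm_num at h9 ⊢
    linarith
  linarith

end Pool.Agent.Helper131.Slab
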