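import Pool.Agent.Helper131.Slab.Defs2

set_option maxRecDepth 100000

namespace Pool.Agent.Helper131.Slab

open MeasureTheory Set intervalIntegral Filter Topology

theorem ineq1a2 (α t ρ : ℝ) (h1 : 0.775 ≤ α) (h2 : α ≤ 1) (h3 : 1 < t) (h4 : t ≤ 1.015)
    (hρ : 0 < ρ) (hρ2 : ρ ^ 2 = 1 - α ^ 2) (h9 : 9 * (α - t) ^ 2 ≤ ρ ^ 2) :
    (α + ρ - t) ^ 2 / (4 * α * ρ) ≤ Real.sqrt 3 / 8 * (Real.sqrt 3 - t) ^ 3 := by
  have hα0 : 0 < α := by linarith
  have hα1 : 0 < 1 + α := by linarith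
  -- the square root of three
  obtain ⟨q, hq⟩ : ∃ q : ℝ, q = Real.sqrt 3 := ⟨_, rfl⟩
  have hqq : q * q = 3 := by rw [hq]; exact Real.mul_self_sqrt (by norm_num)
  have hq0 : 0 ≤ q := by rw [hq]; exact Real.sqrt_nonneg 3
  have hq1 : q ≤ 1.73206 := by
    by_contra hcon
    push Not at hcon
    have h5 : (1.73206 : ℝ) * 1.73206 < q * q := mul_lt_mul'' hcon hcon (by norm_num) (by norm_num)
    rw [hqq] at h5
    norm_num at h5
  have hq2 : 1.732 ≤ q := by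
    by_contra hcon
    push Not at hcon
    have h5 : q * q < (1.732 : ℝ) * 1.732 := mul_lt_mul'' hcon hcon hq0 hq0
    rw [hqq] at h5
    norm_num at h5
  rw [← hq]
  -- the constraint
  have h5 : 3 * (t - α) ≤ ρ := by
    by_contra hcon
    push Not at hcon
    have h6 : ρ * ρ < 3 * (t - α) * (3 * (t - α)) := mul_lt_mul'' hcon hcon hρ.le hρ.le
    nlinarith
  obtain ⟨τ, hτ⟩ : ∃ τ : ℝ, τ = ρ / (1 + α) := ⟨_, rfl⟩
  have hτ0 : 0 < τ := by rw [hτ]; exact div_pos hρ hα1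
  have hρτ : ρ = τ * (1 + α) := by rw [hτ, div_mul_cancel₀ _ hα1.ne']
  have hτα : 1 - α = ρ * τ := by
    have h6 : (1 - α) * (1 + α) = ρ * τ * (1 + α) := by
      calc (1 - α) * (1 + α) = ρ ^ 2 := by rw [hρ2]; ring
        _ = ρ * (τ * (1 + α)) := by rw [← hρτ]; ring
        _ = ρ * τ * (1 + α) := by ring
    exact mul_right_cancel₀ hα1.ne' h6
  have hτ3 : τ ≤ 1 / 3 := by
    have h6 : ρ * (3 * τ) ≤ ρ * 1 := by
      have h7 : ρ * (3 * τ) = 3 * (1 - α) := by rw [hτα]; ring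
      rw [h7]
      linarith
    have h7 := le_of_mul_le_mul_left h6 hρ
    linarith
  have hα2 : α * (1 + τ ^ 2) = 1 - τ ^ 2 := by
    have h6 : 1 - α = τ ^ 2 * (1 + α) := by
      calc 1 - α = ρ * τ := hτα
        _ = τ * (1 + α) * τ := by rw [← hρτ]
        _ = _ := by ring
    linarith
  have hαle : α ≤ 1 - τ ^ 2 := by
    have h6 : 0 ≤ α * τ ^ 2 := by positivity
    linarith
  -- first inequality
  have hs : α + ρ - 1 = ρ * (1 - τ) := by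
    have h6 : ρ * (1 - τ) = ρ - ρ * τ := by ring
    rw [h6, ← hτα]
    ring
  have hi : (α + ρ - 1) ^ 2 ≤ α * ρ / 3 := by
    have h6 : 0 ≤ (1 - 2 * τ) * (1 - 3 * τ) := mul_nonneg (by linarith) (by linarith)
    have h7 : 0 ≤ (1 - τ) * ((1 - 2 * τ) * (1 - 3 * τ)) := mul_nonneg (by linarith) h6
    have h8 : 6 * τ * (1 - τ) ^ 2 ≤ 1 - τ ^ 2 := by
      have h9 : (1 - τ) * ((1 - 2 * τ) * (1 - 3 * τ)) = 1 - τ ^ 2 - 6 * τ * (1 - τ) ^ 2 := by ring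
      linarith
    have h9 : 6 * τ * (1 - τ) ^ 2 * (1 + α) ≤ (1 - τ ^ 2) * (1 + α) :=
      mul_le_mul_of_nonneg_right h8 hα1.le
    have h10 : (1 - τ ^ 2) * (1 + α) = 2 * α := by
      have h11 : τ ^ 2 * (1 + α) = 1 - α := by linarith
      have h12 : (1 - τ ^ 2) * (1 + α) = (1 + α) - τ ^ 2 * (1 + α) := by ring
      rw [h12, h11]
      ring
    have h11 : 3 * ρ * (1 - τ) ^ 2 ≤ α := by
      have h12 : 6 * τ * (1 - τ) ^ 2 * (1 + α) = 2 * (3 * ρ * (1 - τ) ^ 2) := by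
        calc 6 * τ * (1 - τ) ^ 2 * (1 + α) = 6 * (τ * (1 + α)) * (1 - τ) ^ 2 := by ring
          _ = 6 * ρ * (1 - τ) ^ 2 := by rw [← hρτ]
          _ = _ := by ring
      linarith
    rw [hs]
    have h12 : ρ * (3 * ρ * (1 - τ) ^ 2) ≤ ρ * α := mul_le_mul_of_nonneg_left h11 hρ.le
    have h13 : (ρ * (1 - τ)) ^ 2 = ρ * (3 * ρ * (1 - τ) ^ 2) / 3 := by ring
    rw [h13]
    linarith
  -- second inequality
  have hii : 1.3926 * (α * ρ) ≤ (α + ρ - 1) + 2 * ρ / 3 := by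
    rw [hs]
    have h6 : 1.3926 * α ≤ 5 / 3 - τ := by
      have h7 : 1.3926 * (1 - τ ^ 2) ≤ 5 / 3 - τ := by
        have h8 := sq_nonneg (τ - 0.36)
        have h9 := sq_nonneg τ
        nlinarith
      have h8 : 1.3926 * α ≤ 1.3926 * (1 - τ ^ 2) := by
        apply mul_le_mul_of_nonneg_left hαle
        norm_num
      linarith
    have h7 : ρ * (1.3926 * α) ≤ ρ * (5 / 3 - τ) := mul_le_mul_of_nonneg_left h6 hρ.le
    have h8 : ρ * (1 - τ) + 2 * ρ / 3 = ρ * (5 / 3 - τ) := by ring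
    rw [h8]
    linarith
  -- lower bound of the right hand side
  have hR : (9 - 5 * q) / 4 - (6 * q - 9) / 4 * (t - 1) ≤ q / 8 * (q - t) ^ 3 := by
    have h6 : 0 ≤ q / 8 * ((t - 1) ^ 2 * (3 * (q - 1) - (t - 1))) := by
      apply mul_nonneg (by linarith)
      apply mul_nonneg (sq_nonneg _)
      linarith
    have h7 : q / 8 * (q - t) ^ 3 - ((9 - 5 * q) / 4 - (6 * q - 9) / 4 * (t - 1)) -
        q / 8 * ((t - 1) ^ 2 * (3 * (q - 1) - (t - 1))) =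
        (q * q - 3) * ((q * q) / 8 - 3 * q / 8 + 6 / 8 - 3 * (t - 1) * (q - 2) / 8) := by
      ring
    rw [hqq] at h7
    linarith
  refine le_trans ?_ hR
  have hαρ : 0 < α * ρ := mul_pos hα0 hρ
  rw [div_le_iff₀ (by positivity)]
  have hM : 2 * ρ / 3 ≤ α + ρ - t := by linarith
  have hu : 0 ≤ t - 1 := by linarith
  have e1 : (α + ρ - t) ^ 2 = (α + ρ - 1) ^ 2 - (t - 1) * ((α + ρ - 1) + (α + ρ - t)) := by ring
  have e2 : (t - 1) * ((α + ρ - 1) + 2 * ρ / 3) ≤ (t - 1) * ((α + ρ - 1) + (α + ρ - t)) :=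
    mul_le_mul_of_nonneg_left (by linarith) hu
  have e3 : (t - 1) * (1.3926 * (α * ρ)) ≤ (t - 1) * ((α + ρ - 1) + 2 * ρ / 3) :=
    mul_le_mul_of_nonneg_left hii hu
  have e4 : (6 * q - 9) * ((t - 1) * (α * ρ)) ≤ 1.3926 * ((t - 1) * (α * ρ)) :=
    mul_le_mul_of_nonneg_right (by linarith) (mul_nonneg hu hαρ.le)
  have e5 : α * ρ * (1 / 3) ≤ α * ρ * (9 - 5 * q) :=
    mul_le_mul_of_nonneg_left (by linarith) hαρ.le
  have e6 : ((9 - 5 * q) / 4 - (6 * q - 9) / 4 * (t - 1)) * (4 * α * ρ) =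
      α * ρ * (9 - 5 * q) - (6 * q - 9) * ((t - 1) * (α * ρ)) := by ring
  rw [e6, e1]
  linarith

end Pool.Agent.Helper131.Slab
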