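import Pool.Agent.Helper131.Slab.Defs2

set_option maxRecDepth 100000

namespace Pool.Agent.Helper131.Slab

open MeasureTheory Set intervalIntegral Filter Topology

theorem ineq1c2 (α t : ℝ) (h1 : 0.775 ≤ α) (h2 : α ≤ 1) (h3 : 1 < t) (h4 : t ≤ 1.015)
    (h9 : 1 - α ^ 2 ≤ 9 * (t - α) ^ 2) :
    1 / (27 * α * (t - α)) * (1 - α ^ 2) ≤ Real.sqrt 3 / 8 * (Real.sqrt 3 - t) ^ 3 := by
  obtain ⟨w, hw⟩ : ∃ w, w = Real.sqrt 3 := ⟨_, rfl⟩
  have hw2 : w ^ 2 = 3 := by rw [hw]; exact Real.sq_sqrt (by norm_num)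
  have hw0 : 0 ≤ w := by rw [hw]; exact Real.sqrt_nonneg _
  have hwu : w ≤ 1.7320509 := by
    rw [hw]
    exact Real.sqrt_le_iff.2 ⟨by norm_num, by norm_num⟩
  rw [← hw]
  obtain ⟨u, hu⟩ : ∃ u, u = t - 1 := ⟨_, rfl⟩
  obtain ⟨b, hb⟩ : ∃ b, b = 1 - α := ⟨_, rfl⟩
  have ht : t = 1 + u := by linarith
  have hα : α = 1 - b := by linarith
  have hu0 : 0 < u := by linarith
  have hu1 : u ≤ 0.015 := by linarith
  have hb0 : 0 ≤ b := by linarith
  have hb1 : b ≤ 0.225 := by linarith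
  -- the right hand side
  have hR : w / 8 * (w - t) ^ 3 = (9 + 9 * t ^ 2 - w * (9 * t + t ^ 3)) / 8 := by
    have e : w * (w - t) ^ 3 = w ^ 2 * w ^ 2 - 3 * (w ^ 2 * w) * t + 3 * w ^ 2 * t ^ 2 - w * t ^ 3 := by
      ring
    have e2 : w / 8 * (w - t) ^ 3 = (w * (w - t) ^ 3) / 8 := by ring
    rw [e2, e, hw2]
    ring
  have hρ : 0.679491 - 2.7846108 * u ≤ 9 + 9 * t ^ 2 - w * (9 * t + t ^ 3) := by
    rw [ht]
    have e : 9 + 9 * (1 + u) ^ 2 - w * (9 * (1 + u) + (1 + u) ^ 3) =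
      (18 - 10 * w) + (18 - 12 * w) * u + (9 - 3 * w - w * u) * u ^ 2 := by ring
    rw [e]
    have e1 : 0 ≤ (9 - 3 * w - w * u) * u ^ 2 := by
      apply mul_nonneg _ (sq_nonneg u)
      nlinarith
    have e2 : (18 - 12 * 1.7320509) * u ≤ (18 - 12 * w) * u :=
      mul_le_mul_of_nonneg_right (by linarith) hu0.le
    norm_num at e2
    linarith
  have hs : 0 < t - α := by linarith
  have hα0 : 0 < α := by linarith
  have hden : 0 < 27 * α * (t - α) := by positivity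
  rw [hR, one_div, inv_mul_le_iff₀ hden]
  -- the polynomial inequality
  have hpoly : 8 * (1 - α ^ 2) ≤ 27 * α * (t - α) * (0.679491 - 2.7846108 * u) := by
    rw [hα, ht]
    have g0 : 0 ≤ b * (2.346257 - 10.346257 * b) := by
      apply mul_nonneg hb0
      linarith
    have g1 : 0 ≤ 27 * (1 - b) * (b + 0.015) * 0.637721838 - 8 * b * (2 - b) := by
      nlinarith
    have g2 : 0 ≤ 27 * (1 - b) * 2.7846108 * (u * (0.015 - u)) := by
      have : 0 ≤ u * (0.015 - u) := mul_nonneg hu0.le (by linarith)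
      have : 0 ≤ 1 - b := by linarith
      positivity
    have g3 : 27 * (1 - b) * (b + u) * (0.679491 - 2.7846108 * u) - 8 * b * (2 - b) =
        (1 - u / 0.015) * (b * (2.346257 - 10.346257 * b)) +
        (u / 0.015) * (27 * (1 - b) * (b + 0.015) * 0.637721838 - 8 * b * (2 - b)) +
        27 * (1 - b) * 2.7846108 * (u * (0.015 - u)) := by
      ring
    have g4 : 0 ≤ 1 - u / 0.015 := by
      have : u / 0.015 ≤ 1 := by
        rw [div_le_one (by norm_num)]
        exact hu1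
      linarith
    have g5 : 0 ≤ u / 0.015 := by positivity
    have g6 : 0 ≤ 27 * (1 - b) * (b + u) * (0.679491 - 2.7846108 * u) - 8 * b * (2 - b) := by
      rw [g3]
      have a1 := mul_nonneg g4 g0
      have a2 := mul_nonneg g5 g1
      linarith
    have g7 : 8 * (1 - (1 - b) ^ 2) = 8 * b * (2 - b) := by ring
    have g8 : 27 * (1 - b) * (1 + u - (1 - b)) * (0.679491 - 2.7846108 * u) =
      27 * (1 - b) * (b + u) * (0.679491 - 2.7846108 * u) := by ring
    rw [g7, g8]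
    linarith
  have hmul : 27 * α * (t - α) * (0.679491 - 2.7846108 * u) ≤
      27 * α * (t - α) * (9 + 9 * t ^ 2 - w * (9 * t + t ^ 3)) :=
    mul_le_mul_of_nonneg_left hρ hden.le
  have hfin : 27 * α * (t - α) * ((9 + 9 * t ^ 2 - w * (9 * t + t ^ 3)) / 8) =
    (27 * α * (t - α) * (9 + 9 * t ^ 2 - w * (9 * t + t ^ 3))) / 8 := by ring
  rw [hfin]
  linarith

end Pool.Agent.Helper131.Slab
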