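import Pool.Agent.Helper131.Slab.Defs2

set_option maxRecDepth 100000

namespace Pool.Agent.Helper131.Slab

open MeasureTheory Set intervalIntegral Filter Topology

theorem numE0 (x : ℝ) (h0 : 0 ≤ x) :
    0.832955 * (1 - 0.00708 * x) ≤ Real.exp (-(lam 0 ^ 2 / 6 + lam 0 ^ 4 / 170 * x)) := by
  have hl : lam 0 = Real.pi / 3 := by simp [lam]
  rw [hl]
  have p1 := Real.pi_gt_d6
  have p2 := Real.pi_lt_d6
  have hp2 : Real.pi ^ 2 ≤ 9.869608 := by nlinarith
  have hp4 : Real.pi ^ 4 ≤ 97.409163 := by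
    have : Real.pi ^ 4 = (Real.pi ^ 2) ^ 2 := by ring
    rw [this]; nlinarith [sq_nonneg Real.pi]
  have hA : (Real.pi / 3) ^ 2 / 6 ≤ 0.18277052 := by
    have : (Real.pi / 3) ^ 2 / 6 = Real.pi ^ 2 / 54 := by ring
    rw [this]; linarith
  have hB : (Real.pi / 3) ^ 4 / 170 ≤ 0.0070740 + 0.000001 := by
    have : (Real.pi / 3) ^ 4 / 170 = Real.pi ^ 4 / 13770 := by ring
    rw [this]; linarith
  have hexp : (0.832955 : ℝ) ≤ Real.exp (-0.18277052) := by
    have h := Real.exp_bound' (x := (0.18277052:ℝ)) (by norm_num) (by norm_num) (n := 8) (by norm_num)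
    rw [Real.exp_neg]
    rw [le_inv_comm₀ (by norm_num) (Real.exp_pos _)]
    refine h.trans ?_
    simp only [Finset.sum_range_succ, Finset.sum_range_zero, Nat.factorial]
    norm_num
  have h1 : Real.exp (-((Real.pi / 3) ^ 2 / 6 + (Real.pi / 3) ^ 4 / 170 * x)) =
      Real.exp (-((Real.pi / 3) ^ 2 / 6)) * Real.exp (-((Real.pi / 3) ^ 4 / 170 * x)) := by
    rw [← Real.exp_add]; congr 1; ring
  rw [h1]
  have h2 : (0.832955:ℝ) ≤ Real.exp (-((Real.pi / 3) ^ 2 / 6)) :=
    hexp.trans (Real.exp_le_exp.mpr (by linarith))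
  have h3 : 1 - 0.00708 * x ≤ Real.exp (-((Real.pi / 3) ^ 4 / 170 * x)) := by
    have := Real.add_one_le_exp (-((Real.pi / 3) ^ 4 / 170 * x))
    have h4 : (Real.pi / 3) ^ 4 / 170 * x ≤ 0.00708 * x := by
      apply mul_le_mul_of_nonneg_right _ h0
      linarith
    linarith
  by_cases hx : 0 ≤ 1 - 0.00708 * x
  · exact mul_le_mul h2 h3 hx (Real.exp_pos _).le
  · push Not at hx
    have : 0.832955 * (1 - 0.00708 * x) ≤ 0 := by nlinarith
    exact this.trans (by positivity)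

end Pool.Agent.Helper131.Slab
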