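import Pool.Agent.Helper131.Slab.Defs2

set_option maxRecDepth 100000

namespace Pool.Agent.Helper131.Slab

open MeasureTheory Set intervalIntegral Filter Topology

theorem numE1 (x : ℝ) (h0 : 0 ≤ x) (h1 : x ≤ 0.4) :
    Real.exp (-(Real.pi ^ 2 / 6 + Real.pi ^ 4 / 180 * x)) ≤ 0.19303 * (1 - 0.4864 * x) := by
  have hpi := Real.pi_gt_d6
  have hpi2 : (3.141592 : ℝ) ^ 2 ≤ Real.pi ^ 2 := by
    exact pow_le_pow_left₀ (by norm_num) hpi.le 2
  have hpi4 : (3.141592 : ℝ) ^ 4 ≤ Real.pi ^ 4 := by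
    exact pow_le_pow_left₀ (by norm_num) hpi.le 4
  have e1 : Real.exp (-(Real.pi ^ 2 / 6)) ≤ 0.19303 := by
    have h2 : Real.exp (-(Real.pi ^ 2 / 6)) ≤ Real.exp (-1.64493) := by
      apply Real.exp_le_exp.2
      norm_num at hpi2 ⊢
      linarith
    refine h2.trans ?_
    rw [Real.exp_neg]
    have h3 := Real.sum_le_exp_of_nonneg (show (0:ℝ) ≤ 1.64493 by norm_num) 13
    have h4 : (1 / 0.19303 : ℝ) ≤ Real.exp 1.64493 := by
      refine le_trans ?_ h3
      norm_num [Finset.sum_range_succ, Nat.factorial]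
    rw [inv_le_comm₀ (Real.exp_pos _) (by norm_num)]
    rw [one_div] at h4
    exact h4
  have e2 : Real.exp (-(0.4 * (Real.pi ^ 4 / 180))) ≤ 0.80544 := by
    have h2 : Real.exp (-(0.4 * (Real.pi ^ 4 / 180))) ≤ Real.exp (-0.21646) := by
      apply Real.exp_le_exp.2
      norm_num at hpi4 ⊢
      linarith
    refine h2.trans ?_
    rw [Real.exp_neg]
    have h3 := Real.sum_le_exp_of_nonneg (show (0:ℝ) ≤ 0.21646 by norm_num) 6
    have h4 : (1 / 0.80544 : ℝ) ≤ Real.exp 0.21646 := by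
      refine le_trans ?_ h3
      norm_num [Finset.sum_range_succ, Nat.factorial]
    rw [inv_le_comm₀ (Real.exp_pos _) (by norm_num)]
    rw [one_div] at h4
    exact h4
  have e3 : Real.exp (-(Real.pi ^ 4 / 180 * x)) ≤ 1 - 0.4864 * x := by
    have hc := convexOn_exp.2 (Set.mem_univ (-(0.4 * (Real.pi ^ 4 / 180)))) (Set.mem_univ (0:ℝ))
      (show (0:ℝ) ≤ x / 0.4 by positivity) (show (0:ℝ) ≤ 1 - x / 0.4 by
        rw [sub_nonneg, div_le_one (by norm_num)]
        exact h1) (by ring)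
    simp only [smul_eq_mul, mul_zero, add_zero, Real.exp_zero, mul_one] at hc
    have h5 : x / 0.4 * -(0.4 * (Real.pi ^ 4 / 180)) = -(Real.pi ^ 4 / 180 * x) := by
      field_simp
    rw [h5] at hc
    have h6 : x / 0.4 * Real.exp (-(0.4 * (Real.pi ^ 4 / 180))) ≤ x / 0.4 * 0.80544 :=
      mul_le_mul_of_nonneg_left e2 (by positivity)
    refine (hc.trans (add_le_add_left h6 _)).trans (le_of_eq ?_)
    ring
  have h7 : 0 ≤ 1 - 0.4864 * x := by linarith
  calc Real.exp (-(Real.pi ^ 2 / 6 + Real.pi ^ 4 / 180 * x))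
      = Real.exp (-(Real.pi ^ 2 / 6)) * Real.exp (-(Real.pi ^ 4 / 180 * x)) := by
        rw [← Real.exp_add]
        congr 1
        ring
    _ ≤ 0.19303 * (1 - 0.4864 * x) :=
        mul_le_mul e1 e3 (Real.exp_pos _).le (by norm_num)

end Pool.Agent.Helper131.Slab
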