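import Pool.Agent.Helper131.Slab.Defs2

set_option maxRecDepth 100000

namespace Pool.Agent.Helper131.Slab

open MeasureTheory Set intervalIntegral Filter Topology

theorem numE2 (x : ℝ) (h0 : 0 ≤ x) (h1 : x ≤ 0.275) :
    Real.exp (-(lam 2 ^ 2 / 6 + lam 2 ^ 4 / 180 * x + lam 2 ^ 6 / 2835 * x ^ 2))
      ≤ 0.01037 * (1 - 4.17 * x + 4.38 * x ^ 2) := by
  have hpi := Real.pi_gt_d6
  have hl : (5.2359866 : ℝ) ≤ lam 2 := by
    unfold lam
    push_cast
    linarith
  have hl2 : (27.415555 : ℝ) ≤ lam 2 ^ 2 := by nlinarith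
  have hl4 : (751.6126 : ℝ) ≤ lam 2 ^ 4 := by nlinarith
  have hl6 : (20605.8 : ℝ) ≤ lam 2 ^ 6 := by nlinarith
  set y : ℝ := 4.1756 * x + 7.268 * x ^ 2 with hy
  have hy0 : 0 ≤ y := by positivity
  have hx2 : 0 ≤ x ^ 2 := sq_nonneg x
  have harg : 4.56925 + y ≤ lam 2 ^ 2 / 6 + lam 2 ^ 4 / 180 * x + lam 2 ^ 6 / 2835 * x ^ 2 := by
    have a1 : (4.1756 : ℝ) * x ≤ lam 2 ^ 4 / 180 * x :=
      mul_le_mul_of_nonneg_right (by linarith) h0
    have a2 : (7.268 : ℝ) * x ^ 2 ≤ lam 2 ^ 6 / 2835 * x ^ 2 :=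
      mul_le_mul_of_nonneg_right (by linarith) hx2
    linarith
  have hq : 0 < 1 - 4.17 * x + 4.38 * x ^ 2 := by nlinarith [sq_nonneg (x - 0.476)]
  have hE : Real.exp (-4.56925) ≤ 0.010366 := by
    have e1 : (2.7182818283 : ℝ) < Real.exp 1 := Real.exp_one_gt_d9
    have e4 : (54.598 : ℝ) ≤ Real.exp 4 := by
      have : Real.exp 4 = Real.exp 1 ^ 4 := by rw [← Real.exp_nat_mul]; norm_num
      rw [this]
      calc (54.598 : ℝ) ≤ 2.7182818283 ^ 4 := by norm_num
        _ ≤ Real.exp 1 ^ 4 := pow_le_pow_left₀ (by norm_num) e1.le 4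
    have e5 : (1.76693 : ℝ) ≤ Real.exp 0.56925 := by
      have := Real.sum_le_exp_of_nonneg (x := 0.56925) (by norm_num) 8
      refine le_trans ?_ this
      simp only [Finset.sum_range_succ, Finset.sum_range_zero, Nat.factorial]
      norm_num
    have e6 : Real.exp 4.56925 = Real.exp 4 * Real.exp 0.56925 := by
      rw [← Real.exp_add]; norm_num
    have e7 : (54.598 : ℝ) * 1.76693 ≤ Real.exp 4.56925 := by
      rw [e6]
      exact mul_le_mul e4 e5 (by norm_num) (Real.exp_pos _).le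
    rw [Real.exp_neg]
    rw [inv_le_comm₀ (Real.exp_pos _) (by norm_num)]
    refine le_trans ?_ e7
    norm_num
  have hS : 1 + y + y ^ 2 / 2 + y ^ 3 / 6 + y ^ 4 / 24 + y ^ 5 / 120 + y ^ 6 / 720
      ≤ Real.exp y := by
    have := Real.sum_le_exp_of_nonneg hy0 7
    refine le_trans (le_of_eq ?_) this
    simp only [Finset.sum_range_succ, Finset.sum_range_zero, Nat.factorial]
    push_cast
    ring
  have hpoly : 1 ≤ 1.00038 * (1 - 4.17 * x + 4.38 * x ^ 2) *
      (1 + y + y ^ 2 / 2 + y ^ 3 / 6 + y ^ 4 / 24 + y ^ 5 / 120 + y ^ 6 / 720) := by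
    have e : 1.00038 * (1 - 4.17 * x + 4.38 * x ^ 2) *
      (1 + y + y ^ 2 / 2 + y ^ 3 / 6 + y ^ 4 / 24 + y ^ 5 / 120 + y ^ 6 / 720) - 1 =
      (19 / 50000) * x ^ 0 + (350133 / 62500000) * x ^ 1 + (1846680021849 / 625000000000) * x ^ 2 + (-2301433232244197 / 390625000000000) * x ^ 3 + (-73365010725833406907 / 15625000000000000000) * x ^ 4 + (-3130798875033230144627099 / 97656250000000000000000) * x ^ 5 + (-86177902803669550786257361897 / 2929687500000000000000000000) * x ^ 6 + (-5995970683098189300138066103467 / 97656250000000000000000000000) * x ^ 7 + (-1869777884382374207209981399461 / 48828125000000000000000000000) * x ^ 8 + (-489782446121113566308582457949 / 14648437500000000000000000000) * x ^ 9 + (33052530020920253592443381183 / 97656250000000000000000000) * x ^ 10 + (12714352089427199913562717047 / 9765625000000000000000000) * x ^ 11 + (7156124577710209305016674143 / 2929687500000000000000000) * x ^ 12 + (1092814481951864153590628387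 / 488281250000000000000000) * x ^ 13 + (43799199599384799182591801 / 48828125000000000000000) * x ^ 14 := by
      rw [hy]; ring
    have hk : ∀ k : ℕ, x ^ (k + 2) ≤ (0.275 : ℝ) ^ k * x ^ 2 := by
      intro k
      rw [pow_add]
      exact mul_le_mul_of_nonneg_right (pow_le_pow_left₀ h0 h1 k) hx2
    have b3 := hk 1
    have b4 := hk 2
    have b5 := hk 3
    have b6 := hk 4
    have b7 := hk 5
    have b8 := hk 6
    have b9 := hk 7
    norm_num at b3 b4 b5 b6 b7 b8 b9
    have c10 : 0 ≤ x ^ 10 := by positivity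
    have c11 : 0 ≤ x ^ 11 := by positivity
    have c12 : 0 ≤ x ^ 12 := by positivity
    have c13 : 0 ≤ x ^ 13 := by positivity
    have c14 : 0 ≤ x ^ 14 := by positivity
    have : 0 ≤ 1.00038 * (1 - 4.17 * x + 4.38 * x ^ 2) *
      (1 + y + y ^ 2 / 2 + y ^ 3 / 6 + y ^ 4 / 24 + y ^ 5 / 120 + y ^ 6 / 720) - 1 := by
      rw [e]
      simp only [pow_zero, pow_one]
      linarith
    linarith
  have hfin : Real.exp (-y) ≤ 1.00038 * (1 - 4.17 * x + 4.38 * x ^ 2) := by
    have h2 : 1 ≤ 1.00038 * (1 - 4.17 * x + 4.38 * x ^ 2) * Real.exp y :=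
      hpoly.trans (mul_le_mul_of_nonneg_left hS (by positivity))
    rw [Real.exp_neg, inv_le_iff_one_le_mul₀ (Real.exp_pos _)]
    exact h2
  calc Real.exp (-(lam 2 ^ 2 / 6 + lam 2 ^ 4 / 180 * x + lam 2 ^ 6 / 2835 * x ^ 2))
      ≤ Real.exp (-4.56925 + -y) := Real.exp_le_exp.2 (by linarith)
    _ = Real.exp (-4.56925) * Real.exp (-y) := Real.exp_add _ _
    _ ≤ 0.010366 * (1.00038 * (1 - 4.17 * x + 4.38 * x ^ 2)) :=
        mul_le_mul hE hfin (Real.exp_pos _).le (by norm_num)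
    _ ≤ 0.01037 * (1 - 4.17 * x + 4.38 * x ^ 2) := by nlinarith

end Pool.Agent.Helper131.Slab
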