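import Pool.Agent.Helper131.Slab.Defs2

set_option maxRecDepth 100000

namespace Pool.Agent.Helper131.Slab

open MeasureTheory Set intervalIntegral Filter Topology

theorem numU0_exp_neg_numU0 (y c : ℝ) (hy : 0 ≤ y)
    (h : 1 ≤ c * (1 + y / 8 + (y / 8) ^ 2 / 2 + (y / 8) ^ 3 / 6 + (y / 8) ^ 4 / 24 +
      (y / 8) ^ 5 / 120 + (y / 8) ^ 6 / 720) ^ 8) : Real.exp (-y) ≤ c := by
  set S : ℝ := 1 + y / 8 + (y / 8) ^ 2 / 2 + (y / 8) ^ 3 / 6 + (y / 8) ^ 4 / 24 +
      (y / 8) ^ 5 / 120 + (y / 8) ^ 6 / 720 with hS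
  have h1 : S ≤ Real.exp (y / 8) := by
    have := Real.sum_le_exp_of_nonneg (x := y / 8) (by positivity) 7
    simp only [Finset.sum_range_succ, Finset.sum_range_zero, Nat.factorial] at this
    norm_num at this
    rw [hS]
    linarith
  have hS0 : 0 < S := by positivity
  have h2 : S ^ 8 ≤ Real.exp y := by
    have : Real.exp y = Real.exp (y / 8) ^ 8 := by
      rw [← Real.exp_nat_mul]
      congr 1
      push_cast
      ring
    rw [this]
    exact pow_le_pow_left₀ hS0.le h1 8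
  have hS8 : 0 < S ^ 8 := by positivity
  rw [Real.exp_neg]
  have h3 : (Real.exp y)⁻¹ ≤ (S ^ 8)⁻¹ := inv_anti₀ hS8 h2
  refine h3.trans ?_
  rw [inv_le_iff_one_le_mul₀ hS8]
  exact h

theorem numU0_log_numU0 (L X : ℝ) (hL : 0 ≤ L) (hL2 : L ≤ 2) (hX : 0 < X)
    (h : (1 + L / 2 + (L / 2) ^ 2 / 2 + (L / 2) ^ 3 / 6 + (L / 2) ^ 4 / 24 +
      (L / 2) ^ 5 / 120 + (L / 2) ^ 6 / 720 + (L / 2) ^ 7 / 5040 + (L / 2) ^ 8 / 35840) ^ 2 ≤ X) :
    L ≤ Real.log X := by
  rw [Real.le_log_iff_exp_le hX]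
  refine le_trans ?_ h
  have h1 := Real.exp_bound' (x := L / 2) (by linarith) (by linarith) (n := 8) (by norm_num)
  simp only [Finset.sum_range_succ, Finset.sum_range_zero, Nat.factorial] at h1
  norm_num at h1
  have h2 : Real.exp L = Real.exp (L / 2) ^ 2 := by
    rw [← Real.exp_nat_mul]
    congr 1
    push_cast
    ring
  rw [h2]
  apply pow_le_pow_left₀ (Real.exp_pos _).le
  refine h1.trans (le_of_eq ?_)
  ring

theorem numU0 : 0.175 * Real.exp (-(0.137 * lam 3 ^ 2 * (1 - 0.53 ^ 2))) ≤ 0.00089 ∧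
    1 / (lam 4 * 0.5075) * Real.exp (-((1 - 0.53 ^ 2) / 0.5075 ^ 2 * Real.log (lam 4 * 0.5075))) ≤ 0.00265 ∧
    1 / (lam 5 * 0.5075) * Real.exp (-((1 - 0.53 ^ 2) / 0.5075 ^ 2 * Real.log (lam 5 * 0.5075))) ≤ 0.00124 := by
  have hpi := Real.pi_gt_d6
  have h3 : lam 3 = 7 * Real.pi / 3 := by unfold lam; norm_num
  have h4 : lam 4 = 3 * Real.pi := by unfold lam; push_cast; ring
  have h5 : lam 5 = 11 * Real.pi / 3 := by unfold lam; norm_num
  have key : ∀ (X x0 c1 c : ℝ) (y : ℝ), 0 < x0 → x0 ≤ X → Real.exp (-y) ≤ c1 → 0 ≤ c1 →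
      c1 ≤ c * x0 → 1 / X * Real.exp (-y) ≤ c := by
    intro X x0 c1 c y hx0 hX he hc1 hc
    have hX0 : 0 < X := hx0.trans_le hX
    have h1 : 1 / X ≤ 1 / x0 := one_div_le_one_div_of_le hx0 hX
    calc 1 / X * Real.exp (-y) ≤ 1 / x0 * c1 :=
          mul_le_mul h1 he (Real.exp_pos _).le (by positivity)
      _ ≤ c := by
          rw [one_div, inv_mul_le_iff₀ hx0]
          linarith
  refine ⟨?_, ?_, ?_⟩
  · have h6 : (7.33038 : ℝ) ≤ lam 3 := by rw [h3]; linarith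
    have h7 : (7.33038 : ℝ) ^ 2 ≤ lam 3 ^ 2 := pow_le_pow_left₀ (by norm_num) h6 2
    have h8 : Real.exp (-(0.137 * lam 3 ^ 2 * (1 - 0.53 ^ 2))) ≤ Real.exp (-5.293) := by
      apply Real.exp_le_exp.2
      norm_num at h7 ⊢
      linarith
    have h9 : Real.exp (-5.293) ≤ 0.00508 := numU0_exp_neg_numU0 5.293 _ (by norm_num) (by norm_num)
    have h10 := h8.trans h9
    have : 0.175 * Real.exp (-(0.137 * lam 3 ^ 2 * (1 - 0.53 ^ 2))) ≤ 0.175 * (0.00508 : ℝ) :=
      mul_le_mul_of_nonneg_left h10 (by norm_num)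
    refine this.trans (by norm_num)
  · refine key _ 4.783072 0.012665 _ _ (by norm_num) (by rw [h4]; linarith) ?_ (by norm_num)
      (by norm_num)
    have hX : (4.783072 : ℝ) ≤ lam 4 * 0.5075 := by rw [h4]; linarith
    have h6 : (1.56505 : ℝ) ≤ Real.log (lam 4 * 0.5075) := by
      refine numU0_log_numU0 _ _ (by norm_num) (by norm_num) (by linarith) (le_trans ?_ hX)
      norm_num
    have h8 : Real.exp (-((1 - 0.53 ^ 2) / 0.5075 ^ 2 * Real.log (lam 4 * 0.5075))) ≤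
        Real.exp (-4.3696) := by
      apply Real.exp_le_exp.2
      norm_num at h6 ⊢
      linarith
    refine h8.trans (numU0_exp_neg_numU0 4.3696 _ (by norm_num) (by norm_num))
  · refine key _ 5.845977 0.007240 _ _ (by norm_num) (by rw [h5]; linarith) ?_ (by norm_num)
      (by norm_num)
    have hX : (5.845977 : ℝ) ≤ lam 5 * 0.5075 := by rw [h5]; linarith
    have h6 : (1.7657 : ℝ) ≤ Real.log (lam 5 * 0.5075) := by
      refine numU0_log_numU0 _ _ (by norm_num) (by norm_num) (by linarith) (le_trans ?_ hX)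
      norm_num
    have h8 : Real.exp (-((1 - 0.53 ^ 2) / 0.5075 ^ 2 * Real.log (lam 5 * 0.5075))) ≤
        Real.exp (-4.9298) := by
      apply Real.exp_le_exp.2
      norm_num at h6 ⊢
      linarith
    refine h8.trans (numU0_exp_neg_numU0 4.9298 _ (by norm_num) (by norm_num))

end Pool.Agent.Helper131.Slab
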