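import Pool.Agent.Helper131.Slab.Defs2

set_option maxRecDepth 100000

namespace Pool.Agent.Helper131.Slab

open MeasureTheory Set intervalIntegral Filter Topology

theorem numU1_e1_numU1 : Real.exp (-1) ≤ 0.36788 := by
  have := exp_neg_nat_le 1 1 (by norm_num)
  simpa using this

theorem numU1 : 1 / (lam 3 * 0.53) * Real.exp (-(1 / 6 * lam 3 ^ 2 * (1 - 0.57 ^ 2))) ≤ 0.00062 ∧
    1 / (lam 4 * 0.53) * Real.exp (-((1 - 0.57 ^ 2) / 0.485 ^ 2 * Real.log (lam 4 * 0.485))) ≤ 0.00256 ∧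
    1 / (lam 5 * 0.53) * Real.exp (-((1 - 0.57 ^ 2) / 0.485 ^ 2 * Real.log (lam 5 * 0.485))) ≤ 0.00118 := by
  have hp1 := Real.pi_gt_d6
  have hp2 := Real.pi_lt_d6
  have he1 := Real.exp_one_lt_d9
  have l3 : (7.33038 : ℝ) ≤ lam 3 := by
    unfold lam; push_cast; linarith
  have l4 : (9.424776 : ℝ) ≤ lam 4 := by
    unfold lam; push_cast; linarith
  have l5 : (11.51917 : ℝ) ≤ lam 5 := by
    unfold lam; push_cast; linarith
  refine ⟨?_, ?_, ?_⟩
  · have h1 : 1 / (lam 3 * 0.53) ≤ 0.2575 := by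
      rw [div_le_iff₀ (by positivity)]
      linarith
    have h2 : (6.046 : ℝ) ≤ 1 / 6 * lam 3 ^ 2 * (1 - 0.57 ^ 2) := by
      have : (7.33038 : ℝ) ^ 2 ≤ lam 3 ^ 2 := pow_le_pow_left₀ (by norm_num) l3 2
      nlinarith
    have h3 : Real.exp (-(1 / 6 * lam 3 ^ 2 * (1 - 0.57 ^ 2))) ≤ 0.36788 ^ 6 * 0.956 := by
      calc Real.exp (-(1 / 6 * lam 3 ^ 2 * (1 - 0.57 ^ 2))) ≤ Real.exp (-(6 : ℝ) + -(0.046)) :=
            Real.exp_le_exp.mpr (by linarith)
        _ = Real.exp (-(6 : ℝ)) * Real.exp (-(0.046)) := Real.exp_add _ _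
        _ ≤ 0.36788 ^ 6 * 0.956 := by
            have h4 := exp_neg_nat_le 6 6 (by norm_num)
            have h5 := exp_neg_le2 0.046 (by norm_num)
            have h6 : Real.exp (-(0.046)) ≤ 0.956 := h5.trans (by norm_num)
            exact mul_le_mul h4 h6 (Real.exp_pos _).le (by positivity)
    calc 1 / (lam 3 * 0.53) * Real.exp (-(1 / 6 * lam 3 ^ 2 * (1 - 0.57 ^ 2)))
        ≤ 0.2575 * (0.36788 ^ 6 * 0.956) := mul_le_mul h1 h3 (Real.exp_pos _).le (by norm_num)
      _ ≤ 0.00062 := by norm_num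
  · have h1 : 1 / (lam 4 * 0.53) ≤ 0.2001951 := by
      rw [div_le_iff₀ (by positivity)]
      linarith
    have hlog : (1.5195 : ℝ) ≤ Real.log (lam 4 * 0.485) := by
      rw [Real.le_log_iff_exp_le (by positivity)]
      have h2 : Real.exp 1.5195 ^ 2 ≤ (4.571016 : ℝ) ^ 2 := by
        have h3 : Real.exp 1.5195 ^ 2 = Real.exp 1 ^ 3 * Real.exp 0.039 := by
          rw [← Real.exp_nat_mul, ← Real.exp_nat_mul, ← Real.exp_add]
          congr 1
          norm_num
        rw [h3]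
        have h4 : Real.exp 1 ^ 3 ≤ 2.7182818286 ^ 3 :=
          pow_le_pow_left₀ (Real.exp_pos _).le he1.le 3
        have h5 : Real.exp 0.039 ≤ 1.03979 := by
          have h6 := exp_neg_ge3 0.039 (by norm_num)
          have h7 : Real.exp 0.039 * Real.exp (-0.039) = 1 := by
            rw [← Real.exp_add]; norm_num
          have h8 : (0.96175 : ℝ) ≤ Real.exp (-0.039) := le_trans (by norm_num) h6
          have h9 := Real.exp_pos 0.039
          by_contra hcon
          push Not at hcon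
          nlinarith
        calc Real.exp 1 ^ 3 * Real.exp 0.039 ≤ 2.7182818286 ^ 3 * 1.03979 :=
              mul_le_mul h4 h5 (Real.exp_pos _).le (by positivity)
          _ ≤ 4.571016 ^ 2 := by norm_num
      have h3 : Real.exp 1.5195 ≤ 4.571016 :=
        le_of_sq_le_sq h2 (by norm_num)
      refine h3.trans ?_
      linarith
    have h2 : (4.3609 : ℝ) ≤ (1 - 0.57 ^ 2) / 0.485 ^ 2 * Real.log (lam 4 * 0.485) := by
      have hk : (2.870017 : ℝ) ≤ (1 - 0.57 ^ 2) / 0.485 ^ 2 := by norm_num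
      calc (4.3609 : ℝ) ≤ 2.870017 * 1.5195 := by norm_num
        _ ≤ _ := mul_le_mul hk hlog (by norm_num) (by norm_num)
    have h3 : Real.exp (-((1 - 0.57 ^ 2) / 0.485 ^ 2 * Real.log (lam 4 * 0.485))) ≤
        0.36788 ^ 4 * 0.6971 := by
      calc Real.exp (-((1 - 0.57 ^ 2) / 0.485 ^ 2 * Real.log (lam 4 * 0.485)))
          ≤ Real.exp (-(4 : ℝ) + -(0.3609)) :=
            Real.exp_le_exp.mpr (by linarith)
        _ = Real.exp (-(4 : ℝ)) * Real.exp (-(0.3609)) := Real.exp_add _ _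
        _ ≤ 0.36788 ^ 4 * 0.6971 := by
            have h4 := exp_neg_nat_le 4 4 (by norm_num)
            have h5 := exp_neg_le4 0.3609 (by norm_num)
            have h6 : Real.exp (-(0.3609)) ≤ 0.6971 := h5.trans (by norm_num)
            exact mul_le_mul h4 h6 (Real.exp_pos _).le (by positivity)
    calc 1 / (lam 4 * 0.53) * Real.exp (-((1 - 0.57 ^ 2) / 0.485 ^ 2 * Real.log (lam 4 * 0.485)))
        ≤ 0.2001951 * (0.36788 ^ 4 * 0.6971) := mul_le_mul h1 h3 (Real.exp_pos _).le (by norm_num)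
      _ ≤ 0.00256 := by norm_num
  · have h1 : 1 / (lam 5 * 0.53) ≤ 0.163797 := by
      rw [div_le_iff₀ (by positivity)]
      linarith
    have hlog : (1.72 : ℝ) ≤ Real.log (lam 5 * 0.485) := by
      rw [Real.le_log_iff_exp_le (by positivity)]
      have h3 : Real.exp 1.72 = Real.exp 1 ^ 2 * Real.exp (-(0.28)) := by
        rw [← Real.exp_nat_mul, ← Real.exp_add]
        congr 1
        norm_num
      rw [h3]
      have h4 : Real.exp 1 ^ 2 ≤ 2.7182818286 ^ 2 :=
        pow_le_pow_left₀ (Real.exp_pos _).le he1.le 2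
      have h5 : Real.exp (-(0.28)) ≤ 0.7558 := (exp_neg_le4 0.28 (by norm_num)).trans (by norm_num)
      calc Real.exp 1 ^ 2 * Real.exp (-(0.28)) ≤ 2.7182818286 ^ 2 * 0.7558 :=
            mul_le_mul h4 h5 (Real.exp_pos _).le (by positivity)
        _ ≤ 5.5867 := by norm_num
        _ ≤ lam 5 * 0.485 := by linarith
    have h2 : (4.9364 : ℝ) ≤ (1 - 0.57 ^ 2) / 0.485 ^ 2 * Real.log (lam 5 * 0.485) := by
      have hk : (2.870017 : ℝ) ≤ (1 - 0.57 ^ 2) / 0.485 ^ 2 := by norm_num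
      calc (4.9364 : ℝ) ≤ 2.870017 * 1.72 := by norm_num
        _ ≤ _ := mul_le_mul hk hlog (by norm_num) (by norm_num)
    have h5' : Real.exp 0.0636 ≤ 1.0679198 := by
      have h6 := exp_neg_ge1 0.0636
      have h7 : Real.exp 0.0636 * Real.exp (-0.0636) = 1 := by
        rw [← Real.exp_add]; norm_num
      have h8 : (0.9364 : ℝ) ≤ Real.exp (-0.0636) := le_trans (by norm_num) h6
      have h9 := Real.exp_pos 0.0636
      by_contra hcon
      push Not at hcon
      nlinarith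
    have h3 : Real.exp (-((1 - 0.57 ^ 2) / 0.485 ^ 2 * Real.log (lam 5 * 0.485))) ≤
        0.36788 ^ 5 * 1.0679198 := by
      calc Real.exp (-((1 - 0.57 ^ 2) / 0.485 ^ 2 * Real.log (lam 5 * 0.485)))
          ≤ Real.exp (-(5 : ℝ) + 0.0636) :=
            Real.exp_le_exp.mpr (by linarith)
        _ = Real.exp (-(5 : ℝ)) * Real.exp (0.0636) := Real.exp_add _ _
        _ ≤ 0.36788 ^ 5 * 1.0679198 := by
            have h4 := exp_neg_nat_le 5 5 (by norm_num)
            exact mul_le_mul h4 h5' (Real.exp_pos _).le (by positivity)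
    calc 1 / (lam 5 * 0.53) * Real.exp (-((1 - 0.57 ^ 2) / 0.485 ^ 2 * Real.log (lam 5 * 0.485)))
        ≤ 0.163797 * (0.36788 ^ 5 * 1.0679198) := mul_le_mul h1 h3 (Real.exp_pos _).le (by norm_num)
      _ ≤ 0.00118 := by norm_num

end Pool.Agent.Helper131.Slab
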