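import Pool.Agent.Helper131.Slab.Defs2

set_option maxRecDepth 100000

namespace Pool.Agent.Helper131.Slab

open MeasureTheory Set intervalIntegral Filter Topology

theorem numU2_exp_numU2 (k : ℕ) (u x : ℝ) (hu : 0 ≤ u) (hx : (k : ℝ) + u ≤ x) :
    Real.exp (-x) ≤ (1 / 2.7182818283) ^ k * (1 - u + u ^ 2 / 2 - u ^ 3 / 6 + u ^ 4 / 24) := by
  have h1 : Real.exp (-x) ≤ Real.exp (-1) ^ k * Real.exp (-u) := by
    rw [← Real.exp_nat_mul, ← Real.exp_add]
    apply Real.exp_le_exp.2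
    linarith
  refine h1.trans ?_
  have h2 : Real.exp (-1) ≤ 1 / 2.7182818283 := by
    rw [Real.exp_neg, ← one_div]
    exact one_div_le_one_div_of_le (by norm_num) Real.exp_one_gt_d9.le
  have h3 := exp_neg_le4 u hu
  exact mul_le_mul (pow_le_pow_left₀ (Real.exp_pos _).le h2 k) h3 (Real.exp_pos _).le (by positivity)

theorem numU2_log_numU2 (L y : ℝ) (hL : 0 ≤ L - 1) (hL1 : L - 1 ≤ 1) (hy : 0 < y)
    (h : 2.7182818286 * (1 + (L - 1) + (L - 1) ^ 2 / 2 + (L - 1) ^ 3 / 6 + (L - 1) ^ 4 / 24 +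
      (L - 1) ^ 5 / 120 + (L - 1) ^ 6 * (7 / 4320)) ≤ y) : L ≤ Real.log y := by
  rw [Real.le_log_iff_exp_le hy]
  have h1 : Real.exp L = Real.exp 1 * Real.exp (L - 1) := by
    rw [← Real.exp_add]
    congr 1
    ring
  have h2 := Real.exp_bound' hL hL1 (n := 6) (by norm_num)
  have h3 : Real.exp (L - 1) ≤ 1 + (L - 1) + (L - 1) ^ 2 / 2 + (L - 1) ^ 3 / 6 + (L - 1) ^ 4 / 24 +
      (L - 1) ^ 5 / 120 + (L - 1) ^ 6 * (7 / 4320) := by
    refine h2.trans (le_of_eq ?_)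
    simp [Finset.sum_range_succ, Nat.factorial]
    ring
  rw [h1]
  refine le_trans ?_ h
  exact mul_le_mul Real.exp_one_lt_d9.le h3 (Real.exp_pos _).le (by norm_num)

theorem numU2 : 1 / (lam 3 * 0.57) * Real.exp (-(1 / 6 * lam 3 ^ 2 * (1 - 0.62 ^ 2))) ≤ 0.00097 ∧
    1 / (lam 4 * 0.57) * Real.exp (-((1 - 0.62 ^ 2) / 0.445 ^ 2 * Real.log (lam 4 * 0.445))) ≤ 0.00217 ∧
    1 / (lam 5 * 0.57) * Real.exp (-((1 - 0.62 ^ 2) / 0.445 ^ 2 * Real.log (lam 5 * 0.445))) ≤ 0.00095 := by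
  have hp := Real.pi_gt_d6
  have l3 : 7.330381 ≤ lam 3 := by
    unfold lam
    push_cast
    linarith
  have l4 : 9.424776 ≤ lam 4 := by
    unfold lam
    push_cast
    linarith
  have l5 : 11.51917 ≤ lam 5 := by
    unfold lam
    push_cast
    linarith
  refine ⟨?_, ?_, ?_⟩
  · have h1 := numU2_exp_numU2 5 0.513 (1 / 6 * lam 3 ^ 2 * (1 - 0.62 ^ 2)) (by norm_num) (by
      have : (7.330381 : ℝ) ^ 2 ≤ lam 3 ^ 2 := pow_le_pow_left₀ (by norm_num) l3 2
      norm_num at this ⊢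
      linarith)
    have h2 : 1 / (lam 3 * 0.57) ≤ 1 / (7.330381 * 0.57) :=
      one_div_le_one_div_of_le (by norm_num) (by linarith)
    refine (mul_le_mul h2 h1 (Real.exp_pos _).le (by norm_num)).trans ?_
    norm_num
  · have hl := numU2_log_numU2 1.4336 (lam 4 * 0.445) (by norm_num) (by norm_num) (by linarith) (by
      have : (9.424776 : ℝ) * 0.445 ≤ lam 4 * 0.445 := by linarith
      refine le_trans ?_ this
      norm_num)
    have h1 := numU2_exp_numU2 4 0.4566 ((1 - 0.62 ^ 2) / 0.445 ^ 2 * Real.log (lam 4 * 0.445))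
      (by norm_num) (by
      have h3 : (1 - 0.62 ^ 2 : ℝ) / 0.445 ^ 2 * 1.4336 ≤
          (1 - 0.62 ^ 2) / 0.445 ^ 2 * Real.log (lam 4 * 0.445) :=
        mul_le_mul_of_nonneg_left hl (by norm_num)
      refine le_trans ?_ h3
      norm_num)
    have h2 : 1 / (lam 4 * 0.57) ≤ 1 / (9.424776 * 0.57) :=
      one_div_le_one_div_of_le (by norm_num) (by linarith)
    refine (mul_le_mul h2 h1 (Real.exp_pos _).le (by norm_num)).trans ?_
    norm_num
  · have hl := numU2_log_numU2 1.634 (lam 5 * 0.445) (by norm_num) (by norm_num) (by linarith) (by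
      have : (11.51917 : ℝ) * 0.445 ≤ lam 5 * 0.445 := by linarith
      refine le_trans ?_ this
      norm_num)
    have h1 := numU2_exp_numU2 5 0.0796 ((1 - 0.62 ^ 2) / 0.445 ^ 2 * Real.log (lam 5 * 0.445))
      (by norm_num) (by
      have h3 : (1 - 0.62 ^ 2 : ℝ) / 0.445 ^ 2 * 1.634 ≤
          (1 - 0.62 ^ 2) / 0.445 ^ 2 * Real.log (lam 5 * 0.445) :=
        mul_le_mul_of_nonneg_left hl (by norm_num)
      refine le_trans ?_ h3
      norm_num)
    have h2 : 1 / (lam 5 * 0.57) ≤ 1 / (11.51917 * 0.57) :=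
      one_div_le_one_div_of_le (by norm_num) (by linarith)
    refine (mul_le_mul h2 h1 (Real.exp_pos _).le (by norm_num)).trans ?_
    norm_num

end Pool.Agent.Helper131.Slab
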