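import Pool.Agent.Helper131.Slab.Defs2

set_option maxRecDepth 100000

namespace Pool.Agent.Helper131.Slab

open MeasureTheory Set intervalIntegral Filter Topology

theorem numU3 : 1 / (lam 3 * 0.62) * Real.exp (-(1 / 6 * lam 3 ^ 2 * (1 - 0.68 ^ 2))) ≤ 0.00179 ∧
    1 / (lam 4 * 0.62) * Real.exp (-(0.137 * lam 4 ^ 2 * (1 - 0.68 ^ 2))) ≤ 0.00025 ∧
    1 / (lam 5 * 0.62) * Real.exp (-((1 - 0.68 ^ 2) / 0.395 ^ 2 * Real.log (lam 5 * 0.395))) ≤ 0.00076 := by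
  have hp1 := Real.pi_gt_d6
  have hp2 := Real.pi_lt_d6
  have h3 : (7.33038:ℝ) ≤ lam 3 := by
    unfold lam; push_cast; linarith
  have h4 : (9.42477:ℝ) ≤ lam 4 := by
    unfold lam; push_cast; linarith
  have h5 : (11.51916:ℝ) ≤ lam 5 := by
    unfold lam; push_cast; linarith
  have hexp : ∀ E : ℝ, 0 ≤ E → Real.exp (-E) ≤
      (1 - E / 16 + (E / 16) ^ 2 / 2 - (E / 16) ^ 3 / 6 + (E / 16) ^ 4 / 24) ^ 16 := by
    intro E hE
    have h1 := exp_neg_le4 (E / 16) (by positivity)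
    have h2 : Real.exp (-E) = Real.exp (-(E / 16)) ^ 16 := by
      rw [← Real.exp_nat_mul]
      congr 1
      push_cast
      ring
    rw [h2]
    exact pow_le_pow_left₀ (Real.exp_pos _).le h1 16
  refine ⟨?_, ?_, ?_⟩
  · have e1 : Real.exp (-(1 / 6 * lam 3 ^ 2 * (1 - 0.68 ^ 2))) ≤ Real.exp (-4.8146) := by
      apply Real.exp_le_exp.2
      have : (7.33038:ℝ) ^ 2 ≤ lam 3 ^ 2 := pow_le_pow_left₀ (by norm_num) h3 2
      norm_num at this ⊢
      linarith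
    have e2 := hexp 4.8146 (by norm_num)
    have e3 : 1 / (lam 3 * 0.62) ≤ 1 / (7.33038 * 0.62) :=
      one_div_le_one_div_of_le (by norm_num) (by linarith)
    calc _ ≤ 1 / (7.33038 * 0.62) * (1 - (4.8146:ℝ) / 16 + (4.8146 / 16) ^ 2 / 2 -
          (4.8146 / 16) ^ 3 / 6 + (4.8146 / 16) ^ 4 / 24) ^ 16 :=
          mul_le_mul e3 (e1.trans e2) (Real.exp_pos _).le (by norm_num)
      _ ≤ _ := by norm_num
  · have e1 : Real.exp (-(0.137 * lam 4 ^ 2 * (1 - 0.68 ^ 2))) ≤ Real.exp (-6.542) := by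
      apply Real.exp_le_exp.2
      have : (9.42477:ℝ) ^ 2 ≤ lam 4 ^ 2 := pow_le_pow_left₀ (by norm_num) h4 2
      norm_num at this ⊢
      linarith
    have e2 := hexp 6.542 (by norm_num)
    have e3 : 1 / (lam 4 * 0.62) ≤ 1 / (9.42477 * 0.62) :=
      one_div_le_one_div_of_le (by norm_num) (by linarith)
    calc _ ≤ 1 / (9.42477 * 0.62) * (1 - (6.542:ℝ) / 16 + (6.542 / 16) ^ 2 / 2 -
          (6.542 / 16) ^ 3 / 6 + (6.542 / 16) ^ 4 / 24) ^ 16 :=
          mul_le_mul e3 (e1.trans e2) (Real.exp_pos _).le (by norm_num)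
      _ ≤ _ := by norm_num
  · have hlog : (1.515:ℝ) ≤ Real.log (lam 5 * 0.395) := by
      rw [Real.le_log_iff_exp_le (by linarith)]
      have h1 := exp_neg_ge3 (1.515 / 16) (by norm_num)
      have h2 : Real.exp 1.515 = ((Real.exp (-(1.515 / 16)))⁻¹) ^ 16 := by
        rw [← Real.exp_neg, ← Real.exp_nat_mul]
        congr 1
        push_cast
        ring
      rw [h2]
      have h3 : (Real.exp (-(1.515 / 16)))⁻¹ ≤
          ((1 - (1.515:ℝ) / 16 + (1.515 / 16) ^ 2 / 2 - (1.515 / 16) ^ 3 / 6))⁻¹ :=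
        inv_anti₀ (by norm_num) h1
      calc ((Real.exp (-(1.515 / 16)))⁻¹) ^ 16 ≤
          (((1 - (1.515:ℝ) / 16 + (1.515 / 16) ^ 2 / 2 - (1.515 / 16) ^ 3 / 6))⁻¹) ^ 16 :=
            pow_le_pow_left₀ (inv_nonneg.2 (Real.exp_pos _).le) h3 16
        _ ≤ 11.51916 * 0.395 := by norm_num
        _ ≤ _ := by linarith
    have e1 : Real.exp (-((1 - 0.68 ^ 2) / 0.395 ^ 2 * Real.log (lam 5 * 0.395))) ≤
        Real.exp (-5.22) := by
      apply Real.exp_le_exp.2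
      norm_num at hlog ⊢
      linarith
    have e2 := hexp 5.22 (by norm_num)
    have e3 : 1 / (lam 5 * 0.62) ≤ 1 / (11.51916 * 0.62) :=
      one_div_le_one_div_of_le (by norm_num) (by linarith)
    calc _ ≤ 1 / (11.51916 * 0.62) * (1 - (5.22:ℝ) / 16 + (5.22 / 16) ^ 2 / 2 -
          (5.22 / 16) ^ 3 / 6 + (5.22 / 16) ^ 4 / 24) ^ 16 :=
          mul_le_mul e3 (e1.trans e2) (Real.exp_pos _).le (by norm_num)
      _ ≤ _ := by norm_num

end Pool.Agent.Helper131.Slab
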