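import Pool.Agent.Helper131.Slab.Defs2

set_option maxRecDepth 100000

namespace Pool.Agent.Helper131.Slab

open MeasureTheory Set intervalIntegral Filter Topology

theorem numU4_eb_numU4 (k : ℕ) (q x B : ℝ) (hq : 0 ≤ q) (hx : k + q ≤ x) (hB : 0 < B)
    (h : 1 / B ≤ 2.7182818283 ^ k * ∑ i ∈ Finset.range 10, q ^ i / (i.factorial : ℝ)) :
    Real.exp (-x) ≤ B := by
  have h1 : (2.7182818283 : ℝ) ^ k ≤ Real.exp k := by
    have := Real.exp_one_gt_d9
    calc (2.7182818283 : ℝ) ^ k ≤ Real.exp 1 ^ k := by gcongr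
      _ = Real.exp k := by rw [← Real.exp_nat_mul, mul_one]
  have h2 : ∑ i ∈ Finset.range 10, q ^ i / (i.factorial : ℝ) ≤ Real.exp q :=
    Real.sum_le_exp_of_nonneg hq 10
  have h3 : 1 / B ≤ Real.exp (k + q) := by
    rw [Real.exp_add]
    refine h.trans ?_
    apply mul_le_mul h1 h2 _ (Real.exp_pos _).le
    exact Finset.sum_nonneg fun i _ => by positivity
  have h4 : 1 / B ≤ Real.exp x := h3.trans (Real.exp_le_exp.2 hx)
  rw [Real.exp_neg]
  rw [one_div] at h4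
  exact inv_le_of_inv_le₀ hB h4

theorem numU4 : 1 / (lam 3 * 0.68) * Real.exp (-(1 / 6 * lam 3 ^ 2 * (1 - 0.72 ^ 2))) ≤ 0.00269 ∧
    1 / (lam 4 * 0.68) * Real.exp (-(1 / 6 * lam 4 ^ 2 * (1 - 0.72 ^ 2))) ≤ 0.00013 ∧
    1 / (lam 5 * 0.68) * Real.exp (-((1 - 0.72 ^ 2) / 0.35 ^ 2 * Real.log (lam 5 * 0.35))) ≤ 0.00054 := by
  have hpi := Real.pi_gt_d6
  have l3 : (7.330381 : ℝ) ≤ lam 3 := by
    unfold lam
    push_cast
    linarith
  have l4 : (9.424776 : ℝ) ≤ lam 4 := by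
    unfold lam
    push_cast
    linarith
  have l5 : (11.51917 : ℝ) ≤ lam 5 := by
    unfold lam
    push_cast
    linarith
  refine ⟨?_, ?_, ?_⟩
  · have hx : ((4 : ℕ) : ℝ) + 0.313 ≤ 1 / 6 * lam 3 ^ 2 * (1 - 0.72 ^ 2) := by
      have : (7.330381 : ℝ) ^ 2 ≤ lam 3 ^ 2 := by gcongr
      norm_num at this ⊢
      linarith
    have h1 := numU4_eb_numU4 4 0.313 _ 0.0134 (by norm_num) hx (by norm_num)
      (by norm_num [Finset.sum_range_succ, Nat.factorial])
    have h2 : 1 / (lam 3 * 0.68) ≤ 0.200617 := by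
      rw [div_le_iff₀ (by linarith)]
      linarith
    calc _ ≤ 0.200617 * 0.0134 := mul_le_mul h2 h1 (Real.exp_pos _).le (by norm_num)
      _ ≤ 0.00269 := by norm_num
  · have hx : ((7 : ℕ) : ℝ) + 0.1297 ≤ 1 / 6 * lam 4 ^ 2 * (1 - 0.72 ^ 2) := by
      have : (9.424776 : ℝ) ^ 2 ≤ lam 4 ^ 2 := by gcongr
      norm_num at this ⊢
      linarith
    have h1 := numU4_eb_numU4 7 0.1297 _ 0.00081 (by norm_num) hx (by norm_num)
      (by norm_num [Finset.sum_range_succ, Nat.factorial])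
    have h2 : 1 / (lam 4 * 0.68) ≤ 0.15604 := by
      rw [div_le_iff₀ (by linarith)]
      linarith
    calc _ ≤ 0.15604 * 0.00081 := mul_le_mul h2 h1 (Real.exp_pos _).le (by norm_num)
      _ ≤ 0.00013 := by norm_num
  · have hlog : 1.394 ≤ Real.log (lam 5 * 0.35) := by
      have e1 : Real.log (lam 5 * 0.35) = Real.log 4 + Real.log (lam 5 * 0.35 / 4) := by
        rw [← Real.log_mul (by norm_num) (by linarith)]
        congr 1
        ring
      have e2 : Real.log 4 = 2 * Real.log 2 := by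
        rw [show (4 : ℝ) = 2 ^ 2 by norm_num, Real.log_pow]
        push_cast
        ring
      have e3 := Real.log_two_gt_d9
      have e4 : 1 - (lam 5 * 0.35 / 4)⁻¹ ≤ Real.log (lam 5 * 0.35 / 4) :=
        Real.one_sub_inv_le_log_of_pos (by linarith)
      have e5 : (lam 5 * 0.35 / 4)⁻¹ ≤ 0.9922 := by
        rw [inv_le_comm₀ (by linarith) (by norm_num)]
        refine le_trans ?_ (by linarith : (1.007925 : ℝ) ≤ lam 5 * 0.35 / 4)
        norm_num
      rw [e1, e2]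
      linarith
    have hx : ((5 : ℕ) : ℝ) + 0.48 ≤ (1 - 0.72 ^ 2) / 0.35 ^ 2 * Real.log (lam 5 * 0.35) := by
      calc ((5 : ℕ) : ℝ) + 0.48 ≤ (1 - 0.72 ^ 2) / 0.35 ^ 2 * 1.394 := by norm_num
        _ ≤ _ := by
          apply mul_le_mul_of_nonneg_left hlog
          norm_num
    have h1 := numU4_eb_numU4 5 0.48 _ 0.0042 (by norm_num) hx (by norm_num)
      (by norm_num [Finset.sum_range_succ, Nat.factorial])
    have h2 : 1 / (lam 5 * 0.68) ≤ 0.12767 := by
      rw [div_le_iff₀ (by linarith)]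
      linarith
    calc _ ≤ 0.12767 * 0.0042 := mul_le_mul h2 h1 (Real.exp_pos _).le (by norm_num)
      _ ≤ 0.00054 := by norm_num

end Pool.Agent.Helper131.Slab
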