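import Pool.Agent.Helper131.Slab.Defs2

set_option maxRecDepth 100000

namespace Pool.Agent.Helper131.Slab

open MeasureTheory Set intervalIntegral Filter Topology

theorem numU6 : 0.129 * Real.exp (-(1 / 6 * lam 3 ^ 2 * (1 - 0.765 ^ 2))) ≤ 0.00315 ∧
    1 / (lam 4 * 0.75) * Real.exp (-(1 / 6 * lam 4 ^ 2 * (1 - 0.765 ^ 2))) ≤ 0.00031 ∧
    1 / (lam 5 * 0.75) * Real.exp (-((1 - 0.765 ^ 2) / 0.28 ^ 2 * Real.log (lam 5 * 0.28))) ≤ 0.00024 := by
  have hpi1 := Real.pi_gt_d6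
  have key : ∀ (X x S : ℝ), 0 < S → x ≤ X → S ≤ Real.exp x → Real.exp (-X) ≤ S⁻¹ := by
    intro X x S hS hx hSx
    rw [Real.exp_neg]
    exact inv_anti₀ hS (le_trans hSx (Real.exp_le_exp.2 hx))
  have e1 : (40.96:ℝ) ≤ Real.exp 3.7146 := by
    refine le_trans ?_ (Real.sum_le_exp_of_nonneg (x := 3.7146) (by norm_num) 14)
    norm_num [Finset.sum_range_succ, Nat.factorial]
  have e2 : (457:ℝ) ≤ Real.exp 6.1404 := by
    refine le_trans ?_ (Real.sum_le_exp_of_nonneg (x := 6.1404) (by norm_num) 18)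
    norm_num [Finset.sum_range_succ, Nat.factorial]
  have e3 : (484:ℝ) ≤ Real.exp 6.189 := by
    refine le_trans ?_ (Real.sum_le_exp_of_nonneg (x := 6.189) (by norm_num) 18)
    norm_num [Finset.sum_range_succ, Nat.factorial]
  have l3 : (7.33038:ℝ) ≤ lam 3 := by
    unfold lam
    norm_num
    linarith
  have l4 : (9.424776:ℝ) ≤ lam 4 := by
    unfold lam
    norm_num
    linarith
  have l5 : (11.51917:ℝ) ≤ lam 5 := by
    unfold lam
    norm_num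
    linarith
  have hlog : (1.17:ℝ) ≤ Real.log (lam 5 * 0.28) := by
    rw [Real.le_log_iff_exp_le (by linarith)]
    have h1 : Real.exp 1.17 = Real.exp 1 * Real.exp 0.17 := by
      rw [← Real.exp_add]
      norm_num
    have h2 := Real.exp_one_lt_d9
    have h3 : Real.exp 0.17 ≤ 1.1854 := by
      refine le_trans (Real.exp_bound' (x := 0.17) (by norm_num) (by norm_num) (n := 5) (by norm_num)) ?_
      norm_num [Finset.sum_range_succ, Nat.factorial]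
    rw [h1]
    have h4 : Real.exp 1 * Real.exp 0.17 ≤ 2.7182818286 * 1.1854 :=
      mul_le_mul h2.le h3 (Real.exp_pos _).le (by norm_num)
    have h5 : (2.7182818286 * 1.1854 : ℝ) ≤ 11.51917 * 0.28 := by norm_num
    linarith
  refine ⟨?_, ?_, ?_⟩
  · have h1 := key (1 / 6 * lam 3 ^ 2 * (1 - 0.765 ^ 2)) 3.7146 40.96 (by norm_num)
      (by
        have h2 : (7.33038:ℝ) ^ 2 ≤ lam 3 ^ 2 := pow_le_pow_left₀ (by norm_num) l3 2
        have h3 : (3.7146:ℝ) ≤ 1 / 6 * 7.33038 ^ 2 * (1 - 0.765 ^ 2) := by norm_num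
        have h4 : (1 / 6 * 7.33038 ^ 2 * (1 - 0.765 ^ 2) : ℝ) ≤ 1 / 6 * lam 3 ^ 2 * (1 - 0.765 ^ 2) := by
          have : (0:ℝ) ≤ 1 / 6 * (1 - 0.765 ^ 2) := by norm_num
          nlinarith
        linarith) e1
    calc 0.129 * Real.exp (-(1 / 6 * lam 3 ^ 2 * (1 - 0.765 ^ 2)))
        ≤ 0.129 * (40.96:ℝ)⁻¹ := mul_le_mul_of_nonneg_left h1 (by norm_num)
      _ ≤ 0.00315 := by norm_num
  · have h1 := key (1 / 6 * lam 4 ^ 2 * (1 - 0.765 ^ 2)) 6.1404 457 (by norm_num)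
      (by
        have h2 : (9.424776:ℝ) ^ 2 ≤ lam 4 ^ 2 := pow_le_pow_left₀ (by norm_num) l4 2
        have h3 : (6.1404:ℝ) ≤ 1 / 6 * 9.424776 ^ 2 * (1 - 0.765 ^ 2) := by norm_num
        have h4 : (1 / 6 * 9.424776 ^ 2 * (1 - 0.765 ^ 2) : ℝ) ≤ 1 / 6 * lam 4 ^ 2 * (1 - 0.765 ^ 2) := by
          have : (0:ℝ) ≤ 1 / 6 * (1 - 0.765 ^ 2) := by norm_num
          nlinarith
        linarith) e2
    have h5 : 1 / (lam 4 * 0.75) ≤ 1 / (9.424776 * 0.75) :=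
      one_div_le_one_div_of_le (by norm_num) (by linarith)
    calc 1 / (lam 4 * 0.75) * Real.exp (-(1 / 6 * lam 4 ^ 2 * (1 - 0.765 ^ 2)))
        ≤ 1 / (9.424776 * 0.75) * (457:ℝ)⁻¹ :=
          mul_le_mul h5 h1 (Real.exp_pos _).le (by norm_num)
      _ ≤ 0.00031 := by norm_num
  · have h1 := key ((1 - 0.765 ^ 2) / 0.28 ^ 2 * Real.log (lam 5 * 0.28)) 6.189 484 (by norm_num)
      (by
        have h2 : (5.29:ℝ) ≤ (1 - 0.765 ^ 2) / 0.28 ^ 2 := by norm_num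
        have h3 : (5.29:ℝ) * 1.17 ≤ (1 - 0.765 ^ 2) / 0.28 ^ 2 * Real.log (lam 5 * 0.28) :=
          mul_le_mul h2 hlog (by norm_num) (by linarith)
        have h4 : (6.189:ℝ) ≤ 5.29 * 1.17 := by norm_num
        linarith) e3
    have h5 : 1 / (lam 5 * 0.75) ≤ 1 / (11.51917 * 0.75) :=
      one_div_le_one_div_of_le (by norm_num) (by linarith)
    calc 1 / (lam 5 * 0.75) * Real.exp (-((1 - 0.765 ^ 2) / 0.28 ^ 2 * Real.log (lam 5 * 0.28)))
        ≤ 1 / (11.51917 * 0.75) * (484:ℝ)⁻¹ :=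
          mul_le_mul h5 h1 (Real.exp_pos _).le (by norm_num)
      _ ≤ 0.00024 := by norm_num

end Pool.Agent.Helper131.Slab
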