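import Pool.Agent.Helper131.Slab.Defs2

set_option maxRecDepth 100000

namespace Pool.Agent.Helper131.Slab

open MeasureTheory Set intervalIntegral Filter Topology

theorem numUA : Real.exp (-(1 / 6 * lam 3 ^ 2)) ≤ 0.00014 ∧
    Real.exp (-(1 / 0.45 ^ 2 * Real.log (lam 4 * 0.45))) ≤ 0.0008 ∧
    Real.exp (-(1 / 0.45 ^ 2 * Real.log (lam 5 * 0.45))) ≤ 0.0003 := by
  have hpi := Real.pi_gt_d6
  refine ⟨?_, ?_, ?_⟩
  · have hl : (71 / 8 : ℝ) ≤ 1 / 6 * lam 3 ^ 2 := by
      have h1 : (7.33 : ℝ) ≤ lam 3 := by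
        unfold lam; push_cast; nlinarith
      have h2 : (7.33 : ℝ) ^ 2 ≤ lam 3 ^ 2 := by
        apply pow_le_pow_left₀ (by norm_num) h1
      norm_num at h2 ⊢
      linarith
    have he : Real.exp (71 / 8) ^ 8 = Real.exp 1 ^ 71 := by
      rw [← Real.exp_nat_mul, ← Real.exp_nat_mul]
      norm_num
    have h3 : (1 / 0.00014 : ℝ) ≤ Real.exp (71 / 8) := by
      apply le_of_pow_le_pow_left₀ (n := 8) (by norm_num) (Real.exp_pos _).le
      rw [he]
      calc (1 / 0.00014 : ℝ) ^ 8 ≤ (2.7182818283 : ℝ) ^ 71 := by norm_num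
        _ ≤ Real.exp 1 ^ 71 := by
          apply pow_le_pow_left₀ (by norm_num) Real.exp_one_gt_d9.le
    have h4 : (1 / 0.00014 : ℝ) ≤ Real.exp (1 / 6 * lam 3 ^ 2) :=
      h3.trans (Real.exp_le_exp.2 hl)
    rw [Real.exp_neg]
    calc (Real.exp (1 / 6 * lam 3 ^ 2))⁻¹ ≤ (1 / 0.00014 : ℝ)⁻¹ :=
          inv_anti₀ (by norm_num) h4
      _ = 0.00014 := by norm_num
  · have hy : (4.2411 : ℝ) ≤ lam 4 * 0.45 := by
      unfold lam; push_cast; nlinarith
    have hlog : 16 * Real.log 1250 ≤ 79 * Real.log (lam 4 * 0.45) := by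
      have h1 : Real.log ((1250 : ℝ) ^ 16) ≤ Real.log ((lam 4 * 0.45) ^ 79) := by
        apply Real.log_le_log (by positivity)
        calc (1250 : ℝ) ^ 16 ≤ (4.2411 : ℝ) ^ 79 := by norm_num
          _ ≤ (lam 4 * 0.45) ^ 79 := pow_le_pow_left₀ (by norm_num) hy 79
      rw [Real.log_pow, Real.log_pow] at h1
      push_cast at h1
      linarith
    have hpos : 0 < Real.log 1250 := Real.log_pos (by norm_num)
    have h8 : Real.exp (-Real.log 1250) = 0.0008 := by
      rw [Real.exp_neg, Real.exp_log (by norm_num)]; norm_num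
    rw [← h8]
    apply Real.exp_le_exp.2
    norm_num
    nlinarith
  · have hy : (5.1836 : ℝ) ≤ lam 5 * 0.45 := by
      unfold lam; push_cast; nlinarith
    have hlog : 15 * Real.log (10000 / 3) ≤ 74 * Real.log (lam 5 * 0.45) := by
      have h1 : Real.log ((10000 / 3 : ℝ) ^ 15) ≤ Real.log ((lam 5 * 0.45) ^ 74) := by
        apply Real.log_le_log (by positivity)
        calc (10000 / 3 : ℝ) ^ 15 ≤ (5.1836 : ℝ) ^ 74 := by norm_num
          _ ≤ (lam 5 * 0.45) ^ 74 := pow_le_pow_left₀ (by norm_num) hy 74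
      rw [Real.log_pow, Real.log_pow] at h1
      push_cast at h1
      linarith
    have hpos : 0 < Real.log (10000 / 3) := Real.log_pos (by norm_num)
    have h8 : Real.exp (-Real.log (10000 / 3)) = 0.0003 := by
      rw [Real.exp_neg, Real.exp_log (by norm_num)]; norm_num
    rw [← h8]
    apply Real.exp_le_exp.2
    norm_num
    nlinarith

end Pool.Agent.Helper131.Slab
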