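import Pool.Agent.Helper131.Slab.Defs2

set_option maxRecDepth 100000

namespace Pool.Agent.Helper131.Slab

open MeasureTheory Set intervalIntegral Filter Topology

theorem numW5_cos_le_P8_numW5_numW5 (x : ℝ) (hx : 0 ≤ x) :
    Real.cos x ≤ 1 - x ^ 2 / 2 + x ^ 4 / 24 - x ^ 6 / 720 + x ^ 8 / 40320 := by
  have h := nonneg_of_deriv
    (f := fun x => 1 - x ^ 2 / 2 + x ^ 4 / 24 - x ^ 6 / 720 + x ^ 8 / 40320 - Real.cos x)
    (f' := fun x => Real.sin x - (x - x ^ 3 / 6 + x ^ 5 / 120 - x ^ 7 / 5040))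
    (fun x => by
      have h1 := (((((hasDerivAt_const x (1:ℝ)).sub ((hasDerivAt_pow 2 x).div_const 2)).add
        ((hasDerivAt_pow 4 x).div_const 24)).sub ((hasDerivAt_pow 6 x).div_const 720)).add
        ((hasDerivAt_pow 8 x).div_const 40320)).sub (Real.hasDerivAt_cos x)
      refine h1.congr_deriv ?_
      push_cast
      ring)
    (by norm_num) (fun x hx => by
      have := sin_ge_P7 x hx
      linarith) x hx
  linarith

theorem numW5 : 1.11252 ≤ ww 1.015 0 ∧ -0.02 ≤ ww 1.015 1 ∧ ww 1.015 1 ≤ 0 ∧ -0.20987 ≤ ww 1.015 2 ∧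
    ww 1.015 2 ≤ 0 ∧ |ww 1.015 3| ≤ 0.16656 ∧ |ww 1.015 4| ≤ 0.01994 ∧ gg3 1.015 ≤ 0.92018 ∧
    gg3 1.0 ≤ 0.915065 := by
  have plo : (3.14159265 : ℝ) < Real.pi := by
    have := Real.pi_gt_d20
    linarith
  have phi : Real.pi < (3.14159266 : ℝ) := by
    have := Real.pi_lt_d20
    linarith
  have hpos := Real.pi_pos
  have s0 : (0.8737717 : ℝ) ≤ Real.sin (lam 0 * 1.015) := by
    have e : lam 0 * 1.015 = Real.pi / 2 - (0.485 / 3) * Real.pi := by
      unfold lam; push_cast; ring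
    rw [e, Real.sin_pi_div_two_sub]
    have h1 : Real.cos ((0.485 / 3) * 3.14159266) ≤ Real.cos ((0.485 / 3) * Real.pi) :=
      Real.cos_le_cos_of_nonneg_of_le_pi (by positivity) (by linarith) (by linarith)
    have h2 := cos_ge_P6 ((0.485 / 3) * 3.14159266) (by norm_num)
    refine le_trans ?_ (h2.trans h1)
    norm_num
  have s1 : Real.sin (lam 1 * 1.015) ≤ 0 ∧ -(0.015 * Real.pi) ≤ Real.sin (lam 1 * 1.015) := by
    have e : lam 1 * 1.015 = 0.015 * Real.pi + Real.pi := by
      unfold lam; push_cast; ring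
    rw [e, Real.sin_add_pi]
    have h1 : Real.sin (0.015 * Real.pi) ≤ 0.015 * Real.pi := Real.sin_le (by positivity)
    have h2 : 0 ≤ Real.sin (0.015 * Real.pi) :=
      Real.sin_nonneg_of_nonneg_of_le_pi (by positivity) (by linarith)
    constructor <;> linarith
  have s2 : -(0.824132 : ℝ) ≤ Real.sin (lam 2 * 1.015) ∧ Real.sin (lam 2 * 1.015) ≤ 0 := by
    have e : lam 2 * 1.015 = -(Real.pi / 2 - (0.575 / 3) * Real.pi) + 2 * Real.pi := by
      unfold lam; push_cast; ring
    rw [e, Real.sin_add_two_pi, Real.sin_neg, Real.sin_pi_div_two_sub]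
    have h1 : Real.cos ((0.575 / 3) * Real.pi) ≤ Real.cos ((0.575 / 3) * 3.14159265) :=
      Real.cos_le_cos_of_nonneg_of_le_pi (by norm_num) (by linarith) (by linarith)
    have h2 := numW5_cos_le_P8_numW5_numW5 ((0.575 / 3) * 3.14159265) (by norm_num)
    have h3 := h1.trans h2
    have h4 : 0 ≤ Real.cos ((0.575 / 3) * Real.pi) :=
      Real.cos_nonneg_of_neg_pi_div_two_le_of_le (by linarith) (by linarith)
    constructor
    · have h5 : (1 : ℝ) - ((0.575 / 3) * 3.14159265) ^ 2 / 2 + ((0.575 / 3) * 3.14159265) ^ 4 / 24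
          - ((0.575 / 3) * 3.14159265) ^ 6 / 720 + ((0.575 / 3) * 3.14159265) ^ 8 / 40320
          ≤ 0.824132 := by norm_num
      linarith
    · linarith
  have s3 : Real.sin (lam 3 * 1.015) ≤ 0.91567 ∧ 0 ≤ Real.sin (lam 3 * 1.015) := by
    have e : lam 3 * 1.015 = (Real.pi / 2 - (0.395 / 3) * Real.pi) + 2 * Real.pi := by
      unfold lam; push_cast; ring
    rw [e, Real.sin_add_two_pi, Real.sin_pi_div_two_sub]
    have h1 : Real.cos ((0.395 / 3) * Real.pi) ≤ Real.cos ((0.395 / 3) * 3.14159265) :=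
      Real.cos_le_cos_of_nonneg_of_le_pi (by norm_num) (by linarith) (by linarith)
    have h2 := numW5_cos_le_P8_numW5_numW5 ((0.395 / 3) * 3.14159265) (by norm_num)
    constructor
    · refine (h1.trans h2).trans ?_
      norm_num
    · exact Real.cos_nonneg_of_neg_pi_div_two_le_of_le (by linarith) (by linarith)
  have s4 : -(0.14091 : ℝ) ≤ Real.sin (lam 4 * 1.015) ∧ Real.sin (lam 4 * 1.015) ≤ 0 := by
    have e : lam 4 * 1.015 = (0.045 * Real.pi + Real.pi) + 2 * Real.pi := by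
      unfold lam; push_cast; ring
    rw [e, Real.sin_add_two_pi, Real.sin_add_pi]
    have h1 : Real.sin (0.045 * Real.pi) ≤ Real.sin (0.045 * 3.14159266) :=
      Real.sin_le_sin_of_le_of_le_pi_div_two (by linarith) (by linarith) (by linarith)
    have h2 := sin_le_P5 (0.045 * 3.14159266) (by norm_num)
    have h3 : 0 ≤ Real.sin (0.045 * Real.pi) :=
      Real.sin_nonneg_of_nonneg_of_le_pi (by positivity) (by linarith)
    have h4 : (0.045 * 3.14159266 : ℝ) - (0.045 * 3.14159266) ^ 3 / 6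
        + (0.045 * 3.14159266) ^ 5 / 120 ≤ 0.14091 := by norm_num
    constructor <;> linarith
  have hw : ∀ k : ℕ, ww 1.015 k = 4 * Real.sin (lam k * 1.015) / ((2 * (k : ℝ) + 1) * Real.pi) := by
    intro k
    unfold ww
    rw [div_mul_eq_mul_div]
  have hs3 : (1.7320508 : ℝ) ≤ Real.sqrt 3 := by
    apply Real.le_sqrt_of_sq_le
    norm_num
  have hcube : ∀ t : ℝ, t ≤ 1.7320508 →
      gg3 t ≤ 1 - 1.7320508 / 8 * (1.7320508 - t) ^ 3 := by
    intro t ht
    unfold gg3
    have h1 : (1.7320508 - t) ^ 3 ≤ (Real.sqrt 3 - t) ^ 3 :=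
      pow_le_pow_left₀ (by linarith) (by linarith) 3
    have h2 : 0 ≤ (1.7320508 - t) ^ 3 := pow_nonneg (by linarith) 3
    have h3 : 1.7320508 / 8 * (1.7320508 - t) ^ 3 ≤ Real.sqrt 3 / 8 * (Real.sqrt 3 - t) ^ 3 :=
      mul_le_mul (by linarith) h1 h2 (by positivity)
    linarith
  refine ⟨?_, ?_, ?_, ?_, ?_, ?_, ?_, ?_, ?_⟩
  · rw [hw, le_div_iff₀ (by positivity)]
    push_cast
    linarith
  · rw [hw, le_div_iff₀ (by positivity)]
    push_cast
    linarith [s1.2]
  · rw [hw]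
    apply div_nonpos_of_nonpos_of_nonneg
    · linarith [s1.1]
    · positivity
  · rw [hw, le_div_iff₀ (by positivity)]
    push_cast
    linarith [s2.1]
  · rw [hw]
    apply div_nonpos_of_nonpos_of_nonneg
    · linarith [s2.2]
    · positivity
  · rw [hw, abs_of_nonneg (div_nonneg (by linarith [s3.2]) (by positivity)),
      div_le_iff₀ (by positivity)]
    push_cast
    linarith [s3.1]
  · rw [hw, abs_of_nonpos (div_nonpos_of_nonpos_of_nonneg (by linarith [s4.2]) (by positivity)),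
      ← neg_div, div_le_iff₀ (by positivity)]
    push_cast
    linarith [s4.1]
  · refine (hcube 1.015 (by norm_num)).trans ?_
    norm_num
  · refine (hcube 1.0 (by norm_num)).trans ?_
    norm_num

end Pool.Agent.Helper131.Slab
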