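import Pool.Agent.Helper131.Slab.Defs

set_option maxRecDepth 100000

namespace Pool.Agent.Helper131.Slab

open MeasureTheory Set intervalIntegral Filter Topology

theorem two_ge (α β t r : ℝ) (hα : 0 < α) (hβ : 0 < β) (hαt : α ≤ t) (hβα : β ≤ α) (h : t ≤ α + β)
    (hr : α + β - t ≤ r) :
    r - (r + (α + β - t)) ^ 3 / (24 * α * β) ≤ Aop β (Aop α (clamp t)) r := by
  have ht : 0 ≤ t := by linarith
  have hkc : Continuous (Aop α (clamp t)) := Aop_continuous α (clamp_continuous t)
  rw [Aop_eq_of_ne β hβ.ne']
  set k := Aop α (clamp t) with hk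
  have hint : ∀ x y : ℝ, IntervalIntegrable k volume x y := fun x y => hkc.intervalIntegrable x y
  have hF : ∀ x y : ℝ, ∫ z in x..y, (z - (α + z - t) ^ 2 / (4 * α)) =
      (y ^ 2 / 2 - (α + y - t) ^ 3 / (12 * α)) - (x ^ 2 / 2 - (α + x - t) ^ 3 / (12 * α)) := by
    intro x y
    have hd : ∀ z ∈ uIcc x y, HasDerivAt (fun z : ℝ => z ^ 2 / 2 - (α + z - t) ^ 3 / (12 * α))
        (z - (α + z - t) ^ 2 / (4 * α)) z := by
      intro z _
      have h1 : HasDerivAt (fun z : ℝ => z ^ 2 / 2) z z := by
        have := (hasDerivAt_pow 2 z).div_const 2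
        simpa using this
      have h2 : HasDerivAt (fun z : ℝ => (α + z - t)) 1 z := by
        have := ((hasDerivAt_id z).const_add α).sub_const t
        simpa using this
      have h3 := (h2.pow 3).div_const (12 * α)
      have h4 := h1.sub h3
      have h5 : z - 3 * (α + z - t) ^ (3 - 1) * 1 / (12 * α) = z - (α + z - t) ^ 2 / (4 * α) := by
        have : α ≠ 0 := hα.ne'
        norm_num
        field_simp
        ring
      rw [← h5]
      exact h4
    apply integral_eq_sub_of_hasDerivAt hd
    apply Continuous.intervalIntegrable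
    fun_prop
  have hcont : Continuous (fun z : ℝ => z - (α + z - t) ^ 2 / (4 * α)) := by fun_prop
  have hb : 0 ≤ r + β - (t - α) := by linarith
  -- main estimate
  have key : 2 * β * r - (r + (α + β - t)) ^ 3 / (12 * α) ≤ ∫ z in (r - β)..(r + β), k z := by
    rcases le_total (r - β) (t - α) with hc | hc
    · have hs : ∫ z in (r - β)..(r + β), k z =
          (∫ z in (r - β)..(t - α), k z) + ∫ z in (t - α)..(r + β), k z :=
        (integral_add_adjacent_intervals (hint _ _) (hint _ _)).symm
      have h1 : (∫ z in (r - β)..(t - α), z) ≤ ∫ z in (r - β)..(t - α), k z := by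
        apply integral_mono_on hc (continuous_id.intervalIntegrable _ _) (hint _ _)
        intro z hz
        exact kappa_ge_id α t z hα hz.2
      have h2 : (∫ z in (t - α)..(r + β), (z - (α + z - t) ^ 2 / (4 * α))) ≤
          ∫ z in (t - α)..(r + β), k z := by
        apply integral_mono_on (by linarith) (hcont.intervalIntegrable _ _) (hint _ _)
        intro z hz
        exact kappa_ge_quad α t z hα ht
      rw [integral_id] at h1
      rw [hF] at h2
      rw [hs]
      have e1 : α + (t - α) - t = 0 := by ring
      have e2 : α + (r + β) - t = r + (α + β - t) := by ring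
      rw [e1, e2] at h2
      have e3 : (0:ℝ) ^ 3 / (12 * α) = 0 := by simp
      rw [e3] at h2
      nlinarith
    · have h2 : (∫ z in (r - β)..(r + β), (z - (α + z - t) ^ 2 / (4 * α))) ≤
          ∫ z in (r - β)..(r + β), k z := by
        apply integral_mono_on (by linarith) (hcont.intervalIntegrable _ _) (hint _ _)
        intro z hz
        exact kappa_ge_quad α t z hα ht
      rw [hF] at h2
      have e2 : α + (r + β) - t = r + (α + β - t) := by ring
      rw [e2] at h2
      have e4 : 0 ≤ (α + (r - β) - t) ^ 3 / (12 * α) := by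
        apply div_nonneg _ (by linarith)
        apply pow_nonneg
        linarith
      nlinarith
  have h5 : (1 / (2 * β)) * (2 * β * r - (r + (α + β - t)) ^ 3 / (12 * α)) ≤
      (1 / (2 * β)) * ∫ z in (r - β)..(r + β), k z :=
    mul_le_mul_of_nonneg_left key (by positivity)
  have h6 : (1 / (2 * β)) * (2 * β * r - (r + (α + β - t)) ^ 3 / (12 * α)) =
      r - (r + (α + β - t)) ^ 3 / (24 * α * β) := by
    have h1 : α ≠ 0 := hα.ne'
    have h2 : β ≠ 0 := hβ.ne'
    field_simp
    ring
  linarith

end Pool.Agent.Helper131.Slab
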