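import Pool.Agent.Helper131.Slab.Defs

set_option maxRecDepth 100000

namespace Pool.Agent.Helper131.Slab

open MeasureTheory Set intervalIntegral Filter Topology

theorem int_quad845_two_ge_small (a b p s : ℝ) :
    ∫ z in a..b, (z + s * (z + p) ^ 2) = (b ^ 2 - a ^ 2) / 2 + s * ((b + p) ^ 3 - (a + p) ^ 3) / 3 := by
  have h : ∀ z ∈ uIcc a b, HasDerivAt (fun z : ℝ => z ^ 2 / 2 + s * (z + p) ^ 3 / 3) (z + s * (z + p) ^ 2) z := by
    intro z _
    have h1 : HasDerivAt (fun z : ℝ => z ^ 2 / 2) z z := by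
      have := (hasDerivAt_pow 2 z).div_const 2
      refine this.congr_deriv ?_
      norm_num
    have h2 : HasDerivAt (fun z : ℝ => s * (z + p) ^ 3 / 3) (s * (z + p) ^ 2) z := by
      have := ((((hasDerivAt_id' z).add_const p).pow 3).const_mul s).div_const 3
      refine this.congr_deriv ?_
      norm_num
      ring
    exact h1.add h2
  rw [intervalIntegral.integral_eq_sub_of_hasDerivAt h]
  · ring
  · apply Continuous.intervalIntegrable
    fun_prop

theorem kappa_le845_two_ge_small (a t y : ℝ) (ha : 0 < a) (hat : a ≤ t) (hy0 : 0 ≤ y) (hy1 : t - a ≤ y) (hy2 : y ≤ a) :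
    Aop a (clamp t) y ≤ y - (a + y - t) ^ 2 / (4 * a) := by
  rw [Aop_eq_of_ne a ha.ne']
  have hi : ∀ u v : ℝ, IntervalIntegrable (clamp t) volume u v := fun u v =>
    (clamp_continuous t).intervalIntegrable u v
  rw [← intervalIntegral.integral_add_adjacent_intervals (hi (y - a) t) (hi t (y + a)),
    int_clamp_const t t (y + a) (by linarith) le_rfl (by linarith)]
  have h1 : ∫ z in (y - a)..t, clamp t z ≤ ∫ z in (y - a)..t, z := by
    apply intervalIntegral.integral_mono_on (by linarith) (hi _ _) (continuous_id.intervalIntegrable _ _)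
    intro z hz
    unfold clamp
    refine max_le ?_ (min_le_left _ _)
    have := hz.1
    show -t ≤ z
    linarith
  rw [integral_id] at h1
  have h3 : (1 / (2 * a)) * ((∫ z in (y - a)..t, clamp t z) + t * (y + a - t)) ≤
      (1 / (2 * a)) * ((t ^ 2 - (y - a) ^ 2) / 2 + t * (y + a - t)) :=
    mul_le_mul_of_nonneg_left (by linarith) (by positivity)
  refine h3.trans (le_of_eq ?_)
  field_simp
  ring



theorem two_ge_small (α β t r : ℝ) (hα : 0 < α) (hβ : 0 < β) (hαt : α ≤ t) (hβα : β ≤ α)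
    (h : t ≤ α + β) (hr0 : 0 ≤ r) (hr : r ≤ α + β - t) :
    (1 - (α + β - t) ^ 2 / (4 * α * β)) * r - r ^ 3 / (12 * α * β)
      ≤ Aop β (Aop α (clamp t)) r := by
  have ht : 0 ≤ t := by linarith
  set k := Aop α (clamp t) with hk
  have hkc : Continuous k := Aop_continuous α (clamp_continuous t)
  have hko : ∀ x, k (-x) = - k x := fun x => Aop_odd α (clamp_odd t ht) x
  have hi : ∀ u v : ℝ, IntervalIntegrable k volume u v := fun u v => hkc.intervalIntegrable u v
  rw [Aop_eq_of_ne β hβ.ne']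
  have hsplit : ∫ z in (r - β)..(r + β), k z = (∫ z in (r - β)..(-(t - α)), k z) +
      (∫ z in (-(t - α))..(t - α), k z) + ∫ z in (t - α)..(r + β), k z := by
    rw [intervalIntegral.integral_add_adjacent_intervals (hi _ _) (hi _ _),
      intervalIntegral.integral_add_adjacent_intervals (hi _ _) (hi _ _)]
  have h2 : ∫ z in (-(t - α))..(t - α), k z = 0 := integral_odd_symm hko _
  have h1 : ∫ z in (r - β)..(-(t - α)), (z + (1 / (4 * α)) * (z + (t - α)) ^ 2) ≤
      ∫ z in (r - β)..(-(t - α)), k z := by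
    apply intervalIntegral.integral_mono_on (by linarith)
      (Continuous.intervalIntegrable (by fun_prop) _ _) (hi _ _)
    intro z hz
    have hz1 := hz.1
    have hz2 := hz.2
    have h4 := kappa_le845_two_ge_small α t (-z) hα hαt (by linarith) (by linarith) (by linarith)
    have h5 := hko (-z)
    rw [neg_neg] at h5
    rw [h5]
    have h6 : (α + -z - t) ^ 2 / (4 * α) = (1 / (4 * α)) * (z + (t - α)) ^ 2 := by ring
    rw [h6] at h4
    linarith
  have h3 : ∫ z in (t - α)..(r + β), (z + (-(1 / (4 * α))) * (z + (-(t - α))) ^ 2) ≤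
      ∫ z in (t - α)..(r + β), k z := by
    apply intervalIntegral.integral_mono_on (by linarith)
      (Continuous.intervalIntegrable (by fun_prop) _ _) (hi _ _)
    intro z hz
    have h4 := kappa_ge_quad α t z hα ht
    have h6 : (α + z - t) ^ 2 / (4 * α) = (1 / (4 * α)) * (z + -(t - α)) ^ 2 := by ring
    rw [h6] at h4
    linarith
  rw [int_quad845_two_ge_small] at h1 h3
  rw [hsplit, h2]
  have h7 : (1 / (2 * β)) * (((-(t - α)) ^ 2 - (r - β) ^ 2) / 2 + 1 / (4 * α) * ((-(t - α) + (t - α)) ^ 3 - (r - β + (t - α)) ^ 3) / 3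
      + (((r + β) ^ 2 - (t - α) ^ 2) / 2 + -(1 / (4 * α)) * ((r + β + -(t - α)) ^ 3 - (t - α + -(t - α)) ^ 3) / 3)) ≤
      (1 / (2 * β)) * ((∫ z in (r - β)..(-(t - α)), k z) + 0 + ∫ z in (t - α)..(r + β), k z) :=
    mul_le_mul_of_nonneg_left (by linarith) (by positivity)
  refine le_trans (le_of_eq ?_) h7
  field_simp
  ring

end Pool.Agent.Helper131.Slab
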