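import Pool.Agent.Helper131.Slab.Defs
import Pool.Agent.Helper131.Slab.L_two_ge
import Pool.Agent.Helper131.Slab.L_two_ge_small

set_option maxRecDepth 100000

namespace Pool.Agent.Helper131.Slab

open MeasureTheory Set intervalIntegral Filter Topology

theorem two_flat (α β t : ℝ) (hα : 0 < α) (hβ : 0 < β) (hαt : α ≤ t) (hβα : β ≤ α)
    (h : t ≤ α + β) (r : ℝ) (hr : 0 ≤ r) :
    (1 - (α + β - t) ^ 2 / (4 * α * β)) * r - 1 / (12 * α * β) * r ^ 3
      ≤ Aop β (Aop α (clamp t)) r := by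
  rcases le_total r (α + β - t) with h1 | h1
  · have h2 := two_ge_small α β t r hα hβ hαt hβα h hr h1
    have h3 : 1 / (12 * α * β) * r ^ 3 = r ^ 3 / (12 * α * β) := by ring
    rw [h3]
    exact h2
  · refine le_trans ?_ (two_ge α β t r hα hβ hαt hβα h h1)
    set κ : ℝ := α + β - t with hκ
    have hab : 0 < α * β := mul_pos hα hβ
    have h3 : r - (r + κ) ^ 3 / (24 * α * β) - ((1 - κ ^ 2 / (4 * α * β)) * r -
        1 / (12 * α * β) * r ^ 3) = (r - κ) ^ 3 / (24 * (α * β)) := by
      field_simp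
      ring
    have h4 : 0 ≤ (r - κ) ^ 3 / (24 * (α * β)) :=
      div_nonneg (pow_nonneg (by linarith) 3) (by positivity)
    linarith

end Pool.Agent.Helper131.Slab
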