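import Pool.Agent.Helper131.Slab.Defs
import Pool.Agent.Helper131.Slab.L_two_ge
import Pool.Agent.Helper131.Slab.L_two_ge_small

set_option maxRecDepth 100000

namespace Pool.Agent.Helper131.Slab

open MeasureTheory Set intervalIntegral Filter Topology

theorem two_tangent (α β t γ : ℝ) (hα : 0 < α) (hβ : 0 < β) (hαt : α ≤ t) (hβα : β ≤ α)
    (h : t ≤ α + β) (hγ : 0 < γ) (hκ : α + β - t ≤ γ) :
    ∃ c0 c2 : ℝ, 0 ≤ c2 ∧ c0 - c2 * γ ^ 2 = 1 - (α + β + γ - t) ^ 3 / (24 * α * β * γ) ∧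
      ∀ r, 0 ≤ r → c0 * r - c2 * r ^ 3 ≤ Aop β (Aop α (clamp t)) r := by
  obtain ⟨k, hk⟩ : ∃ k, k = α + β - t := ⟨_, rfl⟩
  have hk0 : 0 ≤ k := by rw [hk]; linarith
  have hkγ : k ≤ γ := by rw [hk]; exact hκ
  have hαβ : 0 < 48 * α * β * γ ^ 3 := by positivity
  have hane : α ≠ 0 := hα.ne'
  have hbne : β ≠ 0 := hβ.ne'
  have hgne : γ ≠ 0 := hγ.ne'
  refine ⟨1 - (γ + k) ^ 3 / (24 * α * β * γ) +
    (γ + k) ^ 2 * (2 * γ - k) / (48 * α * β * γ ^ 3) * γ ^ 2,
    (γ + k) ^ 2 * (2 * γ - k) / (48 * α * β * γ ^ 3), ?_, ?_, ?_⟩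
  · apply div_nonneg _ hαβ.le
    have : 0 ≤ 2 * γ - k := by linarith
    positivity
  · have : α + β + γ - t = γ + k := by rw [hk]; ring
    rw [this]
    ring
  · intro r hr
    rcases le_total k r with hkr | hrk
    · have h1 := two_ge α β t r hα hβ hαt hβα h (by rw [← hk]; exact hkr)
      rw [← hk] at h1
      refine le_trans ?_ h1
      rw [← sub_nonneg]
      have e : r - (r + k) ^ 3 / (24 * α * β) -
          ((1 - (γ + k) ^ 3 / (24 * α * β * γ) +
            (γ + k) ^ 2 * (2 * γ - k) / (48 * α * β * γ ^ 3) * γ ^ 2) * r -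
            (γ + k) ^ 2 * (2 * γ - k) / (48 * α * β * γ ^ 3) * r ^ 3) =
          (r - γ) ^ 2 * (k * ((3 * γ ^ 2 - k ^ 2) * r - 2 * k ^ 2 * γ)) / (48 * α * β * γ ^ 3) := by
        field_simp
        ring
      rw [e]
      apply div_nonneg _ hαβ.le
      apply mul_nonneg (sq_nonneg _)
      apply mul_nonneg hk0
      have h2 : 0 ≤ 3 * γ ^ 2 - k ^ 2 := by nlinarith
      have h3 : (3 * γ ^ 2 - k ^ 2) * k ≤ (3 * γ ^ 2 - k ^ 2) * r := mul_le_mul_of_nonneg_left hkr h2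
      have h4 : 0 ≤ k * ((3 * γ + k) * (γ - k)) :=
        mul_nonneg hk0 (mul_nonneg (by positivity) (by linarith))
      nlinarith
    · have h1 := two_ge_small α β t r hα hβ hαt hβα h hr (by rw [← hk]; exact hrk)
      rw [← hk] at h1
      refine le_trans ?_ h1
      rw [← sub_nonneg]
      have e : (1 - k ^ 2 / (4 * α * β)) * r - r ^ 3 / (12 * α * β) -
          ((1 - (γ + k) ^ 3 / (24 * α * β * γ) +
            (γ + k) ^ 2 * (2 * γ - k) / (48 * α * β * γ ^ 3) * γ ^ 2) * r -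
            (γ + k) ^ 2 * (2 * γ - k) / (48 * α * β * γ ^ 3) * r ^ 3) =
          r * (k * (γ - k) ^ 3 * (3 * γ + k) + (γ - k) ^ 2 * (2 * γ + k) * (k ^ 2 - r ^ 2)) /
            (48 * α * β * γ ^ 3) := by
        field_simp
        ring
      rw [e]
      apply div_nonneg _ hαβ.le
      apply mul_nonneg hr
      have h5 : 0 ≤ γ - k := by linarith
      have h6 : 0 ≤ k ^ 2 - r ^ 2 := by nlinarith
      positivity

end Pool.Agent.Helper131.Slab
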