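import Pool.Agent.Helper131.Slab.Defs2

set_option maxRecDepth 100000

namespace Pool.Agent.Helper131.Slab

open MeasureTheory Set intervalIntegral Filter Topology

theorem sinc3_fine : (∀ y, lam 3 * 0.5075 ≤ y → y ≤ lam 3 * 0.53 → |Real.sinc y| ≤ 0.175) ∧
    (∀ y, lam 3 * 0.75 ≤ y → y ≤ lam 3 * 0.765 → |Real.sinc y| ≤ 0.129) ∧
    (∀ y, lam 3 * 0.765 ≤ y → y ≤ lam 3 * 0.775 → |Real.sinc y| ≤ 0.112) := by
  have hpi1 := Real.pi_gt_d4
  have hpi2 := Real.pi_lt_d4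
  have hlam : lam 3 = 7 * Real.pi / 3 := by unfold lam; push_cast; ring
  have key : ∀ y B : ℝ, 0 < y → |Real.sin y| ≤ B * y → |Real.sinc y| ≤ B := by
    intro y B hy h
    rw [Real.sinc_of_ne_zero hy.ne', abs_div, abs_of_pos hy, div_le_iff₀ hy]
    exact h
  refine ⟨?_, ?_, ?_⟩
  · intro y h1 h2
    rw [hlam] at h1 h2
    have hy : 0 < y := by nlinarith
    apply key y _ hy
    have hz0 : 0 ≤ y - Real.pi := by nlinarith
    have hz1 : y - Real.pi ≤ 0.7437 := by nlinarith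
    have hs : |Real.sin y| = Real.sin (y - Real.pi) := by
      have e : Real.sin y = - Real.sin (y - Real.pi) := by rw [Real.sin_sub_pi]; ring
      rw [e, abs_neg, abs_of_nonneg]
      exact Real.sin_nonneg_of_nonneg_of_le_pi hz0 (by linarith)
    rw [hs]
    have h5 := sin_le_P5 (y - Real.pi) hz0
    set z := y - Real.pi with hz
    have hyz : y = z + Real.pi := by rw [hz]; ring
    have hq : z - z ^ 3 / 6 + z ^ 5 / 120 ≤ 0.175 * (z + 3.1415) := by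
      have hz2 : 0 ≤ 0.7437 - z := by linarith
      have e : 0.175 * (z + 3.1415) - (z - z ^ 3 / 6 + z ^ 5 / 120) =
        0.175 * (0.7437 + 3.1415) - (0.7437 - 0.7437 ^ 3 / 6 + 0.7437 ^ 5 / 120) +
        (0.7437 - z) * ((1 - 0.175) - (0.7437 ^ 2 + 0.7437 * z + z ^ 2) / 6 + (0.7437 ^ 4 + 0.7437 ^ 3 * z + 0.7437 ^ 2 * z ^ 2 + 0.7437 * z ^ 3 + z ^ 4) / 120) := by ring
      have f1 : (0.7437 ^ 2 + 0.7437 * z + z ^ 2) ≤ 3 * 0.7437 ^ 2 := by nlinarith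
      have f2 : 0 ≤ (0.7437 ^ 4 + 0.7437 ^ 3 * z + 0.7437 ^ 2 * z ^ 2 + 0.7437 * z ^ 3 + z ^ 4) := by positivity
      have f3 : 0 ≤ ((1 - 0.175) - (0.7437 ^ 2 + 0.7437 * z + z ^ 2) / 6 + (0.7437 ^ 4 + 0.7437 ^ 3 * z + 0.7437 ^ 2 * z ^ 2 + 0.7437 * z ^ 3 + z ^ 4) / 120) := by
        norm_num at f1 ⊢
        linarith
      have f4 := mul_nonneg hz2 f3
      norm_num at e f4 ⊢
      linarith
    calc Real.sin z ≤ z - z ^ 3 / 6 + z ^ 5 / 120 := h5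
      _ ≤ 0.175 * (z + 3.1415) := hq
      _ ≤ 0.175 * y := by rw [hyz]; nlinarith
  · intro y h1 h2
    rw [hlam] at h1 h2
    have hy1 : 5.4976 ≤ y := by nlinarith
    have hy : 0 < y := by linarith
    apply key y _ hy
    have hz0 : 0 ≤ 2 * Real.pi - y := by nlinarith
    have hz1 : 2 * Real.pi - y ≤ 0.7855 := by nlinarith
    have hs : |Real.sin y| = Real.sin (2 * Real.pi - y) := by
      have e : Real.sin y = - Real.sin (2 * Real.pi - y) := by rw [Real.sin_two_pi_sub]; ring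
      rw [e, abs_neg, abs_of_nonneg]
      exact Real.sin_nonneg_of_nonneg_of_le_pi hz0 (by linarith)
    rw [hs]
    have h5 := sin_le_P5 (2 * Real.pi - y) hz0
    set z := 2 * Real.pi - y with hz
    have hq : z - z ^ 3 / 6 + z ^ 5 / 120 ≤ 0.7091 := by
      have hz2 : 0 ≤ 0.7855 - z := by linarith
      have e : 0.7091 - (z - z ^ 3 / 6 + z ^ 5 / 120) =
        0.7091 - (0.7855 - 0.7855 ^ 3 / 6 + 0.7855 ^ 5 / 120) +
        (0.7855 - z) * (1 - (0.7855 ^ 2 + 0.7855 * z + z ^ 2) / 6 + (0.7855 ^ 4 + 0.7855 ^ 3 * z + 0.7855 ^ 2 * z ^ 2 + 0.7855 * z ^ 3 + z ^ 4) / 120) := by ring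
      have f1 : (0.7855 ^ 2 + 0.7855 * z + z ^ 2) ≤ 3 * 0.7855 ^ 2 := by nlinarith
      have f2 : 0 ≤ (0.7855 ^ 4 + 0.7855 ^ 3 * z + 0.7855 ^ 2 * z ^ 2 + 0.7855 * z ^ 3 + z ^ 4) := by positivity
      have f3 : 0 ≤ (1 - (0.7855 ^ 2 + 0.7855 * z + z ^ 2) / 6 + (0.7855 ^ 4 + 0.7855 ^ 3 * z + 0.7855 ^ 2 * z ^ 2 + 0.7855 * z ^ 3 + z ^ 4) / 120) := by
        norm_num at f1 ⊢
        linarith
      have f4 := mul_nonneg hz2 f3
      norm_num at e f4 ⊢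
      linarith
    norm_num at hq hy1 ⊢
    linarith
  · intro y h1 h2
    rw [hlam] at h1 h2
    have hy1 : 5.6075 ≤ y := by nlinarith
    have hy : 0 < y := by linarith
    apply key y _ hy
    have hz0 : 0 ≤ 2 * Real.pi - y := by nlinarith
    have hz1 : 2 * Real.pi - y ≤ 0.6756 := by nlinarith
    have hs : |Real.sin y| = Real.sin (2 * Real.pi - y) := by
      have e : Real.sin y = - Real.sin (2 * Real.pi - y) := by rw [Real.sin_two_pi_sub]; ring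
      rw [e, abs_neg, abs_of_nonneg]
      exact Real.sin_nonneg_of_nonneg_of_le_pi hz0 (by linarith)
    rw [hs]
    have h5 := sin_le_P5 (2 * Real.pi - y) hz0
    set z := 2 * Real.pi - y with hz
    have hq : z - z ^ 3 / 6 + z ^ 5 / 120 ≤ 0.628 := by
      have hz2 : 0 ≤ 0.6756 - z := by linarith
      have e : 0.628 - (z - z ^ 3 / 6 + z ^ 5 / 120) =
        0.628 - (0.6756 - 0.6756 ^ 3 / 6 + 0.6756 ^ 5 / 120) +
        (0.6756 - z) * (1 - (0.6756 ^ 2 + 0.6756 * z + z ^ 2) / 6 + (0.6756 ^ 4 + 0.6756 ^ 3 * z + 0.6756 ^ 2 * z ^ 2 + 0.6756 * z ^ 3 + z ^ 4) / 120) := by ring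
      have f1 : (0.6756 ^ 2 + 0.6756 * z + z ^ 2) ≤ 3 * 0.6756 ^ 2 := by nlinarith
      have f2 : 0 ≤ (0.6756 ^ 4 + 0.6756 ^ 3 * z + 0.6756 ^ 2 * z ^ 2 + 0.6756 * z ^ 3 + z ^ 4) := by positivity
      have f3 : 0 ≤ (1 - (0.6756 ^ 2 + 0.6756 * z + z ^ 2) / 6 + (0.6756 ^ 4 + 0.6756 ^ 3 * z + 0.6756 ^ 2 * z ^ 2 + 0.6756 * z ^ 3 + z ^ 4) / 120) := by
        norm_num at f1 ⊢
        linarith
      have f4 := mul_nonneg hz2 f3
      norm_num at e f4 ⊢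
      linarith
    norm_num at hq hy1 ⊢
    linarith

end Pool.Agent.Helper131.Slab
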