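import Pool.Agent.Helper131.Slab.Main
import Pool.Agent.Helper131.Slab.L_sinc_up6
import Pool.Agent.Helper131.Slab.L_abs_sinc_6
import Pool.Agent.Helper131.Slab.L_abs_sinc_137
import Pool.Agent.Helper131.Slab.L_sinc3_fine
import Pool.Agent.Helper131.Slab.L_J0
import Pool.Agent.Helper131.Slab.L_J1
import Pool.Agent.Helper131.Slab.L_J2
import Pool.Agent.Helper131.Slab.L_J2neg
import Pool.Agent.Helper131.Slab.L_all_bounds
import Pool.Agent.Helper131.Slab.L_fourier_value2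
import Pool.Agent.Helper131.Slab.L_numE0
import Pool.Agent.Helper131.Slab.L_numE1
import Pool.Agent.Helper131.Slab.L_numE2
import Pool.Agent.Helper131.Slab.L_numW5
import Pool.Agent.Helper131.Slab.L_G3one
import Pool.Agent.Helper131.Slab.L_G3b
import Pool.Agent.Helper131.Slab.L_F3b
import Pool.Agent.Helper131.Slab.L_region3b
import Pool.Agent.Helper131.Slab.L_ineq1a2
import Pool.Agent.Helper131.Slab.L_ineq1c2
import Pool.Agent.Helper131.Slab.L_region1b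
import Pool.Agent.Helper131.Slab.L_conc_gg3
import Pool.Agent.Helper131.Slab.L_numUA
import Pool.Agent.Helper131.Slab.L_numUB
import Pool.Agent.Helper131.Slab.L_numU0
import Pool.Agent.Helper131.Slab.L_numU1
import Pool.Agent.Helper131.Slab.L_numU2
import Pool.Agent.Helper131.Slab.L_numU3
import Pool.Agent.Helper131.Slab.L_numU4
import Pool.Agent.Helper131.Slab.L_numU5
import Pool.Agent.Helper131.Slab.L_numU6
import Pool.Agent.Helper131.Slab.L_numU7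

set_option autoImplicit false

namespace Pool.Agent.Helper131.Slab

open MeasureTheory Set intervalIntegral Filter Topology

theorem gen_sf {n : ℕ} (a : Fin (n + 1) → ℝ) (p : Fin (n + 1)) (u b sf : ℝ)
    (hs : ∑ i, a i ^ 2 = 1)
    (h2 : |a p| ≤ u) (hr : ∀ j, |a (p.succAbove j)| ≤ b) (k : ℕ) (ρ : ℝ) (hρ : 0 ≤ ρ)
    (hS : ∀ x, |x| ≤ lam k * b → |Real.sinc x| ≤ Real.exp (-(ρ * x ^ 2)))
    (hsinc : |Real.sinc (lam k * a p)| ≤ sf) :
    |PP a k| ≤ sf * Real.exp (-(ρ * lam k ^ 2 * (1 - u ^ 2))) := by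
  have hlam : 0 < lam k := by
    unfold lam
    positivity
  have hsum : ∑ i, a i ^ 2 = a p ^ 2 + ∑ j, a (p.succAbove j) ^ 2 :=
    Fin.sum_univ_succAbove _ p
  have hrest := prod_abs_le (fun j => a (p.succAbove j)) b (lam k) (lam k * b) ρ hlam.le le_rfl
    hr hS
  have hap2 : a p ^ 2 ≤ u ^ 2 := by
    rw [← sq_abs]
    exact pow_le_pow_left₀ (abs_nonneg _) h2 2
  have hexp : Real.exp (-(ρ * lam k ^ 2 * ∑ j, a (p.succAbove j) ^ 2)) ≤
      Real.exp (-(ρ * lam k ^ 2 * (1 - u ^ 2))) := by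
    apply Real.exp_le_exp.2
    apply neg_le_neg
    apply mul_le_mul_of_nonneg_left _ (by positivity)
    linarith
  have hPP : PP a k = Real.sinc (lam k * a p) * ∏ j, Real.sinc (lam k * a (p.succAbove j)) := by
    unfold PP
    exact Fin.prod_univ_succAbove _ p
  rw [hPP, abs_mul]
  exact mul_le_mul hsinc (hrest.trans hexp) (abs_nonneg _) ((abs_nonneg _).trans hsinc)

theorem sinc_inv {n : ℕ} (a : Fin (n + 1) → ℝ) (p : Fin (n + 1)) (l : ℝ)
    (hl : 0 < l) (h1 : l ≤ |a p|) (k : ℕ) : |Real.sinc (lam k * a p)| ≤ 1 / (lam k * l) := by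
  have hlam : 0 < lam k := by
    unfold lam
    positivity
  have hap : 0 < |a p| := lt_of_lt_of_le hl h1
  have hne : lam k * a p ≠ 0 := by
    apply mul_ne_zero hlam.ne'
    exact abs_pos.1 hap
  rw [Real.sinc_of_ne_zero hne, abs_div]
  have e1 : |lam k * a p| = lam k * |a p| := by rw [abs_mul, abs_of_pos hlam]
  rw [e1]
  apply div_le_div₀ zero_le_one (Real.abs_sin_le_one _) (by positivity)
  exact mul_le_mul_of_nonneg_left h1 hlam.le

theorem sinc_fine {n : ℕ} (a : Fin (n + 1) → ℝ) (p : Fin (n + 1)) (l u sf : ℝ)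
    (h1 : l ≤ |a p|) (h2 : |a p| ≤ u) (k : ℕ)
    (h : ∀ y, lam k * l ≤ y → y ≤ lam k * u → |Real.sinc y| ≤ sf) :
    |Real.sinc (lam k * a p)| ≤ sf := by
  have hlam : 0 < lam k := by
    unfold lam
    positivity
  have e := h (lam k * |a p|) (mul_le_mul_of_nonneg_left h1 hlam.le)
    (mul_le_mul_of_nonneg_left h2 hlam.le)
  rcases abs_choice (a p) with h' | h'
  · rwa [h'] at e
  · rw [h', mul_neg, Real.sinc_neg] at e
    exact e

theorem gen_log2 {n : ℕ} (a : Fin (n + 1) → ℝ) (p : Fin (n + 1)) (l u b : ℝ)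
    (hl : 0 < l) (hb : 0 < b) (hs : ∑ i, a i ^ 2 = 1) (h1 : l ≤ |a p|)
    (h2 : |a p| ≤ u) (hr : ∀ j, |a (p.succAbove j)| ≤ b) (k : ℕ)
    (hk : Real.pi ≤ lam k * b) :
    |PP a k| ≤ 1 / (lam k * l) * Real.exp (-((1 - u ^ 2) / b ^ 2 * Real.log (lam k * b))) := by
  have hπ : 3 < Real.pi := Real.pi_gt_three
  have hlog : 0 ≤ Real.log (lam k * b) := Real.log_nonneg (by linarith)
  have hρ : 0 ≤ Real.log (lam k * b) / (lam k * b) ^ 2 := div_nonneg hlog (sq_nonneg _)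
  have hl0 : lam k ≠ 0 := by
    intro h
    rw [h, zero_mul] at hk
    linarith
  have hb0 : b ≠ 0 := hb.ne'
  have := gen_sf a p u b _ hs h2 hr k _ hρ
    (fun x hx => abs_sinc_log _ x hk hx) (sinc_inv a p l hl h1 k)
  have e : Real.log (lam k * b) / (lam k * b) ^ 2 * lam k ^ 2 * (1 - u ^ 2) =
      (1 - u ^ 2) / b ^ 2 * Real.log (lam k * b) := by
    field_simp
  rwa [e] at this

theorem gen_tail2 {n : ℕ} (a : Fin (n + 1) → ℝ) (p : Fin (n + 1)) (l u b : ℝ)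
    (hl : 0 < l) (hb : 0 < b) (hs : ∑ i, a i ^ 2 = 1) (h1 : l ≤ |a p|)
    (h2 : |a p| ≤ u) (hr : ∀ j, |a (p.succAbove j)| ≤ b)
    (h5 : Real.pi ≤ lam 5 * b) (he : 2 * b ^ 2 ≤ 1 - u ^ 2) (k : ℕ) (hk : 5 ≤ k) :
    |PP a k| ≤ (1 / (lam 5 * l) * Real.exp (-((1 - u ^ 2) / b ^ 2 * Real.log (lam 5 * b))))
      * (11 / (2 * (k : ℝ) + 1)) ^ 3 := by
  have hpi := Real.pi_pos
  obtain ⟨q, hq⟩ : ∃ q : ℝ, q = (2 * (k : ℝ) + 1) / 11 := ⟨_, rfl⟩
  have hk5 : (5 : ℝ) ≤ k := by exact_mod_cast hk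
  have hq1 : 1 ≤ q := by
    rw [hq]
    linarith
  have hq0 : 0 < q := by linarith
  have hL5 : 0 < lam 5 := by
    unfold lam
    positivity
  have hlk : lam k = lam 5 * q := by
    rw [hq]
    unfold lam
    push_cast
    ring
  have hkb : Real.pi ≤ lam k * b := by
    rw [hlk]
    have h6 : lam 5 * b * 1 ≤ lam 5 * b * q := mul_le_mul_of_nonneg_left hq1 (by positivity)
    linarith
  have h7 := gen_log2 a p l u b hl hb hs h1 h2 hr k hkb
  refine h7.trans ?_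
  have hE : 2 ≤ (1 - u ^ 2) / b ^ 2 := by
    rw [le_div_iff₀ (by positivity)]
    exact he
  generalize (1 - u ^ 2) / b ^ 2 = E at hE ⊢
  have hlog : Real.log (lam k * b) = Real.log (lam 5 * b) + Real.log q := by
    rw [hlk, ← Real.log_mul (by positivity) hq0.ne']
    congr 1
    ring
  have hlogq : 0 ≤ Real.log q := Real.log_nonneg hq1
  have h8 : Real.exp (-(E * Real.log (lam k * b))) ≤
      Real.exp (-(E * Real.log (lam 5 * b))) * (1 / q ^ 2) := by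
    rw [hlog]
    have h9 : -(E * (Real.log (lam 5 * b) + Real.log q)) =
        -(E * Real.log (lam 5 * b)) + -(E * Real.log q) := by ring
    rw [h9, Real.exp_add]
    apply mul_le_mul_of_nonneg_left _ (Real.exp_pos _).le
    have h10 : Real.exp (-(E * Real.log q)) ≤ Real.exp (-(2 * Real.log q)) := by
      apply Real.exp_le_exp.2
      have := mul_le_mul_of_nonneg_right hE hlogq
      linarith
    refine h10.trans (le_of_eq ?_)
    rw [Real.exp_neg, two_mul, Real.exp_add, Real.exp_log hq0, one_div, sq]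
  have h11 : (11 / (2 * (k : ℝ) + 1)) ^ 3 = 1 / q ^ 3 := by
    rw [hq]
    field_simp
  rw [h11, hlk] at *
  calc 1 / (lam 5 * q * l) * Real.exp (-(E * Real.log (lam 5 * q * b)))
      ≤ 1 / (lam 5 * q * l) * (Real.exp (-(E * Real.log (lam 5 * b))) * (1 / q ^ 2)) :=
        mul_le_mul_of_nonneg_left h8 (by positivity)
    _ = 1 / (lam 5 * l) * Real.exp (-(E * Real.log (lam 5 * b))) * (1 / q ^ 3) := by
        field_simp

theorem both_nodes {n : ℕ} (a : Fin n → ℝ) (L0 U1 U2 U3 U4 B : ℝ) (hB : 0 ≤ B)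
    (hL0 : 0 ≤ L0) (hU1 : 0 ≤ U1) (hU2 : 0 ≤ U2) (hU3 : 0 ≤ U3) (hU4 : 0 ≤ U4)
    (h0 : L0 ≤ PP a 0) (h1 : PP a 1 ≤ U1) (h2 : PP a 2 ≤ U2) (h3 : |PP a 3| ≤ U3)
    (h4 : |PP a 4| ≤ U4)
    (h : ∀ k : ℕ, 5 ≤ k → |PP a k| ≤ B * (11 / (2 * (k : ℝ) + 1)) ^ 3)
    (k1 : 0.915065 + 0.00003 ≤ 1.10265 * L0 - 0.0 * U1 - 0.22054 * U2 - 0.15753 * U3
      - 0.00001 * U4 - 0.285 * B)
    (k2 : 0.92018 + 0.00003 ≤ 1.11252 * L0 - 0.02 * U1 - 0.20987 * U2 - 0.16656 * U3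
      - 0.01994 * U4 - 0.285 * B)
    (t : ℝ) (ht0 : 1 ≤ t) (ht1 : t ≤ 1.015) : Low a (clamp t) (gg3 t) := by
  obtain ⟨e0, e1, e2, e3, e4, e5⟩ := numW4
  obtain ⟨f0, f1, f1', f2, f2', f3, f4, f5, f6⟩ := numW5
  refine conc_gg3 a t ht0 ht1 ?_ ?_
  · refine Low_mono (fourier_value2 a 1.0 L0 U1 U2 U3 U4 B (by norm_num) (by norm_num) hB h0 h1 h2
      h3 h4 h) ?_
    have g0 := mul_le_mul_of_nonneg_right e0 hL0
    have g1 := mul_le_mul_of_nonneg_right e1 hU1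
    have g2 := mul_le_mul_of_nonneg_right e2 hU2
    have g3 := mul_le_mul_of_nonneg_right e3 hU3
    have g4 := mul_le_mul_of_nonneg_right e4 hU4
    linarith
  · refine Low_mono (fourier_value2 a 1.015 L0 U1 U2 U3 U4 B (by norm_num) (by norm_num) hB h0 h1 h2
      h3 h4 h) ?_
    have g0 := mul_le_mul_of_nonneg_right f0 hL0
    have g1 := mul_le_mul_of_nonneg_right f1 hU1
    have g2 := mul_le_mul_of_nonneg_right f2 hU2
    have g3 := mul_le_mul_of_nonneg_right f3 hU3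
    have g4 := mul_le_mul_of_nonneg_right f4 hU4
    linarith

/-- the form with the value of `∑ a_i^4` in an interval -/
theorem nodes_P {n : ℕ} (a : Fin (n + 1) → ℝ) (p : Fin (n + 1)) (hs : ∑ i, a i ^ 2 = 1)
    (hap : |a p| ≤ 0.775) (hr : ∀ j, |a (p.succAbove j)| ≤ 0.51)
    (x0 x1 U3 U4 B : ℝ) (hx00 : 0 ≤ x0) (hx11 : x1 ≤ 0.275)
    (hx0 : x0 ≤ ∑ i, a i ^ 4) (hx1 : ∑ i, a i ^ 4 ≤ x1) (hB : 0 ≤ B) (hU3 : 0 ≤ U3) (hU4 : 0 ≤ U4)
    (h3 : |PP a 3| ≤ U3) (h4 : |PP a 4| ≤ U4)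
    (h : ∀ k : ℕ, 5 ≤ k → |PP a k| ≤ B * (11 / (2 * (k : ℝ) + 1)) ^ 3)
    (k1 : ∀ x, x0 ≤ x → x ≤ x1 → 0.915065 + 0.00003 ≤ 1.10265 * (0.832955 * (1 - 0.00708 * x))
      - 0.0 * (0.19303 * (1 - 0.4864 * x)) - 0.22054 * (0.01037 * (1 - 4.17 * x + 4.38 * x ^ 2))
      - 0.15753 * U3 - 0.00001 * U4 - 0.285 * B)
    (k2 : ∀ x, x0 ≤ x → x ≤ x1 → 0.92018 + 0.00003 ≤ 1.11252 * (0.832955 * (1 - 0.00708 * x))
      - 0.02 * (0.19303 * (1 - 0.4864 * x)) - 0.20987 * (0.01037 * (1 - 4.17 * x + 4.38 * x ^ 2))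
      - 0.16656 * U3 - 0.01994 * U4 - 0.285 * B)
    (t : ℝ) (ht0 : 1 ≤ t) (ht1 : t ≤ 1.015) : Low a (clamp t) (gg3 t) := by
  have hall : ∀ i, |a i| ≤ 0.775 := by
    intro i
    rcases eq_or_ne i p with rfl | hi
    · exact hap
    · obtain ⟨j, rfl⟩ := Fin.exists_succAbove_eq hi
      exact (hr j).trans (by norm_num)
  have h0x : 0 ≤ ∑ i, a i ^ 4 := hx00.trans hx0
  have hx275 : ∑ i, a i ^ 4 ≤ 0.275 := hx1.trans hx11
  have j0 := (numE0 _ h0x).trans (J0 a hs hall)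
  have j1 := (J1 a hs hall).trans (numE1 _ h0x (by linarith))
  have j2 := (J2 a p hs hap hr).trans (numE2 _ h0x hx275)
  have p2 : 0 ≤ 0.01037 * (1 - 4.17 * (∑ i, a i ^ 4) + 4.38 * (∑ i, a i ^ 4) ^ 2) :=
    (Real.exp_pos _).le.trans (numE2 _ h0x hx275)
  have hx275' : ∑ i, a i ^ 4 ≤ 275 / 1000 := by
    refine hx275.trans (by norm_num)
  refine both_nodes a _ _ _ U3 U4 B hB ?_ ?_ p2 hU3 hU4 j0 j1 j2 h3 h4 h (k1 _ hx0 hx1)
    (k2 _ hx0 hx1) t ht0 ht1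
  · apply mul_nonneg (by norm_num)
    norm_num
    linarith
  · apply mul_nonneg (by norm_num)
    norm_num
    linarith

theorem nodes_Q {n : ℕ} (a : Fin (n + 1) → ℝ) (p : Fin (n + 1)) (hs : ∑ i, a i ^ 2 = 1)
    (hap0 : 0.6 ≤ |a p|)
    (hap : |a p| ≤ 0.775) (hr : ∀ j, |a (p.succAbove j)| ≤ 0.51)
    (x1 U3 U4 B : ℝ) (hx11 : x1 ≤ 0.4)
    (hx1 : ∑ i, a i ^ 4 ≤ x1) (hB : 0 ≤ B) (hU3 : 0 ≤ U3) (hU4 : 0 ≤ U4)
    (h3 : |PP a 3| ≤ U3) (h4 : |PP a 4| ≤ U4)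
    (h : ∀ k : ℕ, 5 ≤ k → |PP a k| ≤ B * (11 / (2 * (k : ℝ) + 1)) ^ 3)
    (k1 : ∀ x, 0 ≤ x → x ≤ x1 → 0.915065 + 0.00003 ≤ 1.10265 * (0.832955 * (1 - 0.00708 * x))
      - 0.0 * (0.19303 * (1 - 0.4864 * x)) - 0.22054 * 0
      - 0.15753 * U3 - 0.00001 * U4 - 0.285 * B)
    (k2 : ∀ x, 0 ≤ x → x ≤ x1 → 0.92018 + 0.00003 ≤ 1.11252 * (0.832955 * (1 - 0.00708 * x))
      - 0.02 * (0.19303 * (1 - 0.4864 * x)) - 0.20987 * 0
      - 0.16656 * U3 - 0.01994 * U4 - 0.285 * B)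
    (t : ℝ) (ht0 : 1 ≤ t) (ht1 : t ≤ 1.015) : Low a (clamp t) (gg3 t) := by
  have hall : ∀ i, |a i| ≤ 0.775 := by
    intro i
    rcases eq_or_ne i p with rfl | hi
    · exact hap
    · obtain ⟨j, rfl⟩ := Fin.exists_succAbove_eq hi
      exact (hr j).trans (by norm_num)
  have h0x : 0 ≤ ∑ i, a i ^ 4 := Finset.sum_nonneg fun i _ => by positivity
  have hx4 : ∑ i, a i ^ 4 ≤ 0.4 := hx1.trans hx11
  have j0 := (numE0 _ h0x).trans (J0 a hs hall)
  have j1 := (J1 a hs hall).trans (numE1 _ h0x hx4)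
  have j2 := J2neg a p hap0 hap hr
  have hx4' : ∑ i, a i ^ 4 ≤ 2 / 5 := by
    refine hx4.trans (by norm_num)
  refine both_nodes a _ _ _ U3 U4 B hB ?_ ?_ le_rfl hU3 hU4 j0 j1 j2 h3 h4 h (k1 _ h0x hx1)
    (k2 _ h0x hx1) t ht0 ht1
  · apply mul_nonneg (by norm_num)
    norm_num
    linarith
  · apply mul_nonneg (by norm_num)
    norm_num
    linarith

theorem x_bounds {n : ℕ} (a : Fin (n + 1) → ℝ) (p : Fin (n + 1)) (l u b : ℝ) (hl : 0 < l)
    (hb : 0 ≤ b) (hbl : b ≤ l) (hs : ∑ i, a i ^ 2 = 1) (h1 : l ≤ |a p|)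
    (h2 : |a p| ≤ u) (hr : ∀ j, |a (p.succAbove j)| ≤ b) :
    l ^ 4 ≤ ∑ i, a i ^ 4 ∧ ∑ i, a i ^ 4 ≤ u ^ 4 + b ^ 2 * (1 - u ^ 2) := by
  have hs2 := hs
  rw [Fin.sum_univ_succAbove _ p] at hs2
  have h4 := sum4_le (fun j => a (p.succAbove j)) b hr
  rw [Fin.sum_univ_succAbove _ p]
  have h6 : ∑ j, a (p.succAbove j) ^ 2 = 1 - a p ^ 2 := by linarith
  rw [h6] at h4
  have h7 : a p ^ 2 ≤ u ^ 2 := by
    rw [← sq_abs (a p)]
    exact pow_le_pow_left₀ (abs_nonneg _) h2 2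
  have h8 : l ^ 2 ≤ a p ^ 2 := by
    rw [← sq_abs (a p)]
    exact pow_le_pow_left₀ hl.le h1 2
  have h9 : b ^ 2 ≤ l ^ 2 := pow_le_pow_left₀ hb hbl 2
  constructor
  · have h10 : l ^ 4 ≤ a p ^ 4 := by
      have := pow_le_pow_left₀ (sq_nonneg l) h8 2
      calc l ^ 4 = (l ^ 2) ^ 2 := by ring
        _ ≤ (a p ^ 2) ^ 2 := this
        _ = a p ^ 4 := by ring
    have h11 : 0 ≤ ∑ j, a (p.succAbove j) ^ 4 := Finset.sum_nonneg fun i _ => by positivity
    linarith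
  · have h10 : 0 ≤ (u ^ 2 - a p ^ 2) * (u ^ 2 + a p ^ 2 - b ^ 2) := by
      apply mul_nonneg
      · linarith
      · nlinarith [sq_nonneg u]
    nlinarith [h4, h10]

theorem s6b (k : ℕ) (b : ℝ) (h : lam k * b ≤ 3.56) :
    ∀ x, |x| ≤ lam k * b → |Real.sinc x| ≤ Real.exp (-(1 / 6 * x ^ 2)) :=
  fun x hx => abs_sinc_6 x (hx.trans h)

theorem s137b (k : ℕ) (b : ℝ) (h : lam k * b ≤ 3.7229) :
    ∀ x, |x| ≤ lam k * b → |Real.sinc x| ≤ Real.exp (-(0.137 * x ^ 2)) :=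
  fun x hx => abs_sinc_137 x (hx.trans h)

theorem lam3 : lam 3 = 7 * Real.pi / 3 := by rw [lam_eq]; push_cast; ring
theorem lam4 : lam 4 = 3 * Real.pi := by rw [lam_eq]; push_cast; ring
theorem lam5 : lam 5 = 11 * Real.pi / 3 := by rw [lam_eq]; push_cast; ring

/-- all coordinates at most `0.5075` -/
theorem region2b {n : ℕ} (a : Fin (n + 1) → ℝ) (p : Fin (n + 1)) (hs : ∑ i, a i ^ 2 = 1)
    (hmax : ∀ i, |a i| ≤ |a p|) (h2 : |a p| ≤ 0.5075)
    (t : ℝ) (ht0 : 1 ≤ t) (ht1 : t ≤ 1.015) : Low a (clamp t) (gg3 t) := by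
  have hpi := Real.pi_gt_d6
  have hpi2 := Real.pi_lt_d6
  have hr : ∀ j, |a (p.succAbove j)| ≤ 0.51 := fun j => ((hmax _).trans h2).trans (by norm_num)
  have hap : |a p| ≤ 0.775 := h2.trans (by norm_num)
  rcases le_total |a p| 0.45 with h | h
  · obtain ⟨b1, b2, b3⟩ := all_bounds a hs 0.45 (by norm_num) (fun i => (hmax i).trans h)
    obtain ⟨v1, v2, v3⟩ := numUA
    have hx := sum4_le a 0.45 (fun i => (hmax i).trans h)
    rw [hs] at hx
    refine nodes_P a p hs hap hr 0 0.2025 0.00014 0.0008 0.0003 (by norm_num) (by norm_num)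
      (Finset.sum_nonneg fun i _ => by positivity) (hx.trans (by norm_num)) (by norm_num)
      (by norm_num) (by norm_num)
      ((b1 3 (1 / 6) (by norm_num) (s6b 3 _ (by rw [lam3]; linarith))).trans v1)
      ((b2 4 (by rw [lam4]; linarith)).trans v2) ?_ ?_ ?_ t ht0 ht1
    · intro k hk
      refine (b3 (by rw [lam5]; linarith) (by norm_num) k hk).trans ?_
      exact mul_le_mul_of_nonneg_right v3 (by positivity)
    · intro x y0 y1
      norm_num at y0 y1 ⊢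
      nlinarith [mul_nonneg (sub_nonneg.2 y0) (sub_nonneg.2 y1)]
    · intro x y0 y1
      norm_num at y0 y1 ⊢
      nlinarith [mul_nonneg (sub_nonneg.2 y0) (sub_nonneg.2 y1)]
  · obtain ⟨b1, b2, b3⟩ := all_bounds a hs 0.5075 (by norm_num) (fun i => (hmax i).trans h2)
    obtain ⟨v1, v2, v3⟩ := numUB
    have hx := sum4_le a 0.5075 (fun i => (hmax i).trans h2)
    rw [hs] at hx
    have hx0' : (0.041 : ℝ) ≤ ∑ i, a i ^ 4 := by
      have e1 : (0.45 : ℝ) ^ 4 ≤ a p ^ 4 := by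
        have := pow_le_pow_left₀ (by norm_num) h 4
        rwa [Even.pow_abs (by decide)] at this
      have e2 : a p ^ 4 ≤ ∑ i, a i ^ 4 :=
        Finset.single_le_sum (f := fun i => a i ^ 4) (fun i _ => by positivity) (Finset.mem_univ p)
      refine le_trans ?_ (e1.trans e2)
      norm_num
    refine nodes_P a p hs hap hr 0.041 0.2576 0.00064 0.0023 0.00106 (by norm_num) (by norm_num)
      hx0' (hx.trans (by norm_num)) (by norm_num)
      (by norm_num) (by norm_num)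
      ((b1 3 0.137 (by norm_num) (s137b 3 _ (by rw [lam3]; linarith))).trans v1)
      ((b2 4 (by rw [lam4]; linarith)).trans v2) ?_ ?_ ?_ t ht0 ht1
    · intro k hk
      refine (b3 (by rw [lam5]; linarith) (by norm_num) k hk).trans ?_
      exact mul_le_mul_of_nonneg_right v3 (by positivity)
    · intro x y0 y1
      norm_num at y0 y1 ⊢
      nlinarith [mul_nonneg (sub_nonneg.2 y0) (sub_nonneg.2 y1)]
    · intro x y0 y1
      norm_num at y0 y1 ⊢
      nlinarith [mul_nonneg (sub_nonneg.2 y0) (sub_nonneg.2 y1)]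

theorem tail_trans {n : ℕ} {a : Fin n → ℝ} {A B : ℝ}
    (h : ∀ k : ℕ, 5 ≤ k → |PP a k| ≤ A * (11 / (2 * (k : ℝ) + 1)) ^ 3) (hAB : A ≤ B) :
    ∀ k : ℕ, 5 ≤ k → |PP a k| ≤ B * (11 / (2 * (k : ℝ) + 1)) ^ 3 :=
  fun k hk => (h k hk).trans (mul_le_mul_of_nonneg_right hAB (by positivity))

def Reg (l u b : ℝ) : Prop :=
  (l = 0.5075 ∧ u = 0.53 ∧ b = 0.5075) ∨ (l = 0.53 ∧ u = 0.57 ∧ b = 0.485) ∨
  (l = 0.57 ∧ u = 0.62 ∧ b = 0.445) ∨ (l = 0.62 ∧ u = 0.68 ∧ b = 0.395) ∨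
  (l = 0.68 ∧ u = 0.72 ∧ b = 0.35) ∨ (l = 0.72 ∧ u = 0.75 ∧ b = 0.33) ∨
  (l = 0.75 ∧ u = 0.765 ∧ b = 0.28) ∨ (l = 0.765 ∧ u = 0.775 ∧ b = 0.28)

theorem region4b {n : ℕ} (a : Fin (n + 1) → ℝ) (p : Fin (n + 1)) (hs : ∑ i, a i ^ 2 = 1)
    (l u b : ℝ) (hc : Reg l u b)
    (h1 : l ≤ |a p|) (h2 : |a p| ≤ u) (hr : ∀ j, |a (p.succAbove j)| ≤ b)
    (t : ℝ) (ht0 : 1 ≤ t) (ht1 : t ≤ 1.015) : Low a (clamp t) (gg3 t) := by
  have hpi := Real.pi_gt_d6
  have hpi2 := Real.pi_lt_d6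
  obtain ⟨sf0, sf6, sf7⟩ := sinc3_fine
  rcases hc with ⟨rfl, rfl, rfl⟩ | ⟨rfl, rfl, rfl⟩ | ⟨rfl, rfl, rfl⟩ | ⟨rfl, rfl, rfl⟩ |
    ⟨rfl, rfl, rfl⟩ | ⟨rfl, rfl, rfl⟩ | ⟨rfl, rfl, rfl⟩ | ⟨rfl, rfl, rfl⟩
  · obtain ⟨v1, v2, v3⟩ := numU0
    obtain ⟨x0, x1⟩ := x_bounds a p _ _ _ (by norm_num) (by norm_num) (by norm_num) hs h1 h2 hr
    refine nodes_P a p hs (h2.trans (by norm_num)) (fun j => (hr j).trans (by norm_num))
      0.0663 0.2642 0.00089 0.00265 0.00124 (by norm_num) (by norm_num)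
      (le_trans (by norm_num) x0) (x1.trans (by norm_num)) (by norm_num) (by norm_num) (by norm_num)
      ((gen_sf a p _ _ _ hs h2 hr 3 0.137 (by norm_num) (s137b 3 _ (by rw [lam3]; linarith))
        (sinc_fine a p _ _ _ h1 h2 3 sf0)).trans v1)
      ((gen_log2 a p _ _ _ (by norm_num) (by norm_num) hs h1 h2 hr 4 (by rw [lam4]; linarith)).trans v2)
      (tail_trans (gen_tail2 a p _ _ _ (by norm_num) (by norm_num) hs h1 h2 hr
        (by rw [lam5]; linarith) (by norm_num)) v3) ?_ ?_ t ht0 ht1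
    · intro x y0 y1
      norm_num at y0 y1 ⊢
      nlinarith [mul_nonneg (sub_nonneg.2 y0) (sub_nonneg.2 y1)]
    · intro x y0 y1
      norm_num at y0 y1 ⊢
      nlinarith [mul_nonneg (sub_nonneg.2 y0) (sub_nonneg.2 y1)]
  · obtain ⟨v1, v2, v3⟩ := numU1
    obtain ⟨x0, x1⟩ := x_bounds a p _ _ _ (by norm_num) (by norm_num) (by norm_num) hs h1 h2 hr
    refine nodes_P a p hs (h2.trans (by norm_num)) (fun j => (hr j).trans (by norm_num))
      0.0789 0.2644 0.00062 0.00256 0.00118 (by norm_num) (by norm_num)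
      (le_trans (by norm_num) x0) (x1.trans (by norm_num)) (by norm_num) (by norm_num) (by norm_num)
      ((gen_sf a p _ _ _ hs h2 hr 3 (1 / 6) (by norm_num) (s6b 3 _ (by rw [lam3]; linarith))
        (sinc_inv a p _ (by norm_num) h1 3)).trans v1)
      ((gen_log2 a p _ _ _ (by norm_num) (by norm_num) hs h1 h2 hr 4 (by rw [lam4]; linarith)).trans v2)
      (tail_trans (gen_tail2 a p _ _ _ (by norm_num) (by norm_num) hs h1 h2 hr
        (by rw [lam5]; linarith) (by norm_num)) v3) ?_ ?_ t ht0 ht1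
    · intro x y0 y1
      norm_num at y0 y1 ⊢
      nlinarith [mul_nonneg (sub_nonneg.2 y0) (sub_nonneg.2 y1)]
    · intro x y0 y1
      norm_num at y0 y1 ⊢
      nlinarith [mul_nonneg (sub_nonneg.2 y0) (sub_nonneg.2 y1)]
  · obtain ⟨v1, v2, v3⟩ := numU2
    obtain ⟨x0, x1⟩ := x_bounds a p _ _ _ (by norm_num) (by norm_num) (by norm_num) hs h1 h2 hr
    refine nodes_P a p hs (h2.trans (by norm_num)) (fun j => (hr j).trans (by norm_num))
      0.1055 0.2697 0.00097 0.00217 0.00095 (by norm_num) (by norm_num)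
      (le_trans (by norm_num) x0) (x1.trans (by norm_num)) (by norm_num) (by norm_num) (by norm_num)
      ((gen_sf a p _ _ _ hs h2 hr 3 (1 / 6) (by norm_num) (s6b 3 _ (by rw [lam3]; linarith))
        (sinc_inv a p _ (by norm_num) h1 3)).trans v1)
      ((gen_log2 a p _ _ _ (by norm_num) (by norm_num) hs h1 h2 hr 4 (by rw [lam4]; linarith)).trans v2)
      (tail_trans (gen_tail2 a p _ _ _ (by norm_num) (by norm_num) hs h1 h2 hr
        (by rw [lam5]; linarith) (by norm_num)) v3) ?_ ?_ t ht0 ht1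
    · intro x y0 y1
      norm_num at y0 y1 ⊢
      nlinarith [mul_nonneg (sub_nonneg.2 y0) (sub_nonneg.2 y1)]
    · intro x y0 y1
      norm_num at y0 y1 ⊢
      nlinarith [mul_nonneg (sub_nonneg.2 y0) (sub_nonneg.2 y1)]
  · obtain ⟨v1, v2, v3⟩ := numU3
    obtain ⟨x0, x1⟩ := x_bounds a p _ _ _ (by norm_num) (by norm_num) (by norm_num) hs h1 h2 hr
    refine nodes_Q a p hs (le_trans (by norm_num) h1) (h2.trans (by norm_num))
      (fun j => (hr j).trans (by norm_num))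
      0.2977 0.00179 0.00025 0.00076 (by norm_num) (x1.trans (by norm_num)) (by norm_num)
      (by norm_num) (by norm_num)
      ((gen_sf a p _ _ _ hs h2 hr 3 (1 / 6) (by norm_num) (s6b 3 _ (by rw [lam3]; linarith))
        (sinc_inv a p _ (by norm_num) h1 3)).trans v1)
      ((gen_sf a p _ _ _ hs h2 hr 4 0.137 (by norm_num) (s137b 4 _ (by rw [lam4]; linarith))
        (sinc_inv a p _ (by norm_num) h1 4)).trans v2)
      (tail_trans (gen_tail2 a p _ _ _ (by norm_num) (by norm_num) hs h1 h2 hr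
        (by rw [lam5]; linarith) (by norm_num)) v3) ?_ ?_ t ht0 ht1
    · intro x y0 y1
      norm_num at y0 y1 ⊢
      linarith
    · intro x y0 y1
      norm_num at y0 y1 ⊢
      linarith
  · obtain ⟨v1, v2, v3⟩ := numU4
    obtain ⟨x0, x1⟩ := x_bounds a p _ _ _ (by norm_num) (by norm_num) (by norm_num) hs h1 h2 hr
    refine nodes_Q a p hs (le_trans (by norm_num) h1) (h2.trans (by norm_num))
      (fun j => (hr j).trans (by norm_num))
      0.3278 0.00269 0.00013 0.00054 (by norm_num) (x1.trans (by norm_num)) (by norm_num)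
      (by norm_num) (by norm_num)
      ((gen_sf a p _ _ _ hs h2 hr 3 (1 / 6) (by norm_num) (s6b 3 _ (by rw [lam3]; linarith))
        (sinc_inv a p _ (by norm_num) h1 3)).trans v1)
      ((gen_sf a p _ _ _ hs h2 hr 4 (1 / 6) (by norm_num) (s6b 4 _ (by rw [lam4]; linarith))
        (sinc_inv a p _ (by norm_num) h1 4)).trans v2)
      (tail_trans (gen_tail2 a p _ _ _ (by norm_num) (by norm_num) hs h1 h2 hr
        (by rw [lam5]; linarith) (by norm_num)) v3) ?_ ?_ t ht0 ht1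
    · intro x y0 y1
      norm_num at y0 y1 ⊢
      linarith
    · intro x y0 y1
      norm_num at y0 y1 ⊢
      linarith
  · obtain ⟨v1, v2, v3⟩ := numU5
    obtain ⟨x0, x1⟩ := x_bounds a p _ _ _ (by norm_num) (by norm_num) (by norm_num) hs h1 h2 hr
    refine nodes_Q a p hs (le_trans (by norm_num) h1) (h2.trans (by norm_num))
      (fun j => (hr j).trans (by norm_num))
      0.3641 0.00377 0.00023 0.00057 (by norm_num) (x1.trans (by norm_num)) (by norm_num)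
      (by norm_num) (by norm_num)
      ((gen_sf a p _ _ _ hs h2 hr 3 (1 / 6) (by norm_num) (s6b 3 _ (by rw [lam3]; linarith))
        (sinc_inv a p _ (by norm_num) h1 3)).trans v1)
      ((gen_sf a p _ _ _ hs h2 hr 4 (1 / 6) (by norm_num) (s6b 4 _ (by rw [lam4]; linarith))
        (sinc_inv a p _ (by norm_num) h1 4)).trans v2)
      (tail_trans (gen_tail2 a p _ _ _ (by norm_num) (by norm_num) hs h1 h2 hr
        (by rw [lam5]; linarith) (by norm_num)) v3) ?_ ?_ t ht0 ht1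
    · intro x y0 y1
      norm_num at y0 y1 ⊢
      linarith
    · intro x y0 y1
      norm_num at y0 y1 ⊢
      linarith
  · obtain ⟨v1, v2, v3⟩ := numU6
    obtain ⟨x0, x1⟩ := x_bounds a p _ _ _ (by norm_num) (by norm_num) (by norm_num) hs h1 h2 hr
    refine nodes_Q a p hs (le_trans (by norm_num) h1) (h2.trans (by norm_num))
      (fun j => (hr j).trans (by norm_num))
      0.3751 0.00315 0.00031 0.00024 (by norm_num) (x1.trans (by norm_num)) (by norm_num)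
      (by norm_num) (by norm_num)
      ((gen_sf a p _ _ _ hs h2 hr 3 (1 / 6) (by norm_num) (s6b 3 _ (by rw [lam3]; linarith))
        (sinc_fine a p _ _ _ h1 h2 3 sf6)).trans v1)
      ((gen_sf a p _ _ _ hs h2 hr 4 (1 / 6) (by norm_num) (s6b 4 _ (by rw [lam4]; linarith))
        (sinc_inv a p _ (by norm_num) h1 4)).trans v2)
      (tail_trans (gen_tail2 a p _ _ _ (by norm_num) (by norm_num) hs h1 h2 hr
        (by rw [lam5]; linarith) (by norm_num)) v3) ?_ ?_ t ht0 ht1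
    · intro x y0 y1
      norm_num at y0 y1 ⊢
      linarith
    · intro x y0 y1
      norm_num at y0 y1 ⊢
      linarith
  · obtain ⟨v1, v2, v3⟩ := numU7
    obtain ⟨x0, x1⟩ := x_bounds a p _ _ _ (by norm_num) (by norm_num) (by norm_num) hs h1 h2 hr
    refine nodes_Q a p hs (le_trans (by norm_num) h1) (h2.trans (by norm_num))
      (fun j => (hr j).trans (by norm_num))
      0.3921 0.00314 0.00038 0.0003 (by norm_num) (x1.trans (by norm_num)) (by norm_num)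
      (by norm_num) (by norm_num)
      ((gen_sf a p _ _ _ hs h2 hr 3 (1 / 6) (by norm_num) (s6b 3 _ (by rw [lam3]; linarith))
        (sinc_fine a p _ _ _ h1 h2 3 sf7)).trans v1)
      ((gen_sf a p _ _ _ hs h2 hr 4 (1 / 6) (by norm_num) (s6b 4 _ (by rw [lam4]; linarith))
        (sinc_inv a p _ (by norm_num) h1 4)).trans v2)
      (tail_trans (gen_tail2 a p _ _ _ (by norm_num) (by norm_num) hs h1 h2 hr
        (by rw [lam5]; linarith) (by norm_num)) v3) ?_ ?_ t ht0 ht1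
    · intro x y0 y1
      norm_num at y0 y1 ⊢
      linarith
    · intro x y0 y1
      norm_num at y0 y1 ⊢
      linarith

theorem region34b {n : ℕ} (a : Fin (n + 1) → ℝ) (p : Fin (n + 1)) (hs : ∑ i, a i ^ 2 = 1)
    (l u b : ℝ) (hc : Reg l u b)
    (h1 : l ≤ |a p|) (h2 : |a p| ≤ u) (hmax : ∀ i, |a i| ≤ |a p|)
    (t : ℝ) (ht0 : 1 ≤ t) (ht1 : t ≤ 1.015) : Low a (clamp t) (min (gg t) (gg3 t)) := by
  by_cases hr : ∀ j, |a (p.succAbove j)| ≤ b
  · exact Low_mono (region4b a p hs l u b hc h1 h2 hr t ht0 ht1) (min_le_right _ _)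
  push Not at hr
  obtain ⟨q, hq⟩ := hr
  have hn : ∃ m, n = m + 1 := by
    rcases n with _ | m
    · exact q.elim0
    · exact ⟨m, rfl⟩
  obtain ⟨m, rfl⟩ := hn
  have hb : 0.28 ≤ b ∧ 1.015 ≤ l + b ∧ 0.5075 ≤ l ∧ u ≤ 0.775 := by
    rcases hc with ⟨rfl, rfl, rfl⟩ | ⟨rfl, rfl, rfl⟩ | ⟨rfl, rfl, rfl⟩ | ⟨rfl, rfl, rfl⟩ |
      ⟨rfl, rfl, rfl⟩ | ⟨rfl, rfl, rfl⟩ | ⟨rfl, rfl, rfl⟩ | ⟨rfl, rfl, rfl⟩ <;>
      norm_num
  obtain ⟨hb1, hb2, hb3, hb4⟩ := hb
  apply Low_succ a p (clamp_continuous t)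
  apply Low_succ (fun j => a (p.succAbove j)) q (Aop_continuous _ (clamp_continuous t))
  refine region3b _ |a p| |a (p.succAbove q)| t (by linarith) (by linarith) (by linarith) (hmax _)
    (by linarith) ht0 ht1 ?_
  have e1 := sum_succAbove a p (fun x => x ^ 2)
  have e2 := sum_succAbove (fun j => a (p.succAbove j)) q (fun x => x ^ 2)
  rw [sq_abs, sq_abs]
  linarith

theorem main_low2 {n : ℕ} (a : Fin (n + 1) → ℝ) (hs : ∑ i, a i ^ 2 = 1)
    (t : ℝ) (ht0 : 1 < t) (ht1 : t ≤ 1.015) : Low a (clamp t) (min (gg t) (gg3 t)) := by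
  obtain ⟨p, -, hp⟩ := Finset.exists_max_image (Finset.univ : Finset (Fin (n + 1))) (fun i => |a i|)
    ⟨0, Finset.mem_univ _⟩
  have hmax : ∀ i, |a i| ≤ |a p| := fun i => hp i (Finset.mem_univ i)
  have e1 := sum_succAbove a p (fun x => x ^ 2)
  have hsq : a p ^ 2 ≤ 1 := by
    have : 0 ≤ ∑ j, a (p.succAbove j) ^ 2 := Finset.sum_nonneg (fun j _ => sq_nonneg _)
    linarith
  have hle : |a p| ≤ 1 := by
    rw [← Real.sqrt_one, ← Real.sqrt_sq_eq_abs]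
    exact Real.sqrt_le_sqrt hsq
  rcases le_total 0.775 |a p| with h | h
  · apply Low_succ a p (clamp_continuous t)
    refine Low_mono (region1b _ |a p| t h hle ht0 ht1 ?_) (min_le_right _ _)
    rw [sq_abs]; linarith
  rcases le_total |a p| 0.5075 with h5 | h5
  · exact Low_mono (region2b a p hs hmax h5 t ht0.le ht1) (min_le_right _ _)
  rcases le_total |a p| 0.53 with h6 | h6
  · exact region34b a p hs 0.5075 0.53 0.5075 (Or.inl ⟨rfl, rfl, rfl⟩) h5 h6 hmax t ht0.le ht1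
  rcases le_total |a p| 0.57 with h7 | h7
  · exact region34b a p hs 0.53 0.57 0.485 (Or.inr (Or.inl ⟨rfl, rfl, rfl⟩)) h6 h7 hmax t ht0.le ht1
  rcases le_total |a p| 0.62 with h8 | h8
  · exact region34b a p hs 0.57 0.62 0.445 (Or.inr (Or.inr (Or.inl ⟨rfl, rfl, rfl⟩))) h7 h8 hmax t ht0.le ht1
  rcases le_total |a p| 0.68 with h9 | h9
  · exact region34b a p hs 0.62 0.68 0.395 (Or.inr (Or.inr (Or.inr (Or.inl ⟨rfl, rfl, rfl⟩)))) h8 h9 hmax t ht0.le ht1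
  rcases le_total |a p| 0.72 with h10 | h10
  · exact region34b a p hs 0.68 0.72 0.35 (Or.inr (Or.inr (Or.inr (Or.inr (Or.inl ⟨rfl, rfl, rfl⟩))))) h9 h10 hmax t ht0.le ht1
  rcases le_total |a p| 0.75 with h11 | h11
  · exact region34b a p hs 0.72 0.75 0.33 (Or.inr (Or.inr (Or.inr (Or.inr (Or.inr (Or.inl ⟨rfl, rfl, rfl⟩)))))) h10 h11 hmax t ht0.le ht1
  rcases le_total |a p| 0.765 with h12 | h12
  · exact region34b a p hs 0.75 0.765 0.28 (Or.inr (Or.inr (Or.inr (Or.inr (Or.inr (Or.inr (Or.inl ⟨rfl, rfl, rfl⟩))))))) h11 h12 hmax t ht0.le ht1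
  · exact region34b a p hs 0.765 0.775 0.28 (Or.inr (Or.inr (Or.inr (Or.inr (Or.inr (Or.inr (Or.inr ⟨rfl, rfl, rfl⟩))))))) h12 h hmax t ht0.le ht1


end Pool.Agent.Helper131.Slab
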