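import Pool.Agent.Helper131.Slab.Final
import Pool.Agent.Helper131.Slab.Main2
import Pool.Agent.Helper131.Slab.L_V_f3
import Pool.Agent.Helper131.Slab.L_t1_exists

set_option autoImplicit false

namespace Pool.Agent.Helper131.Slab

open MeasureTheory Set intervalIntegral Filter Topology

theorem sqrt3_bounds : (1.73205 : ℝ) < Real.sqrt 3 ∧ Real.sqrt 3 < 1.73206 := by
  constructor
  · apply Real.lt_sqrt_of_sq_lt; norm_num
  · rw [Real.sqrt_lt' (by norm_num)]; norm_num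

theorem D_strict (s t : ℝ) (ht : 1 ≤ t) (hts : t < s) (hs : s ≤ 1.015) :
    gg3 s - gg s < gg3 t - gg t := by
  have h3 : Real.sqrt 3 < 1.7320508076 := by
    rw [Real.sqrt_lt' (by norm_num)]; norm_num
  have h2' : (1.4142135623 : ℝ) < Real.sqrt 2 := by
    rw [Real.lt_sqrt (by norm_num)]; norm_num
  rw [DD406_eq_t1_exists, DD406_eq_t1_exists]
  have key : -1/8 - 5/8 * t ^ 2 + Real.sqrt 3 / 8 * (9 * t + t ^ 3) - Real.sqrt 2 * t -
      (-1/8 - 5/8 * s ^ 2 + Real.sqrt 3 / 8 * (9 * s + s ^ 3) - Real.sqrt 2 * s) =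
      (s - t) * (5/8 * (s + t) - Real.sqrt 3 / 8 * (9 + (s ^ 2 + s * t + t ^ 2)) + Real.sqrt 2) := by
    ring
  have hb : 0.01 ≤ 5/8 * (s + t) - Real.sqrt 3 / 8 * (9 + (s ^ 2 + s * t + t ^ 2)) + Real.sqrt 2 := by
    have hq : s ^ 2 + s * t + t ^ 2 ≤ 3 * (s + t) / 2 * 1.015 := by nlinarith
    have hq0 : 0 ≤ 9 + (s ^ 2 + s * t + t ^ 2) := by nlinarith
    have h4 : Real.sqrt 3 / 8 * (9 + (s ^ 2 + s * t + t ^ 2)) ≤
        0.21650635095 * (9 + 3 * (s + t) / 2 * 1.015) := by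
      apply mul_le_mul (by linarith) (by linarith) hq0 (by norm_num)
    nlinarith
  have hpos : 0 < s - t := sub_pos.2 hts
  have := mul_pos hpos (lt_of_lt_of_le (by norm_num) hb)
  linarith

/-- lower bound for `1 < t ≤ 1.015` -/
theorem vol_ge_next {n : ℕ} (hn : 1 ≤ n) (a : Fin n → ℝ) (ha : ∑ i, a i ^ 2 = 1) (t : ℝ)
    (ht0 : 1 < t) (ht1 : t ≤ 1.015) :
    ENNReal.ofReal (2 ^ n * min (gg t) (gg3 t))
      ≤ volume {x : Fin n → ℝ | (∀ i, |x i| ≤ 1) ∧ |∑ i, x i * a i| ≤ t} := by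
  obtain ⟨m, rfl⟩ : ∃ m, n = m + 1 := ⟨n - 1, by omega⟩
  have ht : 0 < t := by linarith
  have h := vol_lower a t _ ht (main_low2 a ha t ht0 ht1) t ht le_rfl
  rw [div_self ht.ne', one_mul] at h
  rw [← slab_eq']
  exact (ENNReal.ofReal_le_iff_le_toReal (slab_volume_ne_top a t)).2 h

/-- the crossing point -/
theorem crossing : ∃ t1 : ℝ, 1.0129 < t1 ∧ t1 < 1.0130 ∧ gg t1 = gg3 t1 ∧
    (∀ t, 1 ≤ t → t ≤ t1 → gg t ≤ gg3 t) ∧ (∀ t, t1 ≤ t → t ≤ 1.015 → gg3 t ≤ gg t) ∧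
    (∀ t, t1 < t → t ≤ 1.015 → gg3 t < gg t) ∧ (∀ t, 1 ≤ t → t < t1 → gg t < gg3 t) := by
  obtain ⟨t1, h1, h2, h3, h4, h5⟩ := t1_exists
  norm_num at h1 h2
  refine ⟨t1, by norm_num; exact h1, by norm_num; exact h2, h3, h4, h5, ?_, ?_⟩
  · intro t ht ht'
    have := D_strict t t1 (by linarith) ht ht'
    linarith
  · intro t ht ht'
    have := D_strict t1 t ht ht' (by norm_num; linarith)
    linarith

end Pool.Agent.Helper131.Slab
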