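import Pool.Agent.Helper131.Slab.Defs

set_option maxRecDepth 100000

namespace Pool.Agent.Helper131.Slab

open MeasureTheory Set intervalIntegral Filter Topology

theorem F3 (α β γ t : ℝ) (h1 : 0.5 ≤ α) (h2 : α ≤ 0.77) (h3 : 0.35 ≤ β) (h4 : β ≤ α)
    (h5 : 1 ≤ α + β) (h6 : 0 ≤ γ) (h7 : α ^ 2 + β ^ 2 + γ ^ 2 = 1) (h8 : 0.828 ≤ t) (h9 : t ≤ 1)
    (h10 : γ ≤ α + β - t) :
    (α + β - t) ^ 2 / (4 * α * β) + γ ^ 2 / (12 * α * β) ≤ (Real.sqrt 2 - t) ^ 2 / 2 := by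
  set w := Real.sqrt 2 with hw
  have hw0 : 0 ≤ w := Real.sqrt_nonneg 2
  have hw2 : w ^ 2 = 2 := Real.sq_sqrt (by norm_num)
  have hwl : 1.4142 ≤ w := by
    rw [hw]; apply Real.le_sqrt_of_sq_le; norm_num
  have hwu : w ≤ 1.41422 := by
    rw [hw]; rw [Real.sqrt_le_left (by norm_num)]; norm_num
  obtain ⟨S, hS⟩ : ∃ S, S = α + β := ⟨_, rfl⟩
  obtain ⟨p, hp⟩ : ∃ p, p = α * β := ⟨_, rfl⟩
  have hS1 : 1 ≤ S := by rw [hS]; exact h5
  have hSw : S ≤ w := by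
    have : S ^ 2 ≤ w ^ 2 := by rw [hw2, hS]; nlinarith only [sq_nonneg (α - β), sq_nonneg γ, h7]
    exact le_of_sq_le_sq this hw0
  have hp1 : p ≤ S ^ 2 / 4 := by rw [hS, hp]; nlinarith only [sq_nonneg (α - β)]
  have hg2 : γ ^ 2 = 1 - S ^ 2 + 2 * p := by rw [hS, hp]; linear_combination h7
  have hp2 : (S ^ 2 - 1) / 2 ≤ p := by linarith only [sq_nonneg γ, hg2]
  have hp3 : 0.77 * (S - 0.77) ≤ p := by rw [hS, hp]; nlinarith only [mul_nonneg (sub_nonneg.2 h2) (sub_nonneg.2 (h4.trans h2))]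
  have hp4 : γ ^ 2 ≤ (S - t) ^ 2 := by
    have : γ ≤ S - t := by rw [hS]; exact h10
    exact pow_le_pow_left₀ h6 this 2
  have hQ : 0 ≤ 2 * S ^ 2 - (2 * t + 1.54) * S + t ^ 2 + 0.1858 := by nlinarith only [hp4, hg2, hp3]
  have hSl : 0.9088 + 0.4 * t ≤ S := by
    by_contra hc
    push Not at hc
    have e1 : 0 ≤ (S - 1) * (0.9088 + 0.4 * t - S) := mul_nonneg (by linarith) (by linarith)
    have e2 : 0 ≤ (2.2776 - 1.2 * t) * (0.9088 + 0.4 * t - S) := mul_nonneg (by linarith) (by linarith)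
    have e3 : 0 ≤ (t - 0.828) * (1 - t) := mul_nonneg (by linarith) (by linarith)
    nlinarith only [e1, e2, e3, hQ, h8, h9]
  have hpp : 0 < α * β := by
    apply mul_pos <;> linarith
  have hppp : 0 < p := by rw [hp]; exact hpp
  -- the two end points
  have hA1 : 0 ≤ (6 * t - w / 2 - 1.5 * w * t ^ 2) * S - (3 * t ^ 2 + 1) := by
    have ht2 : t ^ 2 ≤ 1 := by nlinarith only [h8, h9]
    have k1 : 0 ≤ 6 * t - w / 2 - 1.5 * w * t ^ 2 := by nlinarith only [h8, h9, ht2, hwu, hwl, mul_le_mul hwu ht2 (sq_nonneg t) (by norm_num)]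
    have k2 : 0 ≤ (6 * t - w / 2 - 1.5 * w * t ^ 2) * (S - (0.9088 + 0.4 * t)) :=
      mul_nonneg k1 (by linarith)
    have k3 : 0 ≤ (6 * t - w / 2 - 1.5 * w * t ^ 2) * (0.9088 + 0.4 * t) - (3 * t ^ 2 + 1) := by
      have k4 : 6 * t - 0.70711 - 2.12133 * t ^ 2 ≤ 6 * t - w / 2 - 1.5 * w * t ^ 2 := by nlinarith only [hwu, mul_le_mul_of_nonneg_right hwu (sq_nonneg t)]
      have k5 : (6 * t - 0.70711 - 2.12133 * t ^ 2) * (0.9088 + 0.4 * t) ≤ (6 * t - w / 2 - 1.5 * w * t ^ 2) * (0.9088 + 0.4 * t) :=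
        mul_le_mul_of_nonneg_right k4 (by linarith)
      have e3 : 0 ≤ (t - 0.828) * (1 - t) := mul_nonneg (by linarith) (by linarith)
      nlinarith only [k5, e3, h8, h9, mul_nonneg e3 (by linarith : (0:ℝ) ≤ t)]
    linarith
  have hB1 : 0 ≤ (2 * w * t - 1 - t ^ 2) * S - (w * (1 + t ^ 2) - 2 * t) := by
    have k1 : 0 ≤ 2 * w * t - 1 - t ^ 2 := by nlinarith only [h8, h9, mul_le_mul_of_nonneg_right hwl (by linarith : (0:ℝ) ≤ t)]
    have k2 : 0 ≤ (2 * w * t - 1 - t ^ 2) * (S - (0.9088 + 0.4 * t)) :=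
      mul_nonneg k1 (by linarith)
    have k3 : 0 ≤ (2 * w * t - 1 - t ^ 2) * (0.9088 + 0.4 * t) - (w * (1 + t ^ 2) - 2 * t) := by
      have k4 : 2.8284 * t - 1 - t ^ 2 ≤ 2 * w * t - 1 - t ^ 2 := by nlinarith only [mul_le_mul_of_nonneg_right hwl (by linarith : (0:ℝ) ≤ t)]
      have k5 : (2.8284 * t - 1 - t ^ 2) * (0.9088 + 0.4 * t) ≤ (2 * w * t - 1 - t ^ 2) * (0.9088 + 0.4 * t) :=
        mul_le_mul_of_nonneg_right k4 (by linarith)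
      have k6 : w * (1 + t ^ 2) ≤ 1.41422 * (1 + t ^ 2) := mul_le_mul_of_nonneg_right hwu (by positivity)
      have e3 : 0 ≤ (t - 0.828) * (1 - t) := mul_nonneg (by linarith) (by linarith)
      nlinarith only [k5, k6, e3, h8, h9, mul_nonneg e3 (by linarith : (0:ℝ) ≤ t)]
    linarith
  have hFA : 0 ≤ S ^ 2 / 4 * (10 - 12 * w * t + 6 * t ^ 2) - 2 * S ^ 2 + 6 * S * t - 3 * t ^ 2 - 1 := by
    have : S ^ 2 / 4 * (10 - 12 * w * t + 6 * t ^ 2) - 2 * S ^ 2 + 6 * S * t - 3 * t ^ 2 - 1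
        = (w - S) * (w / 2 * ((6 * t - w / 2 - 1.5 * w * t ^ 2) * S - (3 * t ^ 2 + 1))) +
          (w ^ 2 - 2) * (-(3 * t * S) + (3 / 4) * w * S * t ^ 2 + w * S / 4 - (3 / 4) * S ^ 2 * t ^ 2 - S ^ 2 / 4 + (3 * t ^ 2 + 1) / 2) := by
      ring
    rw [this, hw2]
    have : 0 ≤ (w - S) * (w / 2 * ((6 * t - w / 2 - 1.5 * w * t ^ 2) * S - (3 * t ^ 2 + 1))) :=
      mul_nonneg (by linarith) (mul_nonneg (by linarith) hA1)
    linarith
  have hFB : 0 ≤ (S ^ 2 - 1) / 2 * (10 - 12 * w * t + 6 * t ^ 2) - 2 * S ^ 2 + 6 * S * t - 3 * t ^ 2 - 1 := by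
    have : (S ^ 2 - 1) / 2 * (10 - 12 * w * t + 6 * t ^ 2) - 2 * S ^ 2 + 6 * S * t - 3 * t ^ 2 - 1
        = 3 * (w - S) * ((2 * w * t - 1 - t ^ 2) * S - (w * (1 + t ^ 2) - 2 * t)) +
          (w ^ 2 - 2) * (-(6 * t * S) + 3 * (1 + t ^ 2)) := by
      ring
    rw [this, hw2]
    have : 0 ≤ 3 * (w - S) * ((2 * w * t - 1 - t ^ 2) * S - (w * (1 + t ^ 2) - 2 * t)) :=
      mul_nonneg (by linarith) hB1
    linarith
  have hF : 0 ≤ p * (10 - 12 * w * t + 6 * t ^ 2) - 2 * S ^ 2 + 6 * S * t - 3 * t ^ 2 - 1 := by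
    rcases le_total 0 (10 - 12 * w * t + 6 * t ^ 2) with hc | hc
    · have := mul_le_mul_of_nonneg_right hp2 hc
      linarith
    · have := mul_le_mul_of_nonpos_right hp1 hc
      linarith
  have hmain : 3 * (S - t) ^ 2 + γ ^ 2 ≤ 6 * p * (w - t) ^ 2 := by
    have : 6 * p * (w - t) ^ 2 - (3 * (S - t) ^ 2 + γ ^ 2) =
        (p * (10 - 12 * w * t + 6 * t ^ 2) - 2 * S ^ 2 + 6 * S * t - 3 * t ^ 2 - 1) + 6 * p * (w ^ 2 - 2) := by
      rw [hg2]; ring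
    rw [hw2] at this
    linarith
  have hL : (α + β - t) ^ 2 / (4 * α * β) + γ ^ 2 / (12 * α * β) = (3 * (S - t) ^ 2 + γ ^ 2) / (12 * p) := by
    have ha : α ≠ 0 := by intro h; rw [h] at h1; norm_num at h1
    have hb : β ≠ 0 := by intro h; rw [h] at h3; norm_num at h3
    rw [hS, hp]
    field_simp
    ring
  rw [hL, div_le_iff₀ (by linarith)]
  linarith

end Pool.Agent.Helper131.Slab
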