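import Pool.Agent.Helper131.Slab.Defs

set_option maxRecDepth 100000

namespace Pool.Agent.Helper131.Slab

open MeasureTheory Set intervalIntegral Filter Topology

theorem G3_aux1_G3 (α β γ z : ℝ) (hα : z ≤ α) (hβ : z ≤ β) (hγ : z ≤ γ)
    (h7 : α ^ 2 + β ^ 2 + γ ^ 2 = 1) :
    z ^ 3 - z ^ 2 * (α + β + γ) + z * ((α + β + γ) ^ 2 - 1) / 2 ≤ α * β * γ := by
  have h1 := mul_nonneg (mul_nonneg (sub_nonneg.2 hα) (sub_nonneg.2 hβ)) (sub_nonneg.2 hγ)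
  have h8 : z * (α ^ 2 + β ^ 2 + γ ^ 2) = z := by rw [h7, mul_one]
  nlinarith [h1, h8]

theorem G3_aux2_G3 (x y w z s0 σ : ℝ) (h : x ^ 2 + y ^ 2 + w ^ 2 = 1) (hσ : σ = x + y + w)
    (hs : s0 ≤ σ) (hz : 0 ≤ 3 * z ^ 2 - 2 * s0 * z + s0 ^ 2 - 2) (hz2 : 3 * z ≤ s0)
    (hz3 : 0 ≤ z) : z ≤ x := by
  by_contra hc
  push Not at hc
  have hp : 0 < z - x := by linarith
  have h1 : 0 ≤ (σ - s0) * (σ + s0 - x - z) := mul_nonneg (by linarith) (by linarith)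
  have h2 : 0 ≤ (z - x) * (σ - s0) := mul_nonneg hp.le (by linarith)
  have h3 : 0 < (z - x) * (2 * s0 - 3 * x - 3 * z) := mul_pos hp (by linarith)
  have h4 : 0 ≤ (y - w) ^ 2 := sq_nonneg _
  have h5 : (σ - x) ^ 2 ≤ 2 * (1 - x ^ 2) := by
    have : σ - x = y + w := by rw [hσ]; ring
    rw [this]
    nlinarith
  nlinarith [h1, h2, h3, h5, hz]

/-- pieces -/
theorem G3_aux3_G3 (z a b σ e : ℝ) (ha : a ≤ σ) (hb : σ ≤ b)
    (he : z ^ 3 - z ^ 2 * σ + z * (σ ^ 2 - 1) / 2 ≤ e)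
    (hcase : (z = 0.32 ∧ a = 1.64 ∧ b = 1.67) ∨ (z = 0.34 ∧ a = 1.67 ∧ b = 1.685) ∨
      (z = 0.372 ∧ a = 1.685 ∧ b = 1.70) ∨ (z = 0.41 ∧ a = 1.70 ∧ b = 1.715) ∨
      (z = 0.457 ∧ a = 1.715 ∧ b = 1.728) ∨ (z = 0.52 ∧ a = 1.728 ∧ b = 1.7321)) :
    (σ - 1) ^ 3 ≤ 12 * e * 0.17157 ∧ (σ - 0.828) ^ 3 ≤ 12 * e * 0.34364 := by
  have ha' : 0 ≤ σ - a := by linarith
  have hb' : 0 ≤ b - σ := by linarith
  have B0 : 0 ≤ (b - σ) * (b - σ) * (b - σ) := by positivity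
  have B1 : 0 ≤ (σ - a) * (b - σ) * (b - σ) := by positivity
  have B2 : 0 ≤ (σ - a) * (σ - a) * (b - σ) := by positivity
  have B3 : 0 ≤ (σ - a) * (σ - a) * (σ - a) := by positivity
  rcases hcase with ⟨rfl, rfl, rfl⟩ | ⟨rfl, rfl, rfl⟩ | ⟨rfl, rfl, rfl⟩ | ⟨rfl, rfl, rfl⟩ |
    ⟨rfl, rfl, rfl⟩ | ⟨rfl, rfl, rfl⟩ <;>
  · norm_num at he B0 B1 B2 B3 ⊢
    constructor <;> nlinarith [he, B0, B1, B2, B3]

theorem G3_aux4_G3 (p K u1 u2 u : ℝ) (hp : 0 ≤ p) (hu1 : 0 < u1) (h1 : u1 ≤ u) (h2 : u ≤ u2)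
    (hk1 : (u1 + p) ^ 3 ≤ K * u1 ^ 2) (hk2 : (u2 + p) ^ 3 ≤ K * u2 ^ 2) :
    (u + p) ^ 3 ≤ K * u ^ 2 := by
  have hconv : ConvexOn ℝ (Set.Ioi 0) (fun u : ℝ => (u + (3 * p ^ 2) * u ^ (-1 : ℤ))
      + p ^ 3 * u ^ (-2 : ℤ)) := by
    refine ((convexOn_id (convex_Ioi 0)).add ?_).add ?_
    · exact (convexOn_zpow (-1)).smul (by positivity)
    · exact (convexOn_zpow (-2)).smul (by positivity)
  have hu : 0 < u := by linarith
  have hu2 : 0 < u2 := by linarith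
  have hG : ∀ x : ℝ, 0 < x → ((x + p) ^ 3 ≤ K * x ^ 2 ↔
      (x + (3 * p ^ 2) * x ^ (-1 : ℤ)) + p ^ 3 * x ^ (-2 : ℤ) ≤ K - 3 * p) := by
    intro x hx
    have hx2 : 0 < x ^ 2 := by positivity
    have e : (x + (3 * p ^ 2) * x ^ (-1 : ℤ)) + p ^ 3 * x ^ (-2 : ℤ)
        = (x + p) ^ 3 / x ^ 2 - 3 * p := by
      rw [zpow_neg, zpow_neg, zpow_one, zpow_ofNat]
      field_simp
      ring
    rw [e, sub_le_sub_iff_right, div_le_iff₀ hx2]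
  rw [hG u hu]
  have := hconv.le_max_of_mem_Icc (x := u1) (y := u2) (z := u) hu1 hu2 ⟨h1, h2⟩
  refine this.trans (max_le ((hG u1 hu1).1 hk1) ((hG u2 hu2).1 hk2))

theorem G3 (α β γ t : ℝ) (h1 : 0.5 ≤ α) (h2 : α ≤ 0.77) (h3 : 0.35 ≤ β) (h4 : β ≤ α)
    (h5 : 1 ≤ α + β) (h6 : 0 ≤ γ) (h7 : α ^ 2 + β ^ 2 + γ ^ 2 = 1) (h8 : 0.828 ≤ t) (h9 : t ≤ 1)
    (h10 : α + β - t ≤ γ) :
    (α + β + γ - t) ^ 3 ≤ 12 * α * β * γ * (Real.sqrt 2 - t) ^ 2 := by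
  norm_num at h1 h2 h3 h8
  have hγ : 0.32 ≤ γ := by
    norm_num
    by_contra hc
    push Not at hc
    rcases le_total α (55 / 100) with h | h
    · nlinarith
    · have : α ^ 2 + β ^ 2 ≤ (77 / 100) ^ 2 + (55 / 100) ^ 2 := by
        nlinarith [mul_nonneg (sub_nonneg.2 h) (sub_nonneg.2 h2)]
      nlinarith
  obtain ⟨σ, hσ⟩ : ∃ σ, σ = α + β + γ := ⟨_, rfl⟩
  have hσ1 : 1.64 ≤ σ := by
    norm_num
    by_contra hc
    push Not at hc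
    have F1 : 0 ≤ (77 / 100 - α) * (77 / 100 - β) := mul_nonneg (by linarith) (by linarith)
    have F2 : 0 ≤ (α - 35 / 100) * (β - 35 / 100) := mul_nonneg (by linarith) (by linarith)
    have hγ2 : γ ^ 2 ≤ (164 / 100 - (α + β)) ^ 2 := by
      apply pow_le_pow_left₀ h6
      linarith
    rcases le_total (α + β) (112 / 100) with h | h
    · nlinarith [mul_nonneg (sub_nonneg.2 h5) (sub_nonneg.2 h)]
    · have h' : α + β ≤ 132 / 100 := by linarith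
      nlinarith [mul_nonneg (sub_nonneg.2 h) (sub_nonneg.2 h')]
  have hσ2 : σ ≤ 1.7321 := by
    norm_num
    rw [hσ]
    nlinarith [sq_nonneg (α - β), sq_nonneg (β - γ), sq_nonneg (α - γ)]
  have hmin : ∀ z s0 : ℝ, s0 ≤ σ → 0 ≤ 3 * z ^ 2 - 2 * s0 * z + s0 ^ 2 - 2 → 3 * z ≤ s0 → 0 ≤ z →
      z ^ 3 - z ^ 2 * σ + z * (σ ^ 2 - 1) / 2 ≤ α * β * γ := by
    intro z s0 a1 a2 a3 a4
    rw [hσ]
    refine G3_aux1_G3 α β γ z ?_ ?_ ?_ h7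
    · exact G3_aux2_G3 α β γ z s0 σ h7 hσ a1 a2 a3 a4
    · exact G3_aux2_G3 β α γ z s0 σ (by linarith) (by rw [hσ]; ring) a1 a2 a3 a4
    · exact G3_aux2_G3 γ α β z s0 σ (by linarith) (by rw [hσ]; ring) a1 a2 a3 a4
  have key : (σ - 1) ^ 3 ≤ 12 * (α * β * γ) * 0.17157 ∧
      (σ - 0.828) ^ 3 ≤ 12 * (α * β * γ) * 0.34364 := by
    rcases le_total σ 1.67 with c1 | c1
    · refine G3_aux3_G3 0.32 1.64 1.67 σ _ hσ1 c1 ?_ (by simp)
      rw [hσ]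
      refine G3_aux1_G3 α β γ 0.32 ?_ ?_ hγ h7
      · norm_num; linarith
      · norm_num; linarith
    rcases le_total σ 1.685 with c2 | c2
    · exact G3_aux3_G3 0.34 1.67 1.685 σ _ c1 c2 (hmin 0.34 1.67 c1 (by norm_num) (by norm_num)
        (by norm_num)) (by simp)
    rcases le_total σ 1.70 with c3 | c3
    · exact G3_aux3_G3 0.372 1.685 1.70 σ _ c2 c3 (hmin 0.372 1.685 c2 (by norm_num) (by norm_num)
        (by norm_num)) (by simp)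
    rcases le_total σ 1.715 with c4 | c4
    · exact G3_aux3_G3 0.41 1.70 1.715 σ _ c3 c4 (hmin 0.41 1.70 c3 (by norm_num) (by norm_num)
        (by norm_num)) (by simp)
    rcases le_total σ 1.728 with c5 | c5
    · exact G3_aux3_G3 0.457 1.715 1.728 σ _ c4 c5 (hmin 0.457 1.715 c4 (by norm_num) (by norm_num)
        (by norm_num)) (by simp)
    · exact G3_aux3_G3 0.52 1.728 1.7321 σ _ c5 hσ2 (hmin 0.52 1.728 c5 (by norm_num) (by norm_num)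
        (by norm_num)) (by simp)
  have hs1 : (1.41421 : ℝ) ≤ Real.sqrt 2 := by
    apply Real.le_sqrt_of_sq_le; norm_num
  have hs2 : Real.sqrt 2 ≤ 1.41422 := by
    rw [Real.sqrt_le_left (by norm_num)]; norm_num
  have he : 0 ≤ α * β * γ := by
    have : 0 ≤ α := by linarith
    have : 0 ≤ β := by linarith
    positivity
  have hsq : Real.sqrt 2 ^ 2 = 2 := Real.sq_sqrt (by norm_num)
  norm_num at hs1 hs2 hσ1 hσ2 key
  have hfin := G3_aux4_G3 (σ - Real.sqrt 2) (12 * (α * β * γ)) (Real.sqrt 2 - 1)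
    (Real.sqrt 2 - 207 / 250) (Real.sqrt 2 - t) (by linarith) (by linarith) (by linarith)
    (by linarith) ?_ ?_
  · have e1 : Real.sqrt 2 - t + (σ - Real.sqrt 2) = α + β + γ - t := by rw [hσ]; ring
    rw [e1] at hfin
    calc _ ≤ _ := hfin
      _ = _ := by ring
  · have e1 : Real.sqrt 2 - 1 + (σ - Real.sqrt 2) = σ - 1 := by ring
    rw [e1]
    refine key.1.trans ?_
    apply mul_le_mul_of_nonneg_left _ (by positivity)
    nlinarith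
  · have e1 : Real.sqrt 2 - 207 / 250 + (σ - Real.sqrt 2) = σ - 207 / 250 := by ring
    rw [e1]
    refine key.2.trans ?_
    apply mul_le_mul_of_nonneg_left _ (by positivity)
    nlinarith

end Pool.Agent.Helper131.Slab
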