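import Pool.Agent.Helper131.Slab.Defs

set_option maxRecDepth 100000

namespace Pool.Agent.Helper131.Slab

open MeasureTheory Set intervalIntegral Filter Topology

theorem V_f1 (n : ℕ) (hn : 1 ≤ n) (t : ℝ) (ht0 : 0 ≤ t) (ht1 : t ≤ 1) :
    volume {x : Fin n → ℝ | (∀ i, |x i| ≤ 1) ∧ |∑ i, x i * (if (i : ℕ) < 1 then 1 else 0)| ≤ t}
      = ENNReal.ofReal (2 ^ n * t) := by
  have hn0 : 0 < n := hn
  set i0 : Fin n := ⟨0, hn0⟩ with hi0
  have hsum : ∀ x : Fin n → ℝ, ∑ i, x i * (if (i : ℕ) < 1 then (1 : ℝ) else 0) = x i0 := by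
    intro x
    rw [Finset.sum_eq_single i0]
    · simp [hi0]
    · intro b _ hb
      have : ¬ ((b : ℕ) < 1) := fun h => hb (Fin.ext (by
        rw [hi0]
        show (b : ℕ) = 0
        omega))
      simp [this]
    · intro h
      exact absurd (Finset.mem_univ _) h
  have hset : {x : Fin n → ℝ | (∀ i, |x i| ≤ 1) ∧
      |∑ i, x i * (if (i : ℕ) < 1 then (1 : ℝ) else 0)| ≤ t} =
      Icc (fun i => if i = i0 then -t else -1) (fun i => if i = i0 then t else 1) := by
    ext x
    constructor
    · rintro ⟨h1, h2⟩
      rw [hsum] at h2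
      refine ⟨fun i => ?_, fun i => ?_⟩
      · by_cases h : i = i0
        · simp only [h, if_true]
          exact (abs_le.1 h2).1
        · simp only [h, if_false]
          exact (abs_le.1 (h1 i)).1
      · by_cases h : i = i0
        · simp only [h, if_true]
          exact (abs_le.1 h2).2
        · simp only [h, if_false]
          exact (abs_le.1 (h1 i)).2
    · rintro ⟨h1, h2⟩
      have h3 : |x i0| ≤ t := by
        have e1 := h1 i0
        have e2 := h2 i0
        simp only [if_true] at e1 e2
        exact abs_le.2 ⟨e1, e2⟩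
      refine ⟨fun i => ?_, ?_⟩
      · by_cases h : i = i0
        · rw [h]
          exact h3.trans ht1
        · have e1 := h1 i
          have e2 := h2 i
          simp only [h, if_false] at e1 e2
          exact abs_le.2 ⟨e1, e2⟩
      · rw [hsum]
        exact h3
  rw [hset, Real.volume_Icc_pi, ← ENNReal.ofReal_prod_of_nonneg]
  · congr 1
    have e : ∀ i : Fin n, ((if i = i0 then t else 1) - (if i = i0 then -t else -1) : ℝ) =
        2 * (if i = i0 then t else 1) := by
      intro i
      split_ifs <;> ring
    rw [Finset.prod_congr rfl fun i _ => e i, Finset.prod_mul_distrib, Finset.prod_const,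
      Finset.card_univ, Fintype.card_fin, Finset.prod_ite_eq' Finset.univ i0 (fun _ => t)]
    simp
  · intro i _
    show (0 : ℝ) ≤ (if i = i0 then t else 1) - (if i = i0 then -t else -1)
    split_ifs <;> linarith

end Pool.Agent.Helper131.Slab
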