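import Pool.Agent.Helper131.Slab.Defs

set_option maxRecDepth 100000

namespace Pool.Agent.Helper131.Slab

open MeasureTheory Set intervalIntegral Filter Topology

theorem V_f2_split_V_f2 (n : ℕ) (P : ℝ → (Fin n → ℝ) → Prop)
    (hP : MeasurableSet {p : ℝ × (Fin n → ℝ) | P p.1 p.2}) :
    volume {x : Fin (n + 1) → ℝ | P (x 0) (fun i => x i.succ)} = ∫⁻ a, volume {y | P a y} := by
  have h := volume_preserving_piFinSuccAbove (fun _ : Fin (n + 1) => ℝ) 0
  have h2 := h.measure_preimage_equiv {p : ℝ × (Fin n → ℝ) | P p.1 p.2}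
  have h3 : (MeasurableEquiv.piFinSuccAbove (fun _ : Fin (n + 1) => ℝ) 0) ⁻¹'
      {p : ℝ × (Fin n → ℝ) | P p.1 p.2} =
      {x : Fin (n + 1) → ℝ | P (x 0) (fun i => x i.succ)} := by
    ext x
    simp only [mem_preimage, mem_setOf_eq]
    exact Iff.rfl
  rw [← h3, h2, Measure.volume_eq_prod, Measure.prod_apply hP]
  rfl

theorem V_f2_cube_V_f2 (m : ℕ) : volume {z : Fin m → ℝ | ∀ i, |z i| ≤ 1} = 2 ^ m := by
  have h : {z : Fin m → ℝ | ∀ i, |z i| ≤ 1} = Icc (fun _ => -1) (fun _ => 1) := by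
    ext z
    simp only [mem_setOf_eq, mem_Icc, Pi.le_def, abs_le]
    exact forall_and
  rw [h, Real.volume_Icc_pi]
  simp only [Finset.prod_const, Finset.card_univ, Fintype.card_fin]
  norm_num

theorem V_f2_min_V_f2 (s : ℝ) (h0 : 0 ≤ s) (h1 : s ≤ 2) :
    ∫ a in (-1 : ℝ)..1, min 1 (s + a) = 2 * s - s ^ 2 / 2 := by
  have hc : Continuous fun a : ℝ => min 1 (s + a) := by fun_prop
  rw [← intervalIntegral.integral_add_adjacent_intervals (b := 1 - s)
    (hc.intervalIntegrable _ _) (hc.intervalIntegrable _ _)]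
  have e1 : ∫ a in (-1 : ℝ)..(1 - s), min 1 (s + a) = ∫ a in (-1 : ℝ)..(1 - s), (s + a) := by
    refine intervalIntegral.integral_congr fun a ha => ?_
    rw [uIcc_of_le (by linarith)] at ha
    exact min_eq_right (by linarith [ha.2])
  have e2 : ∫ a in (1 - s)..(1 : ℝ), min 1 (s + a) = ∫ a in (1 - s)..(1 : ℝ), (1 : ℝ) := by
    refine intervalIntegral.integral_congr fun a ha => ?_
    rw [uIcc_of_le (by linarith)] at ha
    exact min_eq_left (by linarith [ha.1])
  rw [e1, e2, intervalIntegral.integral_add (by simp) (by simp), intervalIntegral.integral_const,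
    intervalIntegral.integral_const, integral_id]
  simp only [smul_eq_mul]
  ring

theorem V_f2_len_V_f2 (s : ℝ) (h0 : 0 ≤ s) (h1 : s ≤ 2) :
    ∫ a in (-1 : ℝ)..1, (min 1 (s - a) - max (-1) (-s - a)) = 4 * s - s ^ 2 := by
  have hc : Continuous fun a : ℝ => min 1 (s + a) := by fun_prop
  have hc' : Continuous fun a : ℝ => min 1 (s - a) := by fun_prop
  have e0 : ∀ a : ℝ, min 1 (s - a) - max (-1) (-s - a) = min 1 (s - a) + min 1 (s + a) := by
    intro a
    have : max (-1) (-s - a) = -(min 1 (s + a)) := by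
      rw [← max_neg_neg]; congr 1; ring
    rw [this]; ring
  simp only [e0]
  rw [intervalIntegral.integral_add (hc'.intervalIntegrable _ _) (hc.intervalIntegrable _ _)]
  have e1 : ∫ a in (-1 : ℝ)..1, min 1 (s - a) = ∫ a in (-1 : ℝ)..1, min 1 (s + a) := by
    have := intervalIntegral.integral_comp_neg (a := -1) (b := 1) (fun a : ℝ => min 1 (s + a))
    rw [neg_neg] at this
    rw [← this]
    refine intervalIntegral.integral_congr fun a _ => ?_
    simp only [sub_eq_add_neg]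
  rw [e1, V_f2_min_V_f2 s h0 h1]
  ring

theorem V_f2_lenpos_V_f2 (s a : ℝ) (h0 : 0 ≤ s) (ha : |a| ≤ 1) :
    0 ≤ min 1 (s - a) - max (-1) (-s - a) := by
  have ha' := abs_le.1 ha
  rw [sub_nonneg]
  refine max_le (le_min (by norm_num) (by linarith)) (le_min (by linarith) (by linarith))

theorem V_f2_sum_V_f2 (m : ℕ) (x : Fin (m + 2) → ℝ) :
    ∑ i, x i * (if (i : ℕ) < 2 then 1 / Real.sqrt 2 else 0) = (x 0 + x 1) / Real.sqrt 2 := by
  rw [Fin.sum_univ_succ, Fin.sum_univ_succ]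
  have h : ∀ i : Fin m, ¬((i.succ.succ : Fin (m + 2)) : ℕ) < 2 := by
    intro i
    simp only [Fin.val_succ]
    omega
  simp only [h, if_false, mul_zero, Finset.sum_const_zero, add_zero]
  have h1 : (Fin.succ 0 : Fin (m + 2)) = 1 := rfl
  rw [h1]
  simp
  ring

theorem V_f2 (m : ℕ) (t : ℝ) (h0 : 0 ≤ t) (h1 : t ≤ Real.sqrt 2) :
    volume {x : Fin (m + 2) → ℝ | (∀ i, |x i| ≤ 1) ∧
      |∑ i, x i * (if (i : ℕ) < 2 then 1 / Real.sqrt 2 else 0)| ≤ t}
      = ENNReal.ofReal (2 ^ (m + 2) * gg t) := by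
  have hs2 : 0 < Real.sqrt 2 := Real.sqrt_pos.2 (by norm_num)
  have hsq : Real.sqrt 2 * Real.sqrt 2 = 2 := Real.mul_self_sqrt (by norm_num)
  set s : ℝ := Real.sqrt 2 * t with hs
  have hs0 : 0 ≤ s := by positivity
  have hs2' : s ≤ 2 := by
    have := mul_le_mul_of_nonneg_left h1 hs2.le
    rw [hsq] at this
    exact this
  -- first rewriting
  have hset : {x : Fin (m + 2) → ℝ | (∀ i, |x i| ≤ 1) ∧
      |∑ i, x i * (if (i : ℕ) < 2 then 1 / Real.sqrt 2 else 0)| ≤ t} =
      {x : Fin (m + 1 + 1) → ℝ | (fun (a : ℝ) (y : Fin (m + 1) → ℝ) =>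
        |a| ≤ 1 ∧ (∀ i, |y i| ≤ 1) ∧ |a + y 0| ≤ s) (x 0) (fun i => x i.succ)} := by
    ext x
    simp only [mem_setOf_eq]
    rw [V_f2_sum_V_f2, abs_div, abs_of_pos hs2, div_le_iff₀ hs2, Fin.forall_fin_succ]
    have h1 : (Fin.succ 0 : Fin (m + 2)) = 1 := rfl
    rw [h1, hs, mul_comm t]
    tauto
  have hm1 : MeasurableSet {p : ℝ × (Fin (m + 1) → ℝ) | (fun (a : ℝ) (y : Fin (m + 1) → ℝ) =>
        |a| ≤ 1 ∧ (∀ i, |y i| ≤ 1) ∧ |a + y 0| ≤ s) p.1 p.2} := by
    have c1 : IsClosed {p : ℝ × (Fin (m + 1) → ℝ) | |p.1| ≤ 1} :=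
      isClosed_le (by fun_prop) continuous_const
    have c2 : IsClosed {p : ℝ × (Fin (m + 1) → ℝ) | ∀ i, |p.2 i| ≤ 1} := by
      rw [setOf_forall]
      exact isClosed_iInter fun i => isClosed_le (by fun_prop) continuous_const
    have c3 : IsClosed {p : ℝ × (Fin (m + 1) → ℝ) | |p.1 + p.2 0| ≤ s} :=
      isClosed_le (by fun_prop) continuous_const
    exact (c1.inter (c2.inter c3)).measurableSet
  rw [hset]
  refine (V_f2_split_V_f2 (m + 1) (fun (a : ℝ) (y : Fin (m + 1) → ℝ) =>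
        |a| ≤ 1 ∧ (∀ i, |y i| ≤ 1) ∧ |a + y 0| ≤ s) hm1).trans ?_
  -- inner volume
  have hinner : ∀ a : ℝ, volume {y : Fin (m + 1) → ℝ | |a| ≤ 1 ∧ (∀ i, |y i| ≤ 1) ∧
      |a + y 0| ≤ s} = (Icc (-1 : ℝ) 1).indicator (fun a => 2 ^ m *
        ENNReal.ofReal (min 1 (s - a) - max (-1) (-s - a))) a := by
    intro a
    by_cases ha : |a| ≤ 1
    · rw [indicator_of_mem (show a ∈ Icc (-1 : ℝ) 1 from abs_le.1 ha)]
      have hset2 : {y : Fin (m + 1) → ℝ | |a| ≤ 1 ∧ (∀ i, |y i| ≤ 1) ∧ |a + y 0| ≤ s} =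
          {y : Fin (m + 1) → ℝ | (fun (b : ℝ) (z : Fin m → ℝ) =>
            (|b| ≤ 1 ∧ |a + b| ≤ s) ∧ ∀ i, |z i| ≤ 1) (y 0) (fun i => y i.succ)} := by
        ext y
        simp only [mem_setOf_eq]
        rw [Fin.forall_fin_succ]
        tauto
      have hm2 : MeasurableSet {p : ℝ × (Fin m → ℝ) | (fun (b : ℝ) (z : Fin m → ℝ) =>
            (|b| ≤ 1 ∧ |a + b| ≤ s) ∧ ∀ i, |z i| ≤ 1) p.1 p.2} := by
        have c1 : IsClosed {p : ℝ × (Fin m → ℝ) | |p.1| ≤ 1} :=
          isClosed_le (by fun_prop) continuous_const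
        have c2 : IsClosed {p : ℝ × (Fin m → ℝ) | ∀ i, |p.2 i| ≤ 1} := by
          rw [setOf_forall]
          exact isClosed_iInter fun i => isClosed_le (by fun_prop) continuous_const
        have c3 : IsClosed {p : ℝ × (Fin m → ℝ) | |a + p.1| ≤ s} :=
          isClosed_le (by fun_prop) continuous_const
        exact ((c1.inter c3).inter c2).measurableSet
      rw [hset2]
      refine (V_f2_split_V_f2 m (fun (b : ℝ) (z : Fin m → ℝ) =>
            (|b| ≤ 1 ∧ |a + b| ≤ s) ∧ ∀ i, |z i| ≤ 1) hm2).trans ?_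
      have hin2 : ∀ b : ℝ, volume {z : Fin m → ℝ | (|b| ≤ 1 ∧ |a + b| ≤ s) ∧ ∀ i, |z i| ≤ 1} =
          (Icc (max (-1) (-s - a)) (min 1 (s - a))).indicator (fun _ => (2 : ENNReal) ^ m) b := by
        intro b
        by_cases hb : |b| ≤ 1 ∧ |a + b| ≤ s
        · have hb1 := abs_le.1 hb.1
          have hb2 := abs_le.1 hb.2
          rw [indicator_of_mem]
          · have : {z : Fin m → ℝ | (|b| ≤ 1 ∧ |a + b| ≤ s) ∧ ∀ i, |z i| ≤ 1} =
                {z : Fin m → ℝ | ∀ i, |z i| ≤ 1} := by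
              ext z
              simp only [mem_setOf_eq]
              exact and_iff_right hb
            rw [this, V_f2_cube_V_f2]
          · exact ⟨max_le (by linarith) (by linarith), le_min (by linarith) (by linarith)⟩
        · rw [indicator_of_notMem]
          · have : {z : Fin m → ℝ | (|b| ≤ 1 ∧ |a + b| ≤ s) ∧ ∀ i, |z i| ≤ 1} = ∅ := by
              ext z
              simp only [mem_setOf_eq, mem_empty_iff_false, iff_false]
              exact fun h => hb h.1
            rw [this, measure_empty]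
          · intro hmem
            apply hb
            have k1 := max_le_iff.1 hmem.1
            have k2 := le_min_iff.1 hmem.2
            exact ⟨abs_le.2 ⟨by linarith, by linarith⟩, abs_le.2 ⟨by linarith, by linarith⟩⟩
      simp only [hin2]
      rw [lintegral_indicator_const measurableSet_Icc, Real.volume_Icc]
    · have hna : a ∉ Icc (-1 : ℝ) 1 := fun h => ha (abs_le.2 h)
      rw [indicator_of_notMem hna]
      have : {y : Fin (m + 1) → ℝ | |a| ≤ 1 ∧ (∀ i, |y i| ≤ 1) ∧ |a + y 0| ≤ s} = ∅ := by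
        ext y
        simp only [mem_setOf_eq, mem_empty_iff_false, iff_false]
        exact fun h => ha h.1
      rw [this, measure_empty]
  simp only [hinner]
  rw [lintegral_indicator measurableSet_Icc, lintegral_const_mul _ (by fun_prop)]
  have hlc : Continuous fun a : ℝ => min 1 (s - a) - max (-1) (-s - a) := by fun_prop
  rw [← ofReal_integral_eq_lintegral_ofReal]
  · rw [integral_Icc_eq_integral_Ioc, ← intervalIntegral.integral_of_le (by norm_num),
      V_f2_len_V_f2 s hs0 hs2']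
    have e2 : (2 : ENNReal) ^ m = ENNReal.ofReal (2 ^ m) := by
      rw [ENNReal.ofReal_pow (by norm_num)]
      norm_num
    rw [e2, ← ENNReal.ofReal_mul (by positivity)]
    congr 1
    unfold gg
    rw [hs, pow_add]
    have : (Real.sqrt 2 * t) ^ 2 = 2 * t ^ 2 := by
      rw [mul_pow, Real.sq_sqrt (by norm_num)]
    rw [this]
    ring
  · exact hlc.continuousOn.integrableOn_Icc
  · refine (ae_restrict_iff' measurableSet_Icc).2 (Eventually.of_forall fun a ha => ?_)
    exact V_f2_lenpos_V_f2 s a hs0 (abs_le.2 ha)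

end Pool.Agent.Helper131.Slab
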