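import Pool.Agent.Helper131.Slab.Defs

set_option maxRecDepth 100000

namespace Pool.Agent.Helper131.Slab

open MeasureTheory Set intervalIntegral Filter Topology

theorem abs_sinc_14 (x : ℝ) (hx : |x| ≤ 3.67) : |Real.sinc x| ≤ Real.exp (-(0.14 * x ^ 2)) := by
  have hsym : Real.sinc x = Real.sinc |x| := by
    rcases abs_choice x with h | h
    · rw [h]
    · rw [h, Real.sinc_neg]
  have hsq : x ^ 2 = |x| ^ 2 := (sq_abs x).symm
  rw [hsym, hsq]
  set y := |x| with hy
  have hy0 : 0 ≤ y := abs_nonneg x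
  rcases le_or_gt y Real.pi with h | h
  · have hay : |y| ≤ Real.pi := by rwa [abs_of_nonneg hy0]
    rw [abs_of_nonneg (sinc_nonneg_of_abs_le_pi y hay)]
    refine (sinc_le_exp y hay).trans (Real.exp_le_exp.2 ?_)
    nlinarith [sq_nonneg y]
  · have hpi := Real.pi_gt_d4
    have hypos : 0 < y := by linarith [Real.pi_pos]
    rw [Real.sinc_of_ne_zero hypos.ne', abs_div, abs_of_pos hypos]
    have h1 : |Real.sin y| ≤ y - Real.pi := by
      have h2 : Real.sin y = -Real.sin (y - Real.pi) := by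
        rw [Real.sin_sub_pi, neg_neg]
      rw [h2, abs_neg]
      exact (Real.abs_sin_le_abs).trans (by rw [abs_of_pos (by linarith)])
    have h3 : |Real.sin y| / y ≤ 0.145 := by
      rw [div_le_iff₀ hypos]
      nlinarith
    refine h3.trans ?_
    have h4 : Real.exp (-1.8857) ≤ Real.exp (-(0.14 * y ^ 2)) := by
      apply Real.exp_le_exp.2
      nlinarith
    refine le_trans ?_ h4
    have h5 : Real.exp (-1.8857) = Real.exp 0.1143 * (Real.exp 1)⁻¹ ^ 2 := by
      rw [← Real.exp_neg, ← Real.exp_nat_mul, ← Real.exp_add]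
      norm_num
    rw [h5]
    have h6 : (1.1143 : ℝ) ≤ Real.exp 0.1143 := by
      have := Real.add_one_le_exp (0.1143 : ℝ)
      linarith
    have h7 : (0.3678 : ℝ) ≤ (Real.exp 1)⁻¹ := by
      rw [le_inv_comm₀ (by norm_num) (Real.exp_pos 1)]
      exact Real.exp_one_lt_d9.le.trans (by norm_num)
    have h8 : (0.3678 : ℝ) ^ 2 ≤ (Real.exp 1)⁻¹ ^ 2 := pow_le_pow_left₀ (by norm_num) h7 2
    calc (0.145 : ℝ) ≤ 1.1143 * 0.3678 ^ 2 := by norm_num
      _ ≤ Real.exp 0.1143 * (Real.exp 1)⁻¹ ^ 2 := by gcongr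

end Pool.Agent.Helper131.Slab
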