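import Pool.Agent.Helper131.Slab.Defs
import Pool.Agent.Helper131.Slab.L_conc

set_option maxRecDepth 100000

namespace Pool.Agent.Helper131.Slab

open MeasureTheory Set intervalIntegral Filter Topology

theorem conc_gg {n : ℕ} (a : Fin n → ℝ) (t1 t2 t : ℝ) (h0 : 0 ≤ t1) (h12 : t1 < t2) (h1 : t1 ≤ t)
    (h2 : t ≤ t2) (H1 : Low a (clamp t1) (gg t1 + (t2 - t1) ^ 2 / 8))
    (H2 : Low a (clamp t2) (gg t2 + (t2 - t1) ^ 2 / 8)) :
    Low a (clamp t) (gg t) := by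
  obtain ⟨C, hC, h⟩ := conc a t1 t2 t _ _ h0 h12 h1 h2 H1 H2
  refine ⟨C, hC, fun δ hδ => le_trans ?_ (h δ hδ)⟩
  have hpos : 0 < t2 - t1 := by linarith
  have hV : gg t ≤ ((t2 - t) * (gg t1 + (t2 - t1) ^ 2 / 8)
      + (t - t1) * (gg t2 + (t2 - t1) ^ 2 / 8)) / (t2 - t1) := by
    rw [le_div_iff₀ hpos]
    unfold gg
    nlinarith [mul_nonneg hpos.le (sq_nonneg (2 * t - t1 - t2))]
  have := mul_le_mul_of_nonneg_right hV hδ
  linarith

end Pool.Agent.Helper131.Slab
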