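import Pool.Agent.Helper131.Slab.Defs

set_option maxRecDepth 100000

namespace Pool.Agent.Helper131.Slab

open MeasureTheory Set intervalIntegral Filter Topology

theorem tri_props : (∀ x, tri (-x) = tri x) ∧ (∀ x y, |tri x - tri y| ≤ |x - y|) ∧
    (∀ x, tri (x + 6) = tri x) ∧ (∀ x, 0 ≤ x → x ≤ 3 → tri x = x) := by
  refine ⟨fun x => ?_, fun x y => ?_, fun x => ?_, fun x h0 h3 => ?_⟩
  · unfold tri
    rw [AddCircle.coe_neg, norm_neg]
  · unfold tri
    refine (abs_norm_sub_norm_le _ _).trans ?_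
    rw [← AddCircle.coe_sub]
    rw [AddCircle.norm_eq' (6 : ℝ) (by norm_num)]
    have h := round_le (6⁻¹ * (x - y)) 0
    have h3 : |x - y| = 6 * |6⁻¹ * (x - y)| := by
      rw [abs_mul, abs_of_pos (show (0 : ℝ) < 6⁻¹ by norm_num)]
      ring
    rw [h3]
    have h4 : |6⁻¹ * (x - y) - round ((6 : ℝ)⁻¹ * (x - y))| ≤ |6⁻¹ * (x - y)| := by
      simpa using h
    linarith
  · unfold tri
    rw [AddCircle.coe_add_period]
  · unfold tri
    rw [(AddCircle.norm_coe_eq_abs_iff (6 : ℝ) (by norm_num)).2, abs_of_nonneg h0]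
    rw [abs_of_nonneg h0, abs_of_pos (by norm_num : (0 : ℝ) < 6)]
    linarith

end Pool.Agent.Helper131.Slab
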