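import Pool.Agent.Helper131.Slab.Defs
import Pool.Agent.Helper131.Slab.L_tri_props

set_option maxRecDepth 100000

namespace Pool.Agent.Helper131.Slab

open MeasureTheory Set intervalIntegral Filter Topology

theorem trap_props (t : ℝ) : Continuous (trap t) ∧ (∀ r, trap t (-r) = -trap t r) ∧
    (0 ≤ t → ∀ r, 0 ≤ r → trap t r ≤ clamp t r) := by
  
  obtain ⟨heven, hlip, -, -⟩ := tri_props
  have htc : Continuous tri := by
    refine LipschitzWith.continuous (K := 1) ?_
    refine LipschitzWith.of_dist_le_mul fun x y => ?_
    rw [Real.dist_eq, Real.dist_eq]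
    simpa using hlip x y
  refine ⟨?_, ?_, ?_⟩
  · unfold trap
    exact ((htc.comp (by fun_prop)).sub (htc.comp (by fun_prop))).div_const 2
  · intro r
    unfold trap
    have e1 : tri (-r + t) = tri (r - t) := by
      rw [← heven (r - t)]; congr 1; ring
    have e2 : tri (-r - t) = tri (r + t) := by
      rw [← heven (r + t)]; congr 1; ring
    rw [e1, e2]; ring
  · intro ht r hr
    unfold trap clamp
    apply le_max_of_le_right
    apply le_min
    · have h1 := hlip (r + t) (t - r)
      have e1 : tri (t - r) = tri (r - t) := by
        rw [← heven (r - t)]; congr 1; ring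
      rw [e1] at h1
      have h2 : |r + t - (t - r)| = 2 * r := by
        rw [show r + t - (t - r) = 2 * r by ring, abs_of_nonneg (by linarith)]
      rw [h2] at h1
      have := (abs_le.1 h1).2
      linarith
    · have h1 := hlip (r + t) (r - t)
      have h2 : |r + t - (r - t)| = 2 * t := by
        rw [show r + t - (r - t) = 2 * t by ring, abs_of_nonneg (by linarith)]
      rw [h2] at h1
      have := (abs_le.1 h1).2
      linarith

end Pool.Agent.Helper131.Slab
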