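import Pool.Agent.Helper131.Slab.Defs
import Pool.Agent.Helper131.Slab.L_tri_props

set_option maxRecDepth 100000

namespace Pool.Agent.Helper131.Slab

open MeasureTheory Set intervalIntegral Filter Topology

theorem ts_B2_tri_series (y : ℝ) : (Polynomial.map (algebraMap ℚ ℝ) (Polynomial.bernoulli 2)).eval y =
      y ^ 2 - y + 1 / 6 := by
  have h : Polynomial.bernoulli 2 = Polynomial.monomial 2 1 + Polynomial.monomial 1 (-1) +
      Polynomial.monomial 0 (1 / 6) := by
    simp_rw [Polynomial.bernoulli, Finset.sum_range_succ]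
    rw [Finset.sum_range_zero, zero_add, bernoulli_one]
    rw [bernoulli_eq_bernoulli'_of_ne_one zero_ne_one, bernoulli'_zero,
      bernoulli_eq_bernoulli'_of_ne_one (by decide : 2 ≠ 1), bernoulli'_two]
    norm_num
  rw [h]
  simp
  ring

theorem ts_F_tri_series (y : ℝ) (hy : y ∈ Set.Icc (0 : ℝ) 1) :
    HasSum (fun n : ℕ => 1 / (n : ℝ) ^ 2 * Real.cos (2 * Real.pi * n * y))
      (Real.pi ^ 2 * (y ^ 2 - y + 1 / 6)) := by
  have h := hasSum_one_div_nat_pow_mul_cos (k := 1) (by norm_num) hy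
  simp only [mul_one] at h
  rw [ts_B2_tri_series] at h
  have h3 : (-1 : ℝ) ^ (1 + 1) * (2 * Real.pi) ^ 2 / 2 / ((Nat.factorial 2 : ℕ) : ℝ) * (y ^ 2 - y + 1 / 6) =
      Real.pi ^ 2 * (y ^ 2 - y + 1 / 6) := by
    have : ((Nat.factorial 2 : ℕ) : ℝ) = 2 := by norm_num [Nat.factorial]
    rw [this]
    ring
  rw [h3] at h
  exact h

theorem ts_base_tri_series (x : ℝ) (hx0 : 0 ≤ x) (hx3 : x ≤ 3) :
    HasSum (fun k : ℕ => Real.cos (lam k * x) / (2 * (k : ℝ) + 1) ^ 2)
    (Real.pi ^ 2 / 12 * (3 / 2 - x)) := by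
  have h1 := ts_F_tri_series (x / 6) ⟨by positivity, by linarith⟩
  have h2 := ts_F_tri_series (x / 3) ⟨by positivity, by linarith⟩
  set f : ℕ → ℝ := fun n => 1 / (n : ℝ) ^ 2 * Real.cos (2 * Real.pi * n * (x / 6)) with hf
  have he : HasSum (fun m : ℕ => f (2 * m)) (1 / 4 * (Real.pi ^ 2 * ((x / 3) ^ 2 - x / 3 + 1 / 6))) := by
    have h3 := h2.mul_left (1 / 4)
    have h4 : (fun m : ℕ => f (2 * m)) =
        fun m : ℕ => 1 / 4 * (1 / (m : ℝ) ^ 2 * Real.cos (2 * Real.pi * m * (x / 3))) := by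
      funext m
      simp only [hf]
      have e1 : 2 * Real.pi * ((2 * m : ℕ) : ℝ) * (x / 6) = 2 * Real.pi * m * (x / 3) := by
        push_cast; ring
      rw [e1]
      push_cast
      rw [mul_pow]
      have e2 : 1 / ((2 : ℝ) ^ 2 * (m : ℝ) ^ 2) = 1 / 4 * (1 / (m : ℝ) ^ 2) := by
        rw [one_div_mul_one_div]
        norm_num
      rw [e2]
      ring
    rw [h4]
    exact h3
  have hs : Summable (fun k : ℕ => f (2 * k + 1)) :=
    h1.summable.comp_injective (i := fun k : ℕ => 2 * k + 1) (fun a b hab => by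
      simp only at hab
      omega)
  obtain ⟨T, hT⟩ := hs
  have h4 := (he.even_add_odd hT).unique h1
  have h5 : T = Real.pi ^ 2 / 12 * (3 / 2 - x) := by
    linear_combination h4
  rw [← h5]
  convert hT using 1
  funext k
  simp only [hf, lam]
  have e1 : 2 * Real.pi * ((2 * k + 1 : ℕ) : ℝ) * (x / 6) = (2 * (k : ℝ) + 1) * Real.pi / 3 * x := by
    push_cast; ring
  rw [e1]
  push_cast
  ring


theorem tri_series (x : ℝ) : HasSum (fun k : ℕ => Real.cos (lam k * x) / (2 * (k : ℝ) + 1) ^ 2)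
    (Real.pi ^ 2 / 12 * (3 / 2 - tri x)) := by
  obtain ⟨he, -, hper, hid⟩ := tri_props
  set n : ℤ := round (x / 6) with hn
  have hx' : |x - n * 6| ≤ 3 := by
    have h1 := abs_sub_round (x / 6)
    have h2 : x - n * 6 = 6 * (x / 6 - n) := by ring
    rw [h2, abs_mul, abs_of_pos (by norm_num : (0 : ℝ) < 6)]
    linarith
  have hp : Function.Periodic tri 6 := hper
  have h1 : tri x = |x - n * 6| := by
    rw [← hp.sub_int_mul_eq n (x := x)]
    have h2 : tri (x - n * 6) = tri |x - n * 6| := by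
      rcases abs_choice (x - n * 6) with h | h
      · rw [h]
      · rw [h, he]
    rw [h2]
    exact hid _ (abs_nonneg _) hx'
  have h3 : ∀ k : ℕ, Real.cos (lam k * x) = Real.cos (lam k * |x - n * 6|) := by
    intro k
    have h4 : Real.cos (lam k * |x - n * 6|) = Real.cos (lam k * (x - n * 6)) := by
      rcases abs_choice (x - n * 6) with h | h
      · rw [h]
      · rw [h, mul_neg, Real.cos_neg]
    rw [h4]
    have h5 : lam k * (x - n * 6) = lam k * x - ((n * (2 * k + 1) : ℤ) : ℝ) * (2 * Real.pi) := by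
      unfold lam
      push_cast
      ring
    rw [h5, Real.cos_sub_int_mul_two_pi]
  rw [h1]
  simp only [h3]
  exact ts_base_tri_series _ (abs_nonneg _) hx'

end Pool.Agent.Helper131.Slab
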