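import Pool.Agent.Helper131.Slab.Defs
import Pool.Agent.Helper131.Slab.L_tri_props
import Pool.Agent.Helper131.Slab.L_tri_series

set_option maxRecDepth 100000

namespace Pool.Agent.Helper131.Slab

open MeasureTheory Set intervalIntegral Filter Topology

theorem trap_series (t r : ℝ) : HasSum (fun k : ℕ =>
    12 / Real.pi ^ 2 * (Real.sin (lam k * t) / (2 * (k : ℝ) + 1) ^ 2) * Real.sin (lam k * r))
    (trap t r) := by
  have h1 := ((tri_series (r - t)).sub (tri_series (r + t))).mul_left (6 / Real.pi ^ 2)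
  have hpi : Real.pi ≠ 0 := Real.pi_ne_zero
  have hval : trap t r = 6 / Real.pi ^ 2 * (Real.pi ^ 2 / 12 * (3 / 2 - tri (r - t)) -
      Real.pi ^ 2 / 12 * (3 / 2 - tri (r + t))) := by
    unfold trap
    field_simp
    ring
  rw [hval]
  have heq : (fun k : ℕ =>
      12 / Real.pi ^ 2 * (Real.sin (lam k * t) / (2 * (k : ℝ) + 1) ^ 2) * Real.sin (lam k * r)) =
      (fun i : ℕ => 6 / Real.pi ^ 2 * (Real.cos (lam i * (r - t)) / (2 * (i : ℝ) + 1) ^ 2 -
        Real.cos (lam i * (r + t)) / (2 * (i : ℝ) + 1) ^ 2)) := by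
    funext k
    have e1 : lam k * (r - t) = lam k * r - lam k * t := by ring
    have e2 : lam k * (r + t) = lam k * r + lam k * t := by ring
    rw [e1, e2, Real.cos_sub, Real.cos_add]
    ring
  rw [heq]
  exact h1

end Pool.Agent.Helper131.Slab
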