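import Pool.Agent.Helper131.Slab.Defs
import Pool.Agent.Helper131.Slab.L_trap_props
import Pool.Agent.Helper131.Slab.L_trap_series
import Pool.Agent.Helper131.Slab.L_tri_props
import Pool.Agent.Helper131.Slab.L_tri_series

set_option maxRecDepth 100000

namespace Pool.Agent.Helper131.Slab

open MeasureTheory Set intervalIntegral Filter Topology

theorem cubeAvg_trap {n : ℕ} (a : Fin n → ℝ) (t δ : ℝ) : HasSum (fun k : ℕ =>
    12 / Real.pi ^ 2 * (Real.sin (lam k * t) / (2 * (k : ℝ) + 1) ^ 2) *
      (PP a k * Real.sin (lam k * δ))) (cubeAvg a (trap t) δ) := by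
  set c : ℕ → ℝ := fun k => 12 / Real.pi ^ 2 * (Real.sin (lam k * t) / (2 * (k : ℝ) + 1) ^ 2) with hc
  set F : ℕ → (Fin n → ℝ) → ℝ := fun k x => c k * Real.sin (lam k * (δ + ∑ i, a i * x i)) with hF
  have hFc : ∀ k, Continuous (F k) := by
    intro k
    simp only [hF]
    fun_prop
  have hFi : ∀ k, Integrable (F k) (volume.restrict (cube n)) := fun k => integrableOn_cube (hFc k)
  have hvol : volume (cube n) ≠ ⊤ := (isCompact_Icc.measure_lt_top).ne
  have hπ := Real.pi_pos
  have hcb : ∀ k, |c k| ≤ 12 / Real.pi ^ 2 * (1 / ((k : ℝ) + 1) ^ 2) := by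
    intro k
    simp only [hc]
    rw [abs_mul, abs_of_pos (by positivity : (0 : ℝ) < 12 / Real.pi ^ 2), abs_div,
      abs_of_pos (by positivity : (0 : ℝ) < (2 * (k : ℝ) + 1) ^ 2)]
    refine mul_le_mul_of_nonneg_left ?_ (by positivity)
    have hk : (0 : ℝ) ≤ k := Nat.cast_nonneg k
    refine div_le_div₀ zero_le_one (Real.abs_sin_le_one _) (by positivity) ?_
    exact pow_le_pow_left₀ (by positivity) (by linarith) 2
  have hsum0 : Summable (fun k : ℕ => 12 / Real.pi ^ 2 * (1 / ((k : ℝ) + 1) ^ 2) * (volume (cube n)).toReal) := by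
    apply Summable.mul_right
    apply Summable.mul_left
    have h1 : Summable (fun k : ℕ => 1 / (k : ℝ) ^ 2) := Real.summable_one_div_nat_pow.2 (by norm_num)
    have h2 := (summable_nat_add_iff 1).2 h1
    refine h2.congr fun k => ?_
    push_cast
    rfl
  have hsum : Summable (fun k => ∫ x, ‖F k x‖ ∂(volume.restrict (cube n))) := by
    refine Summable.of_nonneg_of_le (fun k => integral_nonneg fun x => norm_nonneg _) (fun k => ?_) hsum0
    have h1 : ∫ x, ‖F k x‖ ∂(volume.restrict (cube n)) ≤ ∫ x in cube n, |c k| := by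
      refine integral_mono_of_nonneg (Filter.Eventually.of_forall fun x => norm_nonneg _) ?_
        (Filter.Eventually.of_forall fun x => ?_)
      · exact integrableOn_const hvol
      · simp only [hF, Real.norm_eq_abs, abs_mul]
        have := Real.abs_sin_le_one (lam k * (δ + ∑ i, a i * x i))
        nlinarith [abs_nonneg (c k)]
    refine h1.trans ?_
    rw [setIntegral_const, smul_eq_mul, mul_comm]
    exact mul_le_mul_of_nonneg_right (hcb k) ENNReal.toReal_nonneg
  have h1 := hasSum_integral_of_summable_integral_norm hFi hsum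
  have h2 : ∀ x : Fin n → ℝ, ∑' k, F k x = trap t (δ + ∑ i, a i * x i) := fun x =>
    (trap_series t (δ + ∑ i, a i * x i)).tsum_eq
  simp only [h2] at h1
  have h3 := h1.mul_left (1 / 2 ^ n)
  have h4 : (fun k => 1 / 2 ^ n * ∫ x, F k x ∂(volume.restrict (cube n))) = fun k : ℕ =>
    12 / Real.pi ^ 2 * (Real.sin (lam k * t) / (2 * (k : ℝ) + 1) ^ 2) * (PP a k * Real.sin (lam k * δ)) := by
    funext k
    have h5 := cubeAvg_const_mul a (c k) (fun x => Real.sin (lam k * x)) δ
    rw [cubeAvg_sin] at h5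
    exact h5
  rw [h4] at h3
  exact h3

end Pool.Agent.Helper131.Slab
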