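import Pool.Agent.Helper131.Slab.Defs
import Pool.Agent.Helper131.Slab.L_cubeAvg_trap
import Pool.Agent.Helper131.Slab.L_trap_props
import Pool.Agent.Helper131.Slab.L_trap_series
import Pool.Agent.Helper131.Slab.L_tri_props
import Pool.Agent.Helper131.Slab.L_tri_series

set_option maxRecDepth 100000

namespace Pool.Agent.Helper131.Slab

open MeasureTheory Set intervalIntegral Filter Topology

theorem fourier_lower {n : ℕ} (a : Fin n → ℝ) (t T : ℝ) (ht : 0 ≤ t)
    (hT : ∀ N : ℕ, ∑ k ∈ Finset.range N,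
      4 / ((2 * ((k + 5 : ℕ) : ℝ) + 1) * Real.pi) * |PP a (k + 5)| ≤ T) :
    Low a (clamp t) (∑ k ∈ Finset.range 5, ww t k * PP a k - T) := by
  have hpi := Real.pi_pos
  have hlam : ∀ k : ℕ, 0 < lam k := fun k => by unfold lam; positivity
  let D : ℕ → ℝ := fun k => 12 / Real.pi ^ 2 * (Real.sin (lam k * t) / (2 * (k : ℝ) + 1) ^ 2) * PP a k
  have hD : ∀ k, D k * lam k = ww t k * PP a k := by
    intro k
    show 12 / Real.pi ^ 2 * (Real.sin (lam k * t) / (2 * (k : ℝ) + 1) ^ 2) * PP a k *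
      ((2 * (k : ℝ) + 1) * Real.pi / 3) =
      4 / ((2 * (k : ℝ) + 1) * Real.pi) * Real.sin (lam k * t) * PP a k
    field_simp
    ring
  refine ⟨∑ k ∈ Finset.range 5, |D k| * lam k ^ 3 / 6, Finset.sum_nonneg fun k _ => by
    have := hlam k
    positivity, fun δ hδ => ?_⟩
  obtain ⟨h1, h2, h3⟩ := trap_props t
  have hle : cubeAvg a (trap t) δ ≤ cubeAvg a (clamp t) δ :=
    cubeAvg_le a h1 (clamp_continuous t) h2 (clamp_odd t ht) (h3 ht) δ hδ
  refine le_trans ?_ hle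
  have hs := cubeAvg_trap a t δ
  have hf : ∀ k : ℕ, 12 / Real.pi ^ 2 * (Real.sin (lam k * t) / (2 * (k : ℝ) + 1) ^ 2) *
      (PP a k * Real.sin (lam k * δ)) = D k * Real.sin (lam k * δ) := fun k => by
    show _ = 12 / Real.pi ^ 2 * (Real.sin (lam k * t) / (2 * (k : ℝ) + 1) ^ 2) * PP a k * _
    ring
  simp_rw [hf] at hs
  have hsplit := hs.summable.sum_add_tsum_nat_add 5
  rw [hs.tsum_eq] at hsplit
  rw [← hsplit]
  -- first terms
  have hfirst : ∀ k ∈ Finset.range 5, ww t k * PP a k * δ - |D k| * lam k ^ 3 / 6 * δ ^ 3 ≤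
      D k * Real.sin (lam k * δ) := by
    intro k _
    have hx : 0 ≤ lam k * δ := mul_nonneg (hlam k).le hδ
    have e1 := Real.sin_le hx
    have e2 := Real.sin_ge_sub_cube hx
    have e3 : |Real.sin (lam k * δ) - lam k * δ| ≤ (lam k * δ) ^ 3 / 6 := by
      rw [abs_le]
      have : 0 ≤ (lam k * δ) ^ 3 / 6 := by positivity
      constructor <;> linarith
    have e4 : -(|D k| * ((lam k * δ) ^ 3 / 6)) ≤ D k * (Real.sin (lam k * δ) - lam k * δ) := by
      have : |D k * (Real.sin (lam k * δ) - lam k * δ)| ≤ |D k| * ((lam k * δ) ^ 3 / 6) := by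
        rw [abs_mul]
        exact mul_le_mul_of_nonneg_left e3 (abs_nonneg _)
      linarith [neg_abs_le (D k * (Real.sin (lam k * δ) - lam k * δ))]
    have e5 := hD k
    have e6 : D k * Real.sin (lam k * δ) =
      (D k * lam k) * δ + D k * (Real.sin (lam k * δ) - lam k * δ) := by ring
    rw [e6, e5]
    have e7 : |D k| * ((lam k * δ) ^ 3 / 6) = |D k| * lam k ^ 3 / 6 * δ ^ 3 := by ring
    linarith
  have hsum1 := Finset.sum_le_sum hfirst
  -- tail
  let b : ℕ → ℝ := fun k => 4 / ((2 * ((k + 5 : ℕ) : ℝ) + 1) * Real.pi) * |PP a (k + 5)|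
  have hb0 : ∀ k, 0 ≤ b k := fun k => by
    show 0 ≤ 4 / ((2 * ((k + 5 : ℕ) : ℝ) + 1) * Real.pi) * |PP a (k + 5)|
    positivity
  have hbs : Summable b := summable_of_sum_range_le hb0 hT
  have hbT : ∑' k, b k ≤ T := Real.tsum_le_of_sum_range_le hb0 hT
  have htail : ∀ k : ℕ, -(b k * δ) ≤ D (k + 5) * Real.sin (lam (k + 5) * δ) := by
    intro k
    have hx : 0 ≤ lam (k + 5) * δ := mul_nonneg (hlam _).le hδ
    have e1 : |Real.sin (lam (k + 5) * δ)| ≤ lam (k + 5) * δ := by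
      have := Real.abs_sin_le_abs (x := lam (k + 5) * δ)
      rwa [abs_of_nonneg hx] at this
    have e2 : |D (k + 5) * Real.sin (lam (k + 5) * δ)| ≤ |D (k + 5) * lam (k + 5)| * δ := by
      rw [abs_mul (D (k + 5)) (Real.sin (lam (k + 5) * δ)), abs_mul (D (k + 5)) (lam (k + 5)),
        abs_of_pos (hlam (k + 5)), mul_assoc]
      exact mul_le_mul_of_nonneg_left e1 (abs_nonneg _)
    have e3 : |D (k + 5) * lam (k + 5)| ≤ b k := by
      rw [hD]
      show |4 / ((2 * ((k + 5 : ℕ) : ℝ) + 1) * Real.pi) * Real.sin (lam (k + 5) * t) * PP a (k + 5)| ≤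
        4 / ((2 * ((k + 5 : ℕ) : ℝ) + 1) * Real.pi) * |PP a (k + 5)|
      rw [abs_mul, abs_mul, abs_of_nonneg (by positivity)]
      refine mul_le_mul_of_nonneg_right ?_ (abs_nonneg _)
      exact mul_le_of_le_one_right (by positivity) (Real.abs_sin_le_one _)
    have e4 : |D (k + 5) * lam (k + 5)| * δ ≤ b k * δ := mul_le_mul_of_nonneg_right e3 hδ
    linarith [neg_abs_le (D (k + 5) * Real.sin (lam (k + 5) * δ))]
  have hsum2 : ∑' k, -(b k * δ) ≤ ∑' k : ℕ, D (k + 5) * Real.sin (lam (k + 5) * δ) :=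
    Summable.tsum_le_tsum htail (hbs.mul_right δ).neg ((summable_nat_add_iff 5).2 hs.summable)
  rw [tsum_neg, tsum_mul_right] at hsum2
  have hTd : (∑' k, b k) * δ ≤ T * δ := mul_le_mul_of_nonneg_right hbT hδ
  rw [Finset.sum_sub_distrib, ← Finset.sum_mul, ← Finset.sum_mul] at hsum1
  linarith

end Pool.Agent.Helper131.Slab
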