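import Pool.Agent.Helper131.Slab.Defs

set_option maxRecDepth 100000

namespace Pool.Agent.Helper131.Slab

open MeasureTheory Set intervalIntegral Filter Topology

theorem tail_sum_key_tail_sum (x : ℝ) (hx : 11 ≤ x) : 6 / x ^ 4 ≤ 1 / (x - 1) ^ 3 - 1 / (x + 1) ^ 3 := by
  have h1 : 0 < x - 1 := by linarith
  have h2 : 0 < x + 1 := by linarith
  have h3 : 0 < x := by linarith
  rw [div_sub_div _ _ (by positivity) (by positivity), div_le_div_iff₀ (by positivity)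
    (by positivity)]
  have h4 : (1 * (x + 1) ^ 3 - (x - 1) ^ 3 * 1) * x ^ 4 - 6 * ((x - 1) ^ 3 * (x + 1) ^ 3) =
      20 * x ^ 4 - 18 * x ^ 2 + 6 := by ring
  have h5 : x ^ 4 = x ^ 2 * x ^ 2 := by ring
  have h6 : 121 ≤ x ^ 2 := by nlinarith
  nlinarith

theorem tail_sum {n : ℕ} (a : Fin n → ℝ) (B : ℝ) (hB : 0 ≤ B)
    (h : ∀ k : ℕ, 5 ≤ k → |PP a k| ≤ B * (11 / (2 * (k : ℝ) + 1)) ^ 3) (N : ℕ) :
    ∑ k ∈ Finset.range N, 4 / ((2 * ((k + 5 : ℕ) : ℝ) + 1) * Real.pi) * |PP a (k + 5)|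
      ≤ 0.285 * B := by
  have hpi := Real.pi_gt_d2
  have hpi0 := Real.pi_pos
  have hind : ∀ N : ℕ, ∑ k ∈ Finset.range N,
      4 / ((2 * ((k + 5 : ℕ) : ℝ) + 1) * Real.pi) * |PP a (k + 5)| ≤
      (4 * 1331 * B / Real.pi) / 6 * (1 / 1000 - 1 / (2 * (N : ℝ) + 10) ^ 3) := by
    intro N
    induction N with
    | zero => norm_num
    | succ N ih =>
      rw [Finset.sum_range_succ]
      have h1 := h (N + 5) (by omega)
      have h2 : (11 : ℝ) ≤ 2 * ((N + 5 : ℕ) : ℝ) + 1 := by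
        push_cast
        have : (0 : ℝ) ≤ N := Nat.cast_nonneg N
        linarith
      have h3 := tail_sum_key_tail_sum _ h2
      obtain ⟨m, hm⟩ : ∃ m : ℝ, m = 2 * ((N + 5 : ℕ) : ℝ) + 1 := ⟨_, rfl⟩
      rw [← hm] at h1 h2 h3 ⊢
      have hm1 : m - 1 = 2 * (N : ℝ) + 10 := by rw [hm]; push_cast; ring
      have hm2 : m + 1 = 2 * ((N + 1 : ℕ) : ℝ) + 10 := by rw [hm]; push_cast; ring
      rw [hm1, hm2] at h3
      have hm0 : 0 < m := by linarith
      have h4 : 4 / (m * Real.pi) * |PP a (N + 5)| ≤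
          (4 * 1331 * B / Real.pi) / 6 * (6 / m ^ 4) := by
        calc 4 / (m * Real.pi) * |PP a (N + 5)| ≤ 4 / (m * Real.pi) * (B * (11 / m) ^ 3) :=
              mul_le_mul_of_nonneg_left h1 (by positivity)
          _ = (4 * 1331 * B / Real.pi) / 6 * (6 / m ^ 4) := by
            field_simp
            ring
      have h5 : (4 * 1331 * B / Real.pi) / 6 * (6 / m ^ 4) ≤
          (4 * 1331 * B / Real.pi) / 6 * (1 / (2 * (N : ℝ) + 10) ^ 3 -
            1 / (2 * ((N + 1 : ℕ) : ℝ) + 10) ^ 3) :=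
        mul_le_mul_of_nonneg_left h3 (by positivity)
      have h6 : (4 * 1331 * B / Real.pi) / 6 * (1 / 1000 - 1 / (2 * ((N + 1 : ℕ) : ℝ) + 10) ^ 3) =
          (4 * 1331 * B / Real.pi) / 6 * (1 / 1000 - 1 / (2 * (N : ℝ) + 10) ^ 3) +
          (4 * 1331 * B / Real.pi) / 6 * (1 / (2 * (N : ℝ) + 10) ^ 3 -
            1 / (2 * ((N + 1 : ℕ) : ℝ) + 10) ^ 3) := by ring
      rw [h6]
      linarith
  refine (hind N).trans ?_
  have h7 : (0 : ℝ) ≤ 1 / (2 * (N : ℝ) + 10) ^ 3 := by positivity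
  have h8 : (4 * 1331 * B / Real.pi) / 6 * (1 / 1000 - 1 / (2 * (N : ℝ) + 10) ^ 3) ≤
      (4 * 1331 * B / Real.pi) / 6 * (1 / 1000) :=
    mul_le_mul_of_nonneg_left (by linarith) (by positivity)
  refine h8.trans ?_
  have h9 : 4 * 1331 * B / Real.pi ≤ 4 * 1331 * B / 3.14 :=
    div_le_div_of_nonneg_left (by positivity) (by norm_num) hpi.le
  have h10 : 4 * 1331 * B / 3.14 = (4 * 1331 / 3.14) * B := by ring
  rw [h10] at h9
  nlinarith

end Pool.Agent.Helper131.Slab
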