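import Pool.Agent.Helper131.Slab.Defs2
import Pool.Agent.Helper131.Slab.L_cubeAvg_trap
import Pool.Agent.Helper131.Slab.L_fourier_lower
import Pool.Agent.Helper131.Slab.L_tail_sum
import Pool.Agent.Helper131.Slab.L_trap_props
import Pool.Agent.Helper131.Slab.L_trap_series
import Pool.Agent.Helper131.Slab.L_tri_props
import Pool.Agent.Helper131.Slab.L_tri_series

set_option maxRecDepth 100000

namespace Pool.Agent.Helper131.Slab

open MeasureTheory Set intervalIntegral Filter Topology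

theorem fourier_value2 {n : ℕ} (a : Fin n → ℝ) (t L0 U1 U2 U3 U4 B : ℝ) (ht : 1 ≤ t)
    (ht1 : t ≤ 1.015) (hB : 0 ≤ B) (h0 : L0 ≤ PP a 0) (h1 : PP a 1 ≤ U1) (h2 : PP a 2 ≤ U2)
    (h3 : |PP a 3| ≤ U3) (h4 : |PP a 4| ≤ U4)
    (h : ∀ k : ℕ, 5 ≤ k → |PP a k| ≤ B * (11 / (2 * (k : ℝ) + 1)) ^ 3) :
    Low a (clamp t) (ww t 0 * L0 + ww t 1 * U1 + ww t 2 * U2 - |ww t 3| * U3 - |ww t 4| * U4
      - 0.285 * B) := by
  have hpi := Real.pi_pos
  obtain ⟨C, hC, hlow⟩ := fourier_lower a t (0.285 * B) (by linarith) (tail_sum a B hB h)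
  refine ⟨C, hC, fun δ hδ => le_trans ?_ (hlow δ hδ)⟩
  have w0 : 0 ≤ ww t 0 := by
    unfold ww lam
    apply mul_nonneg (by positivity)
    apply Real.sin_nonneg_of_nonneg_of_le_pi
    · have : 0 ≤ t := by linarith
      positivity
    · push_cast
      nlinarith
  have w1 : ww t 1 ≤ 0 := by
    unfold ww lam
    apply mul_nonpos_of_nonneg_of_nonpos (by positivity)
    rw [← Real.sin_sub_two_pi]
    apply Real.sin_nonpos_of_nonpos_of_neg_pi_le
    · push_cast
      nlinarith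
    · push_cast
      nlinarith
  have w2 : ww t 2 ≤ 0 := by
    unfold ww lam
    apply mul_nonpos_of_nonneg_of_nonpos (by positivity)
    rw [← Real.sin_sub_two_pi]
    apply Real.sin_nonpos_of_nonpos_of_neg_pi_le
    · push_cast
      nlinarith
    · push_cast
      nlinarith
  have e0 : ww t 0 * L0 ≤ ww t 0 * PP a 0 := mul_le_mul_of_nonneg_left h0 w0
  have e1 : ww t 1 * U1 ≤ ww t 1 * PP a 1 := mul_le_mul_of_nonpos_left h1 w1
  have e2 : ww t 2 * U2 ≤ ww t 2 * PP a 2 := mul_le_mul_of_nonpos_left h2 w2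
  have e3 : -(|ww t 3| * U3) ≤ ww t 3 * PP a 3 := by
    have := neg_abs_le (ww t 3 * PP a 3)
    rw [abs_mul] at this
    have := mul_le_mul_of_nonneg_left h3 (abs_nonneg (ww t 3))
    linarith
  have e4 : -(|ww t 4| * U4) ≤ ww t 4 * PP a 4 := by
    have := neg_abs_le (ww t 4 * PP a 4)
    rw [abs_mul] at this
    have := mul_le_mul_of_nonneg_left h4 (abs_nonneg (ww t 4))
    linarith
  have es : ∑ k ∈ Finset.range 5, ww t k * PP a k =
      ww t 0 * PP a 0 + ww t 1 * PP a 1 + ww t 2 * PP a 2 + ww t 3 * PP a 3 + ww t 4 * PP a 4 := by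
    simp only [Finset.sum_range_succ, Finset.sum_range_zero, zero_add]
  rw [es]
  have hmain : ww t 0 * L0 + ww t 1 * U1 + ww t 2 * U2 - |ww t 3| * U3 - |ww t 4| * U4 - 0.285 * B ≤
      ww t 0 * PP a 0 + ww t 1 * PP a 1 + ww t 2 * PP a 2 + ww t 3 * PP a 3 + ww t 4 * PP a 4 - 0.285 * B := by
    linarith
  have := mul_le_mul_of_nonneg_right hmain hδ
  linarith

end Pool.Agent.Helper131.Slab
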