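import Pool.Agent.Helper131.Slab.Defs

set_option maxRecDepth 100000

namespace Pool.Agent.Helper131.Slab

open MeasureTheory Set intervalIntegral Filter Topology

theorem sum4_le {m : ℕ} (a : Fin m → ℝ) (b : ℝ) (ha : ∀ i, |a i| ≤ b) :
    ∑ i, a i ^ 4 ≤ b ^ 2 * ∑ i, a i ^ 2 := by
  rw [Finset.mul_sum]
  refine Finset.sum_le_sum fun i _ => ?_
  have h1 : a i ^ 2 ≤ b ^ 2 := by
    rw [← sq_abs (a i)]
    exact pow_le_pow_left₀ (abs_nonneg _) (ha i) 2
  have h2 : a i ^ 4 = a i ^ 2 * a i ^ 2 := by ring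
  rw [h2]
  exact mul_le_mul_of_nonneg_right h1 (sq_nonneg _)

end Pool.Agent.Helper131.Slab
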