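import Pool.Agent.Helper131.Slab.Defs
import Pool.Agent.Helper131.Slab.L_sinc_low1
import Pool.Agent.Helper131.Slab.L_sum4_le

set_option maxRecDepth 100000

namespace Pool.Agent.Helper131.Slab

open MeasureTheory Set intervalIntegral Filter Topology

theorem gen0 {n : ℕ} (a : Fin (n + 1) → ℝ) (p : Fin (n + 1)) (l u b : ℝ)
    (hl : 0 < l) (hu : u ≤ 0.77) (hb : 0 < b) (hb2 : b ≤ 0.5) (hs : ∑ i, a i ^ 2 = 1) (h1 : l ≤ |a p|)
    (h2 : |a p| ≤ u) (hr : ∀ j, |a (p.succAbove j)| ≤ b) (hlb : 0.5 ≤ l) :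
    Real.exp (-(lam 0 ^ 2 / 6 + lam 0 ^ 4 / 170 * (u ^ 4 + b ^ 2 * (1 - u ^ 2)))) ≤ PP a 0 := by
  have hlam : lam 0 = Real.pi / 3 := by
    unfold lam
    push_cast
    ring
  have hlpos : 0 < lam 0 := by
    rw [hlam]
    positivity
  have hlub : lam 0 ≤ 1.0473 := by
    rw [hlam]
    have := Real.pi_lt_d4
    norm_num at this ⊢
    linarith
  have hai : ∀ i, |a i| ≤ 0.77 := by
    intro i
    rcases eq_or_ne i p with rfl | hi
    · exact h2.trans hu
    · obtain ⟨j, rfl⟩ := Fin.exists_succAbove_eq hi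
      have := hr j
      norm_num at hb2 ⊢
      linarith
  have hx : ∀ i, |lam 0 * a i| ≤ 0.84 := by
    intro i
    rw [abs_mul, abs_of_pos hlpos]
    have h3 := hai i
    have h4 := abs_nonneg (a i)
    norm_num at h3 hlub ⊢
    nlinarith
  have hprod : ∏ i, Real.exp (-((lam 0 * a i) ^ 2 / 6 + (lam 0 * a i) ^ 4 / 170)) ≤ PP a 0 := by
    unfold PP
    apply Finset.prod_le_prod
    · intro i _
      exact (Real.exp_pos _).le
    · intro i _
      exact sinc_low1 _ (hx i)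
  refine le_trans ?_ hprod
  rw [← Real.exp_sum, Real.exp_le_exp]
  have e1 : ∑ i, -((lam 0 * a i) ^ 2 / 6 + (lam 0 * a i) ^ 4 / 170) =
      -(lam 0 ^ 2 / 6 * ∑ i, a i ^ 2 + lam 0 ^ 4 / 170 * ∑ i, a i ^ 4) := by
    rw [Finset.sum_neg_distrib, Finset.sum_add_distrib, Finset.mul_sum, Finset.mul_sum]
    congr 2
    · apply Finset.sum_congr rfl
      intro i _
      ring
    · apply Finset.sum_congr rfl
      intro i _
      ring
  rw [e1, hs]
  have hs2 := hs
  rw [Fin.sum_univ_succAbove _ p] at hs2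
  have h4 := sum4_le (fun j => a (p.succAbove j)) b hr
  have h5 : ∑ i, a i ^ 4 ≤ u ^ 4 + b ^ 2 * (1 - u ^ 2) := by
    rw [Fin.sum_univ_succAbove _ p]
    have h6 : ∑ j, a (p.succAbove j) ^ 2 = 1 - a p ^ 2 := by linarith
    rw [h6] at h4
    have h7 : a p ^ 2 ≤ u ^ 2 := by
      rw [← sq_abs (a p)]
      exact pow_le_pow_left₀ (abs_nonneg _) h2 2
    have h8 : 0.25 ≤ a p ^ 2 := by
      rw [← sq_abs (a p)]
      have h12 : (1 / 2 : ℝ) ≤ |a p| := by
        norm_num at hlb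
        linarith
      have h13 := mul_self_le_mul_self (by norm_num) h12
      norm_num at h13 ⊢
      nlinarith
    have h9 : b ^ 2 ≤ 0.25 := by
      norm_num at hb2 ⊢
      nlinarith
    have h10 : 0 ≤ (u ^ 2 - a p ^ 2) * (u ^ 2 + a p ^ 2 - b ^ 2) := by
      norm_num at h8 h9
      apply mul_nonneg
      · linarith
      · linarith
    nlinarith [h4, h10]
  have h11 : 0 ≤ lam 0 ^ 4 / 170 := by positivity
  have h12 := mul_le_mul_of_nonneg_left h5 h11
  linarith

end Pool.Agent.Helper131.Slab
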