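import Pool.Agent.Helper131.Slab.Defs

set_option maxRecDepth 100000

namespace Pool.Agent.Helper131.Slab

open MeasureTheory Set intervalIntegral Filter Topology

theorem exp_neg_le6_sinc_low3 (u : ℝ) (hu : 0 ≤ u) :
    Real.exp (-u) ≤ 1 - u + u ^ 2 / 2 - u ^ 3 / 6 + u ^ 4 / 24 - u ^ 5 / 120 + u ^ 6 / 720 := by
  have h := nonneg_of_deriv
    (f := fun u : ℝ => (1 - u + u ^ 2 / 2 - u ^ 3 / 6 + u ^ 4 / 24 - u ^ 5 / 120 + u ^ 6 / 720) -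
      Real.exp (-u))
    (f' := fun u : ℝ => Real.exp (-u) - (1 - u + u ^ 2 / 2 - u ^ 3 / 6 + u ^ 4 / 24 - u ^ 5 / 120))
    (by
      intro x
      have h1 : HasDerivAt (fun u : ℝ => Real.exp (-u)) (Real.exp (-x) * (-1)) x :=
        (hasDerivAt_neg x).exp
      have h0 := hasDerivAt_id x
      have h2 := (((((((hasDerivAt_const x (1 : ℝ)).sub h0).add ((h0.pow 2).div_const 2)).sub
        ((h0.pow 3).div_const 6)).add ((h0.pow 4).div_const 24)).sub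
        ((h0.pow 5).div_const 120)).add ((h0.pow 6).div_const 720)).sub h1
      refine HasDerivAt.congr_deriv (f' := 0 - 1 + ((2 : ℕ) : ℝ) * x ^ (2 - 1) * 1 / 2
        - ((3 : ℕ) : ℝ) * x ^ (3 - 1) * 1 / 6 + ((4 : ℕ) : ℝ) * x ^ (4 - 1) * 1 / 24
        - ((5 : ℕ) : ℝ) * x ^ (5 - 1) * 1 / 120 + ((6 : ℕ) : ℝ) * x ^ (6 - 1) * 1 / 720
        - Real.exp (-x) * -1) h2 ?_
      norm_num
      ring)
    (by norm_num)
    (by
      intro x hx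
      have := exp_neg_ge5 x hx
      show 0 ≤ Real.exp (-x) - _
      linarith) u hu
  have h' : 0 ≤ (1 - u + u ^ 2 / 2 - u ^ 3 / 6 + u ^ 4 / 24 - u ^ 5 / 120 + u ^ 6 / 720) -
      Real.exp (-u) := h
  linarith

theorem sinc_low3_poly_sinc_low3 (s : ℝ) (hs : 0 ≤ s) (hc : s ≤ 2.776) :
    1 - (s / 6 + s ^ 2 / 145) + (s / 6 + s ^ 2 / 145) ^ 2 / 2 - (s / 6 + s ^ 2 / 145) ^ 3 / 6
      + (s / 6 + s ^ 2 / 145) ^ 4 / 24 - (s / 6 + s ^ 2 / 145) ^ 5 / 120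
      + (s / 6 + s ^ 2 / 145) ^ 6 / 720 ≤ 1 - s / 6 + s ^ 2 / 120 - s ^ 3 / 5040 := by
  have e : (1 - s / 6 + s ^ 2 / 120 - s ^ 3 / 5040) -
      (1 - (s / 6 + s ^ 2 / 145) + (s / 6 + s ^ 2 / 145) ^ 2 / 2 - (s / 6 + s ^ 2 / 145) ^ 3 / 6
      + (s / 6 + s ^ 2 / 145) ^ 4 / 24 - (s / 6 + s ^ 2 / 145) ^ 5 / 120
      + (s / 6 + s ^ 2 / 145) ^ 6 / 720) =
      s ^ 2 * ((7 / 5220) + (-379 / 657720) * s + s ^ 2 * ((26063 / 653961600) + (-1123 / 3923769600) * s + (-1713701 / 20482077312000) * s ^ 2 + (1051 / 568946592000) * s ^ 3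
        + (-2737 / 27499085280000) * s ^ 4 + (-91 / 3437385660000) * s ^ 5 + (-653 / 553801023000000) * s ^ 6 + (-1 / 46150085250000) * s ^ 7 + (-1 / 6691762361250000) * s ^ 8)) := by
    ring
  have h1 : s ^ 2 ≤ 2.776 ^ 2 := pow_le_pow_left₀ hs hc 2
  have h2 : s ^ 4 ≤ 2.776 ^ 4 := pow_le_pow_left₀ hs hc 4
  have h3 : s ^ 5 ≤ 2.776 ^ 5 := pow_le_pow_left₀ hs hc 5
  have h4 : s ^ 6 ≤ 2.776 ^ 6 := pow_le_pow_left₀ hs hc 6
  have h5 : s ^ 7 ≤ 2.776 ^ 7 := pow_le_pow_left₀ hs hc 7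
  have h6 : s ^ 8 ≤ 2.776 ^ 8 := pow_le_pow_left₀ hs hc 8
  have h7 : 0 ≤ s ^ 3 := pow_nonneg hs 3
  have hb : (0.0000378 : ℝ) ≤ ((26063 / 653961600) + (-1123 / 3923769600) * s + (-1713701 / 20482077312000) * s ^ 2 + (1051 / 568946592000) * s ^ 3
        + (-2737 / 27499085280000) * s ^ 4 + (-91 / 3437385660000) * s ^ 5 + (-653 / 553801023000000) * s ^ 6 + (-1 / 46150085250000) * s ^ 7 + (-1 / 6691762361250000) * s ^ 8) := by
    norm_num at h1 h2 h3 h4 h5 h6 hc ⊢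
    linarith
  have hb2 : s ^ 2 * (0.0000378 : ℝ) ≤ s ^ 2 * ((26063 / 653961600) + (-1123 / 3923769600) * s + (-1713701 / 20482077312000) * s ^ 2 + (1051 / 568946592000) * s ^ 3
        + (-2737 / 27499085280000) * s ^ 4 + (-91 / 3437385660000) * s ^ 5 + (-653 / 553801023000000) * s ^ 6 + (-1 / 46150085250000) * s ^ 7 + (-1 / 6691762361250000) * s ^ 8) :=
    mul_le_mul_of_nonneg_left hb (sq_nonneg s)
  have hd : 0 ≤ (7 / 5220 : ℝ) + (-379 / 657720) * s + s ^ 2 * (0.0000378 : ℝ) := by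
    nlinarith [mul_nonneg (sub_nonneg.2 hc) (sub_nonneg.2 hc)]
  have hf : 0 ≤ s ^ 2 * ((7 / 5220) + (-379 / 657720) * s + s ^ 2 * ((26063 / 653961600) + (-1123 / 3923769600) * s + (-1713701 / 20482077312000) * s ^ 2 + (1051 / 568946592000) * s ^ 3
        + (-2737 / 27499085280000) * s ^ 4 + (-91 / 3437385660000) * s ^ 5 + (-653 / 553801023000000) * s ^ 6 + (-1 / 46150085250000) * s ^ 7 + (-1 / 6691762361250000) * s ^ 8)) := by
    apply mul_nonneg (sq_nonneg s)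
    linarith
  rw [← e] at hf
  linarith

theorem sinc_low3_pos_sinc_low3 (x : ℝ) (hx0 : 0 < x) (hx : x ≤ 1.666) :
    Real.exp (-(x ^ 2 / 6 + x ^ 4 / 145)) ≤ Real.sinc x := by
  rw [Real.sinc_of_ne_zero hx0.ne', le_div_iff₀ hx0]
  have h1 := sin_ge_P7 x hx0.le
  have h2 := exp_neg_le6_sinc_low3 (x ^ 2 / 6 + x ^ 4 / 145) (by positivity)
  have hs : x ^ 2 ≤ 2.776 := by nlinarith
  have h3 := sinc_low3_poly_sinc_low3 (x ^ 2) (sq_nonneg x) hs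
  have h4 : (x ^ 2) ^ 2 = x ^ 4 := by ring
  rw [h4] at h3
  have h5 := h2.trans h3
  have h6 := mul_le_mul_of_nonneg_right h5 hx0.le
  refine h6.trans ?_
  refine le_trans (le_of_eq ?_) h1
  ring



theorem sinc_low3 (x : ℝ) (hx : |x| ≤ 1.666) : Real.exp (-(x ^ 2 / 6 + x ^ 4 / 145)) ≤ Real.sinc x := by
  rcases eq_or_ne x 0 with rfl | hx0
  · simp
  · have h : Real.exp (-(|x| ^ 2 / 6 + |x| ^ 4 / 145)) ≤ Real.sinc |x| :=
      sinc_low3_pos_sinc_low3 |x| (abs_pos.2 hx0) hx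
    have h2 : |x| ^ 4 = x ^ 4 := by
      rw [← abs_pow, abs_of_nonneg (by positivity)]
    rw [sq_abs, h2] at h
    rcases abs_cases x with ⟨h3, _⟩ | ⟨h3, _⟩
    · rwa [h3] at h
    · rwa [h3, Real.sinc_neg] at h

end Pool.Agent.Helper131.Slab
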