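import Pool.Agent.Helper131.Slab.Defs
import Pool.Agent.Helper131.Slab.L_sinc_low3
import Pool.Agent.Helper131.Slab.L_sum4_le

set_option maxRecDepth 100000

namespace Pool.Agent.Helper131.Slab

open MeasureTheory Set intervalIntegral Filter Topology

theorem gen1 {n : ℕ} (a : Fin (n + 1) → ℝ) (p : Fin (n + 1)) (l u b : ℝ)
    (hl : 0 < l) (hu : u ≤ 0.77) (hb : 0 < b) (hb2 : b ≤ 0.5) (hs : ∑ i, a i ^ 2 = 1) (h1 : l ≤ |a p|)
    (h2 : |a p| ≤ u) (hr : ∀ j, |a (p.succAbove j)| ≤ b) :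
    Real.sinc (Real.pi * u) * Real.exp (-((Real.pi ^ 2 / 6 + Real.pi ^ 4 * b ^ 2 / 145) * (1 - l ^ 2)))
      ≤ PP a 1 := by
  have hlam : lam 1 = Real.pi := by
    unfold lam
    push_cast
    ring
  have hpi3 : Real.pi < 3.15 := Real.pi_lt_d2
  have hpi0 : 0 < Real.pi := Real.pi_pos
  have happos : 0 < |a p| := lt_of_lt_of_le hl h1
  have hPP : PP a 1 = Real.sinc (Real.pi * a p) * ∏ j, Real.sinc (Real.pi * a (p.succAbove j)) := by
    unfold PP
    rw [hlam, Fin.prod_univ_succAbove _ p]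
  have hsum : a p ^ 2 + ∑ j, a (p.succAbove j) ^ 2 = 1 := by
    rw [← hs, Fin.sum_univ_succAbove _ p]
  -- first factor
  have hfac : Real.sinc (Real.pi * u) ≤ Real.sinc (Real.pi * a p) := by
    have hev : Real.sinc (Real.pi * a p) = Real.sinc (Real.pi * |a p|) := by
      rcases abs_cases (a p) with ⟨h, _⟩ | ⟨h, _⟩
      · rw [h]
      · rw [h, mul_neg, Real.sinc_neg]
    rw [hev]
    have hx0 : 0 < Real.pi * |a p| := mul_pos hpi0 happos
    have hxy : Real.pi * |a p| ≤ Real.pi * u := mul_le_mul_of_nonneg_left h2 hpi0.le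
    have hy0 : 0 < Real.pi * u := lt_of_lt_of_le hx0 hxy
    have hypi : Real.pi * u ≤ Real.pi := by nlinarith
    rw [Real.sinc_of_ne_zero hx0.ne', Real.sinc_of_ne_zero hy0.ne']
    have hconc := strictConcaveOn_sin_Icc.concaveOn
    have hmem0 : (0 : ℝ) ∈ Set.Icc (0 : ℝ) Real.pi := ⟨le_refl _, hpi0.le⟩
    have hmemy : Real.pi * u ∈ Set.Icc (0 : ℝ) Real.pi := ⟨hy0.le, hypi⟩
    set X := Real.pi * |a p| with hX
    set Y := Real.pi * u with hY
    have hq0 : 0 ≤ X / Y := div_nonneg hx0.le hy0.le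
    have hq1 : X / Y ≤ 1 := by
      rw [div_le_one hy0]
      exact hxy
    have := hconc.2 hmem0 hmemy (show (0:ℝ) ≤ 1 - X / Y by linarith) hq0 (by ring)
    simp only [smul_eq_mul, mul_zero, zero_add, Real.sin_zero] at this
    have hXY : X / Y * Y = X := div_mul_cancel₀ X hy0.ne'
    rw [hXY] at this
    rw [div_le_div_iff₀ hy0 hx0]
    have h3 : X / Y * Real.sin Y * Y ≤ Real.sin X * Y := mul_le_mul_of_nonneg_right this hy0.le
    have h4 : X / Y * Real.sin Y * Y = Real.sin Y * X := by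
      field_simp
    linarith
  have hfac0 : 0 ≤ Real.sinc (Real.pi * a p) := by
    apply sinc_nonneg_of_abs_le_pi
    rw [abs_mul, abs_of_pos hpi0]
    have : |a p| ≤ 1 := by linarith
    nlinarith
  -- second factor
  have hrest : Real.exp (-((Real.pi ^ 2 / 6 + Real.pi ^ 4 * b ^ 2 / 145) * (1 - l ^ 2)))
      ≤ ∏ j, Real.sinc (Real.pi * a (p.succAbove j)) := by
    have hstep : ∏ j, Real.exp (-((Real.pi * a (p.succAbove j)) ^ 2 / 6
        + (Real.pi * a (p.succAbove j)) ^ 4 / 145)) ≤ ∏ j, Real.sinc (Real.pi * a (p.succAbove j)) := by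
      apply Finset.prod_le_prod
      · intro j _
        exact (Real.exp_pos _).le
      · intro j _
        apply sinc_low3
        rw [abs_mul, abs_of_pos hpi0]
        have := hr j
        have h0 := abs_nonneg (a (p.succAbove j))
        nlinarith
    refine le_trans ?_ hstep
    rw [← Real.exp_sum]
    apply Real.exp_le_exp.mpr
    have h4 := sum4_le (fun j => a (p.succAbove j)) b hr
    have hsq : l ^ 2 ≤ a p ^ 2 := by
      rw [← sq_abs (a p)]
      exact pow_le_pow_left₀ hl.le h1 2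
    have hv : ∑ j, a (p.succAbove j) ^ 2 ≤ 1 - l ^ 2 := by linarith
    have hv0 : 0 ≤ ∑ j, a (p.succAbove j) ^ 2 := Finset.sum_nonneg (fun j _ => sq_nonneg _)
    have heq : ∑ j, -((Real.pi * a (p.succAbove j)) ^ 2 / 6
        + (Real.pi * a (p.succAbove j)) ^ 4 / 145)
        = -(Real.pi ^ 2 / 6 * ∑ j, a (p.succAbove j) ^ 2
          + Real.pi ^ 4 / 145 * ∑ j, a (p.succAbove j) ^ 4) := by
      rw [Finset.sum_neg_distrib, Finset.mul_sum, Finset.mul_sum, ← Finset.sum_add_distrib]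
      congr 1
      apply Finset.sum_congr rfl
      intro j _
      ring
    rw [heq]
    apply neg_le_neg
    have hc4 : 0 ≤ Real.pi ^ 4 / 145 := by positivity
    have hk : 0 ≤ Real.pi ^ 2 / 6 + Real.pi ^ 4 * b ^ 2 / 145 := by positivity
    calc Real.pi ^ 2 / 6 * ∑ j, a (p.succAbove j) ^ 2
          + Real.pi ^ 4 / 145 * ∑ j, a (p.succAbove j) ^ 4
        ≤ Real.pi ^ 2 / 6 * ∑ j, a (p.succAbove j) ^ 2
          + Real.pi ^ 4 / 145 * (b ^ 2 * ∑ j, a (p.succAbove j) ^ 2) := by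
          have := mul_le_mul_of_nonneg_left h4 hc4
          linarith
      _ = (Real.pi ^ 2 / 6 + Real.pi ^ 4 * b ^ 2 / 145) * ∑ j, a (p.succAbove j) ^ 2 := by ring
      _ ≤ (Real.pi ^ 2 / 6 + Real.pi ^ 4 * b ^ 2 / 145) * (1 - l ^ 2) :=
          mul_le_mul_of_nonneg_left hv hk
  rw [hPP]
  exact mul_le_mul hfac hrest (Real.exp_pos _).le hfac0

end Pool.Agent.Helper131.Slab
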