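import Pool.Agent.Helper131.Slab.Defs

set_option maxRecDepth 100000

namespace Pool.Agent.Helper131.Slab

open MeasureTheory Set intervalIntegral Filter Topology

theorem gen2_sinc_anti_gen2 (x y : ℝ) (hx : 0 < x) (hxy : x ≤ y) (hy : y ≤ Real.pi) :
    Real.sinc y ≤ Real.sinc x := by
  have hy0 : 0 < y := hx.trans_le hxy
  rw [Real.sinc_of_ne_zero hx.ne', Real.sinc_of_ne_zero hy0.ne']
  have hc := strictConcaveOn_sin_Icc.concaveOn
  have h1 := hc.2 (show (0:ℝ) ∈ Icc 0 Real.pi from ⟨le_rfl, Real.pi_pos.le⟩)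
    (show y ∈ Icc 0 Real.pi from ⟨hy0.le, hy⟩)
    (show (0:ℝ) ≤ 1 - x / y by
      rw [sub_nonneg, div_le_one hy0]
      exact hxy)
    (show (0:ℝ) ≤ x / y by positivity) (by ring)
  simp only [smul_eq_mul, Real.sin_zero, mul_zero, zero_add] at h1
  rw [div_mul_cancel₀ _ hy0.ne'] at h1
  rw [div_le_div_iff₀ hy0 hx]
  have h2 : x / y * Real.sin y * y = Real.sin y * x := by field_simp
  have h3 := mul_le_mul_of_nonneg_right h1 hy0.le
  linarith

theorem gen2 {n : ℕ} (a : Fin (n + 1) → ℝ) (p : Fin (n + 1)) (l u b : ℝ)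
    (hl : 0 < l) (hu : u ≤ 0.77) (hb : 0 < b) (hb2 : b ≤ 0.5) (hs : ∑ i, a i ^ 2 = 1) (h1 : l ≤ |a p|)
    (h2 : |a p| ≤ u) (hr : ∀ j, |a (p.succAbove j)| ≤ b) :
    PP a 2 ≤ max (Real.sinc (lam 2 * l)) 0 * Real.exp (-(lam 2 ^ 2 / 6 * (1 - u ^ 2))) := by
  have hpi := Real.pi_pos
  have hlam : lam 2 = 5 * Real.pi / 3 := by
    unfold lam
    push_cast
    ring
  have hlam0 : 0 < lam 2 := by rw [hlam]; positivity
  have hsplit : PP a 2 = Real.sinc (lam 2 * a p) * ∏ j, Real.sinc (lam 2 * a (p.succAbove j)) := by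
    unfold PP
    rw [Fin.prod_univ_succAbove _ p]
  have hsq : ∑ j, a (p.succAbove j) ^ 2 = 1 - a p ^ 2 := by
    rw [Fin.sum_univ_succAbove _ p] at hs
    linarith
  obtain ⟨r0, r1⟩ := prod_sinc_bounds Finset.univ (lam 2) (fun j => a (p.succAbove j))
    (fun j _ => by
      rw [abs_mul, abs_of_pos hlam0, hlam]
      have := hr j
      nlinarith [abs_nonneg (a (p.succAbove j))])
  have h0u : 0 < u := hl.trans_le (h1.trans h2)
  have hau : a p ^ 2 ≤ u ^ 2 := by
    rw [← sq_abs (a p)]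
    exact pow_le_pow_left₀ (abs_nonneg _) h2 2
  have r2 : ∏ j, Real.sinc (lam 2 * a (p.succAbove j)) ≤
      Real.exp (-(lam 2 ^ 2 / 6 * (1 - u ^ 2))) := by
    refine r1.trans (Real.exp_le_exp.mpr ?_)
    rw [hsq]
    have : 0 ≤ lam 2 ^ 2 * (u ^ 2 - a p ^ 2) := mul_nonneg (sq_nonneg _) (by linarith)
    nlinarith
  have hM : Real.sinc (lam 2 * a p) ≤ max (Real.sinc (lam 2 * l)) 0 := by
    have heven : Real.sinc (lam 2 * a p) = Real.sinc (lam 2 * |a p|) := by
      rcases abs_choice (a p) with h | h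
      · rw [h]
      · rw [h, mul_neg, Real.sinc_neg]
    rw [heven]
    have hap : 0 < |a p| := hl.trans_le h1
    by_cases hy : lam 2 * |a p| ≤ Real.pi
    · exact (gen2_sinc_anti_gen2 _ _ (by positivity) (mul_le_mul_of_nonneg_left h1 hlam0.le) hy).trans
        (le_max_left _ _)
    · push Not at hy
      refine le_trans ?_ (le_max_right _ _)
      have hy0 : 0 < lam 2 * |a p| := by positivity
      rw [Real.sinc_of_ne_zero hy0.ne']
      apply div_nonpos_of_nonpos_of_nonneg _ hy0.le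
      have hy2 : lam 2 * |a p| ≤ 2 * Real.pi := by
        rw [hlam]
        nlinarith
      have h3 : Real.sin (lam 2 * |a p|) = - Real.sin (lam 2 * |a p| - Real.pi) := by
        rw [Real.sin_sub_pi, neg_neg]
      rw [h3]
      have := Real.sin_nonneg_of_nonneg_of_le_pi (x := lam 2 * |a p| - Real.pi) (by linarith)
        (by linarith)
      linarith
  rw [hsplit]
  calc Real.sinc (lam 2 * a p) * ∏ j, Real.sinc (lam 2 * a (p.succAbove j))
      ≤ max (Real.sinc (lam 2 * l)) 0 * ∏ j, Real.sinc (lam 2 * a (p.succAbove j)) :=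
        mul_le_mul_of_nonneg_right hM r0
    _ ≤ _ := mul_le_mul_of_nonneg_left r2 (le_max_right _ _)

end Pool.Agent.Helper131.Slab
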