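import Pool.Agent.Helper131.Slab.Defs
import Pool.Agent.Helper131.Slab.L_prod_abs_le

set_option maxRecDepth 100000

namespace Pool.Agent.Helper131.Slab

open MeasureTheory Set intervalIntegral Filter Topology

theorem gen_small {n : ℕ} (a : Fin (n + 1) → ℝ) (p : Fin (n + 1)) (l u b : ℝ)
    (hl : 0 < l) (hu : u ≤ 0.77) (hb : 0 < b) (hb2 : b ≤ 0.5) (hs : ∑ i, a i ^ 2 = 1) (h1 : l ≤ |a p|)
    (h2 : |a p| ≤ u) (hr : ∀ j, |a (p.succAbove j)| ≤ b) (k : ℕ) (ρ : ℝ) (hρ : 0 ≤ ρ)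
    (hS : ∀ x, |x| ≤ lam k * b → |Real.sinc x| ≤ Real.exp (-(ρ * x ^ 2))) :
    |PP a k| ≤ 1 / (lam k * l) * Real.exp (-(ρ * lam k ^ 2 * (1 - u ^ 2))) := by
  have hlam : 0 < lam k := by
    unfold lam
    positivity
  have hsum : ∑ i, a i ^ 2 = a p ^ 2 + ∑ j, a (p.succAbove j) ^ 2 :=
    Fin.sum_univ_succAbove _ p
  have hrest := prod_abs_le (fun j => a (p.succAbove j)) b (lam k) (lam k * b) ρ hlam.le le_rfl
    hr hS
  have hap : 0 < |a p| := lt_of_lt_of_le hl h1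
  have hap2 : a p ^ 2 ≤ u ^ 2 := by
    rw [← sq_abs]
    exact pow_le_pow_left₀ hap.le h2 2
  have hexp : Real.exp (-(ρ * lam k ^ 2 * ∑ j, a (p.succAbove j) ^ 2)) ≤
      Real.exp (-(ρ * lam k ^ 2 * (1 - u ^ 2))) := by
    apply Real.exp_le_exp.2
    apply neg_le_neg
    apply mul_le_mul_of_nonneg_left _ (by positivity)
    linarith
  have hne : lam k * a p ≠ 0 := by
    apply mul_ne_zero hlam.ne'
    exact abs_pos.1 hap
  have hsinc : |Real.sinc (lam k * a p)| ≤ 1 / (lam k * l) := by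
    rw [Real.sinc_of_ne_zero hne, abs_div]
    have e1 : |lam k * a p| = lam k * |a p| := by rw [abs_mul, abs_of_pos hlam]
    rw [e1]
    apply div_le_div₀ zero_le_one (Real.abs_sin_le_one _) (by positivity)
    exact mul_le_mul_of_nonneg_left h1 hlam.le
  have hPP : PP a k = Real.sinc (lam k * a p) * ∏ j, Real.sinc (lam k * a (p.succAbove j)) := by
    unfold PP
    exact Fin.prod_univ_succAbove _ p
  rw [hPP, abs_mul]
  exact mul_le_mul hsinc (hrest.trans hexp) (abs_nonneg _) (by positivity)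

end Pool.Agent.Helper131.Slab
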