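import Pool.Agent.Helper131.Slab.Defs
import Pool.Agent.Helper131.Slab.L_abs_sinc_log
import Pool.Agent.Helper131.Slab.L_gen_small
import Pool.Agent.Helper131.Slab.L_prod_abs_le

set_option maxRecDepth 100000

namespace Pool.Agent.Helper131.Slab

open MeasureTheory Set intervalIntegral Filter Topology

theorem gen_log {n : ℕ} (a : Fin (n + 1) → ℝ) (p : Fin (n + 1)) (l u b : ℝ)
    (hl : 0 < l) (hu : u ≤ 0.77) (hb : 0 < b) (hb2 : b ≤ 0.5) (hs : ∑ i, a i ^ 2 = 1) (h1 : l ≤ |a p|)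
    (h2 : |a p| ≤ u) (hr : ∀ j, |a (p.succAbove j)| ≤ b) (k : ℕ)
    (hk : Real.pi ≤ lam k * b) :
    |PP a k| ≤ 1 / (lam k * l) * Real.exp (-((1 - u ^ 2) / b ^ 2 * Real.log (lam k * b))) := by
  have hπ : 3 < Real.pi := Real.pi_gt_three
  have hlog : 0 ≤ Real.log (lam k * b) := Real.log_nonneg (by linarith)
  have hρ : 0 ≤ Real.log (lam k * b) / (lam k * b) ^ 2 := div_nonneg hlog (sq_nonneg _)
  have hl0 : lam k ≠ 0 := by
    intro h
    rw [h, zero_mul] at hk
    linarith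
  have hb0 : b ≠ 0 := hb.ne'
  have := gen_small a p l u b hl hu hb hb2 hs h1 h2 hr k _ hρ
    (fun x hx => abs_sinc_log _ x hk hx)
  have e : Real.log (lam k * b) / (lam k * b) ^ 2 * lam k ^ 2 * (1 - u ^ 2) =
      (1 - u ^ 2) / b ^ 2 * Real.log (lam k * b) := by
    field_simp
  rwa [e] at this

end Pool.Agent.Helper131.Slab
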