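import Pool.Agent.Helper131.Slab.Defs
import Pool.Agent.Helper131.Slab.L_abs_sinc_log
import Pool.Agent.Helper131.Slab.L_gen_log
import Pool.Agent.Helper131.Slab.L_gen_small
import Pool.Agent.Helper131.Slab.L_prod_abs_le

set_option maxRecDepth 100000

namespace Pool.Agent.Helper131.Slab

open MeasureTheory Set intervalIntegral Filter Topology

theorem gen_tail {n : ℕ} (a : Fin (n + 1) → ℝ) (p : Fin (n + 1)) (l u b : ℝ)
    (hl : 0 < l) (hu : u ≤ 0.77) (hb : 0 < b) (hb2 : b ≤ 0.5) (hs : ∑ i, a i ^ 2 = 1) (h1 : l ≤ |a p|)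
    (h2 : |a p| ≤ u) (hr : ∀ j, |a (p.succAbove j)| ≤ b)
    (h5 : Real.pi ≤ lam 5 * b) (he : 2 * b ^ 2 ≤ 1 - u ^ 2) (k : ℕ) (hk : 5 ≤ k) :
    |PP a k| ≤ (1 / (lam 5 * l) * Real.exp (-((1 - u ^ 2) / b ^ 2 * Real.log (lam 5 * b))))
      * (11 / (2 * (k : ℝ) + 1)) ^ 3 := by
  have hpi := Real.pi_pos
  obtain ⟨q, hq⟩ : ∃ q : ℝ, q = (2 * (k : ℝ) + 1) / 11 := ⟨_, rfl⟩
  have hk5 : (5 : ℝ) ≤ k := by exact_mod_cast hk
  have hq1 : 1 ≤ q := by
    rw [hq]
    linarith
  have hq0 : 0 < q := by linarith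
  have hL5 : 0 < lam 5 := by
    unfold lam
    positivity
  have hlk : lam k = lam 5 * q := by
    rw [hq]
    unfold lam
    push_cast
    ring
  have hkb : Real.pi ≤ lam k * b := by
    rw [hlk]
    have h6 : lam 5 * b * 1 ≤ lam 5 * b * q := mul_le_mul_of_nonneg_left hq1 (by positivity)
    linarith
  have h7 := gen_log a p l u b hl hu hb hb2 hs h1 h2 hr k hkb
  refine h7.trans ?_
  have hE : 2 ≤ (1 - u ^ 2) / b ^ 2 := by
    rw [le_div_iff₀ (by positivity)]
    exact he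
  generalize (1 - u ^ 2) / b ^ 2 = E at hE ⊢
  have hlog : Real.log (lam k * b) = Real.log (lam 5 * b) + Real.log q := by
    rw [hlk, ← Real.log_mul (by positivity) hq0.ne']
    congr 1
    ring
  have hlogq : 0 ≤ Real.log q := Real.log_nonneg hq1
  have h8 : Real.exp (-(E * Real.log (lam k * b))) ≤
      Real.exp (-(E * Real.log (lam 5 * b))) * (1 / q ^ 2) := by
    rw [hlog]
    have h9 : -(E * (Real.log (lam 5 * b) + Real.log q)) =
        -(E * Real.log (lam 5 * b)) + -(E * Real.log q) := by ring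
    rw [h9, Real.exp_add]
    apply mul_le_mul_of_nonneg_left _ (Real.exp_pos _).le
    have h10 : Real.exp (-(E * Real.log q)) ≤ Real.exp (-(2 * Real.log q)) := by
      apply Real.exp_le_exp.2
      have := mul_le_mul_of_nonneg_right hE hlogq
      linarith
    refine h10.trans (le_of_eq ?_)
    rw [Real.exp_neg, two_mul, Real.exp_add, Real.exp_log hq0, one_div, sq]
  have h11 : (11 / (2 * (k : ℝ) + 1)) ^ 3 = 1 / q ^ 3 := by
    rw [hq]
    field_simp
  rw [h11, hlk] at *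
  calc 1 / (lam 5 * q * l) * Real.exp (-(E * Real.log (lam 5 * q * b)))
      ≤ 1 / (lam 5 * q * l) * (Real.exp (-(E * Real.log (lam 5 * b))) * (1 / q ^ 2)) :=
        mul_le_mul_of_nonneg_left h8 (by positivity)
    _ = 1 / (lam 5 * l) * Real.exp (-(E * Real.log (lam 5 * b))) * (1 / q ^ 3) := by
        field_simp

end Pool.Agent.Helper131.Slab
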