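import Pool.Agent.Helper131.Slab.Defs
import Pool.Agent.Helper131.Slab.L_abs_sinc_14
import Pool.Agent.Helper131.Slab.L_abs_sinc_log
import Pool.Agent.Helper131.Slab.L_prod_abs_le

set_option maxRecDepth 100000

namespace Pool.Agent.Helper131.Slab

open MeasureTheory Set intervalIntegral Filter Topology

theorem half_high {n : ℕ} (a : Fin n → ℝ) (hs : ∑ i, a i ^ 2 = 1) (hr : ∀ i, |a i| ≤ 1 / 2) :
    |PP a 3| ≤ Real.exp (-(0.14 * lam 3 ^ 2)) ∧
    ∀ k : ℕ, 4 ≤ k → |PP a k| ≤ (2 / lam k) ^ 4 := by
  have hl : ∀ k : ℕ, 0 < lam k := fun k => by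
    unfold lam
    have := Real.pi_pos
    positivity
  refine ⟨?_, ?_⟩
  · have h := prod_abs_le a (1/2) (lam 3) 3.67 0.14 (hl 3).le
      (by
        unfold lam
        have := Real.pi_lt_d4
        push_cast
        norm_num at this ⊢
        linarith) hr (fun x hx => abs_sinc_14 x hx)
    rw [hs, mul_one] at h
    exact h
  · intro k hk
    have hk' : (4:ℝ) ≤ k := by exact_mod_cast hk
    have hpi := Real.pi_pos
    have hX : Real.pi ≤ lam k / 2 := by
      unfold lam
      nlinarith
    have hXpos : 0 < lam k / 2 := lt_of_lt_of_le hpi hX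
    have h := prod_abs_le a (1/2) (lam k) (lam k / 2) (Real.log (lam k / 2) / (lam k / 2) ^ 2)
      (hl k).le (by linarith) hr (fun x hx => abs_sinc_log _ x hX hx)
    rw [hs, mul_one] at h
    refine h.trans (le_of_eq ?_)
    have e1 : Real.log (lam k / 2) / (lam k / 2) ^ 2 * lam k ^ 2 = 4 * Real.log (lam k / 2) := by
      have := (hl k).ne'
      field_simp
      norm_num
      ring
    rw [e1, Real.exp_neg]
    have e2 : Real.exp (4 * Real.log (lam k / 2)) = (lam k / 2) ^ 4 := by
      have := Real.exp_nat_mul (Real.log (lam k / 2)) 4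
      rw [Real.exp_log hXpos] at this
      rw [← this]
      norm_num
    rw [e2, ← inv_pow, inv_div]

end Pool.Agent.Helper131.Slab
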