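import Pool.Agent.Helper131.Slab.Defs
import Pool.Agent.Helper131.Slab.L_sinc_low1
import Pool.Agent.Helper131.Slab.L_sinc_low3
import Pool.Agent.Helper131.Slab.L_sinc_up4
import Pool.Agent.Helper131.Slab.L_sum4_le

set_option maxRecDepth 100000

namespace Pool.Agent.Helper131.Slab

open MeasureTheory Set intervalIntegral Filter Topology

theorem hl_exp_eq_half_low {n : ℕ} (a : Fin n → ℝ) (hs : ∑ i, a i ^ 2 = 1) (l c : ℝ) :
    Real.exp (-(l ^ 2 / 6 + l ^ 4 / c * ∑ i, a i ^ 4))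
      = ∏ i, Real.exp (-((l * a i) ^ 2 / 6 + (l * a i) ^ 4 / c)) := by
  rw [← Real.exp_sum]
  congr 1
  rw [Finset.sum_neg_distrib, Finset.sum_add_distrib]
  congr 1
  congr 1
  · have h1 : ∀ i, (l * a i) ^ 2 / 6 = l ^ 2 / 6 * a i ^ 2 := fun i => by ring
    simp_rw [h1]
    rw [← Finset.mul_sum, hs, mul_one]
  · have h1 : ∀ i, (l * a i) ^ 4 / c = l ^ 4 / c * a i ^ 4 := fun i => by ring
    simp_rw [h1]
    rw [← Finset.mul_sum]

theorem hl_low_gen_half_low {n : ℕ} (a : Fin n → ℝ) (hs : ∑ i, a i ^ 2 = 1) (l b c : ℝ)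
    (hb : ∀ i, |l * a i| ≤ b)
    (h : ∀ x, |x| ≤ b → Real.exp (-(x ^ 2 / 6 + x ^ 4 / c)) ≤ Real.sinc x) :
    Real.exp (-(l ^ 2 / 6 + l ^ 4 / c * ∑ i, a i ^ 4)) ≤ ∏ i, Real.sinc (l * a i) := by
  rw [hl_exp_eq_half_low a hs]
  exact Finset.prod_le_prod (fun i _ => (Real.exp_pos _).le) (fun i _ => h _ (hb i))

theorem hl_up_gen_half_low {n : ℕ} (a : Fin n → ℝ) (hs : ∑ i, a i ^ 2 = 1) (l b c : ℝ)
    (hb : ∀ i, |l * a i| ≤ b) (hpi : b ≤ Real.pi)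
    (h : ∀ x, |x| ≤ b → Real.sinc x ≤ Real.exp (-(x ^ 2 / 6 + x ^ 4 / c))) :
    ∏ i, Real.sinc (l * a i) ≤ Real.exp (-(l ^ 2 / 6 + l ^ 4 / c * ∑ i, a i ^ 4)) := by
  rw [hl_exp_eq_half_low a hs]
  exact Finset.prod_le_prod (fun i _ => sinc_nonneg_of_abs_le_pi _ ((hb i).trans hpi))
    (fun i _ => h _ (hb i))



theorem half_low {n : ℕ} (a : Fin n → ℝ) (hs : ∑ i, a i ^ 2 = 1) (hr : ∀ i, |a i| ≤ 1 / 2) :
    0 ≤ ∑ i, a i ^ 4 ∧ ∑ i, a i ^ 4 ≤ 1 / 4 ∧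
    Real.exp (-(lam 0 ^ 2 / 6 + lam 0 ^ 4 / 170 * ∑ i, a i ^ 4)) ≤ PP a 0 ∧
    Real.exp (-(Real.pi ^ 2 / 6 + Real.pi ^ 4 / 145 * ∑ i, a i ^ 4)) ≤ PP a 1 ∧
    PP a 2 ≤ Real.exp (-(lam 2 ^ 2 / 6 + lam 2 ^ 4 / 180 * ∑ i, a i ^ 4)) := by
  have hpi1 : Real.pi < 3.1416 := Real.pi_lt_d4
  have hpi0 : 3.1415 < Real.pi := Real.pi_gt_d4
  have hbd : ∀ l : ℝ, 0 ≤ l → ∀ i, |l * a i| ≤ l / 2 := by
    intro l hl i
    rw [abs_mul, abs_of_nonneg hl]
    have := mul_le_mul_of_nonneg_left (hr i) hl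
    linarith
  have l0 : lam 0 = Real.pi / 3 := by
    unfold lam
    norm_num
  have l1 : lam 1 = Real.pi := by
    unfold lam
    norm_num
  have l2 : lam 2 = 5 * Real.pi / 3 := by
    unfold lam
    norm_num
  refine ⟨Finset.sum_nonneg fun i _ => by positivity, ?_, ?_, ?_, ?_⟩
  · have := sum4_le a (1 / 2) hr
    rw [hs] at this
    linarith
  · refine hl_low_gen_half_low a hs (lam 0) 0.84 170 (fun i => ?_) sinc_low1
    have h1 := hbd (lam 0) (by rw [l0]; positivity) i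
    refine h1.trans ?_
    rw [l0]
    linarith
  · have h := hl_low_gen_half_low a hs (lam 1) 1.666 145 (fun i => ?_) sinc_low3
    · rw [l1] at h
      unfold PP
      rw [l1]
      exact h
    · have h1 := hbd (lam 1) (by rw [l1]; positivity) i
      refine h1.trans ?_
      rw [l1]
      linarith
  · refine hl_up_gen_half_low a hs (lam 2) 2.62 180 (fun i => ?_) (by linarith) sinc_up4
    have h1 := hbd (lam 2) (by rw [l2]; positivity) i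
    refine h1.trans ?_
    rw [l2]
    linarith

end Pool.Agent.Helper131.Slab
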