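import Pool.Agent.Helper131.Slab.Defs

set_option maxRecDepth 100000

namespace Pool.Agent.Helper131.Slab

open MeasureTheory Set intervalIntegral Filter Topology

theorem ia_rho_ineq1a (α ρ : ℝ) (h1 : 0.77 ≤ α) (hρ : 0 < ρ) (hρ2 : ρ ^ 2 = 1 - α ^ 2) : ρ ≤ 0.6381 := by
  have h2 : (0.77 : ℝ) ^ 2 ≤ α ^ 2 := by gcongr
  by_contra hc
  push Not at hc
  have h3 : (0.6381 : ℝ) ^ 2 < ρ ^ 2 := by gcongr
  norm_num at h2 h3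
  linarith

theorem ia_at_ineq1a (α t ρ : ℝ) (hρ : 0 < ρ) (h9 : 9 * (α - t) ^ 2 ≤ ρ ^ 2) : α - t ≤ ρ / 3 := by
  have h : (3 * (α - t)) ^ 2 ≤ ρ ^ 2 := by linarith [h9, show (3 * (α - t)) ^ 2 = 9 * (α - t) ^ 2 by ring]
  have := abs_le_of_sq_le_sq' h hρ.le
  linarith [this.2]

theorem ia_a1_ineq1a (α ρ : ℝ) (h1 : 0.77 ≤ α) (h2 : α ≤ 1) (hρ2 : ρ ^ 2 = 1 - α ^ 2) :
    1.77 * (1 - α) ≤ ρ ^ 2 := by
  rw [hρ2]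
  have : 0 ≤ (1 - α) * (α - 0.77) := mul_nonneg (by linarith) (by linarith)
  linarith [show (1 - α) * (α - 0.77) = α - 0.77 - α ^ 2 + 0.77 * α by ring]

theorem ia_sw_ineq1a (w σ α ρ : ℝ) (hw0 : 0 < w) (hw : w ^ 2 = 2) (hσ2 : σ ^ 2 = 1 + 2 * α * ρ)
    (h : α ^ 2 + ρ ^ 2 = 1) : σ ≤ w := by
  have h1 : σ ^ 2 ≤ w ^ 2 := by
    rw [hw, hσ2]
    linarith [sq_nonneg (α - ρ), show (α - ρ) ^ 2 = α ^ 2 + ρ ^ 2 - 2 * α * ρ by ring]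
  exact (abs_le_of_sq_le_sq' h1 hw0.le).2

theorem ia_su_ineq1a (u σ x ρ : ℝ) (hu0 : 0 ≤ u) (huρ : u ≤ 0.694 * ρ) (hσ1 : 1 ≤ σ) (hσw : σ ≤ 1.4143)
    (hσ2 : σ ^ 2 = 1 + 2 * x) (hx : 0.77 * ρ ≤ x) : 0.9 * u ≤ σ - 1 := by
  have h1 : (σ - 1) * (σ + 1) = 2 * x := by linarith [show (σ - 1) * (σ + 1) = σ ^ 2 - 1 by ring]
  have h2 : (σ - 1) * (σ + 1) ≤ (σ - 1) * 2.4143 :=
    mul_le_mul_of_nonneg_left (by linarith) (by linarith)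
  linarith

theorem ia_in_ineq1a (w u σ : ℝ) (hw1 : 1.4142 < w) (hw2 : w < 1.4143) (hw : w ^ 2 = 2) (hu0 : 0 ≤ u)
    (hu1 : u ≤ 0.1717) (hσ0 : 1 ≤ σ) (hσw : σ ≤ w) (hσu : 0.9 * u ≤ σ - 1) :
    0 ≤ (4 - 2 * w) * (1 - u) * (σ - 1) - u ^ 2 * (2 + w * σ) := by
  have h6 : w * σ ≤ 2 := by
    have : w * σ ≤ w * w := mul_le_mul_of_nonneg_left hσw (by linarith)
    linarith [show w * w = w ^ 2 by ring]
  have h7 : u ^ 2 * (2 + w * σ) ≤ u ^ 2 * 4 := by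
    apply mul_le_mul_of_nonneg_left _ (sq_nonneg u)
    linarith
  have h8 : u ^ 2 * 4 ≤ 0.6868 * u := by
    have : u * u ≤ u * 0.1717 := mul_le_mul_of_nonneg_left hu1 hu0
    linarith [show u * u = u ^ 2 by ring]
  have h9' : 0.97 ≤ (4 - 2 * w) * (1 - u) := by
    have : 1.1714 * 0.8283 ≤ (4 - 2 * w) * (1 - u) := by
      apply mul_le_mul <;> linarith
    norm_num at this
    linarith
  have h10 : 0.97 * (0.9 * u) ≤ (4 - 2 * w) * (1 - u) * (σ - 1) := by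
    apply mul_le_mul h9' hσu (by positivity) (by linarith)
  linarith

theorem ineq1a (α t ρ : ℝ) (h1 : 0.77 ≤ α) (h2 : α ≤ 1) (h3 : 2 * Real.sqrt 2 - 2 ≤ t) (h4 : t ≤ 1)
    (hρ : 0 < ρ) (hρ2 : ρ ^ 2 = 1 - α ^ 2) (h9 : 9 * (α - t) ^ 2 ≤ ρ ^ 2) :
    (α + ρ - t) ^ 2 ≤ 2 * α * ρ * (Real.sqrt 2 - t) ^ 2 := by
  have hw : Real.sqrt 2 ^ 2 = 2 := Real.sq_sqrt (by norm_num)
  have hw1 : 1.4142 < Real.sqrt 2 := Real.lt_sqrt_of_sq_lt (by norm_num)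
  have hw2 : Real.sqrt 2 < 1.4143 := by
    rw [Real.sqrt_lt' (by norm_num)]; norm_num
  generalize Real.sqrt 2 = w at *
  obtain ⟨u, hu⟩ : ∃ u, u = 1 - t := ⟨_, rfl⟩
  have hu0 : 0 ≤ u := by linarith
  have hu1 : u ≤ 0.1717 := by linarith
  obtain ⟨σ, hσ⟩ : ∃ σ, σ = α + ρ := ⟨_, rfl⟩
  have hσ2 : σ ^ 2 = 1 + 2 * α * ρ := by rw [hσ]; linear_combination hρ2
  have hρ6 := ia_rho_ineq1a α ρ h1 hρ hρ2
  have hαt := ia_at_ineq1a α t ρ hρ h9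
  have hα1 := ia_a1_ineq1a α ρ h1 h2 hρ2
  have hρ7 : ρ ^ 2 ≤ 0.6381 * ρ := by
    have : ρ * ρ ≤ 0.6381 * ρ := mul_le_mul_of_nonneg_right hρ6 hρ.le
    linarith [show ρ * ρ = ρ ^ 2 by ring]
  have huρ : u ≤ 0.694 * ρ := by
    rw [hu]
    linarith
  have hσw : σ ≤ w := ia_sw_ineq1a w σ α ρ (by linarith) hw hσ2 (by linarith)
  have hαρ : 0.77 * ρ ≤ α * ρ := mul_le_mul_of_nonneg_right h1 hρ.le
  have hσ1 : 1 ≤ σ := by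
    have hσ0 : 0 ≤ σ := by rw [hσ]; linarith
    have h5 : (1:ℝ) ^ 2 ≤ σ ^ 2 := by
      rw [hσ2]
      linarith [show 2 * α * ρ = 2 * (α * ρ) by ring]
    exact (abs_le_of_sq_le_sq' h5 hσ0).2
  have hσu := ia_su_ineq1a u σ (α * ρ) ρ hu0 huρ hσ1 (by linarith) (by rw [hσ2]; ring) hαρ
  have hin := ia_in_ineq1a w u σ hw1 hw2 hw hu0 hu1 hσ1 hσw hσu
  have key : w * ((σ ^ 2 - 1) * (w - t) ^ 2 - (σ - t) ^ 2) =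
      (w - σ) * ((4 - 2 * w) * (1 - u) * (σ - 1) - u ^ 2 * (2 + w * σ)) := by
    rw [hu]
    linear_combination (σ ^ 2 * w - 2 * σ ^ 2 * t - w + σ + t ^ 2 * σ) * hw
  have h11 : 0 ≤ w * ((σ ^ 2 - 1) * (w - t) ^ 2 - (σ - t) ^ 2) := by
    rw [key]
    exact mul_nonneg (by linarith) hin
  have h12 : 0 ≤ (σ ^ 2 - 1) * (w - t) ^ 2 - (σ - t) ^ 2 :=
    nonneg_of_mul_nonneg_right h11 (by linarith)
  rw [← hσ]
  have h13 : σ ^ 2 - 1 = 2 * α * ρ := by linarith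
  rw [← h13]
  linarith

end Pool.Agent.Helper131.Slab
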