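import Pool.Agent.Helper131.Slab.Defs

set_option maxRecDepth 100000

namespace Pool.Agent.Helper131.Slab

open MeasureTheory Set intervalIntegral Filter Topology

theorem ineq1b (α t : ℝ) (h2 : α ≤ 1) (h3 : 2 * Real.sqrt 2 - 2 ≤ t) (h4 : t < α)
    (h9 : 1 - α ^ 2 ≤ 9 * (α - t) ^ 2) :
    gg t ≤ t / α - 1 / (27 * α * (α - t)) * (1 - α ^ 2) := by
  have hgg : gg t = Real.sqrt 2 * t - t ^ 2 / 2 := rfl
  obtain ⟨s, hs⟩ : ∃ s, s = Real.sqrt 2 := ⟨_, rfl⟩
  have hs2 : s ^ 2 = 2 := by rw [hs]; exact Real.sq_sqrt (by norm_num)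
  have hs0 : 0 ≤ s := by rw [hs]; exact Real.sqrt_nonneg 2
  rw [← hs] at h3 hgg
  have hs1 : 1.41421 < s := by nlinarith
  have hs3 : s < 1.41422 := by nlinarith
  obtain ⟨g, hg⟩ : ∃ g, g = gg t := ⟨_, rfl⟩
  rw [← hg] at hgg ⊢
  have ht : 0.828 < t := by linarith
  have hα : 0 < α := by linarith
  have hy : 0 < α - t := by linarith
  have hg0 : 0.828 < g := by
    have h5 : g - (2 * s - 2) = (t - (2 * s - 2)) * (s - (t + (2 * s - 2)) / 2) := by
      rw [hgg]; nlinarith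
    have h6 : 0 ≤ (t - (2 * s - 2)) * (s - (t + (2 * s - 2)) / 2) :=
      mul_nonneg (by linarith) (by linarith)
    linarith
  have hF : 1 - α ^ 2 ≤ 27 * (α - t) * (t - α * g) := by
    have e1 : t - α * g = t * (t - (2 * s - 2)) / 2 + (1 - α) * g := by rw [hgg]; ring
    rw [e1]
    have hτ : 0 ≤ t - (2 * s - 2) := by linarith
    have hx : 0 ≤ 1 - α := by linarith
    have htτ : 0 ≤ t * (t - (2 * s - 2)) := mul_nonneg (by linarith) hτ
    rcases le_or_gt (1 + α) (27 * (α - t) * g) with h | h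
    · have h7 : (1 - α) * (1 + α) ≤ (1 - α) * (27 * (α - t) * g) :=
        mul_le_mul_of_nonneg_left h hx
      have h8 : 0 ≤ (α - t) * (t * (t - (2 * s - 2))) := mul_nonneg hy.le htτ
      nlinarith
    · have h7 : (α - t) * 0.828 ≤ (α - t) * g := mul_le_mul_of_nonneg_left hg0.le hy.le
      have h8 : (t - (2 * s - 2)) * 0.828 ≤ (t - (2 * s - 2)) * t :=
        mul_le_mul_of_nonneg_left ht.le hτ
      have h10 : (1 - α) * 0.828 ≤ (1 - α) * g := mul_le_mul_of_nonneg_left hg0.le hx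
      have h11 : α - t ≤ 3 / 2 * (t * (t - (2 * s - 2))) + 3 * ((1 - α) * g) := by
        nlinarith
      have h12 : (α - t) * (α - t) ≤
          (α - t) * (3 / 2 * (t * (t - (2 * s - 2))) + 3 * ((1 - α) * g)) :=
        mul_le_mul_of_nonneg_left h11 hy.le
      nlinarith
  have hd : t / α - 1 / (27 * α * (α - t)) * (1 - α ^ 2) - g =
      (27 * (α - t) * (t - α * g) - (1 - α ^ 2)) / (27 * α * (α - t)) := by
    field_simp
    ring
  have hnn : 0 ≤ (27 * (α - t) * (t - α * g) - (1 - α ^ 2)) / (27 * α * (α - t)) :=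
    div_nonneg (by linarith) (by positivity)
  linarith

end Pool.Agent.Helper131.Slab
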