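import Pool.Agent.Helper131.Slab.Defs

set_option maxRecDepth 100000

namespace Pool.Agent.Helper131.Slab

open MeasureTheory Set intervalIntegral Filter Topology

theorem ineq1c_alpha_ineq1c (α t : ℝ) (h1 : 0.77 ≤ α) (h4 : t ≤ 1) (h5 : α < t)
    (h9 : 1 - α ^ 2 ≤ 9 * (t - α) ^ 2) : α ≤ 0.8 := by
  have ha : 0 < 1 - α := by linarith
  have h2 : (t - α) ^ 2 ≤ (1 - α) ^ 2 := by nlinarith
  have h3 : (1 - α) * (1 + α) ≤ (1 - α) * (9 * (1 - α)) := by nlinarith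
  have h6 := le_of_mul_le_mul_left h3 ha
  linarith

theorem ineq1c_t_ineq1c (α t : ℝ) (h1 : 0.77 ≤ α) (h2 : α ≤ 0.8) (h4 : t ≤ 1) (h5 : α < t)
    (h9 : 1 - α ^ 2 ≤ 9 * (t - α) ^ 2) : 0.9822 ≤ t := by
  by_contra hc
  push Not at hc
  have h3 : (t - α) ^ 2 ≤ (0.9822 - α) ^ 2 := by nlinarith
  nlinarith [mul_nonneg (sub_nonneg.2 h1) (sub_nonneg.2 h2)]

theorem ineq1c_main_ineq1c (a u : ℝ) (ha : 0 ≤ a) (hu : 0 ≤ u) (ha1 : a ≤ 0.03) (hu1 : u ≤ 0.0178) :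
    2 * (1 - (0.77 + a) ^ 2) ≤ 27 * (0.77 + a) * (0.23 - a - u) * (0.41421 + u) ^ 2 := by
  have h1 : a * a ≤ 0.03 * a := by nlinarith
  have h2 : a * u ≤ 0.0178 * a := by nlinarith
  have h3 : u * u ≤ 0.0178 * u := by nlinarith
  have h4 : 0 ≤ a * u := mul_nonneg ha hu
  have h5 : 0 ≤ a * a := mul_nonneg ha ha
  have h6 : 0 ≤ u * u := mul_nonneg hu hu
  have h7 : a * a * u ≤ 0.03 * (a * u) := by nlinarith
  have h8 : a * u * u ≤ 0.0178 * (a * u) := by nlinarith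
  have h9 : u * u * u ≤ 0.0178 * (u * u) := by nlinarith
  have h10 : a * a * (u * u) ≤ 0.03 * (a * u * u) := by nlinarith [mul_nonneg h4 hu]
  have h11 : a * u * (u * u) ≤ 0.0178 * (a * u * u) := by nlinarith [mul_nonneg h4 hu]
  have h12 : 0 ≤ u * u * u := mul_nonneg h6 hu
  have h13 : 0 ≤ a * u * u := mul_nonneg h4 hu
  have h14 : 0 ≤ a * a * u := mul_nonneg h5 hu
  nlinarith

theorem ineq1c (α t : ℝ) (h1 : 0.77 ≤ α) (h4 : t ≤ 1) (h5 : α < t)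
    (h9 : 1 - α ^ 2 ≤ 9 * (t - α) ^ 2) :
    gg t ≤ 1 - 1 / (27 * α * (t - α)) * (1 - α ^ 2) := by
  have h2 := ineq1c_alpha_ineq1c α t h1 h4 h5 h9
  have h3 := ineq1c_t_ineq1c α t h1 h2 h4 h5 h9
  have hs1 : (1.41421 : ℝ) ≤ Real.sqrt 2 := by
    apply Real.le_sqrt_of_sq_le
    norm_num
  have hs2 : Real.sqrt 2 ^ 2 = 2 := Real.sq_sqrt (by norm_num)
  have hm := ineq1c_main_ineq1c (α - 0.77) (1 - t) (by linarith) (by linarith) (by linarith) (by linarith)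
  have e1 : (0.77 : ℝ) + (α - 0.77) = α := by ring
  have e2 : (0.23 : ℝ) - (α - 0.77) - (1 - t) = t - α := by ring
  have e3 : (0.41421 : ℝ) + (1 - t) = 1.41421 - t := by ring
  rw [e1, e2, e3] at hm
  have hD : 0 < t - α := by linarith
  have hpos : 0 < 27 * α * (t - α) := by
    apply mul_pos _ hD
    linarith
  have hsq : (1.41421 - t) ^ 2 ≤ (Real.sqrt 2 - t) ^ 2 := by
    apply pow_le_pow_left₀ (by linarith)
    linarith
  have hm2 : 2 * (1 - α ^ 2) ≤ 27 * α * (t - α) * (Real.sqrt 2 - t) ^ 2 :=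
    hm.trans (mul_le_mul_of_nonneg_left hsq hpos.le)
  have hdiv : 1 / (27 * α * (t - α)) * (1 - α ^ 2) ≤ (Real.sqrt 2 - t) ^ 2 / 2 := by
    rw [one_div, inv_mul_le_iff₀ hpos]
    linarith
  have hg : gg t = 1 - (Real.sqrt 2 - t) ^ 2 / 2 := by
    unfold gg
    have : (Real.sqrt 2 - t) ^ 2 = Real.sqrt 2 ^ 2 - 2 * Real.sqrt 2 * t + t ^ 2 := by ring
    rw [this, hs2]
    ring
  rw [hg]
  linarith

end Pool.Agent.Helper131.Slab
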