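import Pool.Agent.Helper131.Slab.Defs

set_option maxRecDepth 100000

namespace Pool.Agent.Helper131.Slab

open MeasureTheory Set intervalIntegral Filter Topology

theorem j29398_exp_numA0 (x : ℝ) (hx0 : 0 ≤ x) (hx1 : x ≤ 1) :
    |Real.exp (-x) - (1 - x + x ^ 2 / 2 - x ^ 3 / 6 + x ^ 4 / 24 - x ^ 5 / 120)|
      ≤ x ^ 6 * (7 / 4320) := by
  have h := Real.exp_bound (x := -x) (by rw [abs_neg, abs_of_nonneg hx0]; exact hx1)
    (n := 6) (by norm_num)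
  simp only [Finset.sum_range_succ, Finset.sum_range_zero, abs_neg, abs_of_nonneg hx0] at h
  norm_num [Nat.factorial] at h
  have e : (1 - x + x ^ 2 / 2 - x ^ 3 / 6 + x ^ 4 / 24 - x ^ 5 / 120) =
      1 + -x + x ^ 2 / 2 + (-x) ^ 3 / 6 + x ^ 4 / 24 + (-x) ^ 5 / 120 := by ring
  rw [e]
  convert h using 2

theorem j29398_pi_numA0 : 9.8696 ≤ Real.pi ^ 2 ∧ Real.pi ^ 2 ≤ 9.86961 ∧ Real.pi ^ 4 ≤ 97.4092 := by
  have h1 := Real.pi_gt_d6
  have h2 := Real.pi_lt_d6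
  have h3 : Real.pi ^ 2 ≤ 9.86961 := by nlinarith
  have h4 : 9.8696 ≤ Real.pi ^ 2 := by nlinarith
  refine ⟨h4, h3, ?_⟩
  have : Real.pi ^ 4 = Real.pi ^ 2 * Real.pi ^ 2 := by ring
  rw [this]
  have h5 : 0 ≤ Real.pi ^ 2 := by positivity
  nlinarith

theorem numA0 : 0.83143 ≤ Real.exp (-(lam 0 ^ 2 / 6 + lam 0 ^ 4 / 170 * (0.53 ^ 4 + 0.5 ^ 2 * (1 - 0.53 ^ 2)))) ∧
    0.1534 ≤ Real.sinc (Real.pi * 0.53) *
      Real.exp (-((Real.pi ^ 2 / 6 + Real.pi ^ 4 * 0.5 ^ 2 / 145) * (1 - 0.5 ^ 2))) ∧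
    max (Real.sinc (lam 2 * 0.5)) 0 * Real.exp (-(lam 2 ^ 2 / 6 * (1 - 0.53 ^ 2))) ≤ 0.00715 := by
  obtain ⟨hp1, hp2, hp3⟩ := j29398_pi_numA0
  have hpi1 := Real.pi_gt_d6
  have hpi2 := Real.pi_lt_d6
  have hpos := Real.pi_pos
  refine ⟨?_, ?_, ?_⟩
  · have hl : lam 0 = Real.pi / 3 := by unfold lam; norm_num
    rw [hl]
    have hexp : (Real.pi / 3) ^ 2 / 6 + (Real.pi / 3) ^ 4 / 170 * (0.53 ^ 4 + 0.5 ^ 2 * (1 - 0.53 ^ 2))
        ≤ 0.184601 := by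
      have e1 : (Real.pi / 3) ^ 2 / 6 = Real.pi ^ 2 / 54 := by ring
      have e2 : (Real.pi / 3) ^ 4 / 170 * (0.53 ^ 4 + 0.5 ^ 2 * (1 - 0.53 ^ 2)) =
          Real.pi ^ 4 * (0.25867981 / 13770) := by ring
      rw [e1, e2]
      nlinarith
    have h1 : Real.exp (-0.184601) ≤ Real.exp (-((Real.pi / 3) ^ 2 / 6 +
        (Real.pi / 3) ^ 4 / 170 * (0.53 ^ 4 + 0.5 ^ 2 * (1 - 0.53 ^ 2)))) := by
      apply Real.exp_le_exp.mpr
      linarith
    have h2 := (abs_le.mp (j29398_exp_numA0 0.184601 (by norm_num) (by norm_num))).1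
    have h3 : 0.83143 ≤ Real.exp (-0.184601) := by
      norm_num at h2 ⊢
      linarith
    exact h3.trans h1
  · have hs : Real.sinc (Real.pi * 0.53) = Real.sin (Real.pi * 0.53) / (Real.pi * 0.53) :=
      Real.sinc_of_ne_zero (by positivity)
    have hsin : Real.sin (Real.pi * 0.53) = Real.cos (0.03 * Real.pi) := by
      rw [← Real.sin_pi_div_two_sub, ← Real.sin_pi_sub]
      congr 1
      ring
    have hcos : 1 - (0.03 * Real.pi) ^ 2 / 2 ≤ Real.cos (0.03 * Real.pi) :=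
      Real.one_sub_sq_div_two_le_cos
    have hcos2 : 0.99555 ≤ Real.cos (0.03 * Real.pi) := by
      have : (0.03 * Real.pi) ^ 2 = 0.0009 * Real.pi ^ 2 := by ring
      rw [this] at hcos
      nlinarith
    have hsinc : 0.5979 ≤ Real.sinc (Real.pi * 0.53) := by
      rw [hs, hsin, le_div_iff₀ (by positivity)]
      nlinarith
    have hexp : (Real.pi ^ 2 / 6 + Real.pi ^ 4 * 0.5 ^ 2 / 145) * (1 - 0.5 ^ 2) ≤ 4 * 0.339925 := by
      norm_num at hp2 hp3 ⊢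
      linarith
    have h1 : Real.exp (-0.339925) ^ 4 ≤
        Real.exp (-((Real.pi ^ 2 / 6 + Real.pi ^ 4 * 0.5 ^ 2 / 145) * (1 - 0.5 ^ 2))) := by
      rw [← Real.exp_nat_mul]
      apply Real.exp_le_exp.mpr
      push_cast
      linarith
    have h2 := (abs_le.mp (j29398_exp_numA0 0.339925 (by norm_num) (by norm_num))).1
    have h3 : 0.7118 ≤ Real.exp (-0.339925) := by
      norm_num at h2 ⊢
      linarith
    have h4 : (0.7118 : ℝ) ^ 4 ≤ Real.exp (-0.339925) ^ 4 :=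
      pow_le_pow_left₀ (by norm_num) h3 4
    have h5 : (0.7118 : ℝ) ^ 4 ≤
        Real.exp (-((Real.pi ^ 2 / 6 + Real.pi ^ 4 * 0.5 ^ 2 / 145) * (1 - 0.5 ^ 2))) :=
      h4.trans h1
    calc (0.1534 : ℝ) ≤ 0.5979 * 0.7118 ^ 4 := by norm_num
      _ ≤ _ := mul_le_mul hsinc h5 (by norm_num) (by linarith)
  · have hl : lam 2 = 5 * Real.pi / 3 := by unfold lam; norm_num
    have hl2 : lam 2 * 0.5 = 5 * Real.pi / 6 := by rw [hl]; ring
    have hsin : Real.sin (5 * Real.pi / 6) = 1 / 2 := by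
      rw [← Real.sin_pi_sub, show Real.pi - 5 * Real.pi / 6 = Real.pi / 6 by ring, Real.sin_pi_div_six]
    have hs : Real.sinc (lam 2 * 0.5) = 3 / (5 * Real.pi) := by
      rw [hl2, Real.sinc_of_ne_zero (by positivity), hsin]
      field_simp
      norm_num
    have hs0 : 0 ≤ Real.sinc (lam 2 * 0.5) := by rw [hs]; positivity
    rw [max_eq_left hs0, hs]
    have hs1 : 3 / (5 * Real.pi) ≤ 0.191 := by
      rw [div_le_iff₀ (by positivity)]
      nlinarith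
    have hexp : 8 * 0.4107 ≤ lam 2 ^ 2 / 6 * (1 - 0.53 ^ 2) := by
      rw [hl]
      have : (5 * Real.pi / 3) ^ 2 = 25 / 9 * Real.pi ^ 2 := by ring
      rw [this]
      nlinarith
    have h1 : Real.exp (-(lam 2 ^ 2 / 6 * (1 - 0.53 ^ 2))) ≤ Real.exp (-0.4107) ^ 8 := by
      rw [← Real.exp_nat_mul]
      apply Real.exp_le_exp.mpr
      push_cast
      linarith
    have h2 := (abs_le.mp (j29398_exp_numA0 0.4107 (by norm_num) (by norm_num))).2
    have h3 : Real.exp (-0.4107) ≤ 0.6632 := by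
      norm_num at h2 ⊢
      linarith
    have h4 : Real.exp (-0.4107) ^ 8 ≤ (0.6632 : ℝ) ^ 8 :=
      pow_le_pow_left₀ (Real.exp_pos _).le h3 8
    calc 3 / (5 * Real.pi) * Real.exp (-(lam 2 ^ 2 / 6 * (1 - 0.53 ^ 2)))
        ≤ 0.191 * 0.6632 ^ 8 := mul_le_mul hs1 (h1.trans h4) (Real.exp_pos _).le (by norm_num)
      _ ≤ 0.00715 := by norm_num

end Pool.Agent.Helper131.Slab
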