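import Pool.Agent.Helper131.Slab.Defs

set_option maxRecDepth 100000

namespace Pool.Agent.Helper131.Slab

open MeasureTheory Set intervalIntegral Filter Topology

theorem numA1 : 0.83145 ≤ Real.exp (-(lam 0 ^ 2 / 6 + lam 0 ^ 4 / 170 * (0.57 ^ 4 + 0.47 ^ 2 * (1 - 0.57 ^ 2)))) ∧
    0.15 ≤ Real.sinc (Real.pi * 0.57) *
      Real.exp (-((Real.pi ^ 2 / 6 + Real.pi ^ 4 * 0.47 ^ 2 / 145) * (1 - 0.53 ^ 2))) ∧
    max (Real.sinc (lam 2 * 0.53)) 0 * Real.exp (-(lam 2 ^ 2 / 6 * (1 - 0.57 ^ 2))) ≤ 0.00591 := by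
  have hp1 := Real.pi_gt_d6
  have hp2 := Real.pi_lt_d6
  have hp0 : 0 < Real.pi := Real.pi_pos
  refine ⟨?_, ?_, ?_⟩
  · have hl : lam 0 = Real.pi / 3 := by unfold lam; push_cast; ring
    have hl1 : lam 0 ≤ 1.047198 := by rw [hl]; linarith
    have hl0 : 0 ≤ lam 0 := by rw [hl]; positivity
    have h2 : lam 0 ^ 2 ≤ 1.047198 ^ 2 := pow_le_pow_left₀ hl0 hl1 2
    have h4 : lam 0 ^ 4 ≤ 1.047198 ^ 4 := pow_le_pow_left₀ hl0 hl1 4
    have hE : lam 0 ^ 2 / 6 + lam 0 ^ 4 / 170 * (0.57 ^ 4 + 0.47 ^ 2 * (1 - 0.57 ^ 2)) ≤ 0.184573 := by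
      norm_num at h2 h4 ⊢
      nlinarith
    have h5 := exp_neg_ge5 0.184573 (by norm_num)
    have h6 : Real.exp (-0.184573) ≤ Real.exp (-(lam 0 ^ 2 / 6 + lam 0 ^ 4 / 170 * (0.57 ^ 4 + 0.47 ^ 2 * (1 - 0.57 ^ 2)))) :=
      Real.exp_le_exp.mpr (by linarith)
    refine le_trans ?_ (le_trans h5 h6)
    norm_num
  · have hsin : Real.sin (Real.pi * 0.57) = Real.cos (Real.pi * 0.07) := by
      rw [← Real.cos_sub_pi_div_two]
      congr 1
      ring
    have hcos : 1 - (Real.pi * 0.07) ^ 2 / 2 ≤ Real.cos (Real.pi * 0.07) := Real.one_sub_sq_div_two_le_cos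
    have hx : (Real.pi * 0.07) ^ 2 ≤ 0.04836112 := by
      have : (Real.pi * 0.07) ^ 2 ≤ (3.141593 * 0.07) ^ 2 :=
        pow_le_pow_left₀ (by positivity) (by linarith) 2
      refine this.trans (by norm_num)
    have hs : (0.544934 : ℝ) ≤ Real.sinc (Real.pi * 0.57) := by
      rw [Real.sinc_of_ne_zero (by positivity), le_div_iff₀ (by positivity), hsin]
      nlinarith
    have h2 : Real.pi ^ 2 ≤ 3.141593 ^ 2 := pow_le_pow_left₀ hp0.le hp2.le 2
    have h4 : Real.pi ^ 4 ≤ 3.141593 ^ 4 := pow_le_pow_left₀ hp0.le hp2.le 4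
    have hE : (Real.pi ^ 2 / 6 + Real.pi ^ 4 * 0.47 ^ 2 / 145) * (1 - 0.53 ^ 2) ≤ 4 * 0.3224 := by
      norm_num at h2 h4 ⊢
      nlinarith
    have h5 := exp_neg_ge5 0.3224 (by norm_num)
    have h6 : Real.exp (-(4 * 0.3224)) ≤ Real.exp (-((Real.pi ^ 2 / 6 + Real.pi ^ 4 * 0.47 ^ 2 / 145) * (1 - 0.53 ^ 2))) :=
      Real.exp_le_exp.mpr (by linarith)
    have h7 : Real.exp (-(4 * 0.3224)) = Real.exp (-0.3224) ^ 4 := by
      rw [← Real.exp_nat_mul]; congr 1; norm_num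
    have h8 : (0.2753 : ℝ) ≤ Real.exp (-0.3224) ^ 4 := by
      have h9 : (0.72439 : ℝ) ≤ Real.exp (-0.3224) := le_trans (by norm_num) h5
      calc (0.2753 : ℝ) ≤ 0.72439 ^ 4 := by norm_num
        _ ≤ _ := pow_le_pow_left₀ (by norm_num) h9 4
    have h10 : (0.2753 : ℝ) ≤ Real.exp (-((Real.pi ^ 2 / 6 + Real.pi ^ 4 * 0.47 ^ 2 / 145) * (1 - 0.53 ^ 2))) := by
      rw [h7] at h6; linarith
    calc (0.15 : ℝ) ≤ 0.544934 * 0.2753 := by norm_num
      _ ≤ _ := mul_le_mul hs h10 (by norm_num) (by linarith)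
  · have hl : lam 2 = 5 * Real.pi / 3 := by unfold lam; push_cast; ring
    have hy : lam 2 * 0.53 = Real.pi - Real.pi * (0.35 / 3) := by rw [hl]; ring
    have hsin : Real.sin (lam 2 * 0.53) = Real.sin (Real.pi * (0.35 / 3)) := by
      rw [hy, Real.sin_pi_sub]
    have hpos : 0 < lam 2 * 0.53 := by rw [hl]; positivity
    have hx1 : Real.pi * (0.35 / 3) ≤ 0.3665192 := by linarith
    have hx0 : 0 ≤ Real.pi * (0.35 / 3) := by positivity
    have hsle : Real.sin (Real.pi * (0.35 / 3)) ≤ 0.35837 := by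
      have h1 : Real.sin (Real.pi * (0.35 / 3)) ≤ Real.sin 0.3665192 := by
        apply Real.sin_le_sin_of_le_of_le_pi_div_two <;> linarith
      have h2 := sin_le_P5 0.3665192 (by norm_num)
      refine h1.trans (h2.trans (by norm_num))
    have hs : Real.sinc (lam 2 * 0.53) ≤ 0.12914 := by
      rw [Real.sinc_of_ne_zero hpos.ne', div_le_iff₀ hpos, hsin]
      rw [hl]
      linarith
    have hm : max (Real.sinc (lam 2 * 0.53)) 0 ≤ 0.12914 := max_le hs (by norm_num)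
    have hm0 : 0 ≤ max (Real.sinc (lam 2 * 0.53)) 0 := le_max_right _ _
    have h2 : (3.141592 : ℝ) ^ 2 ≤ Real.pi ^ 2 := pow_le_pow_left₀ (by norm_num) hp1.le 2
    have hE : 16 * 0.19279 ≤ lam 2 ^ 2 / 6 * (1 - 0.57 ^ 2) := by
      have : lam 2 ^ 2 = 25 * Real.pi ^ 2 / 9 := by rw [hl]; ring
      rw [this]
      norm_num at h2 ⊢
      nlinarith
    have h5 := exp_neg_le4 0.19279 (by norm_num)
    have h6 : Real.exp (-(lam 2 ^ 2 / 6 * (1 - 0.57 ^ 2))) ≤ Real.exp (-(16 * 0.19279)) :=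
      Real.exp_le_exp.mpr (by linarith)
    have h7 : Real.exp (-(16 * 0.19279)) = Real.exp (-0.19279) ^ 16 := by
      rw [← Real.exp_nat_mul]; congr 1; norm_num
    have h8 : Real.exp (-0.19279) ^ 16 ≤ 0.04576 := by
      have h9 : Real.exp (-0.19279) ≤ 0.82466 := le_trans h5 (by norm_num)
      calc Real.exp (-0.19279) ^ 16 ≤ 0.82466 ^ 16 := pow_le_pow_left₀ (Real.exp_pos _).le h9 16
        _ ≤ _ := by norm_num
    have h10 : Real.exp (-(lam 2 ^ 2 / 6 * (1 - 0.57 ^ 2))) ≤ 0.04576 := by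
      rw [h7] at h6; linarith
    calc _ ≤ 0.12914 * 0.04576 := mul_le_mul hm h10 (Real.exp_pos _).le (by norm_num)
      _ ≤ _ := by norm_num

end Pool.Agent.Helper131.Slab
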