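import Pool.Agent.Helper131.Slab.Defs

set_option maxRecDepth 100000

namespace Pool.Agent.Helper131.Slab

open MeasureTheory Set intervalIntegral Filter Topology

theorem numA2 : 0.83141 ≤ Real.exp (-(lam 0 ^ 2 / 6 + lam 0 ^ 4 / 170 * (0.62 ^ 4 + 0.43 ^ 2 * (1 - 0.62 ^ 2)))) ∧
    0.1445 ≤ Real.sinc (Real.pi * 0.62) *
      Real.exp (-((Real.pi ^ 2 / 6 + Real.pi ^ 4 * 0.43 ^ 2 / 145) * (1 - 0.57 ^ 2))) ∧
    max (Real.sinc (lam 2 * 0.57)) 0 * Real.exp (-(lam 2 ^ 2 / 6 * (1 - 0.62 ^ 2))) ≤ 0.00315 := by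
  have hp1 := Real.pi_gt_d6
  have hp2 := Real.pi_lt_d6
  have hpos := Real.pi_pos
  have hsq1 : Real.pi ^ 2 ≤ 9.869607 := by nlinarith
  have hsq2 : 9.8696 ≤ Real.pi ^ 2 := by nlinarith
  have hq1 : Real.pi ^ 4 ≤ 9.869607 ^ 2 := by
    have : Real.pi ^ 4 = (Real.pi ^ 2) ^ 2 := by ring
    rw [this]
    exact pow_le_pow_left₀ (by positivity) hsq1 2
  have hl0 : lam 0 = Real.pi / 3 := by unfold lam; push_cast; ring
  have hl2 : lam 2 = 5 * Real.pi / 3 := by unfold lam; push_cast; ring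
  rw [hl0, hl2]
  refine ⟨?_, ?_, ?_⟩
  · have hx : (Real.pi / 3) ^ 2 / 6 + (Real.pi / 3) ^ 4 / 170 *
        (0.62 ^ 4 + 0.43 ^ 2 * (1 - 0.62 ^ 2)) ≤ 0.184622 := by
      have e : (Real.pi / 3) ^ 2 / 6 + (Real.pi / 3) ^ 4 / 170 *
        (0.62 ^ 4 + 0.43 ^ 2 * (1 - 0.62 ^ 2)) = Real.pi ^ 2 * (1 / 54) + Real.pi ^ 4 *
        ((0.62 ^ 4 + 0.43 ^ 2 * (1 - 0.62 ^ 2)) / 13770) := by ring
      rw [e]
      have h1 : Real.pi ^ 2 * (1 / 54) ≤ 9.869607 * (1 / 54) := by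
        apply mul_le_mul_of_nonneg_right hsq1; norm_num
      have h2 : Real.pi ^ 4 * ((0.62 ^ 4 + 0.43 ^ 2 * (1 - 0.62 ^ 2)) / 13770) ≤ 9.869607 ^ 2 *
          ((0.62 ^ 4 + 0.43 ^ 2 * (1 - 0.62 ^ 2)) / 13770) := by
        apply mul_le_mul_of_nonneg_right hq1; norm_num
      refine (add_le_add h1 h2).trans ?_
      norm_num
    have h3 := exp_neg_ge5 0.184622 (by norm_num)
    have h4 : Real.exp (-0.184622) ≤ Real.exp (-((Real.pi / 3) ^ 2 / 6 + (Real.pi / 3) ^ 4 / 170 *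
        (0.62 ^ 4 + 0.43 ^ 2 * (1 - 0.62 ^ 2)))) := by
      apply Real.exp_le_exp.2; linarith
    refine le_trans ?_ (h3.trans h4)
    norm_num
  · have hy0 : Real.pi * 0.62 ≠ 0 := by positivity
    have hs1 : Real.sin (Real.pi * 0.62) = Real.sin (Real.pi * 0.38) := by
      have : Real.pi * 0.62 = Real.pi - Real.pi * 0.38 := by ring
      rw [this, Real.sin_pi_sub]
    have hs2 : Real.sin 1.1938 ≤ Real.sin (Real.pi * 0.38) := by
      apply Real.sin_le_sin_of_le_of_le_pi_div_two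
      · linarith
      · linarith
      · linarith
    have hs3 := sin_ge_P7 1.1938 (by norm_num)
    have hs4 : (0.92975 : ℝ) ≤ Real.sin (Real.pi * 0.62) := by
      rw [hs1]
      refine le_trans ?_ (hs3.trans hs2)
      norm_num
    have hsinc : (0.47733 : ℝ) ≤ Real.sinc (Real.pi * 0.62) := by
      rw [Real.sinc_of_ne_zero hy0, le_div_iff₀ (by positivity)]
      have : Real.pi * 0.62 ≤ 1.947788 := by linarith
      calc 0.47733 * (Real.pi * 0.62) ≤ 0.47733 * 1.947788 := by linarith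
        _ ≤ 0.92975 := by norm_num
        _ ≤ _ := hs4
    have hx : (Real.pi ^ 2 / 6 + Real.pi ^ 4 * 0.43 ^ 2 / 145) * (1 - 0.57 ^ 2) ≤ 1.19436 := by
      have h1 : Real.pi ^ 2 / 6 + Real.pi ^ 4 * 0.43 ^ 2 / 145 ≤
          9.869607 / 6 + 9.869607 ^ 2 * 0.43 ^ 2 / 145 := by
        have h2 : Real.pi ^ 2 / 6 ≤ 9.869607 / 6 := by linarith
        have h3 : Real.pi ^ 4 * 0.43 ^ 2 / 145 ≤ 9.869607 ^ 2 * 0.43 ^ 2 / 145 := by
          have : Real.pi ^ 4 * 0.43 ^ 2 ≤ 9.869607 ^ 2 * 0.43 ^ 2 :=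
            mul_le_mul_of_nonneg_right hq1 (by norm_num)
          linarith
        linarith
      calc (Real.pi ^ 2 / 6 + Real.pi ^ 4 * 0.43 ^ 2 / 145) * (1 - 0.57 ^ 2) ≤
          (9.869607 / 6 + 9.869607 ^ 2 * 0.43 ^ 2 / 145) * (1 - 0.57 ^ 2) :=
            mul_le_mul_of_nonneg_right h1 (by norm_num)
        _ ≤ 1.19436 := by norm_num
    have h5 := exp_neg_ge5 0.29859 (by norm_num)
    have h6 : (0.74185 : ℝ) ≤ Real.exp (-0.29859) := by
      refine le_trans ?_ h5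
      norm_num
    have h7 : (0.30287 : ℝ) ≤ Real.exp (-((Real.pi ^ 2 / 6 + Real.pi ^ 4 * 0.43 ^ 2 / 145) * (1 - 0.57 ^ 2))) := by
      have h8 : Real.exp (-1.19436) ≤ Real.exp (-((Real.pi ^ 2 / 6 + Real.pi ^ 4 * 0.43 ^ 2 / 145) *
          (1 - 0.57 ^ 2))) := by
        apply Real.exp_le_exp.2; linarith
      have h9 : Real.exp (-1.19436) = Real.exp (-0.29859) ^ 4 := by
        rw [← Real.exp_nat_mul]; norm_num
      refine le_trans ?_ h8
      rw [h9]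
      calc (0.30287 : ℝ) ≤ 0.74185 ^ 4 := by norm_num
        _ ≤ Real.exp (-0.29859) ^ 4 := pow_le_pow_left₀ (by norm_num) h6 4
    calc (0.1445 : ℝ) ≤ 0.47733 * 0.30287 := by norm_num
      _ ≤ _ := mul_le_mul hsinc h7 (by norm_num) (le_trans (by norm_num) hsinc)
  · have e57 : 5 * Real.pi / 3 * 0.57 = Real.pi * 0.95 := by ring
    rw [e57]
    have hy0 : Real.pi * 0.95 ≠ 0 := by positivity
    have hs1 : Real.sin (Real.pi * 0.95) = Real.sin (Real.pi * 0.05) := by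
      have : Real.pi * 0.95 = Real.pi - Real.pi * 0.05 := by ring
      rw [this, Real.sin_pi_sub]
    have hs2 : Real.sin (Real.pi * 0.05) ≤ Real.sin 0.15708 := by
      apply Real.sin_le_sin_of_le_of_le_pi_div_two
      · linarith
      · linarith
      · linarith
    have hs3 := sin_le_P5 0.15708 (by norm_num)
    have hs4 : Real.sin (Real.pi * 0.95) ≤ 0.156435 := by
      rw [hs1]
      refine (hs2.trans hs3).trans ?_
      norm_num
    have hsinc : Real.sinc (Real.pi * 0.95) ≤ 0.05242 := by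
      rw [Real.sinc_of_ne_zero hy0, div_le_iff₀ (by positivity)]
      have : (2.98451 : ℝ) ≤ Real.pi * 0.95 := by linarith
      calc _ ≤ (0.156435 : ℝ) := hs4
        _ ≤ 0.05242 * 2.98451 := by norm_num
        _ ≤ _ := by linarith
    have hmax : max (Real.sinc (Real.pi * 0.95)) 0 ≤ 0.05242 := max_le hsinc (by norm_num)
    have hx : (2.8128 : ℝ) ≤ (5 * Real.pi / 3) ^ 2 / 6 * (1 - 0.62 ^ 2) := by
      have e : (5 * Real.pi / 3) ^ 2 / 6 * (1 - 0.62 ^ 2) = Real.pi ^ 2 * (25 / 54 * (1 - 0.62 ^ 2)) := by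
        ring
      rw [e]
      calc (2.8128 : ℝ) ≤ 9.8696 * (25 / 54 * (1 - 0.62 ^ 2)) := by norm_num
        _ ≤ _ := mul_le_mul_of_nonneg_right hsq2 (by norm_num)
    have h5 := exp_neg_le4 0.1758 (by norm_num)
    have h6 : Real.exp (-0.1758) ≤ 0.838788 := by
      refine h5.trans ?_
      norm_num
    have h7 : Real.exp (-((5 * Real.pi / 3) ^ 2 / 6 * (1 - 0.62 ^ 2))) ≤ 0.06005 := by
      have h8 : Real.exp (-((5 * Real.pi / 3) ^ 2 / 6 * (1 - 0.62 ^ 2))) ≤ Real.exp (-2.8128) := by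
        apply Real.exp_le_exp.2; linarith
      have h9 : Real.exp (-2.8128) = Real.exp (-0.1758) ^ 16 := by
        rw [← Real.exp_nat_mul]; norm_num
      refine h8.trans ?_
      rw [h9]
      calc Real.exp (-0.1758) ^ 16 ≤ 0.838788 ^ 16 := pow_le_pow_left₀ (Real.exp_pos _).le h6 16
        _ ≤ 0.06005 := by norm_num
    calc _ ≤ (0.05242 : ℝ) * 0.06005 := mul_le_mul hmax h7 (Real.exp_pos _).le (by norm_num)
      _ ≤ 0.00315 := by norm_num

end Pool.Agent.Helper131.Slab
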