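import Pool.Agent.Helper131.Slab.Defs

set_option maxRecDepth 100000

namespace Pool.Agent.Helper131.Slab

open MeasureTheory Set intervalIntegral Filter Topology

theorem numA3 : 0.83124 ≤ Real.exp (-(lam 0 ^ 2 / 6 + lam 0 ^ 4 / 170 * (0.68 ^ 4 + 0.38 ^ 2 * (1 - 0.68 ^ 2)))) ∧
    0.1352 ≤ Real.sinc (Real.pi * 0.68) *
      Real.exp (-((Real.pi ^ 2 / 6 + Real.pi ^ 4 * 0.38 ^ 2 / 145) * (1 - 0.62 ^ 2))) ∧
    max (Real.sinc (lam 2 * 0.62)) 0 * Real.exp (-(lam 2 ^ 2 / 6 * (1 - 0.68 ^ 2))) ≤ 0.0 := by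
  have p1 := Real.pi_gt_d6
  have p2 := Real.pi_lt_d6
  have ppos := Real.pi_pos
  refine ⟨?_, ?_, ?_⟩
  · have h1 : lam 0 ≤ 1.0471977 := by
      unfold lam; push_cast; linarith
    have h0 : 0 ≤ lam 0 := by unfold lam; positivity
    have h2 : lam 0 ^ 2 ≤ 1.0471977 ^ 2 := pow_le_pow_left₀ h0 h1 2
    have h4 : lam 0 ^ 4 ≤ 1.0471977 ^ 4 := pow_le_pow_left₀ h0 h1 4
    have h5 : lam 0 ^ 2 / 6 + lam 0 ^ 4 / 170 * (0.68 ^ 4 + 0.38 ^ 2 * (1 - 0.68 ^ 2)) ≤ 0.184833 := by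
      nlinarith
    have h6 := exp_neg_ge5 0.184833 (by norm_num)
    have h7 : Real.exp (-0.184833) ≤ Real.exp (-(lam 0 ^ 2 / 6 + lam 0 ^ 4 / 170 * (0.68 ^ 4 + 0.38 ^ 2 * (1 - 0.68 ^ 2)))) :=
      Real.exp_le_exp.2 (by linarith)
    refine le_trans ?_ (h6.trans h7)
    norm_num
  · have h2 : Real.pi ^ 2 ≤ 3.141593 ^ 2 := pow_le_pow_left₀ ppos.le p2.le 2
    have h4 : Real.pi ^ 4 ≤ 3.141593 ^ 4 := pow_le_pow_left₀ ppos.le p2.le 4
    have h5 : (Real.pi ^ 2 / 6 + Real.pi ^ 4 * 0.38 ^ 2 / 145) * (1 - 0.62 ^ 2) ≤ 4 * 0.268085 := by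
      nlinarith
    have h6 := exp_neg_ge5 0.268085 (by norm_num)
    have h7 : Real.exp (-(4 * 0.268085)) ≤
        Real.exp (-((Real.pi ^ 2 / 6 + Real.pi ^ 4 * 0.38 ^ 2 / 145) * (1 - 0.62 ^ 2))) :=
      Real.exp_le_exp.2 (by linarith)
    have h8 : Real.exp (-(4 * 0.268085)) = Real.exp (-0.268085) ^ 4 := by
      rw [← Real.exp_nat_mul]
      congr 1
      norm_num
    have h9 : (0.3422 : ℝ) ≤ Real.exp (-0.268085) ^ 4 := by
      have : (0.7648 : ℝ) ≤ Real.exp (-0.268085) := le_trans (by norm_num) h6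
      calc (0.3422 : ℝ) ≤ (1 - 0.268085 + 0.268085 ^ 2 / 2 - 0.268085 ^ 3 / 6 + 0.268085 ^ 4 / 24 - 0.268085 ^ 5 / 120) ^ 4 := by norm_num
        _ ≤ _ := pow_le_pow_left₀ (by norm_num) h6 4
    have hs : (0.8443 : ℝ) ≤ Real.sin (Real.pi * 0.68) := by
      rw [← Real.sin_pi_sub]
      have e1 : Real.sin 1.0053 ≤ Real.sin (Real.pi - Real.pi * 0.68) := by
        apply Real.sin_le_sin_of_le_of_le_pi_div_two <;> linarith
      have e2 := sin_ge_P7 1.0053 (by norm_num)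
      refine le_trans ?_ (e2.trans e1)
      norm_num
    have hsinc : (0.3952 : ℝ) ≤ Real.sinc (Real.pi * 0.68) := by
      rw [Real.sinc_of_ne_zero (by positivity), le_div_iff₀ (by positivity)]
      linarith
    calc (0.1352 : ℝ) ≤ 0.3952 * 0.3422 := by norm_num
      _ ≤ _ := mul_le_mul hsinc (h9.trans (h8 ▸ h7)) (by norm_num) (le_trans (by norm_num) hsinc)
  · have h1 : Real.sinc (lam 2 * 0.62) ≤ 0 := by
      have h2 : lam 2 * 0.62 = Real.pi * (3.1 / 3) := by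
        unfold lam; push_cast; ring
      rw [h2, Real.sinc_of_ne_zero (by positivity)]
      apply div_nonpos_of_nonpos_of_nonneg _ (by positivity)
      have h3 : Real.sin (Real.pi * (3.1 / 3)) = - Real.sin (Real.pi * (0.1 / 3)) := by
        rw [← Real.sin_add_pi]
        congr 1
        ring
      rw [h3, neg_nonpos]
      apply Real.sin_nonneg_of_nonneg_of_le_pi (by positivity)
      nlinarith
    rw [max_eq_right h1]
    norm_num

end Pool.Agent.Helper131.Slab
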