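import Pool.Agent.Helper131.Slab.Defs

set_option maxRecDepth 100000

namespace Pool.Agent.Helper131.Slab

open MeasureTheory Set intervalIntegral Filter Topology

theorem numA4 : 0.83059 ≤ Real.exp (-(lam 0 ^ 2 / 6 + lam 0 ^ 4 / 170 * (0.77 ^ 4 + 0.35 ^ 2 * (1 - 0.77 ^ 2)))) ∧
    0.1079 ≤ Real.sinc (Real.pi * 0.77) *
      Real.exp (-((Real.pi ^ 2 / 6 + Real.pi ^ 4 * 0.35 ^ 2 / 145) * (1 - 0.68 ^ 2))) ∧
    max (Real.sinc (lam 2 * 0.68)) 0 * Real.exp (-(lam 2 ^ 2 / 6 * (1 - 0.77 ^ 2))) ≤ 0.0 := by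
  have hpi1 := Real.pi_gt_d6
  have hpi2 := Real.pi_lt_d6
  have hpi0 := Real.pi_pos
  refine ⟨?_, ?_, ?_⟩
  · have hl : lam 0 = Real.pi / 3 := by
      unfold lam
      push_cast
      ring
    rw [hl]
    have hp0 : 0 ≤ Real.pi / 3 := by positivity
    have hp1 : Real.pi / 3 ≤ 1.0471977 := by linarith
    have hp2 : (Real.pi / 3) ^ 2 ≤ 1.0471977 ^ 2 := pow_le_pow_left₀ hp0 hp1 2
    have hp4 : (Real.pi / 3) ^ 4 ≤ 1.0471977 ^ 4 := pow_le_pow_left₀ hp0 hp1 4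
    have hx : (Real.pi / 3) ^ 2 / 6 + (Real.pi / 3) ^ 4 / 170 *
        (0.77 ^ 4 + 0.35 ^ 2 * (1 - 0.77 ^ 2)) ≤ 0.1856101 := by
      have h1 : (Real.pi / 3) ^ 4 / 170 * (0.77 ^ 4 + 0.35 ^ 2 * (1 - 0.77 ^ 2)) ≤
          1.0471977 ^ 4 / 170 * (0.77 ^ 4 + 0.35 ^ 2 * (1 - 0.77 ^ 2)) := by
        apply mul_le_mul_of_nonneg_right _ (by norm_num)
        exact div_le_div_of_nonneg_right hp4 (by norm_num)
      have h2 : (1.0471977 : ℝ) ^ 2 / 6 +
          1.0471977 ^ 4 / 170 * (0.77 ^ 4 + 0.35 ^ 2 * (1 - 0.77 ^ 2)) ≤ 0.1856101 := by norm_num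
      linarith
    calc (0.83059 : ℝ) ≤ 1 - 0.1856101 + 0.1856101 ^ 2 / 2 - 0.1856101 ^ 3 / 6 + 0.1856101 ^ 4 / 24 -
          0.1856101 ^ 5 / 120 := by norm_num
      _ ≤ Real.exp (-0.1856101) := exp_neg_ge5 0.1856101 (by norm_num)
      _ ≤ _ := Real.exp_le_exp.2 (neg_le_neg hx)
  · have hs : (0.66130 : ℝ) ≤ Real.sin (Real.pi * 0.77) := by
      rw [← Real.sin_pi_sub]
      have h1 : (0.722566 : ℝ) ≤ Real.pi - Real.pi * 0.77 := by linarith
      have h2 : Real.sin 0.722566 ≤ Real.sin (Real.pi - Real.pi * 0.77) := by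
        apply Real.sin_le_sin_of_le_of_le_pi_div_two _ _ h1
        · linarith
        · linarith
      have h3 := sin_ge_P7 0.722566 (by norm_num)
      have h4 : (0.66130 : ℝ) ≤ 0.722566 - 0.722566 ^ 3 / 6 + 0.722566 ^ 5 / 120 -
          0.722566 ^ 7 / 5040 := by norm_num
      linarith
    have hsc : (0.27337 : ℝ) ≤ Real.sinc (Real.pi * 0.77) := by
      rw [Real.sinc_of_ne_zero (by positivity)]
      rw [le_div_iff₀ (by positivity)]
      have h5 : (0.27337 : ℝ) * (Real.pi * 0.77) ≤ 0.66130 := by linarith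
      linarith
    have hx : (Real.pi ^ 2 / 6 + Real.pi ^ 4 * 0.35 ^ 2 / 145) * (1 - 0.68 ^ 2) ≤ 0.92857 := by
      have hp2 : Real.pi ^ 2 ≤ 3.141593 ^ 2 := pow_le_pow_left₀ hpi0.le hpi2.le 2
      have hp4 : Real.pi ^ 4 ≤ 3.141593 ^ 4 := pow_le_pow_left₀ hpi0.le hpi2.le 4
      have h2 : ((3.141593 : ℝ) ^ 2 / 6 + 3.141593 ^ 4 * 0.35 ^ 2 / 145) * (1 - 0.68 ^ 2) ≤
          0.92857 := by norm_num
      have h1 : (Real.pi ^ 2 / 6 + Real.pi ^ 4 * 0.35 ^ 2 / 145) * (1 - 0.68 ^ 2) ≤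
          ((3.141593 : ℝ) ^ 2 / 6 + 3.141593 ^ 4 * 0.35 ^ 2 / 145) * (1 - 0.68 ^ 2) := by
        apply mul_le_mul_of_nonneg_right _ (by norm_num)
        apply add_le_add
        · linarith
        · linarith
      linarith
    have he : (0.62856 : ℝ) ≤ Real.exp (-0.464285) := by
      have h1 := exp_neg_ge5 0.464285 (by norm_num)
      have h2 : (0.62856 : ℝ) ≤ 1 - 0.464285 + 0.464285 ^ 2 / 2 - 0.464285 ^ 3 / 6 +
          0.464285 ^ 4 / 24 - 0.464285 ^ 5 / 120 := by norm_num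
      linarith
    have he2 : (0.62856 : ℝ) ^ 2 ≤
        Real.exp (-((Real.pi ^ 2 / 6 + Real.pi ^ 4 * 0.35 ^ 2 / 145) * (1 - 0.68 ^ 2))) := by
      calc (0.62856 : ℝ) ^ 2 ≤ Real.exp (-0.464285) ^ 2 := pow_le_pow_left₀ (by norm_num) he 2
        _ = Real.exp (-0.92857) := by
          rw [← Real.exp_nat_mul]
          norm_num
        _ ≤ _ := Real.exp_le_exp.2 (neg_le_neg hx)
    calc (0.1079 : ℝ) ≤ 0.27337 * 0.62856 ^ 2 := by norm_num
      _ ≤ _ := mul_le_mul hsc he2 (by norm_num) (le_trans (by norm_num) hsc)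
  · have hl : lam 2 * 0.68 = Real.pi * (17 / 15) := by
      unfold lam
      push_cast
      ring
    have h1 : Real.sinc (lam 2 * 0.68) ≤ 0 := by
      rw [hl, Real.sinc_of_ne_zero (by positivity)]
      apply div_nonpos_of_nonpos_of_nonneg _ (by positivity)
      have h2 : Real.sin (Real.pi * (17 / 15)) = -Real.sin (Real.pi * (2 / 15)) := by
        rw [← Real.sin_add_pi]
        congr 1
        ring
      rw [h2, neg_nonpos]
      apply Real.sin_nonneg_of_nonneg_of_le_pi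
      · positivity
      · linarith
    rw [max_eq_right h1, zero_mul]
    norm_num

end Pool.Agent.Helper131.Slab
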