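import Pool.Agent.Helper131.Slab.Defs

set_option maxRecDepth 100000

namespace Pool.Agent.Helper131.Slab

open MeasureTheory Set intervalIntegral Filter Topology

theorem combine_bound_numB1 (l L x X B : ℝ) (hL : 0 < L) (hl : L ≤ l) (hx : X ≤ x)
    (hB : Real.exp (-X) ≤ B) : 1 / (l * 0.53) * Real.exp (-x) ≤ 1 / (L * 0.53) * B := by
  have h1 : 1 / (l * 0.53) ≤ 1 / (L * 0.53) := by
    apply one_div_le_one_div_of_le
    · positivity
    · linarith
  have h2 : Real.exp (-x) ≤ B := le_trans (Real.exp_le_exp.mpr (by linarith)) hB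
  have h3 : 0 ≤ 1 / (L * 0.53) := by positivity
  exact mul_le_mul h1 h2 (Real.exp_pos _).le h3

theorem log_lower_numB1 (X c B : ℝ) (hX : B ≤ X) (hc : Real.exp c ≤ B) : c ≤ Real.log X := by
  have h0 : 0 < B := lt_of_lt_of_le (Real.exp_pos c) hc
  have h1 : 0 < X := lt_of_lt_of_le h0 hX
  rw [Real.le_log_iff_exp_le h1]
  linarith

theorem exp_1488_numB1 : Real.exp 1.488 ≤ 4.4285 := by
  have h1 : Real.exp 1.488 = Real.exp 1 * Real.exp 0.488 := by
    rw [← Real.exp_add]; norm_num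
  have h2 : Real.exp 1 ≤ 2.7182818286 := Real.exp_one_lt_d9.le
  have h3 : Real.exp 0.488 ≤ 1.62912 := by
    have h := exp_neg_ge5 0.488 (by norm_num)
    have h4 : Real.exp 0.488 * Real.exp (-0.488) = 1 := by rw [← Real.exp_add]; norm_num
    have h5 : (0.61383 : ℝ) ≤ Real.exp (-0.488) := le_trans (by norm_num) h
    have h6 := Real.exp_pos (0.488 : ℝ)
    nlinarith
  have h4 := Real.exp_pos (0.488 : ℝ)
  rw [h1]
  calc Real.exp 1 * Real.exp 0.488 ≤ 2.7182818286 * 1.62912 :=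
        mul_le_mul h2 h3 h4.le (by norm_num)
    _ ≤ 4.4285 := by norm_num

theorem exp_1688_numB1 : Real.exp 1.688 ≤ 5.412 := by
  have h1 : Real.exp 1.688 = Real.exp 1 * Real.exp 0.688 := by
    rw [← Real.exp_add]; norm_num
  have h2 : Real.exp 1 ≤ 2.7182818286 := Real.exp_one_lt_d9.le
  have h3 : Real.exp 0.688 ≤ 1.9908 := by
    have h := exp_neg_ge5 0.344 (by norm_num)
    have h4 : Real.exp 0.688 * (Real.exp (-0.344) * Real.exp (-0.344)) = 1 := by
      rw [← Real.exp_add, ← Real.exp_add]; norm_num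
    have h5 : (0.70892 : ℝ) ≤ Real.exp (-0.344) := le_trans (by norm_num) h
    have h6 := Real.exp_pos (0.688 : ℝ)
    have h7 : (0.70892 : ℝ) * 0.70892 ≤ Real.exp (-0.344) * Real.exp (-0.344) :=
      mul_le_mul h5 h5 (by norm_num) (Real.exp_pos _).le
    nlinarith
  have h4 := Real.exp_pos (0.688 : ℝ)
  rw [h1]
  calc Real.exp 1 * Real.exp 0.688 ≤ 2.7182818286 * 1.9908 :=
        mul_le_mul h2 h3 h4.le (by norm_num)
    _ ≤ 5.412 := by norm_num

theorem numB1 : 1 / (lam 3 * 0.53) * Real.exp (-(0.14 * lam 3 ^ 2 * (1 - 0.57 ^ 2))) ≤ 0.00161 ∧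
    1 / (lam 4 * 0.53) * Real.exp (-((1 - 0.57 ^ 2) / 0.47 ^ 2 * Real.log (lam 4 * 0.47))) ≤ 0.00213 ∧
    1 / (lam 5 * 0.53) * Real.exp (-((1 - 0.57 ^ 2) / 0.47 ^ 2 * Real.log (lam 5 * 0.47))) ≤ 0.00095 := by
  have hpi : (3.141592 : ℝ) < Real.pi := Real.pi_gt_d6
  have h3 : (7.33038 : ℝ) ≤ lam 3 := by
    unfold lam; push_cast; linarith
  have h4 : (9.424776 : ℝ) ≤ lam 4 := by
    unfold lam; push_cast; linarith
  have h5 : (11.51917 : ℝ) ≤ lam 5 := by
    unfold lam; push_cast; linarith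
  refine ⟨?_, ?_, ?_⟩
  · have hx : (5.078 : ℝ) ≤ 0.14 * lam 3 ^ 2 * (1 - 0.57 ^ 2) := by
      have : (7.33038 : ℝ) ^ 2 ≤ lam 3 ^ 2 := pow_le_pow_left₀ (by norm_num) h3 2
      norm_num at this ⊢
      linarith
    have hB : Real.exp (-(5.078 : ℝ)) ≤ 0.36788 ^ 5 * (1 - 0.078 + 0.078 ^ 2 / 2) := by
      have e1 : Real.exp (-(5.078 : ℝ)) = Real.exp (-5) * Real.exp (-0.078) := by
        rw [← Real.exp_add]; norm_num
      rw [e1]
      exact mul_le_mul (exp_neg_nat_le 5 5 (by norm_num)) (exp_neg_le2 0.078 (by norm_num))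
        (Real.exp_pos _).le (by positivity)
    refine le_trans (combine_bound_numB1 _ 7.33038 _ _ _ (by norm_num) h3 hx hB) ?_
    norm_num
  · have hlog : (1.488 : ℝ) ≤ Real.log (lam 4 * 0.47) :=
      log_lower_numB1 _ _ _ (by norm_num at h4 ⊢; linarith) exp_1488_numB1
    have hx : (4.5475 : ℝ) ≤ (1 - 0.57 ^ 2) / 0.47 ^ 2 * Real.log (lam 4 * 0.47) := by
      have : (1 - 0.57 ^ 2) / 0.47 ^ 2 * (1.488 : ℝ) ≤
          (1 - 0.57 ^ 2) / 0.47 ^ 2 * Real.log (lam 4 * 0.47) :=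
        mul_le_mul_of_nonneg_left hlog (by norm_num)
      refine le_trans ?_ this
      norm_num
    have hB : Real.exp (-(4.5475 : ℝ)) ≤
        0.36788 ^ 4 * (1 - 0.5475 + 0.5475 ^ 2 / 2 - 0.5475 ^ 3 / 6 + 0.5475 ^ 4 / 24) := by
      have e1 : Real.exp (-(4.5475 : ℝ)) = Real.exp (-4) * Real.exp (-0.5475) := by
        rw [← Real.exp_add]; norm_num
      rw [e1]
      exact mul_le_mul (exp_neg_nat_le 4 4 (by norm_num)) (exp_neg_le4 0.5475 (by norm_num))
        (Real.exp_pos _).le (by positivity)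
    refine le_trans (combine_bound_numB1 _ 9.424776 _ _ _ (by norm_num) h4 hx hB) ?_
    norm_num
  · have hlog : (1.688 : ℝ) ≤ Real.log (lam 5 * 0.47) :=
      log_lower_numB1 _ _ _ (by norm_num at h5 ⊢; linarith) exp_1688_numB1
    have hx : (5.1587 : ℝ) ≤ (1 - 0.57 ^ 2) / 0.47 ^ 2 * Real.log (lam 5 * 0.47) := by
      have : (1 - 0.57 ^ 2) / 0.47 ^ 2 * (1.688 : ℝ) ≤
          (1 - 0.57 ^ 2) / 0.47 ^ 2 * Real.log (lam 5 * 0.47) :=
        mul_le_mul_of_nonneg_left hlog (by norm_num)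
      refine le_trans ?_ this
      norm_num
    have hB : Real.exp (-(5.1587 : ℝ)) ≤ 0.36788 ^ 5 * (1 - 0.1587 + 0.1587 ^ 2 / 2) := by
      have e1 : Real.exp (-(5.1587 : ℝ)) = Real.exp (-5) * Real.exp (-0.1587) := by
        rw [← Real.exp_add]; norm_num
      rw [e1]
      exact mul_le_mul (exp_neg_nat_le 5 5 (by norm_num)) (exp_neg_le2 0.1587 (by norm_num))
        (Real.exp_pos _).le (by positivity)
    refine le_trans (combine_bound_numB1 _ 11.51917 _ _ _ (by norm_num) h5 hx hB) ?_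
    norm_num

end Pool.Agent.Helper131.Slab
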