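import Pool.Agent.Helper131.Slab.Defs

set_option maxRecDepth 100000

namespace Pool.Agent.Helper131.Slab

open MeasureTheory Set intervalIntegral Filter Topology

theorem nb2_fin_numB2 {a a0 E c e0 b : ℝ} (ha0 : 0 < a0) (ha : a0 ≤ a) (hE : c ≤ E) (he0 : 0 < e0)
    (hc : e0 ≤ Real.exp c) (hb : 1 ≤ b * (a0 * e0)) : 1 / a * Real.exp (-E) ≤ b := by
  have h1 : Real.exp (-E) ≤ 1 / e0 := by
    rw [Real.exp_neg, ← one_div]
    exact one_div_le_one_div_of_le he0 (hc.trans (Real.exp_le_exp.2 hE))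
  have h2 : 1 / a ≤ 1 / a0 := one_div_le_one_div_of_le ha0 ha
  calc 1 / a * Real.exp (-E) ≤ 1 / a0 * (1 / e0) :=
        mul_le_mul h2 h1 (Real.exp_pos _).le (by positivity)
    _ = 1 / (a0 * e0) := by rw [one_div_mul_one_div]
    _ ≤ b := by
        rw [div_le_iff₀ (by positivity)]
        exact hb

theorem nb2_up_numB2 {m : ℕ} {x s c : ℝ} (hx : 0 ≤ x) (hs0 : 0 ≤ s)
    (hs : s ≤ ∑ i ∈ Finset.range 6, x ^ i / (i.factorial : ℝ))
    (hc : c ≤ 2.7182818283 ^ m * s) : c ≤ Real.exp (m + x) := by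
  have h1 : Real.exp (m + x) = Real.exp 1 ^ m * Real.exp x := by
    rw [← Real.exp_nat_mul, ← Real.exp_add, mul_one]
  have h2 := Real.exp_one_gt_d9.le
  have h3 := Real.sum_le_exp_of_nonneg hx 6
  rw [h1]
  refine hc.trans (mul_le_mul (pow_le_pow_left₀ (by norm_num) h2 m) (hs.trans h3) hs0
    (by positivity))

theorem nb2_log_numB2 {X u c : ℝ} (hu : 0 ≤ u) (hX : 0 < X)
    (hc : 0 < 1 - u + u ^ 2 / 2 - u ^ 3 / 6 + u ^ 4 / 24 - u ^ 5 / 120)
    (h : 2.7182818286 ≤ X * (1 - u + u ^ 2 / 2 - u ^ 3 / 6 + u ^ 4 / 24 - u ^ 5 / 120))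
    (hcu : c = 1 + u) : c ≤ Real.log X := by
  rw [Real.le_log_iff_exp_le hX, hcu]
  have h1 := exp_neg_ge5 u hu
  have h2 : Real.exp (1 + u) * Real.exp (-u) = Real.exp 1 := by
    rw [← Real.exp_add]
    congr 1
    ring
  have h3 := Real.exp_one_lt_d9.le
  have h4 : Real.exp (1 + u) * (1 - u + u ^ 2 / 2 - u ^ 3 / 6 + u ^ 4 / 24 - u ^ 5 / 120) ≤
      X * (1 - u + u ^ 2 / 2 - u ^ 3 / 6 + u ^ 4 / 24 - u ^ 5 / 120) := by
    calc _ ≤ Real.exp (1 + u) * Real.exp (-u) :=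
          mul_le_mul_of_nonneg_left h1 (Real.exp_pos _).le
      _ = Real.exp 1 := h2
      _ ≤ _ := h3.trans h
  exact le_of_mul_le_mul_right h4 hc

theorem numB2 : 1 / (lam 3 * 0.57) * Real.exp (-(0.14 * lam 3 ^ 2 * (1 - 0.62 ^ 2))) ≤ 0.00234 ∧
    1 / (lam 4 * 0.57) * Real.exp (-((1 - 0.62 ^ 2) / 0.43 ^ 2 * Real.log (lam 4 * 0.43))) ≤ 0.00177 ∧
    1 / (lam 5 * 0.57) * Real.exp (-((1 - 0.62 ^ 2) / 0.43 ^ 2 * Real.log (lam 5 * 0.43))) ≤ 0.00075 := by
  have hπ := Real.pi_gt_d6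
  have l3 : (7.33038 : ℝ) ≤ lam 3 := by
    unfold lam
    push_cast
    linarith
  have l4 : (9.424776 : ℝ) ≤ lam 4 := by
    unfold lam
    push_cast
    linarith
  have l5 : (11.51917 : ℝ) ≤ lam 5 := by
    unfold lam
    push_cast
    linarith
  have e1 : (102.5 : ℝ) ≤ Real.exp 4.63 := by
    have h := nb2_up_numB2 (m := 4) (x := 0.63) (s := 1.8775) (c := 102.5) (by norm_num) (by norm_num)
      (by norm_num [Finset.sum_range_succ, Nat.factorial]) (by norm_num)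
    norm_num at h ⊢
    exact h
  have e2 : (105.3 : ℝ) ≤ Real.exp 4.6577 := by
    have h := nb2_up_numB2 (m := 4) (x := 0.6577) (s := 1.9302) (c := 105.3) (by norm_num) (by norm_num)
      (by norm_num [Finset.sum_range_succ, Nat.factorial]) (by norm_num)
    norm_num at h ⊢
    exact h
  have e3 : (205 : ℝ) ≤ Real.exp 5.3236 := by
    have h := nb2_up_numB2 (m := 5) (x := 0.3236) (s := 1.382) (c := 205) (by norm_num) (by norm_num)
      (by norm_num [Finset.sum_range_succ, Nat.factorial]) (by norm_num)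
    norm_num at h ⊢
    exact h
  have g2 : (1.399 : ℝ) ≤ Real.log (lam 4 * 0.43) := by
    have h1 : (4.05265 : ℝ) ≤ lam 4 * 0.43 := by linarith
    refine nb2_log_numB2 (u := 0.399) (by norm_num) (by linarith) (by norm_num) ?_ (by norm_num)
    refine le_trans ?_ (mul_le_mul_of_nonneg_right h1 (by norm_num))
    norm_num
  have g3 : (1.599 : ℝ) ≤ Real.log (lam 5 * 0.43) := by
    have h1 : (4.95324 : ℝ) ≤ lam 5 * 0.43 := by linarith
    refine nb2_log_numB2 (u := 0.599) (by norm_num) (by linarith) (by norm_num) ?_ (by norm_num)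
    refine le_trans ?_ (mul_le_mul_of_nonneg_right h1 (by norm_num))
    norm_num
  refine ⟨?_, ?_, ?_⟩
  · refine nb2_fin_numB2 (a0 := 4.1783) (c := 4.63) (e0 := 102.5) (by norm_num) (by linarith) ?_
      (by norm_num) e1 (by norm_num)
    have h1 : (7.33038 : ℝ) ^ 2 ≤ lam 3 ^ 2 := pow_le_pow_left₀ (by norm_num) l3 2
    norm_num at h1 ⊢
    linarith
  · refine nb2_fin_numB2 (a0 := 5.3721) (c := 4.6577) (e0 := 105.3) (by norm_num) (by linarith) ?_
      (by norm_num) e2 (by norm_num)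
    have h1 : ((1 - 0.62 ^ 2) / 0.43 ^ 2 : ℝ) * 1.399 ≤
        (1 - 0.62 ^ 2) / 0.43 ^ 2 * Real.log (lam 4 * 0.43) :=
      mul_le_mul_of_nonneg_left g2 (by norm_num)
    refine le_trans ?_ h1
    norm_num
  · refine nb2_fin_numB2 (a0 := 6.5659) (c := 5.3236) (e0 := 205) (by norm_num) (by linarith) ?_
      (by norm_num) e3 (by norm_num)
    have h1 : ((1 - 0.62 ^ 2) / 0.43 ^ 2 : ℝ) * 1.599 ≤
        (1 - 0.62 ^ 2) / 0.43 ^ 2 * Real.log (lam 5 * 0.43) :=
      mul_le_mul_of_nonneg_left g3 (by norm_num)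
    refine le_trans ?_ h1
    norm_num

end Pool.Agent.Helper131.Slab
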