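import Pool.Agent.Helper131.Slab.Defs

set_option maxRecDepth 100000

namespace Pool.Agent.Helper131.Slab

open MeasureTheory Set intervalIntegral Filter Topology

theorem numB3_eb_numB3 (k : ℕ) (q x B : ℝ) (hq : 0 ≤ q) (hx : k + q ≤ x) (hB : 0 < B)
    (h : 1 / B ≤ 2.7182818283 ^ k * ∑ i ∈ Finset.range 10, q ^ i / (i.factorial : ℝ)) :
    Real.exp (-x) ≤ B := by
  have h1 : (2.7182818283 : ℝ) ^ k ≤ Real.exp k := by
    have := Real.exp_one_gt_d9
    calc (2.7182818283 : ℝ) ^ k ≤ Real.exp 1 ^ k := by gcongr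
      _ = Real.exp k := by rw [← Real.exp_nat_mul, mul_one]
  have h2 : ∑ i ∈ Finset.range 10, q ^ i / (i.factorial : ℝ) ≤ Real.exp q :=
    Real.sum_le_exp_of_nonneg hq 10
  have h3 : 1 / B ≤ Real.exp (k + q) := by
    rw [Real.exp_add]
    refine h.trans ?_
    apply mul_le_mul h1 h2 _ (Real.exp_pos _).le
    exact Finset.sum_nonneg fun i _ => by positivity
  have h4 : 1 / B ≤ Real.exp x := h3.trans (Real.exp_le_exp.2 hx)
  rw [Real.exp_neg]
  rw [one_div] at h4
  exact inv_le_of_inv_le₀ hB h4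

theorem numB3 : 1 / (lam 3 * 0.62) * Real.exp (-(1 / 6 * lam 3 ^ 2 * (1 - 0.68 ^ 2))) ≤ 0.00179 ∧
    1 / (lam 4 * 0.62) * Real.exp (-(0.14 * lam 4 ^ 2 * (1 - 0.68 ^ 2))) ≤ 0.00022 ∧
    1 / (lam 5 * 0.62) * Real.exp (-((1 - 0.68 ^ 2) / 0.38 ^ 2 * Real.log (lam 5 * 0.38))) ≤ 0.00058 := by
  have hpi := Real.pi_gt_d6
  have l3 : (7.330381 : ℝ) ≤ lam 3 := by
    unfold lam
    push_cast
    linarith
  have l4 : (9.424776 : ℝ) ≤ lam 4 := by
    unfold lam
    push_cast
    linarith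
  have l5 : (11.51917 : ℝ) ≤ lam 5 := by
    unfold lam
    push_cast
    linarith
  refine ⟨?_, ?_, ?_⟩
  · have hx : ((4 : ℕ) : ℝ) + 0.8146 ≤ 1 / 6 * lam 3 ^ 2 * (1 - 0.68 ^ 2) := by
      have : (7.330381 : ℝ) ^ 2 ≤ lam 3 ^ 2 := by gcongr
      norm_num at this ⊢
      linarith
    have h1 := numB3_eb_numB3 4 0.8146 _ 0.008112 (by norm_num) hx (by norm_num)
      (by norm_num [Finset.sum_range_succ, Nat.factorial])
    have h2 : 1 / (lam 3 * 0.62) ≤ 0.220031 := by
      rw [div_le_iff₀ (by linarith)]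
      linarith
    calc _ ≤ 0.220031 * 0.008112 := mul_le_mul h2 h1 (Real.exp_pos _).le (by norm_num)
      _ ≤ 0.00179 := by norm_num
  · have hx : ((6 : ℕ) : ℝ) + 0.68 ≤ 0.14 * lam 4 ^ 2 * (1 - 0.68 ^ 2) := by
      have : (9.424776 : ℝ) ^ 2 ≤ lam 4 ^ 2 := by gcongr
      norm_num at this ⊢
      linarith
    have h1 := numB3_eb_numB3 6 0.68 _ 0.001256 (by norm_num) hx (by norm_num)
      (by norm_num [Finset.sum_range_succ, Nat.factorial])
    have h2 : 1 / (lam 4 * 0.62) ≤ 0.17114 := by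
      rw [div_le_iff₀ (by linarith)]
      linarith
    calc _ ≤ 0.17114 * 0.001256 := mul_le_mul h2 h1 (Real.exp_pos _).le (by norm_num)
      _ ≤ 0.00022 := by norm_num
  · have hlog : (1.475 : ℝ) ≤ Real.log (lam 5 * 0.38) := by
      rw [Real.le_log_iff_exp_le (by linarith)]
      have e1 : Real.exp 1.475 = Real.exp 1 * Real.exp 0.475 := by
        rw [← Real.exp_add]
        norm_num
      have e2 := Real.exp_bound' (x := 0.475) (by norm_num) (by norm_num) (n := 8) (by norm_num)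
      norm_num [Finset.sum_range_succ, Nat.factorial] at e2
      have e3 := Real.exp_one_lt_d9
      rw [e1]
      have e4 : Real.exp 0.475 ≤ 1.60803 := by
        norm_num
        linarith
      calc Real.exp 1 * Real.exp 0.475 ≤ 2.7182818286 * 1.60803 :=
            mul_le_mul e3.le e4 (Real.exp_pos _).le (by norm_num)
        _ ≤ lam 5 * 0.38 := by
            norm_num
            linarith
    have hx : ((5 : ℕ) : ℝ) + 0.4914 ≤ (1 - 0.68 ^ 2) / 0.38 ^ 2 * Real.log (lam 5 * 0.38) := by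
      calc ((5 : ℕ) : ℝ) + 0.4914 ≤ (1 - 0.68 ^ 2) / 0.38 ^ 2 * 1.475 := by norm_num
        _ ≤ _ := by
          apply mul_le_mul_of_nonneg_left hlog
          norm_num
    have h1 := numB3_eb_numB3 5 0.4914 _ 0.00413 (by norm_num) hx (by norm_num)
      (by norm_num [Finset.sum_range_succ, Nat.factorial])
    have h2 : 1 / (lam 5 * 0.62) ≤ 0.14002 := by
      rw [div_le_iff₀ (by linarith)]
      linarith
    calc _ ≤ 0.14002 * 0.00413 := mul_le_mul h2 h1 (Real.exp_pos _).le (by norm_num)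
      _ ≤ 0.00058 := by norm_num

end Pool.Agent.Helper131.Slab
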