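import Pool.Agent.Helper131.Slab.Defs

set_option maxRecDepth 100000

namespace Pool.Agent.Helper131.Slab

open MeasureTheory Set intervalIntegral Filter Topology

theorem j29409_exp_numB4 (c x : ℝ) (hc : 0 ≤ c) (h : c ≤ x) :
    Real.exp (-x) ≤ (1 - c / 16 + (c / 16) ^ 2 / 2 - (c / 16) ^ 3 / 6 + (c / 16) ^ 4 / 24) ^ 16 := by
  have h1 : Real.exp (-x) ≤ Real.exp (-c) := Real.exp_le_exp.mpr (by linarith)
  have h2 : Real.exp (-c) = Real.exp (-(c / 16)) ^ 16 := by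
    rw [← Real.exp_nat_mul]
    congr 1
    push_cast
    ring
  have h3 := exp_neg_le4 (c / 16) (by linarith)
  have h4 := Real.exp_pos (-(c / 16))
  rw [h2] at h1
  exact h1.trans (pow_le_pow_left₀ h4.le h3 16)

theorem numB4 : 1 / (lam 3 * 0.68) * Real.exp (-(1 / 6 * lam 3 ^ 2 * (1 - 0.77 ^ 2))) ≤ 0.00524 ∧
    1 / (lam 4 * 0.68) * Real.exp (-(0.14 * lam 4 ^ 2 * (1 - 0.77 ^ 2))) ≤ 0.00099 ∧
    1 / (lam 5 * 0.68) * Real.exp (-((1 - 0.77 ^ 2) / 0.35 ^ 2 * Real.log (lam 5 * 0.35))) ≤ 0.00125 := by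
  have hpi := Real.pi_gt_d6
  have h3 : lam 3 = 7 * Real.pi / 3 := by unfold lam; norm_num
  have h4 : lam 4 = 3 * Real.pi := by unfold lam; norm_num; ring
  have h5 : lam 5 = 11 * Real.pi / 3 := by unfold lam; norm_num
  have l3 : 7.33038 ≤ lam 3 := by rw [h3]; linarith
  have l4 : 9.42477 ≤ lam 4 := by rw [h4]; linarith
  have l5 : 11.51917 ≤ lam 5 := by rw [h5]; linarith
  refine ⟨?_, ?_, ?_⟩
  · rw [one_div, inv_mul_le_iff₀ (by linarith)]
    have h1 := j29409_exp_numB4 3.6458 (1 / 6 * lam 3 ^ 2 * (1 - 0.77 ^ 2)) (by norm_num) (by nlinarith)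
    refine h1.trans ?_
    have h2 : (1 - 3.6458 / 16 + (3.6458 / 16) ^ 2 / 2 - (3.6458 / 16) ^ 3 / 6 +
        (3.6458 / 16) ^ 4 / 24 : ℝ) ^ 16 ≤ 0.02611 := by norm_num
    linarith
  · rw [one_div, inv_mul_le_iff₀ (by linarith)]
    have h1 := j29409_exp_numB4 5.0624 (0.14 * lam 4 ^ 2 * (1 - 0.77 ^ 2)) (by norm_num) (by nlinarith)
    refine h1.trans ?_
    have h2 : (1 - 5.0624 / 16 + (5.0624 / 16) ^ 2 / 2 - (5.0624 / 16) ^ 3 / 6 +
        (5.0624 / 16) ^ 4 / 24 : ℝ) ^ 16 ≤ 0.00634 := by norm_num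
    linarith
  · rw [one_div, inv_mul_le_iff₀ (by linarith)]
    have hX : 4.0317 ≤ lam 5 * 0.35 := by linarith
    have hlog : 1.394 ≤ Real.log (lam 5 * 0.35) := by
      have e1 : Real.log (lam 5 * 0.35) = Real.log 4 + Real.log (lam 5 * 0.35 / 4) := by
        rw [← Real.log_mul (by norm_num) (by linarith)]
        congr 1
        ring
      have e2 : Real.log 4 = 2 * Real.log 2 := by
        rw [show (4 : ℝ) = 2 ^ 2 by norm_num, Real.log_pow]
        push_cast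
        ring
      have e3 := Real.log_two_gt_d9
      have e4 : 1 - (lam 5 * 0.35 / 4)⁻¹ ≤ Real.log (lam 5 * 0.35 / 4) :=
        Real.one_sub_inv_le_log_of_pos (by linarith)
      have e5 : (lam 5 * 0.35 / 4)⁻¹ ≤ 0.9922 := by
        rw [inv_le_comm₀ (by linarith) (by norm_num)]
        refine le_trans ?_ (by linarith : (1.007925 : ℝ) ≤ lam 5 * 0.35 / 4)
        norm_num
      rw [e1, e2]
      linarith
    have h0 : (4.6326 : ℝ) ≤ (1 - 0.77 ^ 2) / 0.35 ^ 2 * Real.log (lam 5 * 0.35) := by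
      have h1 : (4.6326 : ℝ) ≤ (1 - 0.77 ^ 2) / 0.35 ^ 2 * 1.394 := by norm_num
      refine h1.trans (mul_le_mul_of_nonneg_left hlog (by norm_num))
    have h1 := j29409_exp_numB4 4.6326 _ (by norm_num) h0
    refine h1.trans ?_
    have h2 : (1 - 4.6326 / 16 + (4.6326 / 16) ^ 2 / 2 - (4.6326 / 16) ^ 3 / 6 +
        (4.6326 / 16) ^ 4 / 24 : ℝ) ^ 16 ≤ 0.00975 := by norm_num
    linarith

end Pool.Agent.Helper131.Slab
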