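import Pool.Agent.Helper131.Slab.Defs

set_option maxRecDepth 100000

namespace Pool.Agent.Helper131.Slab

open MeasureTheory Set intervalIntegral Filter Topology

theorem numW0_pi_numW0 : 9.8696 < Real.pi ^ 2 ∧ Real.pi ^ 2 < 9.86961 := by
  have h1 := Real.pi_gt_d6
  have h2 := Real.pi_lt_d6
  constructor <;> nlinarith

theorem numW0 : 0.97077 ≤ ww 0.828 0 ∧ 0.21833 ≤ ww 0.828 1 ∧ -0.23677 ≤ ww 0.828 2 ∧ |ww 0.828 3| ≤ 0.03857 ∧ |ww 0.828 4| ≤ 0.1413 ∧
    gg 0.828 ≤ 0.828177 := by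
  have hpi := Real.pi_pos
  have hp1 := Real.pi_gt_d6
  have hp2 := Real.pi_lt_d6
  obtain ⟨hy1, hy2⟩ := numW0_pi_numW0
  set y : ℝ := Real.pi ^ 2 with hy
  have hy0 : 0 < y := by linarith
  have hysq : 9.8696 ^ 2 ≤ y ^ 2 := pow_le_pow_left₀ (by norm_num) hy1.le 2
  have hysq2 : y ^ 2 ≤ 9.86961 ^ 2 := pow_le_pow_left₀ hy0.le hy2.le 2
  have hycu : y ^ 3 ≤ 9.86961 ^ 3 := pow_le_pow_left₀ hy0.le hy2.le 3
  have e3 : Real.pi ^ 3 = Real.pi * y := by rw [hy]; ring
  have e5 : Real.pi ^ 5 = Real.pi * y ^ 2 := by rw [hy]; ring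
  have e7 : Real.pi ^ 7 = Real.pi * y ^ 3 := by rw [hy]; ring
  have e2 : Real.pi ^ 2 = y := rfl
  have e4 : Real.pi ^ 4 = y ^ 2 := by rw [hy]; ring
  refine ⟨?_, ?_, ?_, ?_, ?_, ?_⟩
  · -- k = 0
    have ha : lam 0 * 0.828 = 0.276 * Real.pi := by
      unfold lam; push_cast; ring
    have hs := sin_ge_P7 (0.276 * Real.pi) (by positivity)
    rw [ww, ha]
    rw [div_mul_eq_mul_div, le_div_iff₀ (by positivity)]
    push_cast
    rw [mul_pow, mul_pow, mul_pow, e3, e5, e7] at hs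
    have key : 0 ≤ Real.pi * (4 * 0.276 - 0.97077 - 4 * 0.276 ^ 3 * y / 6 +
        4 * 0.276 ^ 5 * y ^ 2 / 120 - 4 * 0.276 ^ 7 * y ^ 3 / 5040) := by
      refine mul_nonneg hpi.le ?_
      norm_num at hysq hysq2 hycu ⊢
      linarith
    nlinarith
  · -- k = 1
    have ha : lam 1 * 0.828 = Real.pi - 0.172 * Real.pi := by
      unfold lam; push_cast; ring
    have hs := sin_ge_P7 (0.172 * Real.pi) (by positivity)
    rw [ww, ha, Real.sin_pi_sub]
    rw [div_mul_eq_mul_div, le_div_iff₀ (by positivity)]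
    push_cast
    rw [mul_pow, mul_pow, mul_pow, e3, e5, e7] at hs
    have key : 0 ≤ Real.pi * (4 * 0.172 - 3 * 0.21833 - 4 * 0.172 ^ 3 * y / 6 +
        4 * 0.172 ^ 5 * y ^ 2 / 120 - 4 * 0.172 ^ 7 * y ^ 3 / 5040) := by
      refine mul_nonneg hpi.le ?_
      norm_num at hysq hysq2 hycu ⊢
      linarith
    nlinarith
  · -- k = 2
    have ha : lam 2 * 0.828 = (Real.pi / 2 - 0.12 * Real.pi) + Real.pi := by
      unfold lam; push_cast; ring
    have hs := cos_le_P4 (0.12 * Real.pi) (by positivity)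
    rw [ww, ha, Real.sin_add_pi, Real.sin_pi_div_two_sub]
    rw [div_mul_eq_mul_div, le_div_iff₀ (by positivity)]
    push_cast
    rw [mul_pow, mul_pow, e2, e4] at hs
    norm_num at hysq hysq2 hycu hs ⊢
    nlinarith
  · -- k = 3
    have ha : lam 3 * 0.828 = 2 * Real.pi - 0.068 * Real.pi := by
      unfold lam; push_cast; ring
    have hs := sin_le_P5 (0.068 * Real.pi) (by positivity)
    have hs0 : 0 ≤ Real.sin (0.068 * Real.pi) :=
      Real.sin_nonneg_of_nonneg_of_le_pi (by positivity) (by linarith)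
    rw [ww, ha, Real.sin_two_pi_sub, mul_neg, abs_neg, abs_of_nonneg (by positivity)]
    rw [div_mul_eq_mul_div, div_le_iff₀ (by positivity)]
    push_cast
    rw [mul_pow, mul_pow, e3, e5] at hs
    have key : 0 ≤ Real.pi * (7 * 0.03857 - 4 * 0.068 + 4 * 0.068 ^ 3 * y / 6 -
        4 * 0.068 ^ 5 * y ^ 2 / 120) := by
      refine mul_nonneg hpi.le ?_
      norm_num at hysq hysq2 hycu ⊢
      linarith
    nlinarith
  · -- k = 4
    have ha : lam 4 * 0.828 = (Real.pi / 2 - 0.016 * Real.pi) + 2 * Real.pi := by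
      unfold lam; push_cast; ring
    have hs := cos_le_P4 (0.016 * Real.pi) (by positivity)
    have hs0 : 0 ≤ Real.cos (0.016 * Real.pi) :=
      Real.cos_nonneg_of_mem_Icc ⟨by linarith, by linarith⟩
    rw [ww, ha, Real.sin_add_two_pi, Real.sin_pi_div_two_sub, abs_of_nonneg (by positivity)]
    rw [div_mul_eq_mul_div, div_le_iff₀ (by positivity)]
    push_cast
    rw [mul_pow, mul_pow, e2, e4] at hs
    norm_num at hysq hysq2 hycu hs ⊢
    nlinarith
  · unfold gg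
    have h2 : Real.sqrt 2 ≤ 1.4142137 := by
      rw [Real.sqrt_le_left (by norm_num)]
      norm_num
    norm_num at h2 ⊢
    linarith

end Pool.Agent.Helper131.Slab
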