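import Pool.Agent.Helper131.Slab.Defs
import Pool.Agent.Helper131.Slab.L_numW0

set_option maxRecDepth 100000

namespace Pool.Agent.Helper131.Slab

open MeasureTheory Set intervalIntegral Filter Topology

theorem numH0_e1_numH0 : (0.16 : ℝ) ≤ Real.exp (-1.813) := by
  have h1 := exp_neg_ge5 0.9065 (by norm_num)
  have h2 : (0.4 : ℝ) ≤ Real.exp (-0.9065) := by
    refine le_trans ?_ h1
    norm_num
  have h3 : Real.exp (-1.813) = Real.exp (-0.9065) * Real.exp (-0.9065) := by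
    rw [← Real.exp_add]
    norm_num
  rw [h3]
  nlinarith

theorem numH0 (x : ℝ) (h0 : 0 ≤ x) (h1 : x ≤ 1 / 4) :
    gg 0.828 + 0.000648 ≤ ww 0.828 0 * Real.exp (-(lam 0 ^ 2 / 6 + lam 0 ^ 4 / 170 * x))
      + ww 0.828 1 * Real.exp (-(Real.pi ^ 2 / 6 + Real.pi ^ 4 / 145 * x))
      + ww 0.828 2 * Real.exp (-(lam 2 ^ 2 / 6 + lam 2 ^ 4 / 180 * x))
      - |ww 0.828 3| * 0.00055 - |ww 0.828 4| * 0.00203 - 0.285 * 0.00091 := by
  obtain ⟨w0, w1, w2, w3, w4, g0⟩ := numW0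
  have hp1 := Real.pi_lt_d4
  have hp2 := Real.pi_gt_d4
  have hl0 : lam 0 = Real.pi / 3 := by
    unfold lam
    push_cast
    ring
  have hl2 : lam 2 = 5 * Real.pi / 3 := by
    unfold lam
    push_cast
    ring
  have hp0 : 0 < Real.pi := Real.pi_pos
  have hpsq : Real.pi ^ 2 ≤ 9.8697 := by nlinarith
  have hpsq2 : 9.868 ≤ Real.pi ^ 2 := by nlinarith
  have hp4 : Real.pi ^ 4 ≤ 97.411 := by
    have : Real.pi ^ 4 = Real.pi ^ 2 * Real.pi ^ 2 := by ring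
    rw [this]
    nlinarith [sq_nonneg Real.pi]
  have hp40 : 0 ≤ Real.pi ^ 4 := by positivity
  have hx4 : Real.pi ^ 4 * x ≤ 97.411 * (1 / 4) := mul_le_mul hp4 h1 h0 (by norm_num)
  have hx40 : 0 ≤ Real.pi ^ 4 * x := mul_nonneg hp40 h0
  have E0 : (0.831 : ℝ) ≤ Real.exp (-(lam 0 ^ 2 / 6 + lam 0 ^ 4 / 170 * x)) := by
    have h2 : lam 0 ^ 2 / 6 + lam 0 ^ 4 / 170 * x ≤ 0.1846 := by
      rw [hl0]
      have e : (Real.pi / 3) ^ 2 / 6 + (Real.pi / 3) ^ 4 / 170 * x =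
          Real.pi ^ 2 / 54 + Real.pi ^ 4 * x / 13770 := by ring
      rw [e]
      linarith
    have h3 := exp_neg_ge3 0.1846 (by norm_num)
    have h4 : Real.exp (-0.1846) ≤ Real.exp (-(lam 0 ^ 2 / 6 + lam 0 ^ 4 / 170 * x)) :=
      Real.exp_le_exp.2 (by linarith)
    refine le_trans (le_trans ?_ h3) h4
    norm_num
  have E1 : (0.16 : ℝ) ≤ Real.exp (-(Real.pi ^ 2 / 6 + Real.pi ^ 4 / 145 * x)) := by
    have h2 : Real.pi ^ 2 / 6 + Real.pi ^ 4 / 145 * x ≤ 1.813 := by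
      have e : Real.pi ^ 4 / 145 * x = Real.pi ^ 4 * x / 145 := by ring
      rw [e]
      linarith
    exact le_trans numH0_e1_numH0 (Real.exp_le_exp.2 (by linarith))
  have E2 : Real.exp (-(lam 2 ^ 2 / 6 + lam 2 ^ 4 / 180 * x)) ≤ 0.0184 := by
    have h2 : ((4 : ℕ) : ℝ) ≤ lam 2 ^ 2 / 6 + lam 2 ^ 4 / 180 * x := by
      rw [hl2]
      have e : (5 * Real.pi / 3) ^ 2 / 6 + (5 * Real.pi / 3) ^ 4 / 180 * x =
          25 * Real.pi ^ 2 / 54 + 625 / 14580 * (Real.pi ^ 4 * x) := by ring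
      rw [e]
      push_cast
      linarith
    refine le_trans (exp_neg_nat_le 4 _ h2) ?_
    norm_num
  have E2p : 0 < Real.exp (-(lam 2 ^ 2 / 6 + lam 2 ^ 4 / 180 * x)) := Real.exp_pos _
  have t0 : 0.97077 * 0.831 ≤ ww 0.828 0 * Real.exp (-(lam 0 ^ 2 / 6 + lam 0 ^ 4 / 170 * x)) :=
    mul_le_mul w0 E0 (by norm_num) (by linarith)
  have t1 : 0.21833 * 0.16 ≤ ww 0.828 1 * Real.exp (-(Real.pi ^ 2 / 6 + Real.pi ^ 4 / 145 * x)) :=
    mul_le_mul w1 E1 (by norm_num) (by linarith)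
  have t2 : -0.23677 * 0.0184 ≤ ww 0.828 2 * Real.exp (-(lam 2 ^ 2 / 6 + lam 2 ^ 4 / 180 * x)) := by
    have h5 : -0.23677 * Real.exp (-(lam 2 ^ 2 / 6 + lam 2 ^ 4 / 180 * x)) ≤
        ww 0.828 2 * Real.exp (-(lam 2 ^ 2 / 6 + lam 2 ^ 4 / 180 * x)) :=
      mul_le_mul_of_nonneg_right w2 E2p.le
    linarith
  have t3 : |ww 0.828 3| * 0.00055 ≤ 0.03857 * 0.00055 :=
    mul_le_mul_of_nonneg_right w3 (by norm_num)
  have t4 : |ww 0.828 4| * 0.00203 ≤ 0.1413 * 0.00203 :=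
    mul_le_mul_of_nonneg_right w4 (by norm_num)
  norm_num at t0 t1 t2 t3 t4 g0 ⊢
  linarith

end Pool.Agent.Helper131.Slab
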