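import Pool.Agent.Helper131.Slab.Defs

set_option maxRecDepth 100000

namespace Pool.Agent.Helper131.Slab

open MeasureTheory Set intervalIntegral Filter Topology

theorem numW1_cos2_numW1 : Real.cos (2 * (Real.pi / 5)) = (Real.sqrt 5 - 1) / 4 := by
  rw [Real.cos_two_mul, Real.cos_pi_div_five]
  have h : Real.sqrt 5 ^ 2 = 5 := Real.sq_sqrt (by norm_num)
  nlinarith [h]

theorem numW1_s0_numW1 : Real.sin (lam 0 * 0.9) = (1 + Real.sqrt 5) / 4 := by
  have h : lam 0 * 0.9 = Real.pi / 2 - Real.pi / 5 := by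
    unfold lam; push_cast; ring
  rw [h, Real.sin_pi_div_two_sub, Real.cos_pi_div_five]

theorem numW1_s1_numW1 : Real.sin (lam 1 * 0.9) = (Real.sqrt 5 - 1) / 4 := by
  have h : lam 1 * 0.9 = 2 * (Real.pi / 5) + Real.pi / 2 := by
    unfold lam; push_cast; ring
  rw [h, Real.sin_add_pi_div_two, numW1_cos2_numW1]

theorem numW1_s2_numW1 : Real.sin (lam 2 * 0.9) = -1 := by
  have h : lam 2 * 0.9 = Real.pi / 2 + Real.pi := by
    unfold lam; push_cast; ring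
  rw [h, Real.sin_add_pi, Real.sin_pi_div_two]

theorem numW1_s3_numW1 : Real.sin (lam 3 * 0.9) = (Real.sqrt 5 - 1) / 4 := by
  have h : lam 3 * 0.9 = (Real.pi / 2 - 2 * (Real.pi / 5)) + 2 * Real.pi := by
    unfold lam; push_cast; ring
  rw [h, Real.sin_add_two_pi, Real.sin_pi_div_two_sub, numW1_cos2_numW1]

theorem numW1_s4_numW1 : Real.sin (lam 4 * 0.9) = (1 + Real.sqrt 5) / 4 := by
  have h : lam 4 * 0.9 = (Real.pi / 5 + Real.pi / 2) + 2 * Real.pi := by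
    unfold lam; push_cast; ring
  rw [h, Real.sin_add_two_pi, Real.sin_add_pi_div_two, Real.cos_pi_div_five]

theorem numW1 : 1.03007 ≤ ww 0.9 0 ∧ 0.13115 ≤ ww 0.9 1 ∧ -0.25465 ≤ ww 0.9 2 ∧ |ww 0.9 3| ≤ 0.05621 ∧ |ww 0.9 4| ≤ 0.11446 ∧
    gg 0.9 ≤ 0.867793 := by
  have hp0 := Real.pi_pos
  have hp1 := Real.pi_gt_d6
  have hp2 := Real.pi_lt_d6
  have h51 : (2.236067 : ℝ) ≤ Real.sqrt 5 := Real.le_sqrt_of_sq_le (by norm_num)
  have h52 : Real.sqrt 5 ≤ 2.236068 := Real.sqrt_le_iff.mpr ⟨by norm_num, by norm_num⟩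
  have h21 : Real.sqrt 2 ≤ 1.4142144 := Real.sqrt_le_iff.mpr ⟨by norm_num, by norm_num⟩
  unfold ww gg
  rw [numW1_s0_numW1, numW1_s1_numW1, numW1_s2_numW1, numW1_s3_numW1, numW1_s4_numW1]
  refine ⟨?_, ?_, ?_, ?_, ?_, ?_⟩
  · rw [show 4 / ((2 * ((0 : ℕ) : ℝ) + 1) * Real.pi) * ((1 + Real.sqrt 5) / 4) =
      (1 + Real.sqrt 5) / Real.pi by push_cast; field_simp; ring, le_div_iff₀ hp0]
    linarith
  · rw [show 4 / ((2 * ((1 : ℕ) : ℝ) + 1) * Real.pi) * ((Real.sqrt 5 - 1) / 4) =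
      (Real.sqrt 5 - 1) / (3 * Real.pi) by push_cast; field_simp; ring, le_div_iff₀ (by positivity)]
    linarith
  · rw [show 4 / ((2 * ((2 : ℕ) : ℝ) + 1) * Real.pi) * (-1) =
      (-4) / (5 * Real.pi) by push_cast; field_simp; ring, le_div_iff₀ (by positivity)]
    linarith
  · rw [show 4 / ((2 * ((3 : ℕ) : ℝ) + 1) * Real.pi) * ((Real.sqrt 5 - 1) / 4) =
      (Real.sqrt 5 - 1) / (7 * Real.pi) by push_cast; field_simp; ring,
      abs_of_nonneg (div_nonneg (by linarith) (by positivity)), div_le_iff₀ (by positivity)]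
    linarith
  · rw [show 4 / ((2 * ((4 : ℕ) : ℝ) + 1) * Real.pi) * ((1 + Real.sqrt 5) / 4) =
      (1 + Real.sqrt 5) / (9 * Real.pi) by push_cast; field_simp; ring,
      abs_of_nonneg (div_nonneg (by linarith) (by positivity)), div_le_iff₀ (by positivity)]
    linarith
  · linarith

end Pool.Agent.Helper131.Slab
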