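import Pool.Agent.Helper131.Slab.Defs
import Pool.Agent.Helper131.Slab.L_numW1

set_option maxRecDepth 100000

namespace Pool.Agent.Helper131.Slab

open MeasureTheory Set intervalIntegral Filter Topology

theorem numH1 (x : ℝ) (h0 : 0 ≤ x) (h1 : x ≤ 1 / 4) :
    gg 0.9 + 0.000648 ≤ ww 0.9 0 * Real.exp (-(lam 0 ^ 2 / 6 + lam 0 ^ 4 / 170 * x))
      + ww 0.9 1 * Real.exp (-(Real.pi ^ 2 / 6 + Real.pi ^ 4 / 145 * x))
      + ww 0.9 2 * Real.exp (-(lam 2 ^ 2 / 6 + lam 2 ^ 4 / 180 * x))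
      - |ww 0.9 3| * 0.00055 - |ww 0.9 4| * 0.00203 - 0.285 * 0.00091 := by
  obtain ⟨w0, w1, w2, w3, w4, hg⟩ := numW1
  have p1 : Real.pi < 3.1415927 := by
    have := Real.pi_lt_d20; linarith
  have p0 : 3.1415926 < Real.pi := by
    have := Real.pi_gt_d20; linarith
  have pp : 0 < Real.pi := Real.pi_pos
  have pi2u : Real.pi ^ 2 < 9.869605 := by nlinarith
  have pi2l : 9.8696 < Real.pi ^ 2 := by nlinarith
  have pi4u : Real.pi ^ 4 < 97.4092 := by
    have : Real.pi ^ 4 = (Real.pi ^ 2) * (Real.pi ^ 2) := by ring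
    rw [this]; nlinarith
  have pi4p : 0 < Real.pi ^ 4 := by positivity
  have l0 : lam 0 ^ 2 = Real.pi ^ 2 / 9 := by simp only [lam]; push_cast; ring
  have l04 : lam 0 ^ 4 = Real.pi ^ 4 / 81 := by simp only [lam]; push_cast; ring
  have l2 : lam 2 ^ 2 = 25 * Real.pi ^ 2 / 9 := by simp only [lam]; push_cast; ring
  have l24 : lam 2 ^ 4 = 625 * Real.pi ^ 4 / 81 := by simp only [lam]; push_cast; ring
  -- E0
  have e0 : 0.83295 * (1 - 0.00708 * x) ≤ Real.exp (-(lam 0 ^ 2 / 6 + lam 0 ^ 4 / 170 * x)) := by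
    have a1 : (0.83295 : ℝ) ≤ Real.exp (-0.182771) := by
      refine le_trans ?_ (exp_neg_ge5 0.182771 (by norm_num))
      norm_num
    have a2 : 1 - 0.00708 * x ≤ Real.exp (-(0.00708 * x)) := exp_neg_ge1 _
    have a3 : Real.exp (-0.182771) * Real.exp (-(0.00708 * x))
        ≤ Real.exp (-(lam 0 ^ 2 / 6 + lam 0 ^ 4 / 170 * x)) := by
      rw [← Real.exp_add]
      apply Real.exp_le_exp.2
      rw [l0, l04]
      nlinarith
    refine le_trans ?_ a3
    exact mul_le_mul a1 a2 (by linarith) (Real.exp_pos _).le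
  have e1 : 0.1930 * (1 - 0.672 * x) ≤ Real.exp (-(Real.pi ^ 2 / 6 + Real.pi ^ 4 / 145 * x)) := by
    have a1 : (0.1930 : ℝ) ≤ Real.exp (-1.644936) := by
      have b1 : (0.66282 : ℝ) ≤ Real.exp (-0.411234) := by
        refine le_trans ?_ (exp_neg_ge5 0.411234 (by norm_num))
        norm_num
      have b2 : Real.exp (-1.644936) = Real.exp (-0.411234) ^ 4 := by
        rw [← Real.exp_nat_mul]; norm_num
      rw [b2]
      calc (0.1930 : ℝ) ≤ 0.66282 ^ 4 - 0 := by norm_num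
        _ ≤ Real.exp (-0.411234) ^ 4 := by
          rw [sub_zero]
          exact pow_le_pow_left₀ (by norm_num) b1 4
    have a2 : 1 - 0.672 * x ≤ Real.exp (-(0.672 * x)) := exp_neg_ge1 _
    have a3 : Real.exp (-1.644936) * Real.exp (-(0.672 * x))
        ≤ Real.exp (-(Real.pi ^ 2 / 6 + Real.pi ^ 4 / 145 * x)) := by
      rw [← Real.exp_add]
      apply Real.exp_le_exp.2
      nlinarith
    refine le_trans ?_ a3
    exact mul_le_mul a1 a2 (by linarith) (Real.exp_pos _).le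
  have e2 : Real.exp (-(lam 2 ^ 2 / 6 + lam 2 ^ 4 / 180 * x)) ≤ 0.0105 := by
    have a1 : Real.exp (-(lam 2 ^ 2 / 6 + lam 2 ^ 4 / 180 * x)) ≤ Real.exp (-4.56) := by
      apply Real.exp_le_exp.2
      rw [l2, l24]
      have : 0 ≤ Real.pi ^ 4 * x := by positivity
      nlinarith
    have b1 : Real.exp (-0.285) ≤ 0.7521 := by
      refine le_trans (exp_neg_le4 0.285 (by norm_num)) ?_
      norm_num
    have b2 : Real.exp (-4.56) = Real.exp (-0.285) ^ 16 := by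
      rw [← Real.exp_nat_mul]; norm_num
    rw [b2] at a1
    refine a1.trans ((pow_le_pow_left₀ (Real.exp_pos _).le b1 16).trans ?_)
    norm_num
  have e2p : 0 ≤ Real.exp (-(lam 2 ^ 2 / 6 + lam 2 ^ 4 / 180 * x)) := (Real.exp_pos _).le
  have t0 : 1.03007 * (0.83295 * (1 - 0.00708 * x))
      ≤ ww 0.9 0 * Real.exp (-(lam 0 ^ 2 / 6 + lam 0 ^ 4 / 170 * x)) :=
    mul_le_mul w0 e0 (by nlinarith) (by linarith)
  have t1 : 0.13115 * (0.1930 * (1 - 0.672 * x))
      ≤ ww 0.9 1 * Real.exp (-(Real.pi ^ 2 / 6 + Real.pi ^ 4 / 145 * x)) :=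
    mul_le_mul w1 e1 (by nlinarith) (by linarith)
  have t2 : -0.25465 * 0.0105 ≤ ww 0.9 2 * Real.exp (-(lam 2 ^ 2 / 6 + lam 2 ^ 4 / 180 * x)) := by
    nlinarith
  nlinarith

end Pool.Agent.Helper131.Slab
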