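import Pool.Agent.Helper131.Slab.Defs

set_option maxRecDepth 100000

namespace Pool.Agent.Helper131.Slab

open MeasureTheory Set intervalIntegral Filter Topology

private theorem sinLow_numW2 (x y : ℝ) (hy0 : 0 ≤ y) (hyx : y ≤ x) (hx : x ≤ Real.pi / 2) :
    y - y ^ 3 / 6 + y ^ 5 / 120 - y ^ 7 / 5040 ≤ Real.sin x := by
  refine (sin_ge_P7 y hy0).trans ?_
  exact Real.sin_le_sin_of_le_of_le_pi_div_two (by linarith [Real.pi_pos]) hx hyx

private theorem sinUp_numW2 (x y : ℝ) (hx0 : 0 ≤ x) (hxy : x ≤ y) (hy : y ≤ Real.pi / 2) :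
    Real.sin x ≤ y - y ^ 3 / 6 + y ^ 5 / 120 := by
  refine le_trans ?_ (sin_le_P5 y (hx0.trans hxy))
  exact Real.sin_le_sin_of_le_of_le_pi_div_two (by linarith [Real.pi_pos]) hy hxy

private theorem cosUp_numW2 (x y : ℝ) (hy0 : 0 ≤ y) (hyx : y ≤ x) (hx : x ≤ Real.pi) :
    Real.cos x ≤ 1 - y ^ 2 / 2 + y ^ 4 / 24 := by
  refine le_trans ?_ (cos_le_P4 y hy0)
  exact Real.cos_le_cos_of_nonneg_of_le_pi hy0 hx hyx

theorem numW2 : 1.06782 ≤ ww 0.95 0 ∧ 0.06639 ≤ ww 0.95 1 ∧ -0.24598 ≤ ww 0.95 2 ∧ |ww 0.95 3| ≤ 0.11447 ∧ |ww 0.95 4| ≤ 0.06423 ∧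
    gg 0.95 ≤ 0.892253 := by
  have hp1 := Real.pi_gt_d6
  have hp2 := Real.pi_lt_d6
  have hpi := Real.pi_pos
  refine ⟨?_, ?_, ?_, ?_, ?_, ?_⟩
  · have h : ww 0.95 0 = 4 / Real.pi * Real.sin (0.95 / 3 * Real.pi) := by
      unfold ww lam; norm_num; congr 1; ring
    rw [h, div_mul_eq_mul_div, le_div_iff₀ hpi]
    have h1 := sinLow_numW2 (0.95 / 3 * Real.pi) 0.9948374 (by norm_num) (by linarith) (by linarith)
    have h2 : (0.8386675 : ℝ) ≤ 0.9948374 - 0.9948374 ^ 3 / 6 + 0.9948374 ^ 5 / 120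
        - 0.9948374 ^ 7 / 5040 := by norm_num
    linarith
  · have h : ww 0.95 1 = 4 / (3 * Real.pi) * Real.sin (0.05 * Real.pi) := by
      have e : lam 1 * 0.95 = Real.pi - 0.05 * Real.pi := by unfold lam; norm_num; ring
      unfold ww
      rw [e, Real.sin_pi_sub]; norm_num
    rw [h, div_mul_eq_mul_div, le_div_iff₀ (by positivity)]
    have h1 := sinLow_numW2 (0.05 * Real.pi) 0.1570796 (by norm_num) (by linarith) (by linarith)
    have h2 : (0.156434 : ℝ) ≤ 0.1570796 - 0.1570796 ^ 3 / 6 + 0.1570796 ^ 5 / 120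
        - 0.1570796 ^ 7 / 5040 := by norm_num
    linarith
  · have h : ww 0.95 2 = 4 / (5 * Real.pi) * (- Real.cos (Real.pi / 12)) := by
      have e : lam 2 * 0.95 = (Real.pi / 12 + Real.pi / 2) + Real.pi := by
        unfold lam; norm_num; ring
      unfold ww
      rw [e, Real.sin_add_pi, Real.sin_add_pi_div_two]; norm_num
    rw [h, div_mul_eq_mul_div, le_div_iff₀ (by positivity)]
    have h1 := cosUp_numW2 (Real.pi / 12) 0.261799 (by norm_num) (by linarith) (by linarith)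
    have h2 : 1 - 0.261799 ^ 2 / 2 + 0.261799 ^ 4 / 24 ≤ (0.96593 : ℝ) := by norm_num
    linarith
  · have h : ww 0.95 3 = 4 / (7 * Real.pi) * Real.sin (0.65 / 3 * Real.pi) := by
      have e : lam 3 * 0.95 = 0.65 / 3 * Real.pi + 2 * Real.pi := by
        unfold lam; norm_num; ring
      unfold ww
      rw [e, Real.sin_add_two_pi]; norm_num
    have hs : Real.sin (0.65 / 3 * Real.pi) ≤ 0.629328 := by
      have e : 0.65 / 3 * Real.pi = 2 * (0.65 / 6 * Real.pi) := by ring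
      rw [e, Real.sin_two_mul]
      have h1 := sinUp_numW2 (0.65 / 6 * Real.pi) 0.3403393 (by positivity) (by linarith) (by linarith)
      have h2 : (0.3403393 : ℝ) - 0.3403393 ^ 3 / 6 + 0.3403393 ^ 5 / 120 ≤ 0.333808 := by norm_num
      have h3 := cosUp_numW2 (0.65 / 6 * Real.pi) 0.340339 (by norm_num) (by linarith) (by linarith)
      have h4 : (1 : ℝ) - 0.340339 ^ 2 / 2 + 0.340339 ^ 4 / 24 ≤ 0.942644 := by norm_num
      have h5 : 0 ≤ Real.sin (0.65 / 6 * Real.pi) :=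
        Real.sin_nonneg_of_mem_Icc ⟨by positivity, by linarith⟩
      have h6 : Real.cos (0.65 / 6 * Real.pi) ≤ 0.942644 := h3.trans h4
      have h7 : Real.sin (0.65 / 6 * Real.pi) ≤ 0.333808 := h1.trans h2
      calc 2 * Real.sin (0.65 / 6 * Real.pi) * Real.cos (0.65 / 6 * Real.pi)
          ≤ 2 * Real.sin (0.65 / 6 * Real.pi) * 0.942644 :=
            mul_le_mul_of_nonneg_left h6 (by linarith)
        _ ≤ 2 * 0.333808 * 0.942644 := by
            apply mul_le_mul_of_nonneg_right _ (by norm_num); linarith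
        _ ≤ 0.629328 := by norm_num
    have hs0 : 0 ≤ Real.sin (0.65 / 3 * Real.pi) :=
      Real.sin_nonneg_of_mem_Icc ⟨by positivity, by linarith⟩
    rw [h, abs_of_nonneg (by positivity), div_mul_eq_mul_div, div_le_iff₀ (by positivity)]
    linarith
  · have h : ww 0.95 4 = 4 / (9 * Real.pi) * Real.sin (0.15 * Real.pi) := by
      have e : lam 4 * 0.95 = (Real.pi - 0.15 * Real.pi) + 2 * Real.pi := by
        unfold lam; norm_num; ring
      unfold ww
      rw [e, Real.sin_add_two_pi, Real.sin_pi_sub]; norm_num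
    have h1 := sinUp_numW2 (0.15 * Real.pi) 0.471239 (by positivity) (by linarith) (by linarith)
    have h2 : (0.471239 : ℝ) - 0.471239 ^ 3 / 6 + 0.471239 ^ 5 / 120 ≤ 0.453995 := by norm_num
    have hs0 : 0 ≤ Real.sin (0.15 * Real.pi) :=
      Real.sin_nonneg_of_mem_Icc ⟨by positivity, by linarith⟩
    rw [h, abs_of_nonneg (by positivity), div_mul_eq_mul_div, div_le_iff₀ (by positivity)]
    linarith
  · have h : Real.sqrt 2 ≤ 1.4142136 := by
      rw [Real.sqrt_le_left (by norm_num)]; norm_num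
    unfold gg
    linarith

end Pool.Agent.Helper131.Slab
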