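import Pool.Agent.Helper131.Slab.Defs
import Pool.Agent.Helper131.Slab.L_numW2

set_option maxRecDepth 100000

namespace Pool.Agent.Helper131.Slab

open MeasureTheory Set intervalIntegral Filter Topology

theorem nh2_e0_numH2 (x : ℝ) (h0 : 0 ≤ x) (h1 : x ≤ 1 / 4) :
    (0.83139 : ℝ) ≤ Real.exp (-(lam 0 ^ 2 / 6 + lam 0 ^ 4 / 170 * x)) := by
  have hp := Real.pi_lt_d4
  have hp0 := Real.pi_pos
  have hl : lam 0 = Real.pi / 3 := by unfold lam; norm_num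
  rw [hl]
  have a2 : (Real.pi / 3) ^ 2 ≤ (3.1416 / 3) ^ 2 := by
    apply pow_le_pow_left₀ (by positivity); linarith
  have a4 : (Real.pi / 3) ^ 4 ≤ (3.1416 / 3) ^ 4 := by
    apply pow_le_pow_left₀ (by positivity); linarith
  have hu : (Real.pi / 3) ^ 2 / 6 + (Real.pi / 3) ^ 4 / 170 * x ≤ 0.1846 := by
    have h2 : (Real.pi / 3) ^ 4 / 170 * x ≤ (3.1416 / 3) ^ 4 / 170 * (1 / 4) :=
      mul_le_mul (by linarith) h1 h0 (by norm_num)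
    norm_num at a2 h2 ⊢
    linarith
  calc (0.83139 : ℝ) ≤ 1 - 0.1846 + 0.1846 ^ 2 / 2 - 0.1846 ^ 3 / 6 := by norm_num
    _ ≤ Real.exp (-0.1846) := exp_neg_ge3 0.1846 (by norm_num)
    _ ≤ _ := Real.exp_le_exp.2 (by linarith)

theorem nh2_e1_numH2 (x : ℝ) (h0 : 0 ≤ x) (h1 : x ≤ 1 / 4) :
    (0.1625 : ℝ) ≤ Real.exp (-(Real.pi ^ 2 / 6 + Real.pi ^ 4 / 145 * x)) := by
  have hp := Real.pi_lt_d4
  have hp0 := Real.pi_pos
  have a2 : Real.pi ^ 2 ≤ 3.1416 ^ 2 := by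
    apply pow_le_pow_left₀ (by positivity); linarith
  have a4 : Real.pi ^ 4 ≤ 3.1416 ^ 4 := by
    apply pow_le_pow_left₀ (by positivity); linarith
  have hu : Real.pi ^ 2 / 6 + Real.pi ^ 4 / 145 * x ≤ 0.9065 + 0.9065 := by
    have h2 : Real.pi ^ 4 / 145 * x ≤ 3.1416 ^ 4 / 145 * (1 / 4) :=
      mul_le_mul (by linarith) h1 h0 (by norm_num)
    norm_num at a2 h2 ⊢
    linarith
  have h3 : (0.4032 : ℝ) ≤ Real.exp (-0.9065) := by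
    refine le_trans ?_ (exp_neg_ge5 0.9065 (by norm_num))
    norm_num
  calc (0.1625 : ℝ) ≤ 0.4032 * 0.4032 := by norm_num
    _ ≤ Real.exp (-0.9065) * Real.exp (-0.9065) := by
        apply mul_le_mul h3 h3 (by norm_num) (Real.exp_pos _).le
    _ = Real.exp (-(0.9065 + 0.9065)) := by rw [← Real.exp_add]; congr 1; ring
    _ ≤ _ := Real.exp_le_exp.2 (by linarith)

theorem nh2_e2_numH2 (x : ℝ) (h0 : 0 ≤ x) :
    Real.exp (-(lam 2 ^ 2 / 6 + lam 2 ^ 4 / 180 * x)) ≤ 0.01832 := by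
  have hp := Real.pi_gt_d2
  have hp0 := Real.pi_pos
  have hl : lam 2 = 5 * Real.pi / 3 := by unfold lam; norm_num
  rw [hl]
  have a2 : (5 * 3.14 / 3 : ℝ) ^ 2 ≤ (5 * Real.pi / 3) ^ 2 := by
    apply pow_le_pow_left₀ (by norm_num); linarith
  have hu : 4 ≤ (5 * Real.pi / 3) ^ 2 / 6 + (5 * Real.pi / 3) ^ 4 / 180 * x := by
    have h2 : 0 ≤ (5 * Real.pi / 3) ^ 4 / 180 * x := by positivity
    norm_num at a2 h2 ⊢
    linarith
  have he := Real.exp_one_gt_d9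
  have h4 : (54.59 : ℝ) ≤ Real.exp 4 := by
    have : Real.exp 4 = Real.exp 1 ^ 4 := by rw [← Real.exp_nat_mul]; norm_num
    rw [this]
    calc (54.59 : ℝ) ≤ 2.7182 ^ 4 := by norm_num
      _ ≤ _ := by apply pow_le_pow_left₀ (by norm_num); linarith
  calc Real.exp (-((5 * Real.pi / 3) ^ 2 / 6 + (5 * Real.pi / 3) ^ 4 / 180 * x)) ≤ Real.exp (-4) :=
        Real.exp_le_exp.2 (by linarith)
    _ = (Real.exp 4)⁻¹ := Real.exp_neg 4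
    _ ≤ (54.59)⁻¹ := inv_anti₀ (by norm_num) h4
    _ ≤ 0.01832 := by norm_num

theorem numH2 (x : ℝ) (h0 : 0 ≤ x) (h1 : x ≤ 1 / 4) :
    gg 0.95 + 0.0003125 ≤ ww 0.95 0 * Real.exp (-(lam 0 ^ 2 / 6 + lam 0 ^ 4 / 170 * x))
      + ww 0.95 1 * Real.exp (-(Real.pi ^ 2 / 6 + Real.pi ^ 4 / 145 * x))
      + ww 0.95 2 * Real.exp (-(lam 2 ^ 2 / 6 + lam 2 ^ 4 / 180 * x))
      - |ww 0.95 3| * 0.00055 - |ww 0.95 4| * 0.00203 - 0.285 * 0.00091 := by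
  obtain ⟨w0, w1, w2, w3, w4, hg⟩ := numW2
  have e0 := nh2_e0_numH2 x h0 h1
  have e1 := nh2_e1_numH2 x h0 h1
  have e2 := nh2_e2_numH2 x h0
  have p0 : (1.06782 : ℝ) * 0.83139 ≤ ww 0.95 0 * Real.exp (-(lam 0 ^ 2 / 6 + lam 0 ^ 4 / 170 * x)) :=
    mul_le_mul w0 e0 (by norm_num) (by linarith)
  have p1 : (0.06639 : ℝ) * 0.1625 ≤ ww 0.95 1 * Real.exp (-(Real.pi ^ 2 / 6 + Real.pi ^ 4 / 145 * x)) :=
    mul_le_mul w1 e1 (by norm_num) (by linarith)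
  have p2 : -(0.24598 : ℝ) * 0.01832 ≤ ww 0.95 2 * Real.exp (-(lam 2 ^ 2 / 6 + lam 2 ^ 4 / 180 * x)) := by
    have q := (Real.exp_pos (-(lam 2 ^ 2 / 6 + lam 2 ^ 4 / 180 * x))).le
    have q1 : -(0.24598 : ℝ) * Real.exp (-(lam 2 ^ 2 / 6 + lam 2 ^ 4 / 180 * x)) ≤
        ww 0.95 2 * Real.exp (-(lam 2 ^ 2 / 6 + lam 2 ^ 4 / 180 * x)) :=
      mul_le_mul_of_nonneg_right w2 q
    linarith
  norm_num at *
  linarith

end Pool.Agent.Helper131.Slab
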