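import Pool.Agent.Helper131.Slab.Defs

set_option maxRecDepth 100000

namespace Pool.Agent.Helper131.Slab

open MeasureTheory Set intervalIntegral Filter Topology

theorem numW3_cos_le_P8_numW3 (x : ℝ) (hx : 0 ≤ x) :
    Real.cos x ≤ 1 - x ^ 2 / 2 + x ^ 4 / 24 - x ^ 6 / 720 + x ^ 8 / 40320 := by
  have h := nonneg_of_deriv
    (f := fun x => 1 - x ^ 2 / 2 + x ^ 4 / 24 - x ^ 6 / 720 + x ^ 8 / 40320 - Real.cos x)
    (f' := fun x => Real.sin x - (x - x ^ 3 / 6 + x ^ 5 / 120 - x ^ 7 / 5040))
    (fun x => by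
      have h1 := (((((hasDerivAt_const x (1:ℝ)).sub ((hasDerivAt_pow 2 x).div_const 2)).add
        ((hasDerivAt_pow 4 x).div_const 24)).sub ((hasDerivAt_pow 6 x).div_const 720)).add
        ((hasDerivAt_pow 8 x).div_const 40320)).sub (Real.hasDerivAt_cos x)
      refine h1.congr_deriv ?_
      push_cast
      ring)
    (by norm_num) (fun x hx => by
      have := sin_ge_P7 x hx
      linarith) x hx
  linarith

theorem numW3 : 1.08561 ≤ ww 0.975 0 ∧ 0.03329 ≤ ww 0.975 1 ∧ -0.23527 ≤ ww 0.975 2 ∧ |ww 0.975 3| ≤ 0.13832 ∧ |ww 0.975 4| ≤ 0.03303 ∧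
    gg 0.975 ≤ 0.903546 := by
  have plo : (3.1415926 : ℝ) < Real.pi := by
    have := Real.pi_gt_d20
    linarith
  have phi : Real.pi < (3.1415927 : ℝ) := by
    have := Real.pi_lt_d20
    linarith
  have hpos := Real.pi_pos
  have s0 : (0.8526395 : ℝ) ≤ Real.sin (lam 0 * 0.975) := by
    have e : lam 0 * 0.975 = Real.pi / 2 - 0.175 * Real.pi := by
      unfold lam; push_cast; ring
    rw [e, Real.sin_pi_div_two_sub]
    have h1 : Real.cos (0.175 * 3.1415927) ≤ Real.cos (0.175 * Real.pi) :=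
      Real.cos_le_cos_of_nonneg_of_le_pi (by positivity) (by linarith) (by linarith)
    have h2 := cos_ge_P6 (0.175 * 3.1415927) (by norm_num)
    refine le_trans ?_ (h2.trans h1)
    norm_num
  have s1 : (0.07845 : ℝ) ≤ Real.sin (lam 1 * 0.975) := by
    have e : lam 1 * 0.975 = Real.pi - 0.025 * Real.pi := by
      unfold lam; push_cast; ring
    rw [e, Real.sin_pi_sub]
    have h1 : Real.sin (0.025 * 3.1415926) ≤ Real.sin (0.025 * Real.pi) :=
      Real.sin_le_sin_of_le_of_le_pi_div_two (by linarith) (by linarith) (by linarith)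
    have h2 := sin_ge_P7 (0.025 * 3.1415926) (by norm_num)
    refine le_trans ?_ (h2.trans h1)
    norm_num
  have s2 : -(0.92389 : ℝ) ≤ Real.sin (lam 2 * 0.975) := by
    have e : lam 2 * 0.975 = -(Real.pi / 2 - 0.125 * Real.pi) + 2 * Real.pi := by
      unfold lam; push_cast; ring
    rw [e, Real.sin_add_two_pi, Real.sin_neg, Real.sin_pi_div_two_sub]
    have h1 : Real.cos (0.125 * Real.pi) ≤ Real.cos (0.125 * 3.1415926) :=
      Real.cos_le_cos_of_nonneg_of_le_pi (by norm_num) (by linarith) (by linarith)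
    have h2 := cos_le_P4 (0.125 * 3.1415926) (by norm_num)
    have h3 := h1.trans h2
    norm_num at h3 ⊢
    linarith
  have s3 : Real.sin (lam 3 * 0.975) ≤ 0.76041 ∧ 0 ≤ Real.sin (lam 3 * 0.975) := by
    have e : lam 3 * 0.975 = (Real.pi / 2 - 0.225 * Real.pi) + 2 * Real.pi := by
      unfold lam; push_cast; ring
    rw [e, Real.sin_add_two_pi, Real.sin_pi_div_two_sub]
    have h1 : Real.cos (0.225 * Real.pi) ≤ Real.cos (0.225 * 3.1415926) :=
      Real.cos_le_cos_of_nonneg_of_le_pi (by norm_num) (by linarith) (by linarith)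
    have h2 := numW3_cos_le_P8_numW3 (0.225 * 3.1415926) (by norm_num)
    constructor
    · refine (h1.trans h2).trans ?_
      norm_num
    · exact Real.cos_nonneg_of_neg_pi_div_two_le_of_le (by linarith) (by linarith)
  have s4 : Real.sin (lam 4 * 0.975) ≤ 0.233446 ∧ 0 ≤ Real.sin (lam 4 * 0.975) := by
    have e : lam 4 * 0.975 = (Real.pi - 0.075 * Real.pi) + 2 * Real.pi := by
      unfold lam; push_cast; ring
    rw [e, Real.sin_add_two_pi, Real.sin_pi_sub]
    have h1 : Real.sin (0.075 * Real.pi) ≤ Real.sin (0.075 * 3.1415927) :=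
      Real.sin_le_sin_of_le_of_le_pi_div_two (by linarith) (by linarith) (by linarith)
    have h2 := sin_le_P5 (0.075 * 3.1415927) (by norm_num)
    constructor
    · refine (h1.trans h2).trans ?_
      norm_num
    · exact Real.sin_nonneg_of_nonneg_of_le_pi (by positivity) (by linarith)
  have hw : ∀ k : ℕ, ww 0.975 k = 4 * Real.sin (lam k * 0.975) / ((2 * (k : ℝ) + 1) * Real.pi) := by
    intro k
    unfold ww
    rw [div_mul_eq_mul_div]
  refine ⟨?_, ?_, ?_, ?_, ?_, ?_⟩
  · rw [hw, le_div_iff₀ (by positivity)]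
    push_cast
    linarith
  · rw [hw, le_div_iff₀ (by positivity)]
    push_cast
    linarith
  · rw [hw, le_div_iff₀ (by positivity)]
    push_cast
    linarith
  · rw [hw, abs_of_nonneg (div_nonneg (by linarith [s3.2]) (by positivity)),
      div_le_iff₀ (by positivity)]
    push_cast
    linarith [s3.1]
  · rw [hw, abs_of_nonneg (div_nonneg (by linarith [s4.2]) (by positivity)),
      div_le_iff₀ (by positivity)]
    push_cast
    linarith [s4.1]
  · unfold gg
    have h1 : Real.sqrt 2 ≤ 1.4142136 := by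
      rw [Real.sqrt_le_left (by norm_num)]
      norm_num
    norm_num at h1 ⊢
    linarith

end Pool.Agent.Helper131.Slab
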