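import Pool.Agent.Helper131.Slab.Defs
import Pool.Agent.Helper131.Slab.L_numW3

set_option maxRecDepth 100000

namespace Pool.Agent.Helper131.Slab

open MeasureTheory Set intervalIntegral Filter Topology

theorem numH3_e0_numH3 (x : ℝ) (h0 : 0 ≤ x) (h1 : x ≤ 1 / 4) :
    0.8312 ≤ Real.exp (-(lam 0 ^ 2 / 6 + lam 0 ^ 4 / 170 * x)) := by
  have hp1 := Real.pi_gt_d4
  have hp2 := Real.pi_lt_d4
  have hl : lam 0 = Real.pi / 3 := by unfold lam; norm_num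
  have hl0 : 1.0471 < lam 0 := by rw [hl]; linarith
  have hl1 : lam 0 < 1.0473 := by rw [hl]; linarith
  have h2 : lam 0 ^ 2 ≤ 1.0473 ^ 2 := by nlinarith
  have h4 : lam 0 ^ 4 ≤ 1.0473 ^ 4 := by
    have : lam 0 ^ 4 = (lam 0 ^ 2) ^ 2 := by ring
    rw [this]
    have h20 : 0 ≤ lam 0 ^ 2 := by positivity
    nlinarith
  have h5 : lam 0 ^ 4 / 170 * x ≤ 1.0473 ^ 4 / 170 * (1/4) := by
    have h6 : 0 ≤ lam 0 ^ 4 := by positivity
    have : lam 0 ^ 4 / 170 ≤ 1.0473 ^ 4 / 170 := by linarith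
    exact mul_le_mul this h1 h0 (by positivity)
  have hu : lam 0 ^ 2 / 6 + lam 0 ^ 4 / 170 * x ≤ 0.1846 := by
    norm_num at h2 h5 ⊢
    linarith
  have h7 : Real.exp (-0.1846) ≤ Real.exp (-(lam 0 ^ 2 / 6 + lam 0 ^ 4 / 170 * x)) := by
    apply Real.exp_le_exp.2
    linarith
  have h8 := exp_neg_ge3 0.1846 (by norm_num)
  refine le_trans ?_ (le_trans h8 h7)
  norm_num

theorem numH3_e1_numH3 (x : ℝ) (h0 : 0 ≤ x) (h1 : x ≤ 1 / 4) :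
    0.15 ≤ Real.exp (-(Real.pi ^ 2 / 6 + Real.pi ^ 4 / 145 * x)) := by
  have hp1 := Real.pi_gt_d4
  have hp2 := Real.pi_lt_d4
  have h2 : Real.pi ^ 2 ≤ 3.1416 ^ 2 := by nlinarith
  have h4 : Real.pi ^ 4 ≤ 3.1416 ^ 4 := by
    have : Real.pi ^ 4 = (Real.pi ^ 2) ^ 2 := by ring
    rw [this]
    have h20 : 0 ≤ Real.pi ^ 2 := by positivity
    nlinarith
  have h5 : Real.pi ^ 4 / 145 * x ≤ 3.1416 ^ 4 / 145 * (1/4) := by
    have h6 : 0 ≤ Real.pi ^ 4 := by positivity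
    have : Real.pi ^ 4 / 145 ≤ 3.1416 ^ 4 / 145 := by linarith
    exact mul_le_mul this h1 h0 (by positivity)
  have hu : Real.pi ^ 2 / 6 + Real.pi ^ 4 / 145 * x ≤ 1.8132 := by
    norm_num at h2 h5 ⊢
    linarith
  have h7 : Real.exp (-1.8132) ≤ Real.exp (-(Real.pi ^ 2 / 6 + Real.pi ^ 4 / 145 * x)) := by
    apply Real.exp_le_exp.2
    linarith
  have h8 := exp_neg_ge3 (1.8132/4) (by norm_num)
  have h9 : Real.exp (-1.8132) = (Real.exp (-(1.8132/4))) ^ 4 := by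
    rw [← Real.exp_nat_mul]; congr 1; norm_num
  refine le_trans ?_ h7
  rw [h9]
  have h10 : (0.6305 : ℝ) ≤ Real.exp (-(1.8132/4)) := by
    refine le_trans ?_ h8
    norm_num
  have h11 : (0.6305 : ℝ) ^ 4 ≤ (Real.exp (-(1.8132/4))) ^ 4 := pow_le_pow_left₀ (by norm_num) h10 4
  refine le_trans ?_ h11
  norm_num

theorem numH3_e2_numH3 (x : ℝ) (h0 : 0 ≤ x) :
    Real.exp (-(lam 2 ^ 2 / 6 + lam 2 ^ 4 / 180 * x)) ≤ 0.0109 := by
  have hp1 := Real.pi_gt_d4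
  have hl : lam 2 = 5 * Real.pi / 3 := by unfold lam; norm_num
  have hl0 : 5.2358 < lam 2 := by rw [hl]; linarith
  have h2 : 5.2358 ^ 2 ≤ lam 2 ^ 2 := by nlinarith
  have h4 : 0 ≤ lam 2 ^ 4 / 180 * x := by positivity
  have hu : 4 + 0.5689 ≤ lam 2 ^ 2 / 6 + lam 2 ^ 4 / 180 * x := by
    norm_num at h2 ⊢
    linarith
  have h7 : Real.exp (-(lam 2 ^ 2 / 6 + lam 2 ^ 4 / 180 * x)) ≤ Real.exp (-4 + -0.5689) := by
    apply Real.exp_le_exp.2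
    linarith
  refine le_trans h7 ?_
  rw [Real.exp_add]
  have h8 := exp_neg_nat_le 4 4 (by norm_num)
  have h9 := exp_neg_le2 0.5689 (by norm_num)
  have h10 : Real.exp (-0.5689) ≤ 0.593 := by
    refine le_trans h9 ?_
    norm_num
  calc Real.exp (-4) * Real.exp (-0.5689) ≤ 0.36788 ^ 4 * 0.593 := by
        apply mul_le_mul h8 h10 (Real.exp_pos _).le (by positivity)
    _ ≤ 0.0109 := by norm_num

theorem numH3_core_numH3 (W0 W1 W2 A3 A4 E0 E1 E2 G : ℝ) (h0 : 1.08561 ≤ W0) (h1 : 0.03329 ≤ W1)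
    (h2 : -0.23527 ≤ W2) (h3 : A3 ≤ 0.13832) (h4 : A4 ≤ 0.03303) (hG : G ≤ 0.903546)
    (e0 : 0.8312 ≤ E0) (e1 : 0.15 ≤ E1) (e2 : E2 ≤ 0.0109) (e2' : 0 ≤ E2) :
    G + 0.000078125 ≤ W0 * E0 + W1 * E1 + W2 * E2 - A3 * 0.00055 - A4 * 0.00203 - 0.285 * 0.00091 := by
  have a0 : 1.08561 * 0.8312 ≤ W0 * E0 := mul_le_mul h0 e0 (by norm_num) (by linarith)
  have a1 : 0.03329 * 0.15 ≤ W1 * E1 := mul_le_mul h1 e1 (by norm_num) (by linarith)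
  have a2 : -0.23527 * E2 ≤ W2 * E2 := mul_le_mul_of_nonneg_right h2 e2'
  norm_num at *
  linarith




theorem numH3 (x : ℝ) (h0 : 0 ≤ x) (h1 : x ≤ 1 / 4) :
    gg 0.975 + 0.000078125 ≤ ww 0.975 0 * Real.exp (-(lam 0 ^ 2 / 6 + lam 0 ^ 4 / 170 * x))
      + ww 0.975 1 * Real.exp (-(Real.pi ^ 2 / 6 + Real.pi ^ 4 / 145 * x))
      + ww 0.975 2 * Real.exp (-(lam 2 ^ 2 / 6 + lam 2 ^ 4 / 180 * x))
      - |ww 0.975 3| * 0.00055 - |ww 0.975 4| * 0.00203 - 0.285 * 0.00091 := by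
  obtain ⟨w0, w1, w2, w3, w4, wg⟩ := numW3
  exact numH3_core_numH3 _ _ _ _ _ _ _ _ _ w0 w1 w2 w3 w4 wg (numH3_e0_numH3 x h0 h1) (numH3_e1_numH3 x h0 h1)
    (numH3_e2_numH3 x h0) (Real.exp_pos _).le

end Pool.Agent.Helper131.Slab
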