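import Pool.Agent.Helper131.Slab.Defs

set_option maxRecDepth 100000

namespace Pool.Agent.Helper131.Slab

open MeasureTheory Set intervalIntegral Filter Topology

theorem numW4 : 1.10265 ≤ ww 1.0 0 ∧ 0.0 ≤ ww 1.0 1 ∧ -0.22054 ≤ ww 1.0 2 ∧ |ww 1.0 3| ≤ 0.15753 ∧ |ww 1.0 4| ≤ 0.00001 ∧
    gg 1.0 ≤ 0.914214 := by
  have h3l : (1.73205 : ℝ) ≤ Real.sqrt 3 := Real.le_sqrt_of_sq_le (by norm_num)
  have h3u : Real.sqrt 3 ≤ 1.73206 := by
    rw [Real.sqrt_le_left (by norm_num)]
    norm_num
  have h2u : Real.sqrt 2 ≤ 1.414214 := by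
    rw [Real.sqrt_le_left (by norm_num)]
    norm_num
  have hpl := Real.pi_gt_d6
  have hpu := Real.pi_lt_d6
  have hp := Real.pi_pos
  have one : (1.0 : ℝ) = 1 := by norm_num
  have s0 : Real.sin (lam 0 * 1.0) = Real.sqrt 3 / 2 := by
    have h : lam 0 * 1.0 = Real.pi / 3 := by
      rw [one, mul_one]
      unfold lam
      push_cast
      ring
    rw [h, Real.sin_pi_div_three]
  have s1 : Real.sin (lam 1 * 1.0) = 0 := by
    have h : lam 1 * 1.0 = Real.pi := by
      rw [one, mul_one]
      unfold lam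
      push_cast
      ring
    rw [h, Real.sin_pi]
  have s2 : Real.sin (lam 2 * 1.0) = -(Real.sqrt 3 / 2) := by
    have h : lam 2 * 1.0 = 2 * Real.pi - Real.pi / 3 := by
      rw [one, mul_one]
      unfold lam
      push_cast
      ring
    rw [h, Real.sin_two_pi_sub, Real.sin_pi_div_three]
  have s3 : Real.sin (lam 3 * 1.0) = Real.sqrt 3 / 2 := by
    have h : lam 3 * 1.0 = Real.pi / 3 + 2 * Real.pi := by
      rw [one, mul_one]
      unfold lam
      push_cast
      ring
    rw [h, Real.sin_add_two_pi, Real.sin_pi_div_three]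
  have s4 : Real.sin (lam 4 * 1.0) = 0 := by
    have h : lam 4 * 1.0 = Real.pi + 2 * Real.pi := by
      rw [one, mul_one]
      unfold lam
      push_cast
      ring
    rw [h, Real.sin_add_two_pi, Real.sin_pi]
  refine ⟨?_, ?_, ?_, ?_, ?_, ?_⟩
  · unfold ww
    rw [s0, div_mul_eq_mul_div, le_div_iff₀ (by positivity)]
    push_cast
    nlinarith
  · unfold ww
    rw [s1, mul_zero]
    norm_num
  · unfold ww
    rw [s2, mul_neg, div_mul_eq_mul_div, neg_le_neg_iff, div_le_iff₀ (by positivity)]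
    push_cast
    nlinarith
  · unfold ww
    rw [s3, abs_of_nonneg (by positivity), div_mul_eq_mul_div, div_le_iff₀ (by positivity)]
    push_cast
    nlinarith
  · unfold ww
    rw [s4, mul_zero, abs_zero]
    norm_num
  · unfold gg
    norm_num at h2u ⊢
    linarith

end Pool.Agent.Helper131.Slab
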