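import Pool.Agent.Helper131.Slab.Defs
import Pool.Agent.Helper131.Slab.L_numW4

set_option maxRecDepth 100000

namespace Pool.Agent.Helper131.Slab

open MeasureTheory Set intervalIntegral Filter Topology

theorem numH4 (x : ℝ) (h0 : 0 ≤ x) (h1 : x ≤ 1 / 4) :
    gg 1.0 + 0.000078125 ≤ ww 1.0 0 * Real.exp (-(lam 0 ^ 2 / 6 + lam 0 ^ 4 / 170 * x))
      + ww 1.0 1 * Real.exp (-(Real.pi ^ 2 / 6 + Real.pi ^ 4 / 145 * x))
      + ww 1.0 2 * Real.exp (-(lam 2 ^ 2 / 6 + lam 2 ^ 4 / 180 * x))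
      - |ww 1.0 3| * 0.00055 - |ww 1.0 4| * 0.00203 - 0.285 * 0.00091 := by
  obtain ⟨w0, w1, w2, w3, w4, hg⟩ := numW4
  have hp1 : 3.14159 < Real.pi := by have := Real.pi_gt_d6; linarith
  have hp2 : Real.pi < 3.1416 := by have := Real.pi_lt_d4; linarith
  have hq1 : (9.86958 : ℝ) ≤ Real.pi ^ 2 := by nlinarith
  have hq2 : Real.pi ^ 2 ≤ 9.86966 := by nlinarith
  have hl0 : lam 0 ^ 2 = Real.pi ^ 2 / 9 := by unfold lam; push_cast; ring
  have hl04 : lam 0 ^ 4 = (Real.pi ^ 2) ^ 2 / 81 := by unfold lam; push_cast; ring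
  have hl2 : lam 2 ^ 2 = 25 * Real.pi ^ 2 / 9 := by unfold lam; push_cast; ring
  have hl24 : lam 2 ^ 4 = 625 * (Real.pi ^ 2) ^ 2 / 81 := by unfold lam; push_cast; ring
  rw [hl0, hl04, hl2, hl24]
  set p := Real.pi ^ 2 with hp
  have hpp1 : (97.408 : ℝ) ≤ p ^ 2 := by nlinarith
  have hpp2 : p ^ 2 ≤ 97.411 := by nlinarith
  -- E0
  have hE0 : 0.8329 * (1 - 0.00708 * x) ≤ Real.exp (-(p / 9 / 6 + p ^ 2 / 81 / 170 * x)) := by
    have e : -(p / 9 / 6 + p ^ 2 / 81 / 170 * x) = -(p / 54) + -(p ^ 2 / 13770 * x) := by ring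
    rw [e, Real.exp_add]
    have a1 : (0.8329 : ℝ) ≤ Real.exp (-(p / 54)) := by
      have b1 : Real.exp (-(0.18278 : ℝ)) ≤ Real.exp (-(p / 54)) := by
        rw [Real.exp_le_exp]; linarith
      have b2 := exp_neg_ge3 0.18278 (by norm_num)
      norm_num at b2
      linarith
    have a2 : 1 - 0.00708 * x ≤ Real.exp (-(p ^ 2 / 13770 * x)) := by
      have b1 := Real.add_one_le_exp (-(p ^ 2 / 13770 * x))
      have b2 : p ^ 2 / 13770 * x ≤ 0.00708 * x := by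
        apply mul_le_mul_of_nonneg_right _ h0
        linarith
      linarith
    exact mul_le_mul a1 a2 (by linarith) (Real.exp_pos _).le
  -- E2
  have hE2 : Real.exp (-(25 * p / 9 / 6 + 625 * p ^ 2 / 81 / 180 * x)) ≤
      0.0113 * (1 - 4.17 * x + 8.7362 * x ^ 2) := by
    have e : -(25 * p / 9 / 6 + 625 * p ^ 2 / 81 / 180 * x) =
      -(25 * p / 54) + -(625 * p ^ 2 / 14580 * x) := by ring
    rw [e, Real.exp_add]
    have a1 : Real.exp (-(25 * p / 54)) ≤ 0.0113 := by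
      have b1 : Real.exp (-(25 * p / 54)) ≤ Real.exp (-(9 / 2 : ℝ)) := by
        rw [Real.exp_le_exp]; linarith
      have b2 : Real.exp (-(9 / 2 : ℝ)) = (Real.exp (9 / 2))⁻¹ := Real.exp_neg _
      have b3 : Real.exp (9 / 2 : ℝ) = Real.exp 1 ^ 4 * Real.exp (1 / 2) := by
        rw [← Real.exp_nat_mul, ← Real.exp_add]; norm_num
      have b4 : (54.59 : ℝ) ≤ Real.exp 1 ^ 4 := by
        have c1 : (2.7182 : ℝ) ≤ Real.exp 1 := by have := Real.exp_one_gt_d9; linarith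
        calc (54.59 : ℝ) ≤ 2.7182 ^ 4 := by norm_num
          _ ≤ Real.exp 1 ^ 4 := pow_le_pow_left₀ (by norm_num) c1 4
      have b5 : (1.625 : ℝ) ≤ Real.exp (1 / 2) := by
        have := Real.quadratic_le_exp_of_nonneg (show (0 : ℝ) ≤ 1 / 2 by norm_num)
        norm_num at this
        linarith
      have b6 : (88.7 : ℝ) ≤ Real.exp (9 / 2) := by
        rw [b3]
        calc (88.7 : ℝ) ≤ 54.59 * 1.625 := by norm_num
          _ ≤ _ := mul_le_mul b4 b5 (by norm_num) (by positivity)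
      have b7 : (Real.exp (9 / 2))⁻¹ ≤ (88.7 : ℝ)⁻¹ := inv_anti₀ (by norm_num) b6
      rw [b2] at b1
      calc _ ≤ _ := b1
        _ ≤ _ := b7
        _ ≤ 0.0113 := by norm_num
    have a2 : Real.exp (-(625 * p ^ 2 / 14580 * x)) ≤ 1 - 4.17 * x + 8.7362 * x ^ 2 := by
      have b1 := exp_neg_le2 (625 * p ^ 2 / 14580 * x) (by positivity)
      have b2 : 4.17 * x ≤ 625 * p ^ 2 / 14580 * x := by
        apply mul_le_mul_of_nonneg_right _ h0
        linarith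
      have b3 : 625 * p ^ 2 / 14580 * x ≤ 4.18 * x := by
        apply mul_le_mul_of_nonneg_right _ h0
        linarith
      have b4 : (625 * p ^ 2 / 14580 * x) ^ 2 ≤ (4.18 * x) ^ 2 :=
        pow_le_pow_left₀ (by positivity) b3 2
      nlinarith
    exact mul_le_mul a1 a2 (Real.exp_pos _).le (by norm_num)
  have hE0p : 0 < Real.exp (-(p / 9 / 6 + p ^ 2 / 81 / 170 * x)) := Real.exp_pos _
  have hE1p : 0 < Real.exp (-(p / 6 + Real.pi ^ 4 / 145 * x)) := Real.exp_pos _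
  have hE2p : 0 < Real.exp (-(25 * p / 9 / 6 + 625 * p ^ 2 / 81 / 180 * x)) := Real.exp_pos _
  have t0 := mul_le_mul_of_nonneg_right w0 hE0p.le
  have t1 : 0 ≤ ww 1.0 1 * Real.exp (-(p / 6 + Real.pi ^ 4 / 145 * x)) :=
    mul_nonneg (by norm_num at w1 ⊢; exact w1) hE1p.le
  have t2 := mul_le_mul_of_nonneg_right w2 hE2p.le
  have t3 : 1.10265 * (0.8329 * (1 - 0.00708 * x)) ≤
    1.10265 * Real.exp (-(p / 9 / 6 + p ^ 2 / 81 / 170 * x)) :=
    mul_le_mul_of_nonneg_left hE0 (by norm_num)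
  have t4 : 0.22054 * Real.exp (-(25 * p / 9 / 6 + 625 * p ^ 2 / 81 / 180 * x)) ≤
      0.22054 * (0.0113 * (1 - 4.17 * x + 8.7362 * x ^ 2)) :=
    mul_le_mul_of_nonneg_left hE2 (by norm_num)
  have t5 : x ^ 2 ≤ 1 / 4 * x := by nlinarith
  nlinarith

end Pool.Agent.Helper131.Slab
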