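import Pool.Agent.Helper131.Slab.Defs

set_option maxRecDepth 100000

namespace Pool.Agent.Helper131.Slab

open MeasureTheory Set intervalIntegral Filter Topology

theorem numHc : Real.exp (-(0.14 * lam 3 ^ 2)) ≤ 0.00055 ∧ (2 / lam 4) ^ 4 ≤ 0.00203 ∧
    ∀ k : ℕ, 5 ≤ k → (2 / lam k) ^ 4 ≤ 0.00091 * (11 / (2 * (k : ℝ) + 1)) ^ 3 := by
  have hpi := Real.pi_gt_d4
  refine ⟨?_, ?_, ?_⟩
  · have h1 : (7.52 : ℝ) ≤ 0.14 * lam 3 ^ 2 := by
      unfold lam
      push_cast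
      have h2 : (7.33016 : ℝ) ≤ (2 * 3 + 1) * Real.pi / 3 := by linarith
      have h3 : (7.33016 : ℝ) ^ 2 ≤ ((2 * 3 + 1) * Real.pi / 3) ^ 2 :=
        pow_le_pow_left₀ (by norm_num) h2 2
      linarith
    have h2 : Real.exp (-(0.14 * lam 3 ^ 2)) ≤ Real.exp (-7.52) :=
      Real.exp_le_exp.2 (by linarith)
    refine h2.trans ?_
    rw [Real.exp_neg]
    have h3 : (1818.2 : ℝ) ≤ Real.exp 7.52 := by
      have e : Real.exp 7.52 = Real.exp 1 ^ 7 * Real.exp 0.26 ^ 2 := by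
        rw [← Real.exp_nat_mul, ← Real.exp_nat_mul, ← Real.exp_add]
        norm_num
      have h4 : (1.2938 : ℝ) ≤ Real.exp 0.26 := by
        have := Real.quadratic_le_exp_of_nonneg (x := (0.26 : ℝ)) (by norm_num)
        norm_num at this ⊢
        linarith
      have h5 : (1.2938 : ℝ) ^ 2 ≤ Real.exp 0.26 ^ 2 := pow_le_pow_left₀ (by norm_num) h4 2
      have h6 : (2.7182 : ℝ) ^ 7 ≤ Real.exp 1 ^ 7 :=
        pow_le_pow_left₀ (by norm_num) (by have := Real.exp_one_gt_d9; linarith) 7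
      rw [e]
      calc (1818.2 : ℝ) ≤ 2.7182 ^ 7 * 1.2938 ^ 2 := by norm_num
        _ ≤ _ := mul_le_mul h6 h5 (by norm_num) (by positivity)
    calc (Real.exp 7.52)⁻¹ ≤ (1818.2 : ℝ)⁻¹ := inv_anti₀ (by norm_num) h3
      _ ≤ 0.00055 := by norm_num
  · have h1 : 2 / lam 4 ≤ 0.21222 := by
      unfold lam
      push_cast
      rw [div_le_iff₀ (by positivity)]
      linarith
    have h0 : 0 ≤ 2 / lam 4 := by unfold lam; positivity
    calc (2 / lam 4) ^ 4 ≤ 0.21222 ^ 4 := pow_le_pow_left₀ h0 h1 4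
      _ ≤ 0.00203 := by norm_num
  · intro k hk
    have hm : (11 : ℝ) ≤ 2 * (k : ℝ) + 1 := by
      have : (5 : ℝ) ≤ k := by exact_mod_cast hk
      linarith
    have h0 : 0 ≤ 2 / lam k := by unfold lam; positivity
    have h1 : 2 / lam k ≤ 6 / (3.1415 * (2 * (k : ℝ) + 1)) := by
      unfold lam
      rw [div_le_div_iff₀ (by positivity) (by positivity)]
      nlinarith
    set m : ℝ := 2 * (k : ℝ) + 1 with hmd
    have hm0 : 0 < m := by linarith
    calc (2 / lam k) ^ 4 ≤ (6 / (3.1415 * m)) ^ 4 := pow_le_pow_left₀ h0 h1 4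
      _ ≤ 0.00091 * (11 / m) ^ 3 := by
        rw [div_pow, div_pow, ← mul_div_assoc, div_le_div_iff₀ (by positivity) (by positivity)]
        have h2 : (6 : ℝ) ^ 4 ≤ 0.00091 * 11 ^ 3 * 3.1415 ^ 4 * m := by
          have : (6 : ℝ) ^ 4 ≤ 0.00091 * 11 ^ 3 * 3.1415 ^ 4 * 11 := by norm_num
          refine this.trans (mul_le_mul_of_nonneg_left hm (by norm_num))
        have h3 := mul_le_mul_of_nonneg_right h2 (pow_nonneg hm0.le 3)
        calc (6 : ℝ) ^ 4 * m ^ 3 ≤ 0.00091 * 11 ^ 3 * 3.1415 ^ 4 * m * m ^ 3 := h3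
          _ = 0.00091 * 11 ^ 3 * (3.1415 * m) ^ 4 := by ring

end Pool.Agent.Helper131.Slab
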