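import Pool.Agent.Helper131.Slab.Defs2

set_option maxRecDepth 100000

namespace Pool.Agent.Helper131.Slab

open MeasureTheory Set intervalIntegral Filter Topology

theorem numU7_h1_numU7 (k : ℕ) (x : ℝ) (hx : 0 ≤ x) :
    (2.7182818283 : ℝ) ^ k * (1 + x + x ^ 2 / 2 + x ^ 3 / 6 + x ^ 4 / 24) ≤
      Real.exp ((k : ℝ) + x) := by
  have h1 := Real.sum_le_exp_of_nonneg hx 5
  simp only [Finset.sum_range_succ, Finset.sum_range_zero, Nat.factorial] at h1
  norm_num at h1
  have h2 : (2.7182818283 : ℝ) ^ k ≤ Real.exp (k : ℝ) := by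
    rw [← Real.exp_one_pow]
    exact pow_le_pow_left₀ (by norm_num) Real.exp_one_gt_d9.le k
  rw [Real.exp_add]
  exact mul_le_mul h2 (by linarith) (by positivity) (Real.exp_pos _).le

theorem numU7_h2_numU7 (X c a b : ℝ) (k : ℕ) (x : ℝ) (hx : 0 ≤ x) (hX : (k : ℝ) + x ≤ X) (hc : 0 ≤ c)
    (ha : 0 < a) (hab : a ≤ (2.7182818283 : ℝ) ^ k * (1 + x + x ^ 2 / 2 + x ^ 3 / 6 + x ^ 4 / 24))
    (hb : c ≤ b * a) : c * Real.exp (-X) ≤ b := by
  have h1 := numU7_h1_numU7 k x hx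
  have h2 : a ≤ Real.exp X := (hab.trans h1).trans (Real.exp_le_exp.2 hX)
  rw [Real.exp_neg, ← div_eq_mul_inv, div_le_iff₀ (Real.exp_pos _)]
  have h3 : 0 ≤ b := by
    by_contra hcon
    push Not at hcon
    have := mul_neg_of_neg_of_pos hcon ha
    linarith
  exact hb.trans (mul_le_mul_of_nonneg_left h2 h3)

theorem numU7 : 0.112 * Real.exp (-(1 / 6 * lam 3 ^ 2 * (1 - 0.775 ^ 2))) ≤ 0.00314 ∧
    1 / (lam 4 * 0.765) * Real.exp (-(1 / 6 * lam 4 ^ 2 * (1 - 0.775 ^ 2))) ≤ 0.00038 ∧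
    1 / (lam 5 * 0.765) * Real.exp (-((1 - 0.775 ^ 2) / 0.28 ^ 2 * Real.log (lam 5 * 0.28))) ≤ 0.0003 := by
  
  have hπ := Real.pi_gt_d6
  have hπ2 := Real.pi_lt_d6
  have l3 : lam 3 = 7 * Real.pi / 3 := by unfold lam; push_cast; ring
  have l4 : lam 4 = 3 * Real.pi := by unfold lam; push_cast; ring
  have l5 : lam 5 = 11 * Real.pi / 3 := by unfold lam; push_cast; ring
  have b3 : (7.33038 : ℝ) ≤ lam 3 := by rw [l3]; norm_num at hπ ⊢; linarith
  have b4 : (9.424776 : ℝ) ≤ lam 4 := by rw [l4]; norm_num at hπ ⊢; linarith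
  have b5 : (11.51917 : ℝ) ≤ lam 5 := by rw [l5]; norm_num at hπ ⊢; linarith
  refine ⟨?_, ?_, ?_⟩
  · apply numU7_h2_numU7 _ _ 35.7 _ 3 0.5766 (by norm_num) _ (by norm_num) (by norm_num) (by norm_num)
      (by norm_num)
    have h1 : (7.33038 : ℝ) ^ 2 ≤ lam 3 ^ 2 := pow_le_pow_left₀ (by norm_num) b3 2
    norm_num at h1 ⊢
    linarith
  · have h4 : 0 < lam 4 := by linarith
    apply numU7_h2_numU7 _ _ 368 _ 5 0.9124 (by norm_num) _ (by positivity) (by norm_num) (by norm_num)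
    · rw [div_le_iff₀ (by positivity)]
      norm_num at b4 ⊢
      linarith
    · have h1 : (9.424776 : ℝ) ^ 2 ≤ lam 4 ^ 2 := pow_le_pow_left₀ (by norm_num) b4 2
      norm_num at h1 ⊢
      linarith
  · have h5 : 0 < lam 5 := by linarith
    have hlog : (1.169 : ℝ) ≤ Real.log (lam 5 * 0.28) := by
      rw [Real.le_log_iff_exp_le (by positivity)]
      have e1 : (1.169 : ℝ) = 1 + 0.169 := by norm_num
      rw [e1, Real.exp_add]
      have h1 := Real.exp_one_lt_d9
      have h2 := Real.exp_bound' (x := 0.169) (by norm_num) (by norm_num) (n := 3) (by norm_num)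
      simp only [Finset.sum_range_succ, Finset.sum_range_zero, Nat.factorial] at h2
      norm_num at h2
      have h3 : Real.exp 1 * Real.exp 0.169 ≤ 2.7182818286 * 1.18436 := by
        refine mul_le_mul h1.le ?_ (Real.exp_pos _).le (by norm_num)
        have e2 : (0.169 : ℝ) = 169 / 1000 := by norm_num
        rw [e2]
        exact h2.trans (by norm_num)
      refine h3.trans ?_
      norm_num at b5 ⊢
      linarith
    apply numU7_h2_numU7 _ _ 384 _ 5 0.9547 (by norm_num) _ (by positivity) (by norm_num) (by norm_num)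
    · rw [div_le_iff₀ (by positivity)]
      norm_num at b5 ⊢
      linarith
    · have h1 : ((1 - 0.775 ^ 2) / 0.28 ^ 2 : ℝ) * 1.169 ≤
          (1 - 0.775 ^ 2) / 0.28 ^ 2 * Real.log (lam 5 * 0.28) :=
        mul_le_mul_of_nonneg_left hlog (by norm_num)
      refine le_trans ?_ h1
      norm_num

end Pool.Agent.Helper131.Slab
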