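import Pool.Agent.Helper131.Slab.Defs

set_option maxRecDepth 100000

namespace Pool.Agent.Helper131.Slab

open MeasureTheory Set intervalIntegral Filter Topology

theorem one_above (α t r : ℝ) (hα : t < α) (ht : 0 < t) (hr : 0 ≤ r) :
    t / α * r - 1 / (27 * α * (α - t)) * r ^ 3 ≤ Aop α (clamp t) r := by
  have hd : 0 < α - t := by linarith
  have hα0 : 0 < α := by linarith
  rcases le_total r (α - t) with h | h
  · refine le_trans ?_ (kappa_ge_lin α t r hα0 ht.le hr h)
    have : 0 ≤ 1 / (27 * α * (α - t)) * r ^ 3 := by positivity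
    linarith
  · refine le_trans ?_ (kappa_ge_quad α t r hα0 ht.le)
    have e : r - (α + r - t) ^ 2 / (4 * α) - (t / α * r - 1 / (27 * α * (α - t)) * r ^ 3) =
        (r - 3 * (α - t)) ^ 2 * (4 * r - 3 * (α - t)) / (108 * α * (α - t)) := by
      field_simp
      ring
    have h2 : 0 ≤ (r - 3 * (α - t)) ^ 2 * (4 * r - 3 * (α - t)) / (108 * α * (α - t)) := by
      apply div_nonneg
      · exact mul_nonneg (sq_nonneg _) (by linarith)
      · positivity
    linarith

end Pool.Agent.Helper131.Slab
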