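import Pool.Agent.Helper131.Slab.Defs

set_option maxRecDepth 100000

namespace Pool.Agent.Helper131.Slab

open MeasureTheory Set intervalIntegral Filter Topology

theorem one_below (α t r : ℝ) (hα : 0 < α) (ht : α < t) (hr : 0 ≤ r) :
    1 * r - 1 / (27 * α * (t - α)) * r ^ 3 ≤ Aop α (clamp t) r := by
  obtain ⟨d, rfl⟩ : ∃ d, t = α + d := ⟨t - α, by ring⟩
  have hd : 0 < d := by linarith
  have e1 : α + d - α = d := by ring
  rw [e1]
  rcases le_total r d with h | h
  · have h1 := kappa_ge_id α (α + d) r hα (by linarith)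
    have h2 : 0 ≤ 1 / (27 * α * d) * r ^ 3 := by positivity
    linarith
  · have h1 := kappa_ge_quad α (α + d) r hα (by linarith)
    have h2 : 1 / (27 * α * d) * r ^ 3 - (α + r - (α + d)) ^ 2 / (4 * α) =
        (r - 3 * d) ^ 2 * (4 * r - 3 * d) / (108 * α * d) := by
      field_simp
      ring
    have h3 : 0 ≤ (r - 3 * d) ^ 2 * (4 * r - 3 * d) / (108 * α * d) := by
      apply div_nonneg
      · apply mul_nonneg (sq_nonneg _)
        linarith
      · positivity
    linarith

end Pool.Agent.Helper131.Slab
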