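import Pool.Agent.Helper131.Slab.Defs

set_option maxRecDepth 100000

namespace Pool.Agent.Helper131.Slab

open MeasureTheory Set intervalIntegral Filter Topology

theorem one_tangent (α t ρ : ℝ) (hα : 0 < α) (ht : 0 ≤ t) (hρ : 0 < ρ) (h9 : 9 * (α - t) ^ 2 ≤ ρ ^ 2) :
    ∃ c0 c2 : ℝ, 0 ≤ c2 ∧ c0 - c2 * ρ ^ 2 = 1 - (α + ρ - t) ^ 2 / (4 * α * ρ) ∧
      ∀ r, 0 ≤ r → c0 * r - c2 * r ^ 3 ≤ Aop α (clamp t) r := by
  obtain ⟨d, hd⟩ : ∃ d, d = α - t := ⟨_, rfl⟩
  have hdt : t = α - d := by linarith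
  have habs : 3 * |d| ≤ ρ := by
    have : (3 * |d|) ^ 2 ≤ ρ ^ 2 := by
      rw [mul_pow, sq_abs]; rw [hd]; linarith
    exact le_of_sq_le_sq this hρ.le
  have hd1 : 3 * d ≤ ρ := by have := le_abs_self d; linarith
  have hd2 : -(3 * d) ≤ ρ := by have := neg_abs_le d; linarith
  have hd0 := abs_nonneg d
  have h1 : 0 ≤ ρ + d := by rcases abs_cases d with h | h <;> linarith
  have h2 : 0 ≤ ρ - d := by rcases abs_cases d with h | h <;> linarith
  have h3 : 0 ≤ ρ + 3 * d := by linarith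
  have h4 : 0 ≤ ρ - 3 * d := by linarith
  have hc2 : 0 ≤ (ρ ^ 2 - d ^ 2) / (8 * α * ρ ^ 3) := by
    apply div_nonneg
    · nlinarith
    · positivity
  refine ⟨1 - (ρ + d) * (ρ + 3 * d) / (8 * α * ρ), (ρ ^ 2 - d ^ 2) / (8 * α * ρ ^ 3), hc2, ?_, ?_⟩
  · rw [show α + ρ - t = ρ + d by rw [hd]; ring]
    field_simp
    ring
  · intro r hr
    have hr3 : 0 ≤ (ρ ^ 2 - d ^ 2) / (8 * α * ρ ^ 3) * r ^ 3 := mul_nonneg hc2 (by positivity)
    rcases le_total |d| r with hcase | hcase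
    · refine le_trans ?_ (kappa_ge_quad α t r hα ht)
      rw [show α + r - t = r + d by rw [hd]; ring]
      have key : r - (r + d) ^ 2 / (4 * α) - ((1 - (ρ + d) * (ρ + 3 * d) / (8 * α * ρ)) * r - (ρ ^ 2 - d ^ 2) / (8 * α * ρ ^ 3) * r ^ 3) = (r - ρ) ^ 2 * ((ρ ^ 2 - d ^ 2) * r - 2 * d ^ 2 * ρ) / (8 * α * ρ ^ 3) := by
        field_simp
        ring
      have hpos : 0 ≤ (ρ ^ 2 - d ^ 2) * r - 2 * d ^ 2 * ρ := by
        have e1 : (ρ ^ 2 - d ^ 2) * |d| ≤ (ρ ^ 2 - d ^ 2) * r := by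
          apply mul_le_mul_of_nonneg_left hcase
          nlinarith
        have e2 : (ρ ^ 2 - d ^ 2) * |d| - 2 * d ^ 2 * ρ = |d| * (ρ * (ρ - 3 * |d|) + |d| * (ρ - |d|)) := by
          have : d ^ 2 = |d| ^ 2 := (sq_abs d).symm
          rw [this]; ring
        have e3 : 0 ≤ |d| * (ρ * (ρ - 3 * |d|) + |d| * (ρ - |d|)) := by
          apply mul_nonneg hd0
          apply add_nonneg
          · apply mul_nonneg hρ.le; linarith
          · apply mul_nonneg hd0; linarith
        linarith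
      have : 0 ≤ (r - ρ) ^ 2 * ((ρ ^ 2 - d ^ 2) * r - 2 * d ^ 2 * ρ) / (8 * α * ρ ^ 3) := by
        apply div_nonneg
        · exact mul_nonneg (sq_nonneg _) hpos
        · positivity
      linarith
    · rcases le_total d 0 with hdn | hdn
      · have hrr : r ≤ t - α := by
          rw [abs_of_nonpos hdn] at hcase; linarith
        refine le_trans ?_ (kappa_ge_id α t r hα hrr)
        have : 0 ≤ (ρ + d) * (ρ + 3 * d) / (8 * α * ρ) * r := by
          apply mul_nonneg _ hr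
          apply div_nonneg (mul_nonneg h1 h3); positivity
        linarith [this, hr3]
      · have hrr : r ≤ α - t := by
          rw [abs_of_nonneg hdn] at hcase; linarith
        refine le_trans ?_ (kappa_ge_lin α t r hα ht hr hrr)
        have key : t / α - (1 - (ρ + d) * (ρ + 3 * d) / (8 * α * ρ)) = (ρ - d) * (ρ - 3 * d) / (8 * α * ρ) := by
          rw [hdt]
          field_simp
          ring
        have : 0 ≤ (ρ - d) * (ρ - 3 * d) / (8 * α * ρ) * r := by
          apply mul_nonneg _ hr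
          apply div_nonneg (mul_nonneg h2 h4); positivity
        rw [← key] at this
        linarith [this, hr3]

end Pool.Agent.Helper131.Slab
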