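import Pool.Agent.Helper131.Slab.Defs
import Pool.Agent.Helper131.Slab.L_ineq1a
import Pool.Agent.Helper131.Slab.L_ineq1b
import Pool.Agent.Helper131.Slab.L_ineq1c
import Pool.Agent.Helper131.Slab.L_one_above
import Pool.Agent.Helper131.Slab.L_one_below
import Pool.Agent.Helper131.Slab.L_one_tangent

set_option maxRecDepth 100000

namespace Pool.Agent.Helper131.Slab

open MeasureTheory Set intervalIntegral Filter Topology

theorem region1_aux_region1 {n : ℕ} (a : Fin n → ℝ) (α t : ℝ) (ht : 0 ≤ t)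
    (hs : ∑ i, a i ^ 2 = 1 - α ^ 2) (c0 c2 : ℝ) (hc2 : 0 ≤ c2)
    (hg : gg t ≤ c0 - c2 * (1 - α ^ 2))
    (h : ∀ r, 0 ≤ r → c0 * r - c2 * r ^ 3 ≤ Aop α (clamp t) r) :
    Low a (Aop α (clamp t)) (gg t) := by
  refine ⟨c2, hc2, fun δ hδ => ?_⟩
  have h1 := cubic_bound a (Aop_continuous α (clamp_continuous t))
    (Aop_odd α (clamp_odd t ht)) c0 c2 h δ hδ
  rw [hs] at h1
  have h2 := mul_le_mul_of_nonneg_right hg hδ
  linarith

theorem region1 {n : ℕ} (a : Fin n → ℝ) (α t : ℝ) (h1 : 0.77 ≤ α) (h2 : α ≤ 1)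
    (h3 : 2 * Real.sqrt 2 - 2 ≤ t) (h4 : t ≤ 1) (hs : ∑ i, a i ^ 2 = 1 - α ^ 2) :
    Low a (Aop α (clamp t)) (gg t) := by
  have hsq2 : (1.414 : ℝ) ≤ Real.sqrt 2 := by
    apply Real.le_sqrt_of_sq_le
    norm_num
  have hsq2' : Real.sqrt 2 ≤ (1.4143 : ℝ) := by
    rw [Real.sqrt_le_left (by norm_num)]
    norm_num
  have ht0 : 0 < t := by linarith
  have hα0 : 0 < α := by linarith
  have hsqrt2 : Real.sqrt 2 ^ 2 = 2 := Real.sq_sqrt (by norm_num)
  by_cases hA : α < 1 ∧ 9 * (α - t) ^ 2 ≤ 1 - α ^ 2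
  · obtain ⟨hα1, h9⟩ := hA
    have hpos : 0 < 1 - α ^ 2 := by nlinarith
    have hρ : 0 < Real.sqrt (1 - α ^ 2) := Real.sqrt_pos.mpr hpos
    have hρ2 : Real.sqrt (1 - α ^ 2) ^ 2 = 1 - α ^ 2 := Real.sq_sqrt hpos.le
    set ρ := Real.sqrt (1 - α ^ 2) with hρdef
    obtain ⟨c0, c2, hc2, hc, h⟩ := one_tangent α t ρ hα0 ht0.le hρ (by rw [hρ2]; exact h9)
    refine region1_aux_region1 a α t ht0.le hs c0 c2 hc2 ?_ h
    rw [← hρ2, hc]
    have h5 := ineq1a α t ρ h1 h2 h3 h4 hρ hρ2 (by rw [hρ2]; exact h9)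
    have h6 : (α + ρ - t) ^ 2 / (4 * α * ρ) ≤ (Real.sqrt 2 - t) ^ 2 / 2 := by
      rw [div_le_iff₀ (by positivity)]
      linarith
    have h7 : gg t = 1 - (Real.sqrt 2 - t) ^ 2 / 2 := by
      unfold gg
      have : (Real.sqrt 2 - t) ^ 2 = Real.sqrt 2 ^ 2 - 2 * Real.sqrt 2 * t + t ^ 2 := by ring
      rw [this, hsqrt2]
      ring
    rw [h7]
    linarith
  · rw [not_and_or, not_lt, not_le] at hA
    have h9 : 1 - α ^ 2 ≤ 9 * (α - t) ^ 2 := by
      rcases hA with hA | hA
      · nlinarith [sq_nonneg (α - t)]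
      · exact hA.le
    rcases lt_trichotomy α t with hc | hc | hc
    · refine region1_aux_region1 a α t ht0.le hs 1 (1 / (27 * α * (t - α))) ?_ ?_
        (fun r hr => one_below α t r hα0 hc hr)
      · have : 0 < t - α := by linarith
        positivity
      · exact ineq1c α t h1 h4 hc (by
          have : (t - α) ^ 2 = (α - t) ^ 2 := by ring
          rw [this]
          exact h9)
    · subst hc
      have hα1 : α = 1 := by
        rcases hA with hA | hA
        · exact le_antisymm h2 hA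
        · exfalso
          rw [sub_self] at hA
          nlinarith
      subst hα1
      refine region1_aux_region1 a 1 1 ht0.le hs (gg 1) 1 zero_le_one (by norm_num) ?_
      intro r hr
      have h5 := kappa_ge_quad 1 1 r one_pos zero_le_one
      refine le_trans ?_ h5
      have h6 : gg 1 = Real.sqrt 2 - 1 / 2 := by
        unfold gg
        ring
      rw [h6]
      have h7 : 0 ≤ r * ((3 / 2 - Real.sqrt 2) - r / 4 + r ^ 2) := by
        apply mul_nonneg hr
        nlinarith [sq_nonneg (r - 1 / 8)]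
      nlinarith
    · refine region1_aux_region1 a α t ht0.le hs (t / α) (1 / (27 * α * (α - t))) ?_ ?_
        (fun r hr => one_above α t r hc ht0 hr)
      · have : 0 < α - t := by linarith
        positivity
      · exact ineq1b α t h2 h3 hc h9

end Pool.Agent.Helper131.Slab
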