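import Pool.Agent.Helper131.Slab.Defs2
import Pool.Agent.Helper131.Slab.L_ineq1a2
import Pool.Agent.Helper131.Slab.L_ineq1c2
import Pool.Agent.Helper131.Slab.L_one_below
import Pool.Agent.Helper131.Slab.L_one_tangent

set_option maxRecDepth 100000

namespace Pool.Agent.Helper131.Slab

open MeasureTheory Set intervalIntegral Filter Topology

theorem region1b_aux_region1b {n : ℕ} (a : Fin n → ℝ) (α t : ℝ) (ht : 0 ≤ t)
    (hs : ∑ i, a i ^ 2 = 1 - α ^ 2) (c0 c2 : ℝ) (hc2 : 0 ≤ c2)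
    (hg : gg3 t ≤ c0 - c2 * (1 - α ^ 2))
    (h : ∀ r, 0 ≤ r → c0 * r - c2 * r ^ 3 ≤ Aop α (clamp t) r) :
    Low a (Aop α (clamp t)) (gg3 t) := by
  refine ⟨c2, hc2, fun δ hδ => ?_⟩
  have h1 := cubic_bound a (Aop_continuous α (clamp_continuous t))
    (Aop_odd α (clamp_odd t ht)) c0 c2 h δ hδ
  rw [hs] at h1
  have h2 := mul_le_mul_of_nonneg_right hg hδ
  linarith

theorem region1b {n : ℕ} (a : Fin n → ℝ) (α t : ℝ) (h1 : 0.775 ≤ α) (h2 : α ≤ 1)
    (h3 : 1 < t) (h4 : t ≤ 1.015) (hs : ∑ i, a i ^ 2 = 1 - α ^ 2) :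
    Low a (Aop α (clamp t)) (gg3 t) := by
  have ht0 : 0 < t := by linarith
  have hα0 : 0 < α := by linarith
  by_cases hA : α < 1 ∧ 9 * (α - t) ^ 2 ≤ 1 - α ^ 2
  · obtain ⟨hα1, h9⟩ := hA
    have hpos : 0 < 1 - α ^ 2 := by nlinarith
    have hρ : 0 < Real.sqrt (1 - α ^ 2) := Real.sqrt_pos.mpr hpos
    have hρ2 : Real.sqrt (1 - α ^ 2) ^ 2 = 1 - α ^ 2 := Real.sq_sqrt hpos.le
    set ρ := Real.sqrt (1 - α ^ 2) with hρdef
    obtain ⟨c0, c2, hc2, hc, h⟩ := one_tangent α t ρ hα0 ht0.le hρ (by rw [hρ2]; exact h9)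
    refine region1b_aux_region1b a α t ht0.le hs c0 c2 hc2 ?_ h
    rw [← hρ2, hc]
    have h5 := ineq1a2 α t ρ h1 h2 h3 h4 hρ hρ2 (by rw [hρ2]; exact h9)
    unfold gg3
    linarith
  · rw [not_and_or, not_lt, not_le] at hA
    have h9 : 1 - α ^ 2 ≤ 9 * (t - α) ^ 2 := by
      have h10 : (t - α) ^ 2 = (α - t) ^ 2 := by ring
      rw [h10]
      rcases hA with hA | hA
      · nlinarith [sq_nonneg (α - t)]
      · exact hA.le
    have hc : α < t := by linarith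
    refine region1b_aux_region1b a α t ht0.le hs 1 (1 / (27 * α * (t - α))) ?_ ?_
      (fun r hr => one_below α t r hα0 hc hr)
    · have : 0 < t - α := by linarith
      positivity
    · have h5 := ineq1c2 α t h1 h2 h3 h4 h9
      unfold gg3
      linarith

end Pool.Agent.Helper131.Slab
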