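import Pool.Agent.Helper131.Slab.Defs
import Pool.Agent.Helper131.Slab.L_F3
import Pool.Agent.Helper131.Slab.L_G3
import Pool.Agent.Helper131.Slab.L_two_flat
import Pool.Agent.Helper131.Slab.L_two_ge
import Pool.Agent.Helper131.Slab.L_two_ge_small
import Pool.Agent.Helper131.Slab.L_two_tangent

set_option maxRecDepth 100000

namespace Pool.Agent.Helper131.Slab

open MeasureTheory Set intervalIntegral Filter Topology

theorem region3 {n : ℕ} (a : Fin n → ℝ) (α β t : ℝ) (h1 : 0.5 ≤ α) (h2 : α ≤ 0.77) (h3 : 0.35 ≤ β)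
    (h4 : β ≤ α) (h5 : 1 ≤ α + β) (h8 : 0.828 ≤ t) (h9 : t ≤ 1)
    (hs : ∑ i, a i ^ 2 = 1 - α ^ 2 - β ^ 2) :
    Low a (Aop β (Aop α (clamp t))) (gg t) := by
  have hα : 0 < α := by linarith
  have hβ : 0 < β := by linarith
  have ht0 : 0 ≤ t := by linarith
  have hsum : 0 ≤ 1 - α ^ 2 - β ^ 2 := by
    rw [← hs]
    exact Finset.sum_nonneg (fun i _ => sq_nonneg _)
  set γ := Real.sqrt (1 - α ^ 2 - β ^ 2) with hγdef
  have hγ0 : 0 ≤ γ := Real.sqrt_nonneg _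
  have hγ2 : γ ^ 2 = 1 - α ^ 2 - β ^ 2 := Real.sq_sqrt hsum
  have h7 : α ^ 2 + β ^ 2 + γ ^ 2 = 1 := by linarith
  have hk : Continuous (Aop β (Aop α (clamp t))) :=
    Aop_continuous β (Aop_continuous α (clamp_continuous t))
  have hodd : ∀ x, Aop β (Aop α (clamp t)) (-x) = -Aop β (Aop α (clamp t)) x :=
    Aop_odd β (Aop_odd α (clamp_odd t ht0))
  have hgg : gg t = 1 - (Real.sqrt 2 - t) ^ 2 / 2 := by
    have h2 : Real.sqrt 2 ^ 2 = 2 := Real.sq_sqrt (by norm_num)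
    unfold gg
    nlinarith
  have main : ∀ c0 c2 : ℝ, 0 ≤ c2 → gg t ≤ c0 - c2 * γ ^ 2 →
      (∀ r, 0 ≤ r → c0 * r - c2 * r ^ 3 ≤ Aop β (Aop α (clamp t)) r) →
      Low a (Aop β (Aop α (clamp t))) (gg t) := by
    intro c0 c2 hc2 hg hr
    refine ⟨c2, hc2, fun δ hδ => ?_⟩
    have h := cubic_bound a hk hodd c0 c2 hr δ hδ
    rw [hs, ← hγ2] at h
    have := mul_le_mul_of_nonneg_right hg hδ
    linarith
  by_cases hc : γ ≤ α + β - t
  · have hF := F3 α β γ t h1 h2 h3 h4 h5 hγ0 h7 h8 h9 hc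
    refine main (1 - (α + β - t) ^ 2 / (4 * α * β)) (1 / (12 * α * β)) (by positivity) ?_ ?_
    · rw [hgg]
      have : 1 / (12 * α * β) * γ ^ 2 = γ ^ 2 / (12 * α * β) := by ring
      rw [this]
      linarith
    · intro r hr
      exact two_flat α β t hα hβ (by linarith) h4 (by linarith) r hr
  · push Not at hc
    have hγpos : 0 < γ := by linarith
    obtain ⟨c0, c2, hc2, he, hr⟩ := two_tangent α β t γ hα hβ (by linarith) h4 (by linarith) hγpos hc.le
    have hG := G3 α β γ t h1 h2 h3 h4 h5 hγ0 h7 h8 h9 hc.le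
    refine main c0 c2 hc2 ?_ hr
    rw [he, hgg]
    have hpos : 0 < 24 * α * β * γ := by positivity
    have : (α + β + γ - t) ^ 3 / (24 * α * β * γ) ≤ (Real.sqrt 2 - t) ^ 2 / 2 := by
      rw [div_le_iff₀ hpos]
      nlinarith
    linarith

end Pool.Agent.Helper131.Slab
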