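import Pool.Agent.Helper131.Slab.Defs

set_option maxRecDepth 100000

namespace Pool.Agent.Helper131.Slab

open MeasureTheory Set intervalIntegral Filter Topology

theorem vol_lower {n : ℕ} (a : Fin n → ℝ) (t g : ℝ) (ht : 0 < t) (H : Low a (clamp t) g) (s : ℝ)
    (hs : 0 < s) (hst : s ≤ t) : 2 ^ n * (s / t * g) ≤ (volume (slab a s)).toReal := by
  obtain ⟨C, hC, hlow⟩ := H
  have hlim : Tendsto (fun δ : ℝ => 2 ^ n * ((s - δ) / t * (g - C * δ ^ 2))) (𝓝[>] 0)
      (𝓝 (2 ^ n * (s / t * g))) := by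
    have hc : Continuous (fun δ : ℝ => 2 ^ n * ((s - δ) / t * (g - C * δ ^ 2))) := by fun_prop
    have h1 := hc.tendsto 0
    simp only [sub_zero, ne_eq, OfNat.ofNat_ne_zero, not_false_eq_true, zero_pow, mul_zero] at h1
    exact h1.mono_left nhdsWithin_le_nhds
  refine le_of_tendsto hlim ?_
  have hmem : Ioo (0 : ℝ) s ∈ 𝓝[>] (0 : ℝ) := Ioo_mem_nhdsGT hs
  filter_upwards [hmem] with δ hδ
  obtain ⟨hδ0, hδs⟩ := hδ
  have hsd : 0 ≤ s - δ := by linarith
  have hc0 : 0 ≤ (s - δ) / t := by positivity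
  have hc1 : (s - δ) / t ≤ 1 := by
    rw [div_le_one ht]; linarith
  have h1 : cubeAvg a (fun x => (s - δ) / t * clamp t x) δ ≤ cubeAvg a (clamp (s - δ)) δ := by
    refine cubeAvg_le a (continuous_const.mul (clamp_continuous t)) (clamp_continuous _) ?_ ?_ ?_ δ hδ0.le
    · intro x
      show (s - δ) / t * clamp t (-x) = -((s - δ) / t * clamp t x)
      rw [clamp_odd t ht.le]
      ring
    · intro x; exact clamp_odd _ hsd x
    · intro x hx
      have e1 : clamp t x = min x t := by
        unfold clamp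
        exact max_eq_right (by have := le_min hx ht.le; linarith)
      have e2 : clamp (s - δ) x = min x (s - δ) := by
        unfold clamp
        exact max_eq_right (by have := le_min hx hsd; linarith)
      show (s - δ) / t * clamp t x ≤ clamp (s - δ) x
      rw [e1, e2]
      refine le_min ?_ ?_
      · have h2 : min x t ≤ x := min_le_left _ _
        have h3 : 0 ≤ min x t := le_min hx ht.le
        nlinarith
      · have h2 : min x t ≤ t := min_le_right _ _
        calc (s - δ) / t * min x t ≤ (s - δ) / t * t := mul_le_mul_of_nonneg_left h2 hc0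
          _ = s - δ := by field_simp
  rw [cubeAvg_const_mul] at h1
  have h2 := slab_lower a (s - δ) δ hsd hδ0.le
  rw [sub_add_cancel] at h2
  have h3 := hlow δ hδ0.le
  have h4 : (s - δ) / t * (g * δ - C * δ ^ 3) ≤ cubeAvg a (clamp (s - δ)) δ :=
    (mul_le_mul_of_nonneg_left h3 hc0).trans h1
  have h5 : (2 : ℝ) ^ n * ((s - δ) / t * (g * δ - C * δ ^ 3)) ≤ δ * (volume (slab a s)).toReal :=
    (mul_le_mul_of_nonneg_left h4 (by positivity)).trans h2
  have h6 : (2 : ℝ) ^ n * ((s - δ) / t * (g * δ - C * δ ^ 3)) =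
      δ * (2 ^ n * ((s - δ) / t * (g - C * δ ^ 2))) := by ring
  rw [h6] at h5
  exact le_of_mul_le_mul_left h5 hδ0

end Pool.Agent.Helper131.Slab
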