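import Pool.Agent.Helper131.Slab.Defs2
import Pool.Agent.Helper131.Slab.L_two_flat
import Pool.Agent.Helper131.Slab.L_two_ge
import Pool.Agent.Helper131.Slab.L_two_ge_small
import Pool.Agent.Helper131.Slab.L_vol_lower

set_option maxRecDepth 100000

namespace Pool.Agent.Helper131.Slab

open MeasureTheory Set intervalIntegral Filter Topology

lemma two_dim_poly_two_dim (s t x : ℝ) (hs : s ^ 2 = 2) (hs1 : 1.414 ≤ s) (hs2 : s ≤ 1.415) (ht : 1 ≤ t)
    (ht2 : t ≤ 1.015) (hx : t ≤ x) (hxs : x ≤ s) :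
    (x - t) ^ 2 ≤ (x ^ 2 - 1) * (s - t) ^ 2 := by
  have e : s * ((x ^ 2 - 1) * (s - t) ^ 2 - (x - t) ^ 2) =
      (s - x) * (s * (1 - (s - t) ^ 2) * (x - t) + (t ^ 2 - 1) * (2 - s * t)) := by
    linear_combination ((x - t) * s ^ 2 + (2 * t ^ 2 - x * t - 1) * s - x * (t ^ 2 - 1)) * hs
  have h1 : 0 ≤ 1 - (s - t) ^ 2 := by nlinarith
  have h2 : 0 ≤ t ^ 2 - 1 := by nlinarith
  have h3 : 0 ≤ 2 - s * t := by nlinarith
  have h4 : 0 ≤ (s - x) * (s * (1 - (s - t) ^ 2) * (x - t) + (t ^ 2 - 1) * (2 - s * t)) := by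
    have h5 : 0 ≤ s := by linarith
    exact mul_nonneg (by linarith) (add_nonneg (mul_nonneg (mul_nonneg h5 h1) (by linarith))
      (mul_nonneg h2 h3))
  rw [← e] at h4
  have h6 : 0 < s := by linarith
  have h7 := nonneg_of_mul_nonneg_right h4 h6
  linarith

lemma two_dim_sqrt_two_dim : (Real.sqrt 2) ^ 2 = 2 ∧ 1.414 ≤ Real.sqrt 2 ∧ Real.sqrt 2 ≤ 1.415 := by
  refine ⟨Real.sq_sqrt (by norm_num), ?_, ?_⟩
  · exact Real.le_sqrt_of_sq_le (by norm_num)
  · rw [Real.sqrt_le_left (by norm_num)]; norm_num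

lemma two_dim_gg_le_two_dim (t : ℝ) : gg t ≤ 1 := by
  have h := two_dim_sqrt_two_dim.1
  unfold gg
  nlinarith [sq_nonneg (Real.sqrt 2 - t)]

lemma two_dim_low_two_dim (a : Fin 2 → ℝ) (ha : ∑ i, a i ^ 2 = 1) (t : ℝ) (h0 : 1 ≤ t) (h1 : t ≤ 1.015)
    (i0 : Fin 2) (hi : |a (i0.succAbove 0)| ≤ |a i0|) (hlt : t < |a i0| + |a (i0.succAbove 0)|) :
    Low a (clamp t) (gg t) := by
  have hsum : |a i0| ^ 2 + |a (i0.succAbove 0)| ^ 2 = 1 := by
    rw [Fin.sum_univ_succAbove _ i0, Fin.sum_univ_one] at ha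
    rw [sq_abs, sq_abs]; exact ha
  set α := |a i0| with hα
  set β := |a (i0.succAbove 0)| with hβ
  have hα0 : 0 ≤ α := abs_nonneg _
  have hβ0 : 0 ≤ β := abs_nonneg _
  have hα1 : α ≤ 1 := by nlinarith
  have hβpos : 0 < β := by linarith
  have hαpos : 0 < α := by linarith
  obtain ⟨hs, hs1, hs2⟩ := two_dim_sqrt_two_dim
  have hσ : α + β ≤ Real.sqrt 2 := by
    apply Real.le_sqrt_of_sq_le
    nlinarith [sq_nonneg (α - β)]
  have hp := two_dim_poly_two_dim (Real.sqrt 2) t (α + β) hs hs1 hs2 h0 h1 hlt.le hσ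
  refine ⟨1 / (12 * α * β), by positivity, fun δ hδ => ?_⟩
  have hcl := clamp_continuous t
  have hA : Continuous (Aop (a i0) (clamp t)) := Aop_continuous _ hcl
  have e1 : cubeAvg a (clamp t) δ = Aop β (Aop α (clamp t)) δ := by
    rw [cubeAvg_succ i0 a hcl, cubeAvg_succ 0 _ hA, cubeAvg_zero, hα, hβ, Aop_abs, Aop_abs]
  rw [e1]
  refine le_trans ?_ (two_flat α β t hαpos hβpos (by linarith) hi hlt.le δ hδ)
  have h4 : gg t ≤ 1 - (α + β - t) ^ 2 / (4 * α * β) := by
    have h5 : (α + β - t) ^ 2 / (4 * α * β) ≤ (Real.sqrt 2 - t) ^ 2 / 2 := by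
      rw [div_le_div_iff₀ (by positivity) (by norm_num)]
      nlinarith
    have h6 : gg t = 1 - (Real.sqrt 2 - t) ^ 2 / 2 := by
      unfold gg
      linear_combination (1 / 2) * hs
    linarith
  have h7 := mul_le_mul_of_nonneg_right h4 hδ
  linarith



theorem two_dim (a : Fin 2 → ℝ) (ha : ∑ i, a i ^ 2 = 1) (t : ℝ) (h0 : 1 ≤ t) (h1 : t ≤ 1.015) :
    ENNReal.ofReal (2 ^ 2 * gg t) ≤
      volume {x : Fin 2 → ℝ | (∀ i, |x i| ≤ 1) ∧ |∑ i, x i * a i| ≤ t} := by
  have hset : {x : Fin 2 → ℝ | (∀ i, |x i| ≤ 1) ∧ |∑ i, x i * a i| ≤ t} = slab a t := by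
    ext x
    simp only [slab, Set.mem_ofPred_eq]
    have : ∑ i, x i * a i = ∑ i, a i * x i := Finset.sum_congr rfl fun i _ => mul_comm _ _
    rw [this]
  rw [hset, ENNReal.ofReal_le_iff_le_toReal (slab_volume_ne_top a t)]
  by_cases hcase : |a 0| + |a 1| ≤ t
  · have hcube : slab a t = Icc (fun _ => -1) (fun _ => 1) := by
      rw [slab_eq]
      apply Set.inter_eq_right.2
      intro x hx
      rw [mem_cube_iff] at hx
      show |∑ i, a i * x i| ≤ t
      rw [Fin.sum_univ_two]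
      refine (abs_add_le _ _).trans ?_
      rw [abs_mul, abs_mul]
      have h2 := mul_le_mul_of_nonneg_left (hx 0) (abs_nonneg (a 0))
      have h3 := mul_le_mul_of_nonneg_left (hx 1) (abs_nonneg (a 1))
      linarith
    rw [hcube, Real.volume_Icc_pi_toReal (fun _ => by norm_num)]
    have := two_dim_gg_le_two_dim t
    simp only [Finset.prod_const, Finset.card_univ, Fintype.card_fin]
    norm_num
    linarith
  · push Not at hcase
    have hlow : Low a (clamp t) (gg t) := by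
      rcases le_total (|a 1|) (|a 0|) with h | h
      · exact two_dim_low_two_dim a ha t h0 h1 0 (by simpa using h) (by simpa using hcase)
      · exact two_dim_low_two_dim a ha t h0 h1 1 (by simpa using h) (by simpa [add_comm] using hcase)
    have := vol_lower a t (gg t) (by linarith) hlow t (by linarith) le_rfl
    rwa [div_self (by linarith : t ≠ 0), one_mul] at this

end Pool.Agent.Helper131.Slab
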