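import Pool.Agent.Helper131.Slab.L_tri_props
import Pool.Agent.Helper131.Slab.L_tri_series
import Pool.Agent.Helper131.Slab.L_trap_series
import Pool.Agent.Helper131.Slab.L_trap_props
import Pool.Agent.Helper131.Slab.L_cubeAvg_trap
import Pool.Agent.Helper131.Slab.L_fourier_lower
import Pool.Agent.Helper131.Slab.L_tail_sum
import Pool.Agent.Helper131.Slab.L_fourier_value
import Pool.Agent.Helper131.Slab.L_sinc_low1
import Pool.Agent.Helper131.Slab.L_sinc_low3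
import Pool.Agent.Helper131.Slab.L_sinc_up4
import Pool.Agent.Helper131.Slab.L_abs_sinc_log
import Pool.Agent.Helper131.Slab.L_abs_sinc_14
import Pool.Agent.Helper131.Slab.L_prod_abs_le
import Pool.Agent.Helper131.Slab.L_sum4_le
import Pool.Agent.Helper131.Slab.L_gen0
import Pool.Agent.Helper131.Slab.L_gen1
import Pool.Agent.Helper131.Slab.L_gen2
import Pool.Agent.Helper131.Slab.L_gen_small
import Pool.Agent.Helper131.Slab.L_gen_log
import Pool.Agent.Helper131.Slab.L_gen_tail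
import Pool.Agent.Helper131.Slab.L_half_low
import Pool.Agent.Helper131.Slab.L_half_high
import Pool.Agent.Helper131.Slab.L_two_ge
import Pool.Agent.Helper131.Slab.L_two_ge_small
import Pool.Agent.Helper131.Slab.L_two_tangent
import Pool.Agent.Helper131.Slab.L_two_flat
import Pool.Agent.Helper131.Slab.L_G3
import Pool.Agent.Helper131.Slab.L_F3
import Pool.Agent.Helper131.Slab.L_region3
import Pool.Agent.Helper131.Slab.L_one_tangent
import Pool.Agent.Helper131.Slab.L_one_below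
import Pool.Agent.Helper131.Slab.L_one_above
import Pool.Agent.Helper131.Slab.L_ineq1a
import Pool.Agent.Helper131.Slab.L_ineq1b
import Pool.Agent.Helper131.Slab.L_ineq1c
import Pool.Agent.Helper131.Slab.L_region1
import Pool.Agent.Helper131.Slab.L_conc
import Pool.Agent.Helper131.Slab.L_conc_gg
import Pool.Agent.Helper131.Slab.L_vol_lower
import Pool.Agent.Helper131.Slab.L_V_f2
import Pool.Agent.Helper131.Slab.L_V_f1
import Pool.Agent.Helper131.Slab.L_numA0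
import Pool.Agent.Helper131.Slab.L_numB0
import Pool.Agent.Helper131.Slab.L_numA1
import Pool.Agent.Helper131.Slab.L_numB1
import Pool.Agent.Helper131.Slab.L_numA2
import Pool.Agent.Helper131.Slab.L_numB2
import Pool.Agent.Helper131.Slab.L_numA3
import Pool.Agent.Helper131.Slab.L_numB3
import Pool.Agent.Helper131.Slab.L_numA4
import Pool.Agent.Helper131.Slab.L_numB4
import Pool.Agent.Helper131.Slab.L_numW0
import Pool.Agent.Helper131.Slab.L_numH0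
import Pool.Agent.Helper131.Slab.L_numW1
import Pool.Agent.Helper131.Slab.L_numH1
import Pool.Agent.Helper131.Slab.L_numW2
import Pool.Agent.Helper131.Slab.L_numH2
import Pool.Agent.Helper131.Slab.L_numW3
import Pool.Agent.Helper131.Slab.L_numH3
import Pool.Agent.Helper131.Slab.L_numW4
import Pool.Agent.Helper131.Slab.L_numH4
import Pool.Agent.Helper131.Slab.L_numHc

set_option autoImplicit false

namespace Pool.Agent.Helper131.Slab

open MeasureTheory Set intervalIntegral Filter Topology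

theorem Low_mono {n : ℕ} {a : Fin n → ℝ} {f : ℝ → ℝ} {V V' : ℝ} (H : Low a f V) (h : V' ≤ V) :
    Low a f V' := by
  obtain ⟨C, hC, H⟩ := H
  refine ⟨C, hC, fun δ hδ => ?_⟩
  have h1 := H δ hδ
  have h2 : V' * δ ≤ V * δ := mul_le_mul_of_nonneg_right h hδ
  linarith

theorem nodes_conc {n : ℕ} (a : Fin n → ℝ) (t : ℝ) (h0 : 0.828 ≤ t) (h1 : t ≤ 1)
    (H0 : Low a (clamp 0.828) (gg 0.828 + 0.000648))
    (H1 : Low a (clamp 0.9) (gg 0.9 + 0.000648))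
    (H2 : Low a (clamp 0.95) (gg 0.95 + 0.0003125))
    (H3 : Low a (clamp 0.975) (gg 0.975 + 0.000078125))
    (H4 : Low a (clamp 1.0) (gg 1.0 + 0.000078125)) : Low a (clamp t) (gg t) := by
  rcases le_total t 0.9 with h | h
  · exact conc_gg a 0.828 0.9 t (by norm_num) (by norm_num) h0 h (Low_mono H0 (by norm_num))
      (Low_mono H1 (by norm_num))
  rcases le_total t 0.95 with h' | h'
  · exact conc_gg a 0.9 0.95 t (by norm_num) (by norm_num) h h' (Low_mono H1 (by norm_num))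
      (Low_mono H2 (by norm_num))
  rcases le_total t 0.975 with h'' | h''
  · exact conc_gg a 0.95 0.975 t (by norm_num) (by norm_num) h' h'' (Low_mono H2 (by norm_num))
      (Low_mono H3 (by norm_num))
  · exact conc_gg a 0.975 1.0 t (by norm_num) (by norm_num) h'' (by linarith)
      (Low_mono H3 (by norm_num)) (Low_mono H4 (by norm_num))

theorem nodes_of_bounds {n : ℕ} (a : Fin n → ℝ) (L0 L1 U2 U3 U4 B : ℝ) (hB : 0 ≤ B)
    (hL0 : 0 ≤ L0) (hL1 : 0 ≤ L1) (hU2 : 0 ≤ U2) (hU3 : 0 ≤ U3) (hU4 : 0 ≤ U4)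
    (h0 : L0 ≤ PP a 0) (h1 : L1 ≤ PP a 1) (h2 : PP a 2 ≤ U2) (h3 : |PP a 3| ≤ U3)
    (h4 : |PP a 4| ≤ U4)
    (h : ∀ k : ℕ, 5 ≤ k → |PP a k| ≤ B * (11 / (2 * (k : ℝ) + 1)) ^ 3)
    (k0 : 0.828177 + 0.000648 ≤ 0.97077 * L0 + 0.21833 * L1 - 0.23677 * U2 - 0.03857 * U3
      - 0.1413 * U4 - 0.285 * B)
    (k1 : 0.867793 + 0.000648 ≤ 1.03007 * L0 + 0.13115 * L1 - 0.25465 * U2 - 0.05621 * U3
      - 0.11446 * U4 - 0.285 * B)
    (k2 : 0.892253 + 0.0003125 ≤ 1.06782 * L0 + 0.06639 * L1 - 0.24598 * U2 - 0.11447 * U3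
      - 0.06423 * U4 - 0.285 * B)
    (k3 : 0.903546 + 0.000078125 ≤ 1.08561 * L0 + 0.03329 * L1 - 0.23527 * U2 - 0.13832 * U3
      - 0.03303 * U4 - 0.285 * B)
    (k4 : 0.914214 + 0.000078125 ≤ 1.10265 * L0 + 0.0 * L1 - 0.22054 * U2 - 0.15753 * U3
      - 0.00001 * U4 - 0.285 * B)
    (t : ℝ) (ht0 : 0.828 ≤ t) (ht1 : t ≤ 1) : Low a (clamp t) (gg t) := by
  have key : ∀ (t W0 W1 W2 W3 W4 G m : ℝ), 0.828 ≤ t → t ≤ 1 → W0 ≤ ww t 0 → W1 ≤ ww t 1 →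
      -W2 ≤ ww t 2 → |ww t 3| ≤ W3 → |ww t 4| ≤ W4 → gg t ≤ G →
      G + m ≤ W0 * L0 + W1 * L1 - W2 * U2 - W3 * U3 - W4 * U4 - 0.285 * B →
      Low a (clamp t) (gg t + m) := by
    intro t W0 W1 W2 W3 W4 G m ht0 ht1 w0 w1 w2 w3 w4 hG hk
    refine Low_mono (fourier_value a t L0 L1 U2 U3 U4 B ht0 ht1 hB h0 h1 h2 h3 h4 h) ?_
    have e0 := mul_le_mul_of_nonneg_right w0 hL0
    have e1 := mul_le_mul_of_nonneg_right w1 hL1
    have e2 := mul_le_mul_of_nonneg_right w2 hU2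
    have e3 := mul_le_mul_of_nonneg_right w3 hU3
    have e4 := mul_le_mul_of_nonneg_right w4 hU4
    linarith
  obtain ⟨a0, a1, a2, a3, a4, a5⟩ := numW0
  obtain ⟨b0, b1, b2, b3, b4, b5⟩ := numW1
  obtain ⟨c0, c1, c2, c3, c4, c5⟩ := numW2
  obtain ⟨d0, d1, d2, d3, d4, d5⟩ := numW3
  obtain ⟨e0, e1, e2, e3, e4, e5⟩ := numW4
  exact nodes_conc a t ht0 ht1
    (key 0.828 _ _ _ _ _ _ _ (by norm_num) (by norm_num) a0 a1 a2 a3 a4 a5 k0)
    (key 0.9 _ _ _ _ _ _ _ (by norm_num) (by norm_num) b0 b1 b2 b3 b4 b5 k1)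
    (key 0.95 _ _ _ _ _ _ _ (by norm_num) (by norm_num) c0 c1 c2 c3 c4 c5 k2)
    (key 0.975 _ _ _ _ _ _ _ (by norm_num) (by norm_num) d0 d1 d2 d3 d4 d5 k3)
    (key 1.0 _ _ _ _ _ _ _ (by norm_num) (by norm_num) e0 e1 e2 e3 e4 e5 k4)

theorem region2 {n : ℕ} (a : Fin n → ℝ) (hs : ∑ i, a i ^ 2 = 1) (hr : ∀ i, |a i| ≤ 1 / 2)
    (t : ℝ) (ht0 : 0.828 ≤ t) (ht1 : t ≤ 1) : Low a (clamp t) (gg t) := by
  obtain ⟨x0, x1, p0, p1, p2⟩ := half_low a hs hr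
  obtain ⟨p3, p4⟩ := half_high a hs hr
  obtain ⟨c3, c4, c5⟩ := numHc
  have key : ∀ (t m : ℝ), 0.828 ≤ t → t ≤ 1 →
      gg t + m ≤ ww t 0 * Real.exp (-(lam 0 ^ 2 / 6 + lam 0 ^ 4 / 170 * ∑ i, a i ^ 4))
        + ww t 1 * Real.exp (-(Real.pi ^ 2 / 6 + Real.pi ^ 4 / 145 * ∑ i, a i ^ 4))
        + ww t 2 * Real.exp (-(lam 2 ^ 2 / 6 + lam 2 ^ 4 / 180 * ∑ i, a i ^ 4))
        - |ww t 3| * 0.00055 - |ww t 4| * 0.00203 - 0.285 * 0.00091 →
      Low a (clamp t) (gg t + m) := by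
    intro t m ht0 ht1 hk
    exact Low_mono (fourier_value a t _ _ _ 0.00055 0.00203 0.00091 ht0 ht1 (by norm_num) p0 p1 p2
      (p3.trans c3) ((p4 4 le_rfl).trans c4)
      (fun k hk => (p4 k (by omega)).trans (c5 k hk))) hk
  exact nodes_conc a t ht0 ht1
    (key 0.828 _ (by norm_num) (by norm_num) (numH0 _ x0 x1))
    (key 0.9 _ (by norm_num) (by norm_num) (numH1 _ x0 x1))
    (key 0.95 _ (by norm_num) (by norm_num) (numH2 _ x0 x1))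
    (key 0.975 _ (by norm_num) (by norm_num) (numH3 _ x0 x1))
    (key 1.0 _ (by norm_num) (by norm_num) (numH4 _ x0 x1))

theorem region4_gen {n : ℕ} (a : Fin (n + 1) → ℝ) (p : Fin (n + 1)) (l u b : ℝ)
    (hl5 : 0.5 ≤ l) (hu : u ≤ 0.77) (hb : 0 < b) (hb2 : b ≤ 0.5) (hs : ∑ i, a i ^ 2 = 1)
    (h1 : l ≤ |a p|) (h2 : |a p| ≤ u) (hr : ∀ j, |a (p.succAbove j)| ≤ b)
    (h5 : Real.pi ≤ lam 5 * b) (he : 2 * b ^ 2 ≤ 1 - u ^ 2)
    (L0 L1 U2 U3 U4 B : ℝ) (hB : 0 ≤ B)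
    (hL0 : 0 ≤ L0) (hL1 : 0 ≤ L1) (hU2 : 0 ≤ U2) (hU3 : 0 ≤ U3) (hU4 : 0 ≤ U4)
    (A0 : L0 ≤ Real.exp (-(lam 0 ^ 2 / 6 + lam 0 ^ 4 / 170 * (u ^ 4 + b ^ 2 * (1 - u ^ 2)))))
    (A1 : L1 ≤ Real.sinc (Real.pi * u) *
      Real.exp (-((Real.pi ^ 2 / 6 + Real.pi ^ 4 * b ^ 2 / 145) * (1 - l ^ 2))))
    (A2 : max (Real.sinc (lam 2 * l)) 0 * Real.exp (-(lam 2 ^ 2 / 6 * (1 - u ^ 2))) ≤ U2)
    (A3 : |PP a 3| ≤ U3) (A4 : |PP a 4| ≤ U4)
    (A5 : 1 / (lam 5 * l) * Real.exp (-((1 - u ^ 2) / b ^ 2 * Real.log (lam 5 * b))) ≤ B)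
    (k0 : 0.828177 + 0.000648 ≤ 0.97077 * L0 + 0.21833 * L1 - 0.23677 * U2 - 0.03857 * U3
      - 0.1413 * U4 - 0.285 * B)
    (k1 : 0.867793 + 0.000648 ≤ 1.03007 * L0 + 0.13115 * L1 - 0.25465 * U2 - 0.05621 * U3
      - 0.11446 * U4 - 0.285 * B)
    (k2 : 0.892253 + 0.0003125 ≤ 1.06782 * L0 + 0.06639 * L1 - 0.24598 * U2 - 0.11447 * U3
      - 0.06423 * U4 - 0.285 * B)
    (k3 : 0.903546 + 0.000078125 ≤ 1.08561 * L0 + 0.03329 * L1 - 0.23527 * U2 - 0.13832 * U3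
      - 0.03303 * U4 - 0.285 * B)
    (k4 : 0.914214 + 0.000078125 ≤ 1.10265 * L0 + 0.0 * L1 - 0.22054 * U2 - 0.15753 * U3
      - 0.00001 * U4 - 0.285 * B)
    (t : ℝ) (ht0 : 0.828 ≤ t) (ht1 : t ≤ 1) : Low a (clamp t) (gg t) := by
  have hl : 0 < l := by linarith
  refine nodes_of_bounds a L0 L1 U2 U3 U4 B hB hL0 hL1 hU2 hU3 hU4
    (A0.trans (gen0 a p l u b hl hu hb hb2 hs h1 h2 hr hl5))
    (A1.trans (gen1 a p l u b hl hu hb hb2 hs h1 h2 hr))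
    ((gen2 a p l u b hl hu hb hb2 hs h1 h2 hr).trans A2) A3 A4 ?_ k0 k1 k2 k3 k4 t ht0 ht1
  intro k hk
  refine (gen_tail a p l u b hl hu hb hb2 hs h1 h2 hr h5 he k hk).trans ?_
  exact mul_le_mul_of_nonneg_right A5 (by positivity)

theorem lam_eq (k : ℕ) : lam k = (2 * (k : ℝ) + 1) * Real.pi / 3 := rfl

theorem region4 {n : ℕ} (a : Fin (n + 1) → ℝ) (p : Fin (n + 1)) (hs : ∑ i, a i ^ 2 = 1)
    (l u b : ℝ)
    (hc : (l = 0.5 ∧ u = 0.53 ∧ b = 0.5) ∨ (l = 0.53 ∧ u = 0.57 ∧ b = 0.47) ∨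
      (l = 0.57 ∧ u = 0.62 ∧ b = 0.43) ∨ (l = 0.62 ∧ u = 0.68 ∧ b = 0.38) ∨
      (l = 0.68 ∧ u = 0.77 ∧ b = 0.35))
    (h1 : l ≤ |a p|) (h2 : |a p| ≤ u) (hr : ∀ j, |a (p.succAbove j)| ≤ b)
    (t : ℝ) (ht0 : 0.828 ≤ t) (ht1 : t ≤ 1) : Low a (clamp t) (gg t) := by
  have hpi := Real.pi_gt_d6
  have hpi2 := Real.pi_lt_d6
  have l3 : lam 3 = 7 * Real.pi / 3 := by rw [lam_eq]; push_cast; ring
  have l4 : lam 4 = 3 * Real.pi := by rw [lam_eq]; push_cast; ring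
  have l5 : lam 5 = 11 * Real.pi / 3 := by rw [lam_eq]; push_cast; ring
  have s14 : ∀ (k : ℕ) (b : ℝ), lam k * b ≤ 3.67 →
      ∀ x, |x| ≤ lam k * b → |Real.sinc x| ≤ Real.exp (-(0.14 * x ^ 2)) := by
    intro k b h x hx
    exact abs_sinc_14 x (hx.trans h)
  have s6 : ∀ (k : ℕ) (b : ℝ), lam k * b ≤ Real.pi →
      ∀ x, |x| ≤ lam k * b → |Real.sinc x| ≤ Real.exp (-(1 / 6 * x ^ 2)) := by
    intro k b h x hx
    have h1 := sinc_nonneg_of_abs_le_pi x (hx.trans h)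
    have h2 := sinc_le_exp x (hx.trans h)
    rw [abs_of_nonneg h1]
    refine h2.trans (le_of_eq ?_)
    congr 1; ring
  rcases hc with ⟨rfl, rfl, rfl⟩ | ⟨rfl, rfl, rfl⟩ | ⟨rfl, rfl, rfl⟩ | ⟨rfl, rfl, rfl⟩ | ⟨rfl, rfl, rfl⟩
  · obtain ⟨A0, A1, A2⟩ := numA0
    obtain ⟨B3, B4, B5⟩ := numB0
    refine region4_gen a p 0.5 0.53 0.5 (by norm_num) (by norm_num) (by norm_num) (by norm_num) hs h1 h2 hr
      (by rw [l5]; linarith) (by norm_num) _ _ _ _ _ _ ?_ ?_ ?_ ?_ ?_ ?_ A0 A1 A2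
      ((gen_small a p 0.5 0.53 0.5 (by norm_num) (by norm_num) (by norm_num) (by norm_num) hs h1 h2 hr 3
        0.14 (by norm_num) (s14 3 0.5 (by rw [l3]; linarith))).trans B3)
      ((gen_log a p 0.5 0.53 0.5 (by norm_num) (by norm_num) (by norm_num) (by norm_num) hs h1 h2 hr 4
        (by rw [l4]; linarith)).trans B4) B5 ?_ ?_ ?_ ?_ ?_ t ht0 ht1
    all_goals norm_num
  · obtain ⟨A0, A1, A2⟩ := numA1
    obtain ⟨B3, B4, B5⟩ := numB1
    refine region4_gen a p 0.53 0.57 0.47 (by norm_num) (by norm_num) (by norm_num) (by norm_num) hs h1 h2 hr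
      (by rw [l5]; linarith) (by norm_num) _ _ _ _ _ _ ?_ ?_ ?_ ?_ ?_ ?_ A0 A1 A2
      ((gen_small a p 0.53 0.57 0.47 (by norm_num) (by norm_num) (by norm_num) (by norm_num) hs h1 h2 hr 3
        0.14 (by norm_num) (s14 3 0.47 (by rw [l3]; linarith))).trans B3)
      ((gen_log a p 0.53 0.57 0.47 (by norm_num) (by norm_num) (by norm_num) (by norm_num) hs h1 h2 hr 4
        (by rw [l4]; linarith)).trans B4) B5 ?_ ?_ ?_ ?_ ?_ t ht0 ht1
    all_goals norm_num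
  · obtain ⟨A0, A1, A2⟩ := numA2
    obtain ⟨B3, B4, B5⟩ := numB2
    refine region4_gen a p 0.57 0.62 0.43 (by norm_num) (by norm_num) (by norm_num) (by norm_num) hs h1 h2 hr
      (by rw [l5]; linarith) (by norm_num) _ _ _ _ _ _ ?_ ?_ ?_ ?_ ?_ ?_ A0 A1 A2
      ((gen_small a p 0.57 0.62 0.43 (by norm_num) (by norm_num) (by norm_num) (by norm_num) hs h1 h2 hr 3
        0.14 (by norm_num) (s14 3 0.43 (by rw [l3]; linarith))).trans B3)
      ((gen_log a p 0.57 0.62 0.43 (by norm_num) (by norm_num) (by norm_num) (by norm_num) hs h1 h2 hr 4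
        (by rw [l4]; linarith)).trans B4) B5 ?_ ?_ ?_ ?_ ?_ t ht0 ht1
    all_goals norm_num
  · obtain ⟨A0, A1, A2⟩ := numA3
    obtain ⟨B3, B4, B5⟩ := numB3
    refine region4_gen a p 0.62 0.68 0.38 (by norm_num) (by norm_num) (by norm_num) (by norm_num) hs h1 h2 hr
      (by rw [l5]; linarith) (by norm_num) _ _ _ _ _ _ ?_ ?_ ?_ ?_ ?_ ?_ A0 A1 A2
      ((gen_small a p 0.62 0.68 0.38 (by norm_num) (by norm_num) (by norm_num) (by norm_num) hs h1 h2 hr 3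
        (1 / 6) (by norm_num) (s6 3 0.38 (by rw [l3]; linarith))).trans B3)
      ((gen_small a p 0.62 0.68 0.38 (by norm_num) (by norm_num) (by norm_num) (by norm_num) hs h1 h2 hr 4
        0.14 (by norm_num) (s14 4 0.38 (by rw [l4]; linarith))).trans B4) B5 ?_ ?_ ?_ ?_ ?_ t ht0 ht1
    all_goals norm_num
  · obtain ⟨A0, A1, A2⟩ := numA4
    obtain ⟨B3, B4, B5⟩ := numB4
    refine region4_gen a p 0.68 0.77 0.35 (by norm_num) (by norm_num) (by norm_num) (by norm_num) hs h1 h2 hr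
      (by rw [l5]; linarith) (by norm_num) _ _ _ _ _ _ ?_ ?_ ?_ ?_ ?_ ?_ A0 A1 A2
      ((gen_small a p 0.68 0.77 0.35 (by norm_num) (by norm_num) (by norm_num) (by norm_num) hs h1 h2 hr 3
        (1 / 6) (by norm_num) (s6 3 0.35 (by rw [l3]; linarith))).trans B3)
      ((gen_small a p 0.68 0.77 0.35 (by norm_num) (by norm_num) (by norm_num) (by norm_num) hs h1 h2 hr 4
        0.14 (by norm_num) (s14 4 0.35 (by rw [l4]; linarith))).trans B4) B5 ?_ ?_ ?_ ?_ ?_ t ht0 ht1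
    all_goals norm_num

theorem Low_succ {n : ℕ} (a : Fin (n + 1) → ℝ) (p : Fin (n + 1)) {f : ℝ → ℝ} (hf : Continuous f)
    {V : ℝ} (H : Low (fun j => a (p.succAbove j)) (Aop |a p| f) V) : Low a f V := by
  obtain ⟨C, hC, H⟩ := H
  refine ⟨C, hC, fun δ hδ => ?_⟩
  rw [cubeAvg_succ p a hf, ← Aop_abs]
  exact H δ hδ

theorem sum_succAbove {n : ℕ} (a : Fin (n + 1) → ℝ) (p : Fin (n + 1)) (f : ℝ → ℝ) :
    ∑ i, f (a i) = f (a p) + ∑ j, f (a (p.succAbove j)) := Fin.sum_univ_succAbove (fun i => f (a i)) p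

theorem region34 {n : ℕ} (a : Fin (n + 1) → ℝ) (p : Fin (n + 1)) (hs : ∑ i, a i ^ 2 = 1)
    (l u b : ℝ)
    (hc : (l = 0.5 ∧ u = 0.53 ∧ b = 0.5) ∨ (l = 0.53 ∧ u = 0.57 ∧ b = 0.47) ∨
      (l = 0.57 ∧ u = 0.62 ∧ b = 0.43) ∨ (l = 0.62 ∧ u = 0.68 ∧ b = 0.38) ∨
      (l = 0.68 ∧ u = 0.77 ∧ b = 0.35))
    (h1 : l ≤ |a p|) (h2 : |a p| ≤ u) (hmax : ∀ i, |a i| ≤ |a p|)
    (t : ℝ) (ht0 : 0.828 ≤ t) (ht1 : t ≤ 1) : Low a (clamp t) (gg t) := by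
  by_cases hr : ∀ j, |a (p.succAbove j)| ≤ b
  · exact region4 a p hs l u b hc h1 h2 hr t ht0 ht1
  push Not at hr
  obtain ⟨q, hq⟩ := hr
  have hn : ∃ m, n = m + 1 := by
    rcases n with _ | m
    · exact q.elim0
    · exact ⟨m, rfl⟩
  obtain ⟨m, rfl⟩ := hn
  have hb : 0.35 ≤ b ∧ 1 ≤ l + b ∧ 0.5 ≤ l ∧ u ≤ 0.77 := by
    rcases hc with ⟨rfl, rfl, rfl⟩ | ⟨rfl, rfl, rfl⟩ | ⟨rfl, rfl, rfl⟩ | ⟨rfl, rfl, rfl⟩ | ⟨rfl, rfl, rfl⟩ <;>
      norm_num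
  obtain ⟨hb1, hb2, hb3, hb4⟩ := hb
  apply Low_succ a p (clamp_continuous t)
  apply Low_succ (fun j => a (p.succAbove j)) q (Aop_continuous _ (clamp_continuous t))
  refine region3 _ |a p| |a (p.succAbove q)| t (by linarith) (by linarith) (by linarith) (hmax _)
    (by linarith) ht0 ht1 ?_
  have e1 := sum_succAbove a p (fun x => x ^ 2)
  have e2 := sum_succAbove (fun j => a (p.succAbove j)) q (fun x => x ^ 2)
  rw [sq_abs, sq_abs]
  linarith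

theorem main_low {n : ℕ} (a : Fin (n + 1) → ℝ) (hs : ∑ i, a i ^ 2 = 1)
    (t : ℝ) (ht0 : 2 * Real.sqrt 2 - 2 ≤ t) (ht1 : t ≤ 1) : Low a (clamp t) (gg t) := by
  obtain ⟨p, -, hp⟩ := Finset.exists_max_image (Finset.univ : Finset (Fin (n + 1))) (fun i => |a i|)
    ⟨0, Finset.mem_univ _⟩
  have hmax : ∀ i, |a i| ≤ |a p| := fun i => hp i (Finset.mem_univ i)
  have e1 := sum_succAbove a p (fun x => x ^ 2)
  have hsq : a p ^ 2 ≤ 1 := by
    have : 0 ≤ ∑ j, a (p.succAbove j) ^ 2 := Finset.sum_nonneg (fun j _ => sq_nonneg _)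
    linarith
  have hle : |a p| ≤ 1 := by
    rw [← Real.sqrt_one, ← Real.sqrt_sq_eq_abs]
    exact Real.sqrt_le_sqrt hsq
  have hsqrt : (1.414 : ℝ) ≤ Real.sqrt 2 := by
    apply Real.le_sqrt_of_sq_le; norm_num
  have ht : 0.828 ≤ t := by linarith
  rcases le_total 0.77 |a p| with h | h
  · apply Low_succ a p (clamp_continuous t)
    refine region1 _ |a p| t h hle ht0 ht1 ?_
    rw [sq_abs]; linarith
  rcases le_total |a p| 0.5 with h5 | h5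
  · exact region2 a hs (fun i => (hmax i).trans (by linarith)) t ht ht1
  rcases le_total |a p| 0.53 with h6 | h6
  · exact region34 a p hs 0.5 0.53 0.5 (by simp) h5 h6 hmax t ht ht1
  rcases le_total |a p| 0.57 with h7 | h7
  · exact region34 a p hs 0.53 0.57 0.47 (Or.inr (Or.inl ⟨rfl, rfl, rfl⟩)) h6 h7 hmax t ht ht1
  rcases le_total |a p| 0.62 with h8 | h8
  · exact region34 a p hs 0.57 0.62 0.43 (Or.inr (Or.inr (Or.inl ⟨rfl, rfl, rfl⟩))) h7 h8 hmax t ht ht1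
  rcases le_total |a p| 0.68 with h9 | h9
  · exact region34 a p hs 0.62 0.68 0.38 (Or.inr (Or.inr (Or.inr (Or.inl ⟨rfl, rfl, rfl⟩)))) h8 h9 hmax t ht ht1
  · exact region34 a p hs 0.68 0.77 0.35 (Or.inr (Or.inr (Or.inr (Or.inr ⟨rfl, rfl, rfl⟩)))) h9 h hmax t ht ht1


end Pool.Agent.Helper131.Slab
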